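import Pool.Agent.Lib.MP_8501c9_pr.Defs

/-!
# The critical probability and two elementary estimates
-/

set_option autoImplicit false
open Set

namespace Pool.Agent.Lib.MP_8501c9_pr

/-! ### the critical probability -/

theorem Pr_one_true_of_univ {V : Type*} [Fintype V] (E : Finset V → Prop)
    (h : E Finset.univ) : Pr 1 E = 1 := by
  classical
  unfold Pr
  rw [Finset.sum_eq_single_of_mem Finset.univ]
  · simp
  · simpa using h
  · intro A _ hA
    have h1 : A.card < Fintype.card V := by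
      rw [Finset.card_lt_iff_ne_univ]
      exact hA
    have h2 : Fintype.card V - A.card ≠ 0 := by omega
    simp [h2]

theorem percolates_univ (n d : ℕ) : Percolates 2 (univ : Set (Vtx n d)) := by
  refine eq_univ_iff_forall.2 fun x => mem_iUnion.2 ⟨0, ?_⟩
  simp

theorem percProb_one (n d : ℕ) : percProb n d 2 1 = 1 := by
  unfold percProb
  apply Pr_one_true_of_univ
  have h : ((Finset.univ : Finset (Vtx n d)) : Set (Vtx n d)) = univ := Finset.coe_univ
  rw [h]
  exact percolates_univ n d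

theorem pc_bddBelow (n d : ℕ) :
    BddBelow {p : ℝ | 0 ≤ p ∧ p ≤ 1 ∧ 1 / 2 ≤ percProb n d 2 p} := ⟨0, fun _ h => h.1⟩

theorem pc_le_of (n d : ℕ) (p : ℝ) (hp0 : 0 ≤ p) (hp1 : p ≤ 1) (h : 1 / 2 ≤ percProb n d 2 p) :
    pc n d 2 ≤ p := csInf_le (pc_bddBelow n d) ⟨hp0, hp1, h⟩

theorem pc_le_one (n d : ℕ) : pc n d 2 ≤ 1 :=
  pc_le_of n d 1 zero_le_one le_rfl (by rw [percProb_one]; norm_num)

theorem le_pc_of (n d : ℕ) (p₀ : ℝ) (h : ∀ p, 0 ≤ p → p ≤ p₀ → percProb n d 2 p < 1 / 2) :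
    p₀ ≤ pc n d 2 := by
  refine le_csInf ⟨1, zero_le_one, le_rfl, by rw [percProb_one]; norm_num⟩ ?_
  rintro p ⟨hp0, _, hp⟩
  by_contra hcon
  push Not at hcon
  linarith [h p hp0 hcon.le]

theorem log_four_mul_le {d : ℕ} (hd : 2 ≤ d) : Real.log (4 * d) ≤ 3 * Real.log d := by
  have hd' : (2 : ℝ) ≤ d := by exact_mod_cast hd
  rw [← Real.log_rpow (by linarith)]
  refine Real.log_le_log (by positivity) ?_
  norm_num
  nlinarith [mul_nonneg (by linarith : (0:ℝ) ≤ d - 2) (by linarith : (0:ℝ) ≤ d + 2)]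

/-- logarithms are eventually smaller than linear functions -/
theorem exists_log_le (A B c : ℝ) (hc : 0 < c) :
    ∃ D : ℝ, ∀ x : ℝ, D ≤ x → A * Real.log (4 * x) + B ≤ c * x := by
  have h1 : (fun x : ℝ => A * Real.log (4 * x) + B) =o[Filter.atTop] (fun x : ℝ => x) := by
    have h2 : (fun x : ℝ => Real.log (4 * x)) =o[Filter.atTop] (fun x : ℝ => x) := by
      have h3 := Real.isLittleO_log_id_atTop.comp_tendsto
        (Filter.tendsto_id.const_mul_atTop (by norm_num : (0:ℝ) < 4))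
      have h4 : (fun x : ℝ => (4:ℝ) * x) =O[Filter.atTop] (fun x : ℝ => x) :=
        (Asymptotics.isBigO_refl _ _).const_mul_left _
      exact h3.trans_isBigO h4
    exact (h2.const_mul_left A).add (Asymptotics.isLittleO_const_id_atTop B)
  have h5 := h1.bound hc
  obtain ⟨D, hD⟩ := Filter.eventually_atTop.1 (h5.and (Filter.eventually_ge_atTop 0))
  refine ⟨D, fun x hx => ?_⟩
  have h6 := (hD x hx).1
  have h7 := (hD x hx).2
  rw [Real.norm_eq_abs, Real.norm_eq_abs, abs_of_nonneg h7] at h6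
  exact (le_abs_self _).trans h6

end Pool.Agent.Lib.MP_8501c9_pr
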