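import Pool.Agent.Lib.MP_8501c9_pr.Defs

/-!
# The two-neighbour closure on the grid: basic properties and growth of boxes
-/

set_option autoImplicit false
open Set

namespace Pool.Agent.Lib.MP_8501c9_pr

variable {n d : ℕ}

theorem step_subset_step (r : ℕ) {A B : Set (Vtx n d)} (h : A ⊆ B) : step r A ⊆ step r B := by
  intro v hv
  rcases hv with hv | hv
  · exact Or.inl (h hv)
  · right
    show r ≤ _
    refine le_trans hv (Set.ncard_le_ncard ?_ (Set.toFinite _))
    rintro u ⟨hu, hvu⟩
    exact ⟨h hu, hvu⟩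

theorem subset_bclosure (r : ℕ) (A : Set (Vtx n d)) : A ⊆ bclosure r A := by
  intro v hv
  exact Set.mem_iUnion.2 ⟨0, hv⟩

theorem bclosure_mono (r : ℕ) {A B : Set (Vtx n d)} (h : A ⊆ B) : bclosure r A ⊆ bclosure r B := by
  have key : ∀ t : ℕ, (step r)^[t] A ⊆ (step r)^[t] B := by
    intro t
    induction t with
    | zero => exact h
    | succ t ih =>
      rw [Function.iterate_succ_apply', Function.iterate_succ_apply']
      exact step_subset_step r ih
  exact Set.iUnion_mono key

theorem iterate_subset_iterate (r : ℕ) (A : Set (Vtx n d)) {s t : ℕ} (h : s ≤ t) :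
    (step r)^[s] A ⊆ (step r)^[t] A := by
  induction h with
  | refl => exact subset_rfl
  | step _ ih =>
    rw [Function.iterate_succ_apply']
    exact ih.trans subset_union_left

theorem closed_bclosure (A : Set (Vtx n d)) : Closed (bclosure 2 A) := by
  intro v x y hx hy hxy hvx hvy
  obtain ⟨s, hs⟩ := Set.mem_iUnion.1 hx
  obtain ⟨t, ht⟩ := Set.mem_iUnion.1 hy
  refine Set.mem_iUnion.2 ⟨max s t + 1, ?_⟩
  rw [Function.iterate_succ_apply']
  right
  show 2 ≤ _
  have h1 : ({x, y} : Set (Vtx n d)) ⊆ {u | u ∈ (step 2)^[max s t] A ∧ Adj v u} := by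
    intro u hu
    rcases hu with rfl | rfl
    · exact ⟨iterate_subset_iterate 2 A (le_max_left s t) hs, hvx⟩
    · exact ⟨iterate_subset_iterate 2 A (le_max_right s t) ht, hvy⟩
  have h2 := Set.ncard_le_ncard h1 (Set.toFinite _)
  rw [Set.ncard_pair hxy] at h2
  exact h2

theorem bclosure_subset {A U : Set (Vtx n d)} (hA : A ⊆ U) (hU : Closed U) :
    bclosure 2 A ⊆ U := by
  refine Set.iUnion_subset fun t => ?_
  induction t with
  | zero => exact hA
  | succ t ih =>
    rw [Function.iterate_succ_apply']
    intro v hv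
    rcases hv with hv | hv
    · exact ih hv
    · have hv' : 1 < {u | u ∈ (step 2)^[t] A ∧ Adj v u}.ncard := hv
      obtain ⟨x, hx, y, hy, hxy⟩ := (Set.one_lt_ncard (Set.toFinite _)).1 hv'
      exact hU v x y (ih hx.1) (ih hy.1) hxy hx.2 hy.2

theorem adj_update (y : Vtx n d) (j : Fin d) (v : ℕ) (hv : v < n)
    (h : v + 1 = y j ∨ (y j : ℕ) + 1 = v) : Adj y (Function.update y j ⟨v, hv⟩) := by
  refine ⟨j, fun l hl => by rw [Function.update_of_ne hl], ?_⟩
  rw [Function.update_self]
  rcases h with h | h
  · exact Or.inr h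
  · exact Or.inl h

/-- a layer in which every point has a neighbour outside the layer in a closed set `U` is filled
from any of its points -/
theorem layer_fill {U : Set (Vtx n d)} (hU : Closed U) (i : Fin d) (c : ℕ) (lo hi : Fin d → ℕ)
    {x : Vtx n d} (hx : x ∈ U) (hxi : (x i : ℕ) = c)
    (hxj : ∀ j, j ≠ i → lo j ≤ (x j : ℕ) ∧ (x j : ℕ) < hi j)
    (hback : ∀ y : Vtx n d, (y i : ℕ) = c → (∀ j, j ≠ i → lo j ≤ (y j : ℕ) ∧ (y j : ℕ) < hi j) →
      ∃ z ∈ U, Adj y z ∧ z i ≠ y i) :
    ∀ y : Vtx n d, (y i : ℕ) = c → (∀ j, j ≠ i → lo j ≤ (y j : ℕ) ∧ (y j : ℕ) < hi j) → y ∈ U := by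
  intro y
  induction hD : (∑ j, (((y j : ℕ) - x j) + ((x j : ℕ) - y j))) using Nat.strong_induction_on
    generalizing y with
  | _ D ih =>
  intro hyi hyj
  by_cases hyx : y = x
  · rw [hyx]; exact hx
  obtain ⟨j, hj⟩ : ∃ j, y j ≠ x j := by
    by_contra hcon
    push Not at hcon
    exact hyx (funext hcon)
  have hji : j ≠ i := by
    rintro rfl
    apply hj
    ext
    rw [hyi, hxi]
  have hj' : (y j : ℕ) ≠ x j := fun h => hj (Fin.ext h)
  obtain ⟨z, hz, hyz, hzi⟩ := hback y hyi hyj
  obtain ⟨v, hv, hvy, hvlt, hvb⟩ : ∃ v : ℕ, v < n ∧ (v + 1 = y j ∨ (y j : ℕ) + 1 = v) ∧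
      (v - x j) + (x j - v) < ((y j : ℕ) - x j) + ((x j : ℕ) - y j) ∧ (lo j ≤ v ∧ v < hi j) := by
    have h1 := (y j).2
    have h2 := (x j).2
    have h3 := hyj j hji
    have h4 := hxj j hji
    rcases lt_or_gt_of_ne hj' with h | h
    · exact ⟨y j + 1, by omega, Or.inr rfl, by omega, by omega⟩
    · exact ⟨y j - 1, by omega, Or.inl (by omega), by omega, by omega⟩
  have hw : Function.update y j ⟨v, hv⟩ ∈ U := by
    refine ih _ ?_ (Function.update y j ⟨v, hv⟩) rfl ?_ ?_
    · rw [← hD]
      apply Finset.sum_lt_sum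
      · intro l _
        by_cases hl : l = j
        · subst hl
          rw [Function.update_self]
          exact hvlt.le
        · rw [Function.update_of_ne hl]
      · refine ⟨j, Finset.mem_univ j, ?_⟩
        rw [Function.update_self]
        exact hvlt
    · rw [Function.update_of_ne hji.symm]
      exact hyi
    · intro l hl
      by_cases hlj : l = j
      · subst hlj
        rw [Function.update_self]
        exact hvb
      · rw [Function.update_of_ne hlj]
        exact hyj l hl
  refine hU y z _ hz hw ?_ hyz (adj_update y j v hv hvy)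
  intro hzw
  apply hzi
  rw [hzw, Function.update_of_ne hji.symm]

theorem grow_up {U : Set (Vtx n d)} (hU : Closed U) {o a : Fin d → ℕ} (h : nbox o a ⊆ U)
    (i : Fin d) (hai : 1 ≤ a i) {x : Vtx n d} (hx : x ∈ U) (hxi : (x i : ℕ) = o i + a i)
    (hxj : ∀ j, j ≠ i → o j ≤ (x j : ℕ) ∧ (x j : ℕ) < o j + a j) :
    nbox o (a + Pi.single i 1) ⊆ U := by
  intro y hy
  have hyi := hy i
  have hyj : ∀ j, j ≠ i → o j ≤ (y j : ℕ) ∧ (y j : ℕ) < o j + a j := by
    intro j hj
    have := hy j
    simpa [hj] using this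
  simp only [Pi.add_apply, Pi.single_eq_same] at hyi
  by_cases hlt : (y i : ℕ) < o i + a i
  · apply h
    intro j
    by_cases hj : j = i
    · subst hj; exact ⟨hyi.1, hlt⟩
    · exact hyj j hj
  · refine layer_fill hU i (o i + a i) o (fun j => o j + a j) hx hxi hxj ?_ y (by omega) hyj
    intro y hyi hyj
    have hlt := (y i).2
    refine ⟨Function.update y i ⟨y i - 1, by omega⟩, ?_, adj_update y i _ _ (Or.inl (by omega)), ?_⟩
    · apply h
      intro j
      by_cases hj : j = i
      · subst hj
        rw [Function.update_self]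
        show _ ≤ (y j : ℕ) - 1 ∧ (y j : ℕ) - 1 < _
        omega
      · rw [Function.update_of_ne hj]
        exact hyj j hj
    · rw [Function.update_self]
      intro he
      have := congrArg Fin.val he
      simp only at this
      omega

theorem grow_down {U : Set (Vtx n d)} (hU : Closed U) {o a : Fin d → ℕ} (h : nbox o a ⊆ U)
    (i : Fin d) (hai : 1 ≤ a i) (hin : o i < n) {x : Vtx n d} (hx : x ∈ U)
    (hxi : (x i : ℕ) + 1 = o i)
    (hxj : ∀ j, j ≠ i → o j ≤ (x j : ℕ) ∧ (x j : ℕ) < o j + a j) :
    nbox (o - Pi.single i 1) (a + Pi.single i 1) ⊆ U := by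
  intro y hy
  have hyi := hy i
  have hyj : ∀ j, j ≠ i → o j ≤ (y j : ℕ) ∧ (y j : ℕ) < o j + a j := by
    intro j hj
    have := hy j
    simpa [hj] using this
  simp only [Pi.add_apply, Pi.sub_apply, Pi.single_eq_same] at hyi
  by_cases hlt : o i ≤ (y i : ℕ)
  · apply h
    intro j
    by_cases hj : j = i
    · subst hj; exact ⟨hlt, by omega⟩
    · exact hyj j hj
  · refine layer_fill hU i (o i - 1) o (fun j => o j + a j) hx (by omega) hxj ?_ y (by omega) hyj
    intro y hyi hyj
    refine ⟨Function.update y i ⟨y i + 1, by omega⟩, ?_, adj_update y i _ _ (Or.inr rfl), ?_⟩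
    · apply h
      intro j
      by_cases hj : j = i
      · subst hj
        rw [Function.update_self]
        show _ ≤ (y j : ℕ) + 1 ∧ (y j : ℕ) + 1 < _
        omega
      · rw [Function.update_of_ne hj]
        exact hyj j hj
    · rw [Function.update_self]
      intro he
      have := congrArg Fin.val he
      simp only at this
      omega

theorem grow_corner {U : Set (Vtx n d)} (hU : Closed U) {o a : Fin d → ℕ} (h : nbox o a ⊆ U)
    (i j : Fin d) (hij : i ≠ j) (hai : 1 ≤ a i) (haj : 1 ≤ a j) {x : Vtx n d} (hx : x ∈ U)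
    (hxi : (x i : ℕ) = o i + a i) (hxj : (x j : ℕ) = o j + a j)
    (hxl : ∀ l, l ≠ i → l ≠ j → o l ≤ (x l : ℕ) ∧ (x l : ℕ) < o l + a l) :
    nbox o (a + Pi.single i 1 + Pi.single j 1) ⊆ U := by
  have hi2 := (x i).2
  have hj2 := (x j).2
  -- the point `x - e_i`
  set y : Vtx n d := Function.update x i ⟨x i - 1, by omega⟩ with hy
  have hyi : (y i : ℕ) = x i - 1 := by rw [hy, Function.update_self]
  have hyl : ∀ l, l ≠ i → y l = x l := fun l hl => by rw [hy, Function.update_of_ne hl]
  have hyj : y j = x j := hyl j hij.symm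
  set z : Vtx n d := Function.update y j ⟨y j - 1, by have := (y j).2; omega⟩ with hz
  have hzj : (z j : ℕ) = x j - 1 := by rw [hz, Function.update_self, ← hyj]
  have hzl : ∀ l, l ≠ j → z l = y l := fun l hl => by rw [hz, Function.update_of_ne hl]
  have hzi : (z i : ℕ) = x i - 1 := by rw [hzl i hij, hyi]
  have hzU : z ∈ U := by
    apply h
    intro l
    by_cases hli : l = i
    · subst hli; rw [hzi]; omega
    · by_cases hlj : l = j
      · subst hlj; rw [hzj]; omega
      · rw [hzl l hlj, hyl l hli]
        exact hxl l hli hlj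
  have hyU : y ∈ U := by
    refine hU y x z hx hzU ?_ ?_ ?_
    · intro e
      have := congrArg (fun w : Vtx n d => (w j : ℕ)) e
      simp only [hzj] at this
      omega
    · refine ⟨i, fun l hl => hyl l hl, Or.inl ?_⟩
      rw [hyi]; omega
    · refine ⟨j, fun l hl => (hzl l hl).symm, Or.inr ?_⟩
      rw [hzj, hyj]; omega
  have h1 : nbox o (a + Pi.single j 1) ⊆ U := by
    refine grow_up hU h j haj hyU (by rw [hyj, hxj]) ?_
    intro l hl
    by_cases hli : l = i
    · subst hli; rw [hyi]; omega
    · rw [hyl l hli]; exact hxl l hli hl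
  have h2 : nbox o (a + Pi.single j 1 + Pi.single i 1) ⊆ U := by
    refine grow_up hU h1 i (by simp; omega) hx (by simp [hij, hxi]) ?_
    intro l hl
    by_cases hlj : l = j
    · subst hlj; simp; omega
    · simpa [hlj] using hxl l hl hlj
  rw [add_right_comm]
  exact h2

theorem grow_straight {U : Set (Vtx n d)} (hU : Closed U) {o a : Fin d → ℕ} (h : nbox o a ⊆ U)
    (i : Fin d) (hai : 1 ≤ a i) {x : Vtx n d} (hx : x ∈ U) (hxi : (x i : ℕ) = o i + a i + 1)
    (hxj : ∀ j, j ≠ i → o j ≤ (x j : ℕ) ∧ (x j : ℕ) < o j + a j) :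
    nbox o (a + Pi.single i 2) ⊆ U := by
  have hi2 := (x i).2
  set y : Vtx n d := Function.update x i ⟨x i - 1, by omega⟩ with hy
  have hyi : (y i : ℕ) = x i - 1 := by rw [hy, Function.update_self]
  have hyl : ∀ l, l ≠ i → y l = x l := fun l hl => by rw [hy, Function.update_of_ne hl]
  set z : Vtx n d := Function.update x i ⟨x i - 2, by omega⟩ with hz
  have hzi : (z i : ℕ) = x i - 2 := by rw [hz, Function.update_self]
  have hzl : ∀ l, l ≠ i → z l = x l := fun l hl => by rw [hz, Function.update_of_ne hl]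
  have hzU : z ∈ U := by
    apply h
    intro l
    by_cases hli : l = i
    · subst hli; rw [hzi]; omega
    · rw [hzl l hli]; exact hxj l hli
  have hyU : y ∈ U := by
    refine hU y x z hx hzU ?_ ?_ ?_
    · intro e
      have := congrArg (fun w : Vtx n d => (w i : ℕ)) e
      simp only [hzi] at this
      omega
    · refine ⟨i, fun l hl => hyl l hl, Or.inl ?_⟩
      rw [hyi]; omega
    · refine ⟨i, fun l hl => by rw [hyl l hl, hzl l hl], Or.inr ?_⟩
      rw [hyi, hzi]; omega
  have h1 : nbox o (a + Pi.single i 1) ⊆ U := by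
    refine grow_up hU h i hai hyU (by rw [hyi, hxi]; omega) ?_
    intro l hl
    rw [hyl l hl]; exact hxj l hl
  have h2 : nbox o (a + Pi.single i 1 + Pi.single i 1) ⊆ U := by
    refine grow_up hU h1 i (by simp) hx (by simp [hxi]; omega) ?_
    intro l hl
    simpa [hl] using hxj l hl
  rw [add_assoc, ← Pi.single_add] at h2
  exact h2

/-- a full cube percolates if every layer of the same size meets `A` -/
theorem percolates_of_cube {A : Set (Vtx n d)} {S : ℕ} (hS : 1 ≤ S) {o : Fin d → ℕ}
    (ho : ∀ i, o i + S ≤ n) (hc : nbox o (fun _ => S) ⊆ bclosure 2 A)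
    (hlayer : ∀ (i : Fin d) (c : ℕ), c < n → ∀ o' : Fin d → ℕ, (∀ j, o' j + S ≤ n) →
      ∃ x ∈ A, (x i : ℕ) = c ∧ ∀ j, j ≠ i → o' j ≤ (x j : ℕ) ∧ (x j : ℕ) < o' j + S) :
    Percolates 2 A := by
  have key : ∀ (D : ℕ) (o a : Fin d → ℕ), ∑ i, (n - a i) = D → (∀ i, S ≤ a i) →
      (∀ i, o i + a i ≤ n) → nbox o a ⊆ bclosure 2 A → Percolates 2 A := by
    intro D
    induction D using Nat.strong_induction_on with
    | _ D ih =>
    intro o a hD hSa hoa hb
    by_cases hall : ∀ i, a i = n
    · apply Set.eq_univ_of_univ_subset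
      intro y _
      apply hb
      intro i
      have h1 := hoa i
      have h2 := hall i
      have h3 := (y i).2
      omega
    · push Not at hall
      obtain ⟨i, hi⟩ := hall
      have h1 := hoa i
      have h2 := hSa i
      have hsum : ∑ j, (n - (a + Pi.single i 1 : Fin d → ℕ) j) < D := by
        rw [← hD]
        apply Finset.sum_lt_sum
        · intro j _
          simp only [Pi.add_apply]
          omega
        · refine ⟨i, Finset.mem_univ i, ?_⟩
          simp only [Pi.add_apply, Pi.single_eq_same]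
          omega
      have hSa' : ∀ j, S ≤ (a + Pi.single i 1 : Fin d → ℕ) j := by
        intro j
        have := hSa j
        simp only [Pi.add_apply]
        omega
      by_cases hup : o i + a i < n
      · obtain ⟨x, hxA, hxi, hxj⟩ := hlayer i (o i + a i) hup o (fun j => by
          have := hoa j; have := hSa j; omega)
        refine ih _ hsum o (a + Pi.single i 1) rfl hSa' ?_ ?_
        · intro j
          by_cases hj : j = i
          · subst hj; simp only [Pi.add_apply, Pi.single_eq_same]; omega
          · simpa [hj] using hoa j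
        · refine grow_up (closed_bclosure A) hb i (by omega) (subset_bclosure 2 A hxA) hxi ?_
          intro j hj
          have := hxj j hj
          have := hSa j
          omega
      · obtain ⟨x, hxA, hxi, hxj⟩ := hlayer i (o i - 1) (by omega) o (fun j => by
          have := hoa j; have := hSa j; omega)
        refine ih _ hsum (o - Pi.single i 1) (a + Pi.single i 1) rfl hSa' ?_ ?_
        · intro j
          by_cases hj : j = i
          · subst hj; simp only [Pi.add_apply, Pi.sub_apply, Pi.single_eq_same]; omega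
          · simpa [hj] using hoa j
        · refine grow_down (closed_bclosure A) hb i (by omega) (by omega)
            (subset_bclosure 2 A hxA) (by omega) ?_
          intro j hj
          have := hxj j hj
          have := hSa j
          omega
  exact key _ o (fun _ => S) rfl (fun _ => le_rfl) ho hc

end Pool.Agent.Lib.MP_8501c9_pr
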