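import Pool.Agent.Lib.MP_8501c9_pr.Prob
import Pool.Agent.Lib.MP_8501c9_pr.Closure

set_option autoImplicit false
open Set

namespace Pool.Agent.Lib.MP_8501c9_pr

/-- the probability that a set with `D` elements is met -/
theorem chain_pow {p M : ℝ} (hp0 : 0 < p) (hp1 : p ≤ 1) (hM : 0 < M) (D : ℕ) (hD : M ≤ D) :
    (1 + (p * M)⁻¹)⁻¹ ≤ 1 - (1 - p) ^ D := by
  have h1 : (1 + p * D) * (1 - p) ^ D ≤ 1 := by
    have h2 : 1 + p * D ≤ (1 + p) ^ D := by
      have := one_add_mul_le_pow (a := p) (by linarith) D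
      linarith
    have h3 : (1 + p) ^ D * (1 - p) ^ D ≤ 1 := by
      rw [← mul_pow]
      exact pow_le_one₀ (mul_nonneg (by linarith) (by linarith)) (by nlinarith)
    have h4 : 0 ≤ (1 - p) ^ D := pow_nonneg (by linarith) D
    nlinarith [mul_le_mul_of_nonneg_right h2 h4]
  have h5 : 0 < p * M := by positivity
  have h6 : p * M ≤ p * D := by gcongr
  have h7 : (1 + (p * M)⁻¹)⁻¹ = p * M / (1 + p * M) := by
    field_simp
    ring
  rw [h7, div_le_iff₀ (by positivity)]
  have h8 : 0 ≤ (1 - p) ^ D := pow_nonneg (by linarith) D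
  nlinarith [mul_le_mul_of_nonneg_right h6 h8]

theorem chain_seeds {V : Type*} [Fintype V] [DecidableEq V] {p : ℝ} (hp0 : 0 ≤ p) (hp1 : p ≤ 1)
    (v₀ : V) (T : ℕ) (D : ℕ → Finset V) (hv : ∀ t < T, v₀ ∉ D t)
    (hD : ∀ t < T, ∀ t' < T, t < t' → Disjoint (D t) (D t')) :
    p * ∏ t ∈ Finset.range T, (1 - (1 - p) ^ (D t).card) ≤
      Pr p (fun A : Finset V => v₀ ∈ A ∧ ∀ t < T, (A ∩ D t).Nonempty) := by
  classical
  set S : Option ℕ → Finset V := fun j => j.elim {v₀} D with hS
  set E : Option ℕ → Finset V → Prop := fun j A => j.elim (v₀ ∈ A) (fun _ => A.Nonempty) with hE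
  have h1 := Pr_forall_indep (p := p) (Finset.insertNone (Finset.range T)) S (by
    intro j hj j' hj' hne
    simp only [Finset.mem_coe, Finset.mem_insertNone, Finset.mem_range] at hj hj'
    show Disjoint (S j) (S j')
    cases j with
    | none =>
      cases j' with
      | none => exact absurd rfl hne
      | some t' =>
        simp only [hS, Option.elim_none, Option.elim_some, Finset.disjoint_singleton_left]
        exact hv t' (hj' t' rfl)
    | some t =>
      cases j' with
      | none =>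
        simp only [hS, Option.elim_none, Option.elim_some, Finset.disjoint_singleton_right]
        exact hv t (hj t rfl)
      | some t' =>
        have h3 := hj t rfl
        have h4 := hj' t' rfl
        simp only [hS, Option.elim_some]
        rcases lt_trichotomy t t' with h | h | h
        · exact hD t h3 t' h4 h
        · exact absurd (by rw [h]) hne
        · exact (hD t' h4 t h3 h).symm) E
  rw [Finset.prod_insertNone] at h1
  have h2 : Pr p (fun A : Finset V => E none (A ∩ S none)) = p := by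
    have : (fun A : Finset V => E none (A ∩ S none)) = fun A => ({v₀} : Finset V) ⊆ A := by
      ext A
      simp [hE, hS]
    rw [this, Pr_superset]
    simp
  have h3 : ∀ t : ℕ, Pr p (fun A : Finset V => E (some t) (A ∩ S (some t))) =
      1 - (1 - p) ^ (D t).card := by
    intro t
    have : (fun A : Finset V => E (some t) (A ∩ S (some t))) = fun A => ¬ Disjoint A (D t) := by
      ext A
      simp only [hE, hS, Option.elim_some, Finset.not_disjoint_iff_nonempty_inter]
    rw [this, Pr_not, Pr_disjoint]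
  rw [h2] at h1
  simp only [h3] at h1
  rw [← h1]
  refine Pr_mono hp0 hp1 ?_
  intro A hA
  constructor
  · have := hA none (by simp)
    simpa [hE, hS] using this
  · intro t ht
    have := hA (some t) (by simpa using ht)
    simpa [hE, hS] using this

theorem mem_nbox {n d : ℕ} {o a : Fin d → ℕ} {x : Vtx n d} :
    x ∈ (nbox o a : Set (Vtx n d)) ↔ ∀ i, o i ≤ (x i : ℕ) ∧ (x i : ℕ) < o i + a i := Iff.rfl

theorem nbox_mono {n d : ℕ} {o a b : Fin d → ℕ} (h : a ≤ b) :
    (nbox o a : Set (Vtx n d)) ⊆ nbox o b := fun x hx i =>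
  ⟨(hx i).1, (hx i).2.trans_le (Nat.add_le_add_left (h i) _)⟩

/-- the probability of a growth chain -/
theorem chain_general {n d : ℕ} {p : ℝ} (hp0 : 0 < p) (hp1 : p ≤ 1) (o : Fin d → ℕ) (T : ℕ)
    (a : ℕ → Fin d → ℕ) (b : Fin d → ℕ) (ha0 : ∀ i, a 0 i = 1)
    (hmono : ∀ t < T, a t ≤ a (t + 1)) (hab : a T ≤ b) (x₀ : Vtx n d)
    (hx₀ : ∀ i, (x₀ i : ℕ) = o i) (D : ℕ → Finset (Vtx n d))
    (hD : ∀ t < T, ∀ x ∈ D t, x ∈ (nbox o (a (t + 1)) : Set (Vtx n d)) ∧
      x ∉ (nbox o (a t) : Set (Vtx n d)))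
    (hgrow : ∀ t < T, ∀ U : Set (Vtx n d), Closed U → nbox o (a t) ⊆ U → (∃ x ∈ D t, x ∈ U) →
      nbox o (a (t + 1)) ⊆ U)
    (M : ℕ → ℝ) (hM0 : ∀ t < T, 0 < M t) (hM : ∀ t < T, M t ≤ (D t).card) :
    p * ∏ t ∈ Finset.range T, (1 + (p * M t)⁻¹)⁻¹ ≤
      Pr p (fun A : Finset (Vtx n d) =>
        nbox o (a T) ⊆ bclosure 2 ((A : Set (Vtx n d)) ∩ nbox o b)) := by
  classical
  have hmono' : ∀ t ≤ T, ∀ t' ≤ T, t ≤ t' → a t ≤ a t' := by
    intro t ht t' ht' htt
    induction t', htt using Nat.le_induction with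
    | base => exact le_rfl
    | succ k hk ih => exact (ih (by omega)).trans (hmono k (by omega))
  have hx0mem : ∀ t ≤ T, x₀ ∈ (nbox o (a t) : Set (Vtx n d)) := by
    intro t ht i
    have h3 : 1 ≤ a t i := by
      rw [← ha0 i]
      exact hmono' 0 (Nat.zero_le _) t ht (Nat.zero_le _) i
    have h4 := hx₀ i
    constructor
    · exact h4.ge
    · rw [h4]; exact Nat.lt_add_of_pos_right h3
  have h1 := chain_seeds hp0.le hp1 x₀ T D (fun t ht hx => (hD t ht x₀ hx).2 (hx0mem t ht.le))
    (by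
      intro t ht t' ht' htt
      rw [Finset.disjoint_left]
      intro x hx hx'
      exact (hD t' ht' x hx').2 (nbox_mono (hmono' (t + 1) (by omega) t' ht'.le htt)
        (hD t ht x hx).1))
  have h2 : p * ∏ t ∈ Finset.range T, (1 + (p * M t)⁻¹)⁻¹ ≤
      p * ∏ t ∈ Finset.range T, (1 - (1 - p) ^ (D t).card) := by
    refine mul_le_mul_of_nonneg_left (Finset.prod_le_prod ?_ ?_) hp0.le
    · intro t ht
      have := hM0 t (Finset.mem_range.1 ht)
      positivity
    · intro t ht
      exact chain_pow hp0 hp1 (hM0 t (Finset.mem_range.1 ht)) _ (hM t (Finset.mem_range.1 ht))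
  refine (h2.trans h1).trans (Pr_mono hp0.le hp1 ?_)
  rintro A ⟨hA0, hA⟩
  set U := bclosure 2 ((A : Set (Vtx n d)) ∩ nbox o b) with hU
  have hUc : Closed U := closed_bclosure _
  have hAU : ∀ x ∈ A, x ∈ (nbox o b : Set (Vtx n d)) → x ∈ U := fun x hx hxb =>
    subset_bclosure 2 _ ⟨hx, hxb⟩
  have key : ∀ t ≤ T, nbox o (a t) ⊆ U := by
    intro t
    induction t with
    | zero =>
      intro _ x hx
      have : x = x₀ := by
        funext i
        apply Fin.ext
        have := hx i
        rw [ha0] at this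
        rw [hx₀ i]
        omega
      rw [this]
      exact hAU x₀ hA0 (nbox_mono hab (hx0mem T le_rfl))
    | succ t ih =>
      intro ht
      refine hgrow t (by omega) U hUc (ih (by omega)) ?_
      obtain ⟨x, hx⟩ := hA t (by omega)
      rw [Finset.mem_inter] at hx
      refine ⟨x, hx.2, hAU x hx.1 ?_⟩
      exact nbox_mono ((hmono' (t + 1) ht T le_rfl ht).trans hab) (hD t (by omega) x hx.2).1
  exact key T le_rfl

/-! ### counting steps -/

/-- the number of times coordinate `l` has been used in the first `t` steps -/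
def cnt (d t l : ℕ) : ℕ := (t + (d - 1 - l)) / d

theorem cnt_zero {d l : ℕ} (hl : l < d) : cnt d 0 l = 0 := by
  unfold cnt
  exact Nat.div_eq_of_lt (by omega)

theorem cnt_succ {d t l : ℕ} (hl : l < d) :
    cnt d (t + 1) l = cnt d t l + if l = t % d then 1 else 0 := by
  unfold cnt
  have hd : 0 < d := by omega
  have h1 := Nat.div_add_mod t d
  have h2 := Nat.mod_lt t hd
  set q := t / d
  set r := t % d
  have e1 : t + 1 + (d - 1 - l) = (r + 1 + (d - 1 - l)) + d * q := by omega
  have e2 : t + (d - 1 - l) = (r + (d - 1 - l)) + d * q := by omega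
  rw [e1, e2, Nat.add_mul_div_left _ _ hd, Nat.add_mul_div_left _ _ hd]
  by_cases h : l = r
  · rw [if_pos h]
    have a1 : (r + 1 + (d - 1 - l)) / d = 1 := by
      rw [show r + 1 + (d - 1 - l) = d by omega, Nat.div_self hd]
    have a2 : (r + (d - 1 - l)) / d = 0 := Nat.div_eq_of_lt (by omega)
    omega
  · rw [if_neg h]
    rcases lt_or_gt_of_ne h with h | h
    · have a1 : (r + 1 + (d - 1 - l)) / d = 1 := by
        rw [show r + 1 + (d - 1 - l) = (r - l) + d * 1 by omega, Nat.add_mul_div_left _ _ hd,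
          Nat.div_eq_of_lt (by omega)]
      have a2 : (r + (d - 1 - l)) / d = 1 := by
        rw [show r + (d - 1 - l) = (r - l - 1) + d * 1 by omega, Nat.add_mul_div_left _ _ hd,
          Nat.div_eq_of_lt (by omega)]
      omega
    · have a1 : (r + 1 + (d - 1 - l)) / d = 0 := Nat.div_eq_of_lt (by omega)
      have a2 : (r + (d - 1 - l)) / d = 0 := Nat.div_eq_of_lt (by omega)
      omega

theorem le_cnt {d t l : ℕ} : t / d ≤ cnt d t l := Nat.div_le_div_right (by omega)

theorem cnt_le {d t l : ℕ} (hl : l < d) : cnt d t l ≤ t / d + 1 := by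
  unfold cnt
  have hd : 0 < d := by omega
  calc (t + (d - 1 - l)) / d ≤ (t + d) / d := Nat.div_le_div_right (by omega)
    _ = t / d + 1 := Nat.add_div_right _ hd

theorem sum_cnt (d t : ℕ) (hd : 0 < d) : ∑ l : Fin d, cnt d t l = t := by
  induction t with
  | zero => exact Finset.sum_eq_zero fun l _ => cnt_zero l.2
  | succ t ih =>
    have h1 : ∑ l : Fin d, cnt d (t + 1) l =
        ∑ l : Fin d, (cnt d t l + if l = (⟨t % d, Nat.mod_lt t hd⟩ : Fin d) then 1 else 0) := by
      refine Finset.sum_congr rfl fun l _ => ?_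
      rw [cnt_succ l.2]
      congr 1
      simp only [Fin.ext_iff]
    rw [h1, Finset.sum_add_distrib, ih]
    simp

/-! ### boxes as finsets -/

/-- the box with lower corner `lo` and upper corner `hi` (excluded) -/
def boxF (n : ℕ) {d : ℕ} (lo hi : Fin d → ℕ) : Finset (Vtx n d) :=
  Fintype.piFinset fun l => Finset.univ.filter fun y : Fin n => lo l ≤ (y : ℕ) ∧ (y : ℕ) < hi l

theorem mem_boxF {n d : ℕ} {lo hi : Fin d → ℕ} {x : Vtx n d} :
    x ∈ boxF n lo hi ↔ ∀ l, lo l ≤ (x l : ℕ) ∧ (x l : ℕ) < hi l := by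
  simp [boxF]

theorem card_interval {n lo hi : ℕ} (h : hi ≤ n) :
    (Finset.univ.filter fun y : Fin n => lo ≤ (y : ℕ) ∧ (y : ℕ) < hi).card = hi - lo := by
  have h1 : ((Finset.univ.filter fun y : Fin n => lo ≤ (y : ℕ) ∧ (y : ℕ) < hi).map
      Fin.valEmbedding) = Finset.Ico lo hi := by
    ext k
    simp only [Finset.mem_map, Finset.mem_filter, Finset.mem_univ, true_and,
      Fin.valEmbedding_apply, Finset.mem_Ico]
    constructor
    · rintro ⟨y, hy, rfl⟩
      exact hy
    · intro hk
      exact ⟨⟨k, by omega⟩, hk, rfl⟩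
  rw [← Finset.card_map Fin.valEmbedding, h1, Nat.card_Ico]

theorem card_boxF {n d : ℕ} {lo hi : Fin d → ℕ} (h : ∀ l, hi l ≤ n) :
    (boxF n lo hi).card = ∏ l, (hi l - lo l) := by
  unfold boxF
  rw [Fintype.card_piFinset]
  exact Finset.prod_congr rfl fun l _ => card_interval (h l)

end Pool.Agent.Lib.MP_8501c9_pr
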