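import Pool.Agent.Lib.MP_8501c9_pr.Defs

/-!
# Task V: the function `sfun`
-/

set_option autoImplicit false
open Set

namespace Pool.Agent.Lib.MP_8501c9_pr

section Volume

/-- the slope of `vfun` on `[q, q+1]` -/
noncomputable def vslope (q : ℕ) : ℝ := Real.log (q + 2) - Real.log (q + 1)

theorem vslope_nonneg (q : ℕ) : 0 ≤ vslope q := by
  unfold vslope
  have : Real.log (q + 1) ≤ Real.log (q + 2) :=
    Real.log_le_log (by positivity) (by linarith)
  linarith

theorem vslope_eq (q : ℕ) : vslope q = Real.log (1 + 1 / (q + 1)) := by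
  unfold vslope
  have h : (0:ℝ) < q + 1 := by positivity
  rw [← Real.log_div (by positivity) h.ne']
  congr 1
  field_simp
  ring

theorem vslope_anti : Antitone vslope := by
  refine antitone_nat_of_succ_le ?_
  intro q
  rw [vslope_eq, vslope_eq]
  refine Real.log_le_log (by positivity) ?_
  push_cast
  gcongr
  linarith

theorem vslope_le_log_two (q : ℕ) : vslope q ≤ Real.log 2 := by
  have h := vslope_anti (Nat.zero_le q)
  have h0 : vslope 0 = Real.log 2 := by unfold vslope; simp
  rwa [h0] at h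

theorem vslope_ge (q : ℕ) : 1 / ((q : ℝ) + 2) ≤ vslope q := by
  have h1 : (0:ℝ) < q + 1 := by positivity
  have h2 : (0:ℝ) < q + 2 := by positivity
  have h3 := Real.add_one_le_exp (-(vslope q))
  have h4 : Real.exp (-(vslope q)) = (q + 1) / (q + 2) := by
    unfold vslope
    rw [neg_sub, Real.exp_sub, Real.exp_log h1, Real.exp_log h2]
  rw [h4] at h3
  have h5 : (q + 1 : ℝ) / (q + 2) = 1 - 1 / (q + 2) := by
    field_simp
    ring
  rw [h5] at h3
  linarith

theorem vslope_le (q : ℕ) : vslope q ≤ 1 / ((q : ℝ) + 1) := by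
  rw [vslope_eq]
  have := Real.log_le_sub_one_of_pos (x := 1 + 1 / ((q:ℝ) + 1)) (by positivity)
  linarith

theorem vfun_def (u : ℝ) : vfun u = Real.log (⌊u⌋₊ + 1) + (u - ⌊u⌋₊) * vslope ⌊u⌋₊ := rfl

theorem vfun_nat (q : ℕ) : vfun q = Real.log (q + 1) := by
  rw [vfun_def, Nat.floor_natCast]
  ring

theorem vfun_affine' (q : ℕ) (u : ℝ) (h1 : (q : ℝ) ≤ u) (h2 : u ≤ q + 1) :
    vfun u = Real.log (q + 1) + (u - q) * vslope q := by
  rcases h2.lt_or_eq with h | h
  · have hf : ⌊u⌋₊ = q := by
      rw [Nat.floor_eq_iff (le_trans (by positivity) h1)]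
      exact ⟨h1, h⟩
    rw [vfun_def, hf]
  · have h3 : u = ((q + 1 : ℕ) : ℝ) := by push_cast; exact h
    rw [h3, vfun_nat]
    unfold vslope
    push_cast
    have e : (q:ℝ) + 1 + 1 = q + 2 := by ring
    rw [e]
    ring

theorem vfun_affine (q : ℕ) (u : ℝ) (h1 : (q : ℝ) ≤ u) (h2 : u ≤ q + 1) :
    vfun u = Real.log (q + 1) + (u - q) * (Real.log (q + 2) - Real.log (q + 1)) :=
  vfun_affine' q u h1 h2

/-- explicit form of `sfun` -/
theorem sfun_eq (N t : ℕ) (hN : 1 ≤ N) (q : ℕ) (h1 : q * N ≤ t) (h2 : t ≤ (q + 1) * N) :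
    sfun N t = N * Real.log (q + 1) + ((t : ℝ) - q * N) * vslope q := by
  have hN' : (0:ℝ) < N := by exact_mod_cast hN
  have h1' : (q:ℝ) * N ≤ t := by exact_mod_cast h1
  have h2' : (t:ℝ) ≤ (q + 1) * N := by exact_mod_cast h2
  unfold sfun
  rw [vfun_affine' q]
  · field_simp
  · rw [le_div_iff₀ hN']; exact h1'
  · rw [div_le_iff₀ hN']; exact h2'

theorem sfun_succ (N t : ℕ) (hN : 1 ≤ N) : sfun N (t + 1) =
    sfun N t + (Real.log ((t / N : ℕ) + 2) - Real.log ((t / N : ℕ) + 1)) := by
  have h1 : (t / N) * N ≤ t := Nat.div_mul_le_self t N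
  have h2 : t + 1 ≤ (t / N + 1) * N := by
    have := Nat.lt_mul_of_div_lt (Nat.lt_succ_self (t / N)) hN
    exact this
  rw [sfun_eq N t hN (t / N) h1 (by omega), sfun_eq N (t + 1) hN (t / N) (by omega) h2]
  unfold vslope
  push_cast
  ring

theorem sfun_succ' (N t : ℕ) (hN : 1 ≤ N) : sfun N (t + 1) = sfun N t + vslope (t / N) :=
  sfun_succ N t hN

theorem sfun_zero (N : ℕ) : sfun N 0 = 0 := by
  unfold sfun
  have h := vfun_nat 0
  simp at h
  simp [h]

theorem sfun_of_le (N t : ℕ) (hN : 1 ≤ N) (h : t ≤ N) : sfun N t = t * Real.log 2 := by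
  rw [sfun_eq N t hN 0 (by simp) (by simpa using h)]
  unfold vslope
  simp

theorem sfun_mono (N : ℕ) (hN : 1 ≤ N) : Monotone (sfun N) := by
  refine monotone_nat_of_le_succ ?_
  intro t
  rw [sfun_succ' N t hN]
  linarith [vslope_nonneg (t / N)]

theorem sfun_add_le (N t r : ℕ) (hN : 1 ≤ N) : sfun N (t + r) ≤ sfun N t + r * Real.log 2 := by
  induction r with
  | zero => simp
  | succ r ih =>
    rw [← add_assoc, sfun_succ' N _ hN]
    push_cast
    linarith [vslope_le_log_two ((t + r) / N)]

theorem le_sfun_add (N t r : ℕ) (hN : 1 ≤ N) :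
    sfun N t + r * (N / (t + r + 2 * N)) ≤ sfun N (t + r) := by
  have hN' : (0:ℝ) < N := by exact_mod_cast hN
  have key : ∀ s ≤ r, sfun N t + s * ((N:ℝ) / (t + r + 2 * N)) ≤ sfun N (t + s) := by
    intro s
    induction s with
    | zero => intro _; simp
    | succ s ih =>
      intro hs
      have h1 := ih (by omega)
      rw [← add_assoc, sfun_succ' N _ hN]
      have h2 := vslope_ge ((t + s) / N)
      have h3 : ((((t + s) / N : ℕ) : ℝ)) ≤ (t + s) / N := by
        have := Nat.cast_div_le (α := ℝ) (m := t + s) (n := N)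
        push_cast at this
        exact this
      have h4 : (N:ℝ) / (t + r + 2 * N) ≤ 1 / ((((t + s) / N : ℕ) : ℝ) + 2) := by
        rw [div_le_div_iff₀ (by positivity) (by positivity)]
        have h5 : (N:ℝ) * ((((t + s) / N : ℕ) : ℝ)) ≤ t + s := by
          have := mul_le_mul_of_nonneg_left h3 hN'.le
          rwa [mul_div_cancel₀ _ hN'.ne'] at this
        have h6 : (s:ℝ) ≤ r := by exact_mod_cast (by omega : s ≤ r)
        nlinarith
      push_cast
      linarith
  exact key r le_rfl

/-- the chord of the logarithm between two consecutive integers is above it at all integers -/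
theorem log_le_chord (q x : ℕ) :
    Real.log (1 + x) ≤ Real.log (q + 1) + ((x : ℝ) - q) * vslope q := by
  rcases le_total q x with h | h
  · induction x, h using Nat.le_induction with
    | base => rw [sub_self, zero_mul, add_zero, add_comm]
    | succ x hx ih =>
      have h1 := vslope_anti hx
      have h2 : Real.log (1 + (x + 1 : ℕ)) = Real.log (1 + x) + vslope x := by
        unfold vslope
        push_cast
        have e1 : (1:ℝ) + (x + 1) = x + 2 := by ring
        have e2 : (1:ℝ) + x = x + 1 := by ring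
        rw [e1, e2]
        ring
      rw [h2]
      push_cast
      nlinarith
  · induction q, h using Nat.le_induction with
    | base => rw [sub_self, zero_mul, add_zero, add_comm]
    | succ q hq ih =>
      have h1 := vslope_anti (Nat.le_succ q)
      have h2 : Real.log ((q + 1 : ℕ) + 1) = Real.log (q + 1) + vslope q := by
        unfold vslope
        push_cast
        have e1 : (q:ℝ) + 1 + 1 = q + 2 := by ring
        rw [e1]
        ring
      have h3 : (x:ℝ) ≤ q := by exact_mod_cast hq
      rw [h2]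
      push_cast
      nlinarith

/-- a box whose side lengths minus one add up to at most `t` has volume at most `exp (s t)` -/
theorem sum_log_le_sfun {ι : Type*} (I : Finset ι) (N t : ℕ) (hN : 1 ≤ N) (hI : I.card = N)
    (x : ι → ℕ) (hx : ∑ i ∈ I, x i ≤ t) : ∑ i ∈ I, Real.log (1 + x i) ≤ sfun N t := by
  have h1 : (t / N) * N ≤ t := Nat.div_mul_le_self t N
  have h2 : t + 1 ≤ (t / N + 1) * N :=
    Nat.lt_mul_of_div_lt (Nat.lt_succ_self (t / N)) hN
  rw [sfun_eq N t hN (t / N) h1 (by omega)]
  calc ∑ i ∈ I, Real.log (1 + x i)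
      ≤ ∑ i ∈ I, (Real.log ((t / N : ℕ) + 1) + ((x i : ℝ) - (t / N : ℕ)) * vslope (t / N)) :=
        Finset.sum_le_sum fun i _ => log_le_chord (t / N) (x i)
    _ = N * Real.log ((t / N : ℕ) + 1) + ((∑ i ∈ I, (x i : ℝ)) - (t / N : ℕ) * N) *
          vslope (t / N) := by
        rw [Finset.sum_add_distrib, ← Finset.sum_mul, Finset.sum_sub_distrib, Finset.sum_const,
          Finset.sum_const, hI, nsmul_eq_mul, nsmul_eq_mul]
        ring
    _ ≤ _ := by
        have h3 : (∑ i ∈ I, (x i : ℝ)) ≤ t := by exact_mod_cast hx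
        have h4 := vslope_nonneg (t / N)
        have h5 := mul_le_mul_of_nonneg_right (sub_le_sub_right h3 (((t / N : ℕ) : ℝ) * N)) h4
        linarith

/-- equality for balanced boxes -/
theorem sum_log_eq_sfun {ι : Type*} (I : Finset ι) (N t : ℕ) (hN : 1 ≤ N) (hI : I.card = N)
    (x : ι → ℕ) (hx : ∑ i ∈ I, x i = t) (hb : ∀ i ∈ I, t / N ≤ x i ∧ x i ≤ t / N + 1) :
    ∑ i ∈ I, Real.log (1 + x i) = sfun N t := by
  have h1 : (t / N) * N ≤ t := Nat.div_mul_le_self t N
  have h2 : t + 1 ≤ (t / N + 1) * N :=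
    Nat.lt_mul_of_div_lt (Nat.lt_succ_self (t / N)) hN
  rw [sfun_eq N t hN (t / N) h1 (by omega)]
  have h0 : ∀ i ∈ I, Real.log (1 + x i) =
      Real.log ((t / N : ℕ) + 1) + ((x i : ℝ) - (t / N : ℕ)) * vslope (t / N) := by
    intro i hi
    obtain ⟨ha, hb⟩ := hb i hi
    rcases Nat.eq_or_lt_of_le ha with h | h
    · rw [← h]; rw [sub_self, zero_mul, add_zero, add_comm]
    · have h3 : x i = t / N + 1 := by omega
      rw [h3]
      unfold vslope
      push_cast
      have e1 : (1:ℝ) + (((t / N : ℕ) : ℝ) + 1) = ((t / N : ℕ) : ℝ) + 2 := by ring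
      rw [e1]
      ring
  rw [Finset.sum_congr rfl h0, Finset.sum_add_distrib, ← Finset.sum_mul, Finset.sum_sub_distrib,
    Finset.sum_const, Finset.sum_const, hI, nsmul_eq_mul, nsmul_eq_mul]
  have h3 : (∑ i ∈ I, (x i : ℝ)) = t := by exact_mod_cast hx
  rw [h3]
  ring

theorem sfun_le_sfun_succ (N t : ℕ) (hN : 1 ≤ N) : sfun N t ≤ sfun (N + 1) t := by
  have hr : t % N < N := Nat.mod_lt _ hN
  let x : ℕ → ℕ := fun i => if i < N then t / N + (if i < t % N then 1 else 0) else 0
  have hsum : ∑ i ∈ Finset.range N, x i = t := by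
    have h1 : ∀ i ∈ Finset.range N, x i = t / N + (if i < t % N then 1 else 0) := by
      intro i hi
      simp only [x, if_pos (Finset.mem_range.1 hi)]
    rw [Finset.sum_congr rfl h1, Finset.sum_add_distrib, Finset.sum_const, Finset.card_range,
      ← Finset.sum_filter]
    have h2 : (Finset.range N).filter (fun i => i < t % N) = Finset.range (t % N) := by
      ext i
      simp only [Finset.mem_filter, Finset.mem_range]
      omega
    rw [h2, Finset.sum_const, Finset.card_range, smul_eq_mul, smul_eq_mul, mul_one]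
    exact Nat.div_add_mod t N
  have e1 := sum_log_eq_sfun (Finset.range N) N t hN (Finset.card_range N) x hsum (by
    intro i hi
    simp only [x, if_pos (Finset.mem_range.1 hi)]
    split_ifs <;> omega)
  have e2 := sum_log_le_sfun (Finset.range (N + 1)) (N + 1) t (by omega)
    (Finset.card_range (N + 1)) x (by
      rw [Finset.sum_range_succ, hsum]
      simp [x])
  rw [Finset.sum_range_succ, e1] at e2
  have e3 : Real.log (1 + (x N : ℝ)) = 0 := by simp [x]
  rw [e3, add_zero] at e2
  exact e2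

end Volume

end Pool.Agent.Lib.MP_8501c9_pr
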