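import Pool.Agent.Lib.MP_8501c9_pr.ChainBase
import Pool.Agent.Lib.MP_8501c9_pr.Volume

set_option autoImplicit false
open Set

namespace Pool.Agent.Lib.MP_8501c9_pr

theorem prod_cnt (d t : ℕ) (hd : 1 ≤ d) :
    ∏ l : Fin d, (1 + (cnt d t l : ℝ)) = Real.exp (sfun d t) := by
  have h := sum_log_eq_sfun (Finset.univ : Finset (Fin d)) d t hd (by simp)
    (fun l => cnt d t l) (by simpa using sum_cnt d t (by omega))
    (fun l _ => ⟨le_cnt, cnt_le l.2⟩)
  rw [← h, Real.exp_sum]
  exact Finset.prod_congr rfl fun l _ => (Real.exp_log (by positivity)).symm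

theorem chainI (n d : ℕ) (hd : 2 ≤ d) (L : ℝ) (hL : 0 ≤ L) (S : ℕ) (hS : 1 ≤ S) (o : Fin d → ℕ)
    (ho : ∀ i, o i + (S + 1) ≤ n) :
    Real.exp (-L) * ∏ j ∈ Finset.range ((d * (S - 1) + 1) / 2),
      (1 + (((2 * j / d : ℕ) : ℝ) + 2) ^ 2 * Real.exp (L - sfun (d - 1) (2 * j)))⁻¹ ≤
    Pr (Real.exp (-L)) (fun A : Finset (Vtx n d) =>
      nbox o (fun _ => S) ⊆ bclosure 2 ((A : Set (Vtx n d)) ∩ nbox o (fun _ => S + 1))) := by
  have hp0 : 0 < Real.exp (-L) := Real.exp_pos _
  have hp1 : Real.exp (-L) ≤ 1 := by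
    rw [← Real.exp_zero]; exact Real.exp_le_exp.2 (by linarith)
  have hd0 : 0 < d := by omega
  have holt : ∀ i, o i < n := fun i => by have := ho i; omega
  set T := (d * (S - 1) + 1) / 2 with hT
  have hT1 : d * (S - 1) ≤ 2 * T := by omega
  have hT2 : 2 * T ≤ d * (S - 1) + 1 := by omega
  set a : ℕ → Fin d → ℕ := fun t l => 1 + cnt d (2 * t) l with ha
  set i₁ : ℕ → Fin d := fun t => ⟨2 * t % d, Nat.mod_lt _ hd0⟩ with hi₁
  set i₂ : ℕ → Fin d := fun t => ⟨(2 * t + 1) % d, Nat.mod_lt _ hd0⟩ with hi₂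
  have hne : ∀ t, i₁ t ≠ i₂ t := by
    intro t h
    have h1 : 2 * t % d = (2 * t + 1) % d := congrArg Fin.val h
    have h2 := Nat.mod_lt (2 * t) hd0
    have h3 := Nat.div_add_mod (2 * t) d
    have h4 := Nat.div_add_mod (2 * t + 1) d
    rw [← h1] at h4
    have h5 : d * ((2 * t + 1) / d) = d * (2 * t / d) + 1 := by omega
    have h6 : d ∣ 1 := by
      rw [Nat.dvd_add_iff_right (Dvd.intro (2 * t / d) rfl : d ∣ d * (2 * t / d)), ← h5]
      exact Dvd.intro _ rfl
    have := Nat.le_of_dvd one_pos h6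
    omega
  have hstep : ∀ t l, a (t + 1) l = a t l + (if l = i₁ t then 1 else 0) +
      (if l = i₂ t then 1 else 0) := by
    intro t l
    simp only [ha, hi₁, hi₂, Fin.ext_iff]
    rw [show 2 * (t + 1) = 2 * t + 1 + 1 by ring, cnt_succ l.2, cnt_succ l.2]
    ring
  have hstep' : ∀ t, a (t + 1) = a t + Pi.single (i₁ t) 1 + Pi.single (i₂ t) 1 := by
    intro t
    funext l
    rw [hstep]
    simp only [Pi.add_apply, Pi.single_apply]
  have hmono : ∀ t, a t ≤ a (t + 1) := fun t l => by
    rw [hstep, Nat.add_assoc]; exact Nat.le_add_right _ _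
  have haT1 : ∀ l, S ≤ a T l := by
    intro l
    simp only [ha]
    have h1 : S - 1 ≤ 2 * T / d := by
      rw [Nat.le_div_iff_mul_le hd0]
      linarith [Nat.mul_comm d (S - 1)]
    have h2 : 2 * T / d ≤ cnt d (2 * T) l := le_cnt
    omega
  have haT2 : ∀ t, t ≤ T → ∀ l, a t l ≤ S + 1 := by
    intro t ht l
    simp only [ha]
    have h1 : cnt d (2 * t) l ≤ S := by
      unfold cnt
      calc (2 * t + (d - 1 - l)) / d ≤ (d * (S - 1) + d) / d := Nat.div_le_div_right (by omega)
        _ = S := by
          rw [show d * (S - 1) + d = d * S by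
            obtain ⟨k, rfl⟩ : ∃ k, S = k + 1 := ⟨S - 1, by omega⟩
            simp; ring, Nat.mul_div_cancel_left _ hd0]
    omega
  set lo : ℕ → Fin d → ℕ := fun t l => if l = i₁ t ∨ l = i₂ t then o l + a t l else o l with hlo
  set hi : ℕ → Fin d → ℕ := fun t l => if l = i₁ t ∨ l = i₂ t then o l + a t l + 1
    else o l + a t l with hhi
  have hgen := chain_general hp0 hp1 o T a (fun _ => S + 1)
    (fun i => by simp only [ha]; rw [Nat.mul_zero, cnt_zero i.2]) (fun t _ => hmono t)
    (fun l => haT2 T le_rfl l) (fun i => ⟨o i, holt i⟩ : Vtx n d)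
    (fun i => rfl) (fun t => boxF n (lo t) (hi t)) ?_ ?_
    (fun t => Real.exp (sfun (d - 1) (2 * t)) / (((2 * t / d : ℕ) : ℝ) + 2) ^ 2) ?_ ?_
  · -- conclusion
    refine le_trans (le_of_eq ?_) (hgen.trans (Pr_mono hp0.le hp1 ?_))
    · congr 1
      refine Finset.prod_congr rfl fun t _ => ?_
      congr 2
      rw [mul_inv, ← Real.exp_neg, neg_neg, inv_div, Real.exp_sub]
      ring
    · intro A hA
      exact (nbox_mono haT1).trans hA
  · -- seeds
    intro t ht x hx
    rw [mem_boxF] at hx
    constructor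
    · intro l
      have h1 := hx l
      simp only [hlo, hhi] at h1
      rw [hstep]
      by_cases h : l = i₁ t ∨ l = i₂ t
      · rw [if_pos h, if_pos h] at h1
        rcases h with h | h
        · rw [if_pos h]; omega
        · rw [if_pos h]; omega
      · rw [if_neg h, if_neg h] at h1
        omega
    · intro hcon
      have h1 := hx (i₁ t)
      have h2 := hcon (i₁ t)
      simp only [hlo, hhi, true_or, if_true] at h1
      omega
  · -- growth
    intro t ht U hU hbox hx
    obtain ⟨x, hx, hxU⟩ := hx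
    rw [mem_boxF] at hx
    rw [hstep']
    refine grow_corner hU hbox (i₁ t) (i₂ t) (hne t) (by simp only [ha]; omega)
      (by simp only [ha]; omega) hxU ?_ ?_ ?_
    · have h1 := hx (i₁ t)
      simp only [hlo, hhi, true_or, if_true] at h1
      omega
    · have h1 := hx (i₂ t)
      simp only [hlo, hhi, or_true, if_true] at h1
      omega
    · intro l h1 h2
      have h3 := hx l
      simp only [hlo, hhi] at h3
      rwa [if_neg (by tauto), if_neg (by tauto)] at h3
  · intro t _
    positivity
  · -- cardinality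
    intro t ht
    have hhin : ∀ l, hi t l ≤ n := by
      intro l
      have h1 := haT2 (t + 1) (by omega) l
      rw [hstep] at h1
      have h2 := ho l
      simp only [hhi]
      by_cases h : l = i₁ t ∨ l = i₂ t
      · rw [if_pos h]
        rcases h with h | h
        · rw [if_pos h] at h1; omega
        · rw [if_pos h] at h1; omega
      · rw [if_neg h]; omega
    rw [card_boxF hhin]
    have hfac : ∀ l, (((hi t l - lo t l : ℕ) : ℝ)) * (if l = i₁ t then (a t l : ℝ) else 1) *
        (if l = i₂ t then (a t l : ℝ) else 1) = a t l := by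
      intro l
      simp only [hlo, hhi]
      by_cases h1 : l = i₁ t
      · have h2 : l ≠ i₂ t := fun h => hne t (h1.symm.trans h)
        rw [if_pos (Or.inl h1), if_pos (Or.inl h1), if_pos h1, if_neg h2,
          show o l + a t l + 1 - (o l + a t l) = 1 by omega]
        simp
      · by_cases h2 : l = i₂ t
        · rw [if_pos (Or.inr h2), if_pos (Or.inr h2), if_neg h1, if_pos h2,
            show o l + a t l + 1 - (o l + a t l) = 1 by omega]
          simp
        · rw [if_neg (by tauto), if_neg (by tauto), if_neg h1, if_neg h2,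
            show o l + a t l - o l = a t l by omega]
          simp
    have hprod : (∏ l, ((hi t l - lo t l : ℕ) : ℝ)) * (a t (i₁ t) : ℝ) * (a t (i₂ t) : ℝ) =
        Real.exp (sfun d (2 * t)) := by
      rw [← prod_cnt d (2 * t) (by omega)]
      have e1 : ∏ l : Fin d, (1 + (cnt d (2 * t) l : ℝ)) = ∏ l : Fin d,
          (((hi t l - lo t l : ℕ) : ℝ)) * (if l = i₁ t then (a t l : ℝ) else 1) *
        (if l = i₂ t then (a t l : ℝ) else 1) := by
        refine Finset.prod_congr rfl fun l _ => ?_
        rw [hfac]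
        simp only [ha]
        push_cast
        ring
      rw [e1, Finset.prod_mul_distrib, Finset.prod_mul_distrib, Finset.prod_ite_eq',
        Finset.prod_ite_eq', if_pos (Finset.mem_univ _), if_pos (Finset.mem_univ _)]
    have hale : ∀ l, (a t l : ℝ) ≤ ((2 * t / d : ℕ) : ℝ) + 2 := by
      intro l
      have : a t l ≤ 2 * t / d + 2 := by
        have := cnt_le (t := 2 * t) l.2
        simp only [ha]
        omega
      exact_mod_cast this
    have hs : Real.exp (sfun (d - 1) (2 * t)) ≤ Real.exp (sfun d (2 * t)) := by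
      refine Real.exp_le_exp.2 ?_
      have := sfun_le_sfun_succ (d - 1) (2 * t) (by omega)
      rwa [Nat.sub_add_cancel (by omega)] at this
    rw [div_le_iff₀ (by positivity)]
    push_cast
    refine hs.trans ?_
    rw [← hprod]
    have h0 : 0 ≤ ∏ l, ((hi t l - lo t l : ℕ) : ℝ) := Finset.prod_nonneg fun l _ => by positivity
    rw [mul_assoc, pow_two]
    refine mul_le_mul_of_nonneg_left ?_ h0
    exact mul_le_mul (hale _) (hale _) (by positivity) (by positivity)

end Pool.Agent.Lib.MP_8501c9_pr
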