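import Pool.Agent.Lib.MP_8501c9_pr.ChainBase

set_option autoImplicit false
open Set

namespace Pool.Agent.Lib.MP_8501c9_pr

theorem prod_range_div {f : ℕ → ℝ} (d Q : ℕ) (hd : 0 < d) :
    ∏ t ∈ Finset.range (Q * d), f (t / d) = ∏ q ∈ Finset.range Q, f q ^ d := by
  induction Q with
  | zero => simp
  | succ Q ih =>
    rw [Nat.succ_mul, Finset.prod_range_add, ih, Finset.prod_range_succ]
    congr 1
    rw [← Finset.card_range d, ← Finset.prod_const, Finset.card_range]
    refine Finset.prod_congr rfl fun x hx => ?_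
    rw [Nat.add_comm, Nat.add_mul_div_right _ _ hd, Nat.div_eq_of_lt (Finset.mem_range.1 hx),
      Nat.zero_add]

theorem chainII (n d : ℕ) (hd : 2 ≤ d) (L : ℝ) (hL : 0 ≤ L) (Q : ℕ) (o : Fin d → ℕ)
    (ho : ∀ i, o i + (2 * Q + 1) ≤ n) :
    Real.exp (-L) * ∏ q ∈ Finset.range Q,
      ((1 + Real.exp L / (2 * q + 1 : ℝ) ^ (d - 1))⁻¹) ^ d ≤
    Pr (Real.exp (-L)) (fun A : Finset (Vtx n d) =>
      nbox o (fun _ => 2 * Q + 1) ⊆
        bclosure 2 ((A : Set (Vtx n d)) ∩ nbox o (fun _ => 2 * Q + 1))) := by
  have hp0 : 0 < Real.exp (-L) := Real.exp_pos _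
  have hp1 : Real.exp (-L) ≤ 1 := by
    rw [← Real.exp_zero]; exact Real.exp_le_exp.2 (by linarith)
  have hd0 : 0 < d := by omega
  have holt : ∀ i, o i < n := fun i => by have := ho i; omega
  set T := Q * d with hT
  set a : ℕ → Fin d → ℕ := fun t l => 1 + 2 * cnt d t l with ha
  set i₁ : ℕ → Fin d := fun t => ⟨t % d, Nat.mod_lt _ hd0⟩ with hi₁
  have hstep : ∀ t l, a (t + 1) l = a t l + (if l = i₁ t then 2 else 0) := by
    intro t l
    simp only [ha, hi₁, Fin.ext_iff]
    rw [cnt_succ l.2]
    split_ifs <;> ring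
  have hstep' : ∀ t, a (t + 1) = a t + Pi.single (i₁ t) 2 := by
    intro t
    funext l
    rw [hstep]
    simp only [Pi.add_apply, Pi.single_apply]
  have hmono : ∀ t, a t ≤ a (t + 1) := fun t l => by
    rw [hstep]; exact Nat.le_add_right _ _
  have haT : ∀ l, a T l = 2 * Q + 1 := by
    intro l
    have h1 : cnt d T l = Q := by
      unfold cnt
      rw [hT, Nat.add_comm, Nat.add_mul_div_right _ _ hd0, Nat.div_eq_of_lt (by omega),
        Nat.zero_add]
    simp only [ha]
    rw [h1]; ring
  have hmonoT : ∀ t ≤ T, ∀ l, a t l ≤ 2 * Q + 1 := by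
    intro t ht l
    rw [← haT l]
    have hm : Monotone a := monotone_nat_of_le_succ hmono
    exact hm ht l
  set lo : ℕ → Fin d → ℕ := fun t l => if l = i₁ t then o l + a t l + 1 else o l with hlo
  set hi : ℕ → Fin d → ℕ := fun t l => if l = i₁ t then o l + a t l + 2 else o l + a t l with hhi
  have hgen := chain_general hp0 hp1 o T a (fun _ => 2 * Q + 1)
    (fun i => by simp only [ha]; rw [cnt_zero i.2]) (fun t _ => hmono t)
    (fun l => (haT l).le) (fun i => ⟨o i, holt i⟩ : Vtx n d)
    (fun i => rfl) (fun t => boxF n (lo t) (hi t)) ?_ ?_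
    (fun t => (2 * ((t / d : ℕ) : ℝ) + 1) ^ (d - 1)) ?_ ?_
  · refine le_trans (le_of_eq ?_) (hgen.trans (Pr_mono hp0.le hp1 ?_))
    · congr 1
      rw [← prod_range_div (f := fun q => (1 + Real.exp L / (2 * (q : ℝ) + 1) ^ (d - 1))⁻¹) d Q hd0]
      refine Finset.prod_congr rfl fun t _ => ?_
      congr 2
      rw [mul_inv, ← Real.exp_neg, neg_neg, div_eq_mul_inv]
    · intro A hA
      refine subset_trans ?_ hA
      exact nbox_mono fun l => (haT l).ge
  · intro t ht x hx
    rw [mem_boxF] at hx
    constructor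
    · intro l
      have h1 := hx l
      simp only [hlo, hhi] at h1
      rw [hstep]
      by_cases h : l = i₁ t
      · rw [if_pos h, if_pos h] at h1
        rw [if_pos h]; omega
      · rw [if_neg h, if_neg h] at h1
        omega
    · intro hcon
      have h1 := hx (i₁ t)
      have h2 := hcon (i₁ t)
      simp only [hlo, hhi, if_true] at h1
      omega
  · intro t ht U hU hbox hx
    obtain ⟨x, hx, hxU⟩ := hx
    rw [mem_boxF] at hx
    rw [hstep']
    refine grow_straight hU hbox (i₁ t) (by simp only [ha]; omega) hxU ?_ ?_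
    · have h1 := hx (i₁ t)
      simp only [hlo, hhi, if_true] at h1
      omega
    · intro l h1
      have h3 := hx l
      simp only [hlo, hhi] at h3
      rwa [if_neg h1, if_neg h1] at h3
  · intro t _
    positivity
  · intro t ht
    have hhin : ∀ l, hi t l ≤ n := by
      intro l
      have h1 := hmonoT (t + 1) (by omega) l
      rw [hstep] at h1
      have h2 := ho l
      simp only [hhi]
      by_cases h : l = i₁ t
      · rw [if_pos h]
        rw [if_pos h] at h1; omega
      · rw [if_neg h]; omega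
    rw [card_boxF hhin]
    push_cast
    set c : ℝ := 2 * ((t / d : ℕ) : ℝ) + 1 with hc
    have hc0 : 0 < c := by positivity
    have h1 : ∏ l : Fin d, (if l = i₁ t then 1 else c) = c ^ (d - 1) := by
      have h2 : (∏ l : Fin d, (if l = i₁ t then 1 else c)) * c = c ^ (d - 1) * c := by
        rw [← pow_succ, Nat.sub_add_cancel (by omega)]
        have h3 : c = ∏ l : Fin d, (if l = i₁ t then c else 1) := by
          rw [Finset.prod_ite_eq', if_pos (Finset.mem_univ _)]
        conv_lhs => rw [h3]
        rw [← Finset.prod_mul_distrib]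
        have h4 : ∀ l : Fin d, ((if l = i₁ t then 1 else
            ∏ l : Fin d, (if l = i₁ t then c else 1)) * (if l = i₁ t then c else 1)) = c := by
          intro l
          rw [← h3]
          split_ifs <;> simp
        rw [Finset.prod_congr rfl fun l _ => h4 l]
        simp
      exact mul_right_cancel₀ hc0.ne' h2
    rw [← h1]
    refine Finset.prod_le_prod (fun l _ => by split_ifs <;> positivity) fun l _ => ?_
    simp only [hlo, hhi]
    by_cases h : l = i₁ t
    · rw [if_pos h, if_pos h, if_pos h,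
        show o l + a t l + 2 - (o l + a t l + 1) = 1 by omega]
      simp
    · rw [if_neg h, if_neg h, if_neg h, show o l + a t l - o l = a t l by omega]
      have h5 : t / d ≤ cnt d t l := le_cnt
      have h6 : 2 * (t / d) + 1 ≤ a t l := by simp only [ha]; omega
      rw [hc]
      exact_mod_cast h6

end Pool.Agent.Lib.MP_8501c9_pr
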