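import Pool.Agent.Lib.MP_8501c9_pr.Crossing
import Pool.Agent.Lib.MP_8501c9_pr.Volume

/-!
# Counting boxes and pairs of boxes
-/

set_option autoImplicit false
open Set

namespace Pool.Agent.Lib.MP_8501c9_pr

variable {n d : ℕ}

open Classical in
theorem card_shapes_aux (ι : Type*) [Fintype ι] (c : ℕ) :
    (Finset.piAntidiag (Finset.univ : Finset ι) c).card ≤ Fintype.card ι ^ c := by
  induction c with
  | zero => simp
  | succ c ih =>
    have hsub : Finset.piAntidiag (Finset.univ : Finset ι) (c + 1) ⊆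
        ((Finset.univ : Finset ι) ×ˢ Finset.piAntidiag (Finset.univ : Finset ι) c).image
          (fun t => t.2 + Pi.single t.1 1) := by
      intro x hx
      rw [Finset.mem_piAntidiag] at hx
      have hex : ∃ i, x i ≠ 0 := by
        by_contra h
        have h0 : ∀ i, x i = 0 := by
          intro i
          by_contra hi
          exact h ⟨i, hi⟩
        have h1 := hx.1
        simp [h0] at h1
      obtain ⟨i, hi⟩ := hex
      have hle : Pi.single i 1 ≤ x := by
        intro j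
        by_cases hj : j = i
        · subst hj; simp; omega
        · simp [hj]
      rw [Finset.mem_image]
      refine ⟨(i, x - Pi.single i 1), ?_, ?_⟩
      · rw [Finset.mem_product, Finset.mem_piAntidiag]
        refine ⟨Finset.mem_univ _, ?_, fun j _ => Finset.mem_univ _⟩
        have h1 : ∑ j, (x - Pi.single i 1 : ι → ℕ) j + ∑ j, (Pi.single i 1 : ι → ℕ) j
            = c + 1 := by
          rw [← Finset.sum_add_distrib, ← hx.1]
          refine Finset.sum_congr rfl fun j _ => ?_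
          have h3 : (Pi.single i 1 : ι → ℕ) j ≤ x j := hle j
          simp only [Pi.sub_apply]
          exact Nat.sub_add_cancel h3
        have h2 : ∑ j, (Pi.single i 1 : ι → ℕ) j = 1 := by
          rw [Finset.sum_pi_single' i 1 Finset.univ]
          simp
        simp only
        omega
      · funext j
        have h3 : (Pi.single i 1 : ι → ℕ) j ≤ x j := hle j
        simp only [Pi.add_apply, Pi.sub_apply]
        exact Nat.sub_add_cancel h3
    calc (Finset.piAntidiag (Finset.univ : Finset ι) (c + 1)).card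
        ≤ _ := Finset.card_le_card hsub
      _ ≤ _ := Finset.card_image_le
      _ = Fintype.card ι * (Finset.piAntidiag (Finset.univ : Finset ι) c).card := by
          rw [Finset.card_product, Finset.card_univ]
      _ ≤ Fintype.card ι * Fintype.card ι ^ c := Nat.mul_le_mul_left _ ih
      _ = Fintype.card ι ^ (c + 1) := by rw [pow_succ]; ring

open Classical in
theorem shapes_eq (ι : Type*) [Fintype ι] (c : ℕ) :
    {x : ι → ℕ | ∑ i, x i = c} = (Finset.piAntidiag (Finset.univ : Finset ι) c : Set (ι → ℕ)) := by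
  ext x
  simp [Finset.mem_piAntidiag]

theorem shapes_finite (ι : Type*) [Fintype ι] (c : ℕ) : {x : ι → ℕ | ∑ i, x i = c}.Finite := by
  classical
  rw [shapes_eq]
  exact Finset.finite_toSet _

/-- number of shapes -/
theorem card_shapes (ι : Type*) [Fintype ι] [DecidableEq ι] (c : ℕ) :
    {x : ι → ℕ | ∑ i, x i = c}.ncard ≤ Fintype.card ι ^ c := by
  classical
  rw [shapes_eq, Set.ncard_coe_finset]
  exact card_shapes_aux ι c

theorem card_boxes (m : ℕ) :
    {R : BoxT n d | R.1 ≤ R.2 ∧ phi R = m}.ncard ≤ n ^ d * d ^ m := by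
  classical
  have h1 : {R : BoxT n d | R.1 ≤ R.2 ∧ phi R = m}.ncard ≤
      ((Set.univ : Set (Vtx n d)) ×ˢ {x : Fin d → ℕ | ∑ i, x i = m}).ncard := by
    refine Set.ncard_le_ncard_of_injOn (fun R => (R.2, fun i => (R.2 i : ℕ) - R.1 i)) ?_ ?_
      (Set.finite_univ.prod (shapes_finite _ _))
    · rintro R ⟨-, hR⟩
      exact ⟨trivial, hR⟩
    · rintro R ⟨hR, -⟩ S ⟨hS, -⟩ h
      have e1 : R.2 = S.2 := congrArg Prod.fst h
      have e2 : (fun i => (R.2 i : ℕ) - R.1 i) = fun i => (S.2 i : ℕ) - S.1 i :=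
        congrArg Prod.snd h
      refine Prod.ext ?_ e1
      funext i
      have e3 : (R.2 i : ℕ) - R.1 i = (S.2 i : ℕ) - S.1 i := congrFun e2 i
      have e4 : (R.2 i : ℕ) = S.2 i := by rw [e1]
      have e5 : (R.1 i : ℕ) ≤ R.2 i := Fin.le_def.1 (hR i)
      have e6 : (S.1 i : ℕ) ≤ S.2 i := Fin.le_def.1 (hS i)
      exact Fin.ext (by omega)
  refine h1.trans ?_
  rw [Set.ncard_prod]
  refine Nat.mul_le_mul ?_ ?_
  · rw [Set.ncard_univ, Nat.card_eq_fintype_card, Fintype.card_fun, Fintype.card_fin,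
      Fintype.card_fin]
  · simpa using card_shapes (Fin d) m

/-- number of points of a face of a box -/
theorem card_face (hd : 2 ≤ d) (R : BoxT n d) (hR : R.1 ≤ R.2) (i : Fin d) (y : Fin n) :
    ({x : Vtx n d | R.1 ≤ x ∧ x ≤ R.2 ∧ x i = y}.ncard : ℝ) ≤
      Real.exp (sfun (d - 1) (phi R)) := by
  classical
  set I : Finset (Fin d) := Finset.univ.erase i with hI
  have hIc : I.card = d - 1 := by
    rw [hI, Finset.card_erase_of_mem (Finset.mem_univ _), Finset.card_univ, Fintype.card_fin]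
  have h1 : {x : Vtx n d | R.1 ≤ x ∧ x ≤ R.2 ∧ x i = y}.ncard ≤
      (I.pi fun j => Finset.Icc (R.1 j) (R.2 j)).card := by
    rw [← Set.ncard_coe_finset]
    refine Set.ncard_le_ncard_of_injOn (fun x => fun j _ => x j) ?_ ?_
    · rintro x ⟨h1, h2, -⟩
      rw [Finset.mem_coe, Finset.mem_pi]
      intro j _
      rw [Finset.mem_Icc]
      exact ⟨h1 j, h2 j⟩
    · rintro x ⟨-, -, hx⟩ x' ⟨-, -, hx'⟩ h
      funext j
      by_cases hj : j = i
      · rw [hj, hx, hx']
      · exact congrFun (congrFun h j) (Finset.mem_erase.2 ⟨hj, Finset.mem_univ _⟩)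
  have h2 : (I.pi fun j => Finset.Icc (R.1 j) (R.2 j)).card =
      ∏ j ∈ I, (1 + ((R.2 j : ℕ) - R.1 j)) := by
    rw [Finset.card_pi]
    refine Finset.prod_congr rfl fun j _ => ?_
    rw [Fin.card_Icc]
    have e5 : (R.1 j : ℕ) ≤ R.2 j := Fin.le_def.1 (hR j)
    omega
  rw [h2] at h1
  have h3 : ∑ j ∈ I, Real.log (1 + (((R.2 j : ℕ) - R.1 j : ℕ) : ℝ)) ≤
      sfun (d - 1) (phi R) := by
    refine sum_log_le_sfun I (d - 1) (phi R) (by omega) hIc
      (fun j => (R.2 j : ℕ) - R.1 j) ?_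
    exact Finset.sum_le_sum_of_subset (Finset.subset_univ _)
  calc ({x : Vtx n d | R.1 ≤ x ∧ x ≤ R.2 ∧ x i = y}.ncard : ℝ)
      ≤ ((∏ j ∈ I, (1 + ((R.2 j : ℕ) - R.1 j)) : ℕ) : ℝ) := by exact_mod_cast h1
    _ = ∏ j ∈ I, (1 + (((R.2 j : ℕ) - R.1 j : ℕ) : ℝ)) := by push_cast; rfl
    _ = Real.exp (∑ j ∈ I, Real.log (1 + (((R.2 j : ℕ) - R.1 j : ℕ) : ℝ))) := by
        rw [Real.exp_sum]
        refine Finset.prod_congr rfl fun j _ => ?_
        rw [Real.exp_log (by positivity)]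
    _ ≤ _ := Real.exp_le_exp.2 h3

theorem hull_le {R : BoxT n d} {P : BoxT n d × BoxT n d} (h : hull P.1 P.2 = R) :
    (R.1 ≤ P.1.1 ∧ P.1.2 ≤ R.2) ∧ (R.1 ≤ P.2.1 ∧ P.2.2 ≤ R.2) := by
  have e1 : P.1.1 ⊓ P.2.1 = R.1 := congrArg Prod.fst h
  have e2 : P.1.2 ⊔ P.2.2 = R.2 := congrArg Prod.snd h
  rw [← e1, ← e2]
  exact ⟨⟨inf_le_left, le_sup_left⟩, ⟨inf_le_right, le_sup_right⟩⟩

/-- number of the first components -/
theorem card_first (R : BoxT n d) (c : ℕ) :
    {S : BoxT n d | S.1 ≤ S.2 ∧ R.1 ≤ S.1 ∧ S.2 ≤ R.2 ∧ phi S + c = phi R}.ncard ≤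
      (2 * d) ^ c := by
  classical
  have h1 : {S : BoxT n d | S.1 ≤ S.2 ∧ R.1 ≤ S.1 ∧ S.2 ≤ R.2 ∧ phi S + c = phi R}.ncard ≤
      {x : Fin d ⊕ Fin d → ℕ | ∑ i, x i = c}.ncard := by
    refine Set.ncard_le_ncard_of_injOn
      (fun S => Sum.elim (fun i => (S.1 i : ℕ) - R.1 i) (fun i => (R.2 i : ℕ) - S.2 i)) ?_ ?_
      (shapes_finite _ _)
    · rintro S ⟨hS, h1, h2, h3⟩
      change ∑ i, _ = c
      rw [Fintype.sum_sum_type]
      simp only [Sum.elim_inl, Sum.elim_inr]
      have h4 : phi S + (∑ i, ((S.1 i : ℕ) - R.1 i) + ∑ i, ((R.2 i : ℕ) - S.2 i)) = phi R := by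
        unfold phi
        rw [← Finset.sum_add_distrib, ← Finset.sum_add_distrib]
        refine Finset.sum_congr rfl fun i _ => ?_
        have e1 : (S.1 i : ℕ) ≤ S.2 i := Fin.le_def.1 (hS i)
        have e2 : (R.1 i : ℕ) ≤ S.1 i := Fin.le_def.1 (h1 i)
        have e3 : (S.2 i : ℕ) ≤ R.2 i := Fin.le_def.1 (h2 i)
        omega
      omega
    · rintro S ⟨hS, h1, h2, h3⟩ S' ⟨hS', h1', h2', h3'⟩ h
      have e1 : ∀ i, (S.1 i : ℕ) - R.1 i = (S'.1 i : ℕ) - R.1 i := by
        intro i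
        exact congrFun h (Sum.inl i)
      have e2 : ∀ i, (R.2 i : ℕ) - S.2 i = (R.2 i : ℕ) - S'.2 i := by
        intro i
        exact congrFun h (Sum.inr i)
      refine Prod.ext (funext fun i => Fin.ext ?_) (funext fun i => Fin.ext ?_)
      · have := e1 i
        have e3 : (R.1 i : ℕ) ≤ S.1 i := Fin.le_def.1 (h1 i)
        have e4 : (R.1 i : ℕ) ≤ S'.1 i := Fin.le_def.1 (h1' i)
        omega
      · have := e2 i
        have e3 : (S.2 i : ℕ) ≤ R.2 i := Fin.le_def.1 (h2 i)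
        have e4 : (S'.2 i : ℕ) ≤ R.2 i := Fin.le_def.1 (h2' i)
        omega
  refine h1.trans ((card_shapes (Fin d ⊕ Fin d) c).trans_eq ?_)
  rw [Fintype.card_sum, Fintype.card_fin, two_mul]

/-- number of the second components, for a given first one -/
theorem card_second (hd : 2 ≤ d) (R : BoxT n d) (hR : R.1 ≤ R.2) (S : BoxT n d) (h : ℕ) :
    ({P : BoxT n d × BoxT n d | PairOK R P ∧ P.1 = S ∧ phi P.2 = h}.ncard : ℝ) ≤
      d ^ h * Real.exp (sfun (d - 1) (phi R)) := by
  classical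
  by_cases hS : S = R
  · have h1 : {P : BoxT n d × BoxT n d | PairOK R P ∧ P.1 = S ∧ phi P.2 = h} = ∅ := by
      rw [eq_empty_iff_forall_notMem]
      rintro P ⟨hP, h2, -⟩
      exact hP.2.2.2.2.1 (h2.trans hS)
    rw [h1, Set.ncard_empty]
    simp only [Nat.cast_zero]
    positivity
  · have hcase : (∃ i, S.2 i ≠ R.2 i) ∨ (∃ i, S.1 i ≠ R.1 i) := by
      by_contra hno
      rw [not_or, not_exists, not_exists] at hno
      refine hS (Prod.ext (funext fun i => ?_) (funext fun i => ?_))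
      · by_contra h1; exact hno.2 i h1
      · by_contra h1; exact hno.1 i h1
    have hsh := card_shapes (Fin d) h
    rw [Fintype.card_fin] at hsh
    have hsh' : ({x : Fin d → ℕ | ∑ i, x i = h}.ncard : ℝ) ≤ (d : ℝ) ^ h := by
      exact_mod_cast hsh
    rcases hcase with ⟨i, hi⟩ | ⟨i, hi⟩
    · have h1 : {P : BoxT n d × BoxT n d | PairOK R P ∧ P.1 = S ∧ phi P.2 = h}.ncard ≤
          ({x : Fin d → ℕ | ∑ i, x i = h} ×ˢ
            {x : Vtx n d | R.1 ≤ x ∧ x ≤ R.2 ∧ x i = R.2 i}).ncard := by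
        refine Set.ncard_le_ncard_of_injOn
          (fun P => ((fun j => (P.2.2 j : ℕ) - P.2.1 j), P.2.2)) ?_ ?_
          ((shapes_finite _ _).prod (Set.toFinite _))
        · rintro P ⟨hP, h2, h3⟩
          obtain ⟨p1, p2, p3, p4, p5, p6⟩ := hP
          have h5 := hull_le p4
          refine ⟨h3, h5.2.1.trans p2, h5.2.2, ?_⟩
          have e2 : P.1.2 i ⊔ P.2.2 i = R.2 i := congrFun (congrArg Prod.snd p4) i
          rcases le_total (P.1.2 i) (P.2.2 i) with h6 | h6
          · rw [sup_eq_right.2 h6] at e2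
            exact e2
          · rw [sup_eq_left.2 h6, h2] at e2
            exact absurd e2 hi
        · rintro P ⟨hP, h2, h3⟩ Q ⟨hQ, h2', h3'⟩ he
          have e1 : P.2.2 = Q.2.2 := (Prod.mk.inj he).2
          have e2 : ∀ j, (P.2.2 j : ℕ) - P.2.1 j = (Q.2.2 j : ℕ) - Q.2.1 j :=
            fun j => congrFun (Prod.mk.inj he).1 j
          refine Prod.ext (h2.trans h2'.symm) (Prod.ext (funext fun j => Fin.ext ?_) e1)
          have e3 := e2 j
          have e4 : (P.2.1 j : ℕ) ≤ P.2.2 j := Fin.le_def.1 (hP.2.1 j)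
          have e5 : (Q.2.1 j : ℕ) ≤ Q.2.2 j := Fin.le_def.1 (hQ.2.1 j)
          have e6 : (P.2.2 j : ℕ) = Q.2.2 j := by rw [e1]
          omega
      rw [Set.ncard_prod] at h1
      have h2 : ({P : BoxT n d × BoxT n d | PairOK R P ∧ P.1 = S ∧ phi P.2 = h}.ncard : ℝ) ≤
          ({x : Fin d → ℕ | ∑ i, x i = h}.ncard : ℝ) *
            ({x : Vtx n d | R.1 ≤ x ∧ x ≤ R.2 ∧ x i = R.2 i}.ncard : ℝ) := by
        exact_mod_cast h1
      exact h2.trans (mul_le_mul hsh' (card_face hd R hR i _) (Nat.cast_nonneg _)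
        (by positivity))
    · have h1 : {P : BoxT n d × BoxT n d | PairOK R P ∧ P.1 = S ∧ phi P.2 = h}.ncard ≤
          ({x : Fin d → ℕ | ∑ i, x i = h} ×ˢ
            {x : Vtx n d | R.1 ≤ x ∧ x ≤ R.2 ∧ x i = R.1 i}).ncard := by
        refine Set.ncard_le_ncard_of_injOn
          (fun P => ((fun j => (P.2.2 j : ℕ) - P.2.1 j), P.2.1)) ?_ ?_
          ((shapes_finite _ _).prod (Set.toFinite _))
        · rintro P ⟨hP, h2, h3⟩
          obtain ⟨p1, p2, p3, p4, p5, p6⟩ := hP
          have h5 := hull_le p4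
          refine ⟨h3, h5.2.1, p2.trans h5.2.2, ?_⟩
          have e2 : P.1.1 i ⊓ P.2.1 i = R.1 i := congrFun (congrArg Prod.fst p4) i
          rcases le_total (P.1.1 i) (P.2.1 i) with h6 | h6
          · rw [inf_eq_left.2 h6, h2] at e2
            exact absurd e2 hi
          · rw [inf_eq_right.2 h6] at e2
            exact e2
        · rintro P ⟨hP, h2, h3⟩ Q ⟨hQ, h2', h3'⟩ he
          have e1 : P.2.1 = Q.2.1 := congrArg Prod.snd he
          have e2 : ∀ j, (P.2.2 j : ℕ) - P.2.1 j = (Q.2.2 j : ℕ) - Q.2.1 j :=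
            fun j => congrFun (congrArg Prod.fst he) j
          refine Prod.ext (h2.trans h2'.symm) (Prod.ext e1 (funext fun j => Fin.ext ?_))
          have e3 := e2 j
          have e4 : (P.2.1 j : ℕ) ≤ P.2.2 j := Fin.le_def.1 (hP.2.1 j)
          have e5 : (Q.2.1 j : ℕ) ≤ Q.2.2 j := Fin.le_def.1 (hQ.2.1 j)
          have e6 : (P.2.1 j : ℕ) = Q.2.1 j := by rw [e1]
          omega
      rw [Set.ncard_prod] at h1
      have h2 : ({P : BoxT n d × BoxT n d | PairOK R P ∧ P.1 = S ∧ phi P.2 = h}.ncard : ℝ) ≤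
          ({x : Fin d → ℕ | ∑ i, x i = h}.ncard : ℝ) *
            ({x : Vtx n d | R.1 ≤ x ∧ x ≤ R.2 ∧ x i = R.1 i}.ncard : ℝ) := by
        exact_mod_cast h1
      exact h2.trans (mul_le_mul hsh' (card_face hd R hR i _) (Nat.cast_nonneg _)
        (by positivity))

theorem card_pairs (hd : 2 ≤ d) (R : BoxT n d) (hR : R.1 ≤ R.2) (c h : ℕ) (hc : 1 ≤ c) :
    ({P : BoxT n d × BoxT n d | PairOK R P ∧ phi P.1 + c = phi R ∧ phi P.2 = h}.ncard : ℝ) ≤
      (2 * d) ^ c * d ^ h * Real.exp (sfun (d - 1) (phi R)) := by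
  classical
  set K : ℝ := d ^ h * Real.exp (sfun (d - 1) (phi R)) with hK
  have hK0 : 0 ≤ K := by positivity
  set T : Finset (BoxT n d × BoxT n d) :=
    Finset.univ.filter (fun P => PairOK R P ∧ phi P.1 + c = phi R ∧ phi P.2 = h) with hT
  have hTc : {P : BoxT n d × BoxT n d | PairOK R P ∧ phi P.1 + c = phi R ∧ phi P.2 = h}.ncard
      = T.card := by
    rw [← Set.ncard_coe_finset]
    congr 1
    ext P
    simp [hT]
  have h1 : T.card ≤ ⌊K⌋₊ * (T.image Prod.fst).card := by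
    refine Finset.card_le_mul_card_image T _ fun S _ => ?_
    apply Nat.le_floor
    refine le_trans ?_ (card_second hd R hR S h)
    have : (T.filter fun P => P.1 = S).card ≤
        {P : BoxT n d × BoxT n d | PairOK R P ∧ P.1 = S ∧ phi P.2 = h}.ncard := by
      rw [← Set.ncard_coe_finset]
      refine Set.ncard_le_ncard ?_ (Set.toFinite _)
      intro P hP
      rw [Finset.mem_coe, Finset.mem_filter, hT, Finset.mem_filter] at hP
      exact ⟨hP.1.2.1, hP.2, hP.1.2.2.2⟩
    exact_mod_cast this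
  have h2 : (T.image Prod.fst).card ≤ (2 * d) ^ c := by
    refine le_trans ?_ (card_first R c)
    rw [← Set.ncard_coe_finset]
    refine Set.ncard_le_ncard ?_ (Set.toFinite _)
    intro S hS
    rw [Finset.mem_coe, Finset.mem_image] at hS
    obtain ⟨P, hP, rfl⟩ := hS
    rw [hT, Finset.mem_filter] at hP
    obtain ⟨-, ⟨p1, p2, p3, p4, p5, p6⟩, h3, -⟩ := hP
    have h5 := hull_le p4
    exact ⟨p1, h5.1.1, h5.1.2, h3⟩
  rw [hTc]
  have h3 : (T.card : ℝ) ≤ (⌊K⌋₊ : ℝ) * ((T.image Prod.fst).card : ℝ) := by exact_mod_cast h1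
  have h4 : ((T.image Prod.fst).card : ℝ) ≤ (2 * (d : ℝ)) ^ c := by exact_mod_cast h2
  calc (T.card : ℝ) ≤ (⌊K⌋₊ : ℝ) * ((T.image Prod.fst).card : ℝ) := h3
    _ ≤ K * (2 * (d : ℝ)) ^ c :=
        mul_le_mul (Nat.floor_le hK0) h4 (Nat.cast_nonneg _) hK0
    _ = _ := by rw [hK]; ring

theorem card_Icc_le (R : BoxT n d) : (Finset.Icc R.1 R.2).card ≤ 2 ^ phi R := by
  rw [Pi.card_Icc, phi, ← Finset.prod_pow_eq_pow_sum]
  refine Finset.prod_le_prod' fun i _ => ?_
  rw [Fin.card_Icc]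
  have h1 : (R.2 i : ℕ) - R.1 i < 2 ^ ((R.2 i : ℕ) - R.1 i) := Nat.lt_two_pow_self
  omega

open Classical in
theorem wt_le_sum (p : ℝ) (hp : 0 ≤ p) (R : BoxT n d) (hR : R.1 ≠ R.2) :
    wt p R ≤ ∑ P : BoxT n d × BoxT n d with PairOK R P, wt p P.1 * wt p P.2 := by
  have hmerge : ∀ W : Finset (Vtx n d), Span W R →
      ∃ t : (_ : BoxT n d × BoxT n d) × (Finset (Vtx n d) × Finset (Vtx n d)),
        PairOK R t.1 ∧ Span t.2.1 t.1.1 ∧ Span t.2.2 t.1.2 ∧ Disjoint t.2.1 t.2.2 ∧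
        t.2.1 ∪ t.2.2 = W := by
    intro W hW
    cases hW with
    | single x => exact absurd rfl hR
    | @merge W₁ W₂ R₁ R₂ h₁ h₂ hd hn hne₁ hne₂ =>
      exact ⟨⟨(R₁, R₂), (W₁, W₂)⟩, ⟨h₁.le, h₂.le, hn, rfl, fun e => hne₁ e.symm,
        fun e => hne₂ e.symm⟩, h₁, h₂, hd, rfl⟩
  have hinh : Nonempty ((_ : BoxT n d × BoxT n d) × (Finset (Vtx n d) × Finset (Vtx n d))) :=
    ⟨⟨(R, R), (∅, ∅)⟩⟩
  choose! φ hφ using hmerge
  set S : Finset (Finset (Vtx n d)) := Finset.univ.filter (fun W => Span W R) with hS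
  set T : Finset ((_ : BoxT n d × BoxT n d) × (Finset (Vtx n d) × Finset (Vtx n d))) :=
    (Finset.univ.filter (fun P : BoxT n d × BoxT n d => PairOK R P)).sigma
      (fun P => (Finset.univ.filter (fun W => Span W P.1)) ×ˢ
        (Finset.univ.filter (fun W => Span W P.2))) with hT
  have hmemS : ∀ W, W ∈ S ↔ Span W R := by
    intro W; simp [hS]
  have h1 : wt p R = ∑ W ∈ S, p ^ (φ W).2.1.card * p ^ (φ W).2.2.card := by
    unfold wt
    refine Finset.sum_congr rfl fun W hW => ?_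
    obtain ⟨h1, h2, h3, h4, h5⟩ := hφ W ((hmemS W).1 hW)
    rw [← pow_add, ← Finset.card_union_of_disjoint h4, h5]
  have hinj : Set.InjOn φ (S : Set (Finset (Vtx n d))) := by
    intro W hW W' hW' he
    rw [Finset.mem_coe, hmemS] at hW hW'
    rw [← (hφ W hW).2.2.2.2, ← (hφ W' hW').2.2.2.2, he]
  have h2 : ∑ W ∈ S, p ^ (φ W).2.1.card * p ^ (φ W).2.2.card =
      ∑ t ∈ S.image φ, p ^ t.2.1.card * p ^ t.2.2.card :=
    (Finset.sum_image (f := fun t : (_ : BoxT n d × BoxT n d) × (Finset (Vtx n d) ×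
      Finset (Vtx n d)) => p ^ t.2.1.card * p ^ t.2.2.card) hinj).symm
  have h3 : S.image φ ⊆ T := by
    intro t ht
    rw [Finset.mem_image] at ht
    obtain ⟨W, hW, rfl⟩ := ht
    obtain ⟨h1, h2, h3, h4, h5⟩ := hφ W ((hmemS W).1 hW)
    rw [hT, Finset.mem_sigma, Finset.mem_product, Finset.mem_filter, Finset.mem_filter,
      Finset.mem_filter]
    exact ⟨⟨Finset.mem_univ _, h1⟩, ⟨Finset.mem_univ _, h2⟩, ⟨Finset.mem_univ _, h3⟩⟩
  rw [h1, h2]
  refine (Finset.sum_le_sum_of_subset_of_nonneg h3 fun _ _ _ => by positivity).trans ?_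
  rw [hT, Finset.sum_sigma]
  refine Finset.sum_le_sum fun P _ => ?_
  rw [Finset.sum_product]
  unfold wt
  rw [Finset.sum_mul_sum]

theorem wt_eq_of_eq (p : ℝ) (R : BoxT n d) (hR : R.1 = R.2) : wt p R = p := by
  classical
  obtain ⟨x, y⟩ := R
  obtain rfl : x = y := hR
  have h1 : ∀ W : Finset (Vtx n d), Span W (x, x) ↔ W = {x} := by
    intro W
    constructor
    · intro h
      have h2 := h.subset
      have h3 := h.card
      have h4 : W ⊆ {x} := by
        intro y hy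
        rw [Finset.mem_singleton]
        exact le_antisymm (h2 y hy).2 (h2 y hy).1
      rcases Finset.subset_singleton_iff.1 h4 with h5 | h5
      · rw [h5] at h3
        simp at h3
      · exact h5
    · rintro rfl
      exact Span.single x
  unfold wt
  rw [Finset.sum_eq_single {x}]
  · simp
  · intro W hW hne
    rw [Finset.mem_filter, h1] at hW
    exact absurd hW.2 hne
  · intro h
    rw [Finset.mem_filter, h1] at h
    simp at h

theorem geom_tail (x : ℝ) (hx0 : 0 ≤ x) (hx : x ≤ 1 / 2) (k K : ℕ) :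
    ∑ m ∈ Finset.range K, (if k ≤ m then x ^ m else 0) ≤ 2 * x ^ k := by
  have key : ∀ K : ℕ, (K ≤ k → ∑ m ∈ Finset.range K, (if k ≤ m then x ^ m else 0) = 0) ∧
      (k ≤ K → ∑ m ∈ Finset.range K, (if k ≤ m then x ^ m else 0) ≤
        2 * x ^ k - 2 * x ^ K) := by
    intro K
    induction K with
    | zero =>
      refine ⟨fun _ => by simp, fun h => ?_⟩
      obtain rfl : k = 0 := by omega
      simp
    | succ K ih =>
      refine ⟨fun h => ?_, fun h => ?_⟩
      · rw [Finset.sum_range_succ, ih.1 (by omega), if_neg (by omega), add_zero]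
      · rw [Finset.sum_range_succ]
        rcases Nat.lt_or_ge K k with h1 | h1
        · obtain rfl : k = K + 1 := by omega
          rw [ih.1 (by omega), if_neg (by omega)]
          simp
        · rw [if_pos h1]
          have h2 := ih.2 h1
          have h3 : x ^ (K + 1) ≤ x ^ K * (1 / 2) := by
            rw [pow_succ]
            exact mul_le_mul_of_nonneg_left hx (pow_nonneg hx0 _)
          linarith
  rcases Nat.le_total K k with h | h
  · rw [(key K).1 h]
    positivity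
  · have h1 := (key K).2 h
    have h2 : 0 ≤ x ^ K := pow_nonneg hx0 _
    linarith

theorem wt_crude (p : ℝ) (hp : 0 ≤ p) (R : BoxT n d) (hR : R.1 ≤ R.2)
    (h : 2 ^ phi R * p ≤ 1 / 2) (k : ℕ) (hk : 2 * k ≤ phi R + 3) :
    wt p R ≤ 2 * (2 ^ phi R * p) ^ k := by
  classical
  set B : Finset (Vtx n d) := Finset.Icc R.1 R.2 with hB
  have h1 : wt p R ≤ ∑ W ∈ B.powerset, (if k ≤ W.card then p ^ W.card else 0) := by
    unfold wt
    have h2 : ∑ W : Finset (Vtx n d) with Span W R, p ^ W.card =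
        ∑ W : Finset (Vtx n d) with Span W R, (if k ≤ W.card then p ^ W.card else 0) := by
      refine Finset.sum_congr rfl fun W hW => ?_
      rw [Finset.mem_filter] at hW
      have h3 := hW.2.card
      rw [if_pos (by omega)]
    rw [h2]
    refine Finset.sum_le_sum_of_subset_of_nonneg ?_ ?_
    · intro W hW
      rw [Finset.mem_filter] at hW
      rw [Finset.mem_powerset]
      intro x hx
      rw [hB, Finset.mem_Icc]
      exact hW.2.subset x hx
    · intro W _ _
      split_ifs <;> positivity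
  have h2 : ∑ W ∈ B.powerset, (if k ≤ W.card then p ^ W.card else 0) =
      ∑ m ∈ Finset.range (B.card + 1), (B.card).choose m • (if k ≤ m then p ^ m else 0) :=
    Finset.sum_powerset_apply_card (fun m => if k ≤ m then p ^ m else 0)
  have h3 : (B.card : ℝ) ≤ 2 ^ phi R := by exact_mod_cast card_Icc_le R
  refine h1.trans (h2.le.trans (le_trans ?_
    (geom_tail (2 ^ phi R * p) (by positivity) h k (B.card + 1))))
  refine Finset.sum_le_sum fun m _ => ?_
  split_ifs with hm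
  · rw [nsmul_eq_mul, mul_pow]
    refine mul_le_mul_of_nonneg_right ?_ (pow_nonneg hp _)
    calc ((B.card).choose m : ℝ) ≤ (B.card : ℝ) ^ m := by
          exact_mod_cast Nat.choose_le_pow _ _
      _ ≤ (2 ^ phi R) ^ m := by gcongr
  · simp

end Pool.Agent.Lib.MP_8501c9_pr
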