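import Pool.Agent.Lib.MP_8501c9_pr.Defs

/-!
# An Aizenman-Lebowitz type lemma
-/

set_option autoImplicit false
open Set

namespace Pool.Agent.Lib.MP_8501c9_pr

variable {n d : ℕ}

theorem hull_fst (R S : BoxT n d) (i : Fin d) :
    ((hull R S).1 i : ℕ) = min (R.1 i : ℕ) (S.1 i) := by
  change (((R.1 i) ⊓ (S.1 i) : Fin n) : ℕ) = _
  rcases le_total (R.1 i) (S.1 i) with h | h
  · rw [inf_eq_left.2 h, min_eq_left (Fin.le_def.1 h)]
  · rw [inf_eq_right.2 h, min_eq_right (Fin.le_def.1 h)]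

theorem hull_snd (R S : BoxT n d) (i : Fin d) :
    ((hull R S).2 i : ℕ) = max (R.2 i : ℕ) (S.2 i) := by
  change (((R.2 i) ⊔ (S.2 i) : Fin n) : ℕ) = _
  rcases le_total (R.2 i) (S.2 i) with h | h
  · rw [sup_eq_right.2 h, max_eq_right (Fin.le_def.1 h)]
  · rw [sup_eq_left.2 h, max_eq_left (Fin.le_def.1 h)]

theorem phi_hull_le {R S : BoxT n d} (hR : R.1 ≤ R.2) (hS : S.1 ≤ S.2) (h : Near R S) :
    phi (hull R S) ≤ phi R + phi S + 2 := by
  have key : phi (hull R S) ≤ ∑ i, ((((R.2 i : ℕ) - R.1 i) + ((S.2 i : ℕ) - S.1 i)) +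
      (((S.1 i : ℕ) - R.2 i) + ((R.1 i : ℕ) - S.2 i))) := by
    refine Finset.sum_le_sum fun i _ => ?_
    rw [hull_fst, hull_snd]
    have h1 : (R.1 i : ℕ) ≤ R.2 i := Fin.le_def.1 (hR i)
    have h2 : (S.1 i : ℕ) ≤ S.2 i := Fin.le_def.1 (hS i)
    omega
  rw [Finset.sum_add_distrib, Finset.sum_add_distrib] at key
  unfold Near at h
  unfold phi at *
  omega

theorem Span.le {W : Finset (Vtx n d)} {R : BoxT n d} (h : Span W R) : R.1 ≤ R.2 := by
  induction h with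
  | single x => exact le_rfl
  | @merge W₁ W₂ R₁ R₂ h₁ h₂ hd hn hne₁ hne₂ ih₁ ih₂ =>
    change R₁.1 ⊓ R₂.1 ≤ R₁.2 ⊔ R₂.2
    exact inf_le_left.trans (ih₁.trans le_sup_left)

theorem Span.subset {W : Finset (Vtx n d)} {R : BoxT n d} (h : Span W R) :
    ∀ x ∈ W, R.1 ≤ x ∧ x ≤ R.2 := by
  induction h with
  | single x =>
    intro y hy
    rw [Finset.mem_singleton] at hy
    subst hy
    exact ⟨le_rfl, le_rfl⟩
  | @merge W₁ W₂ R₁ R₂ h₁ h₂ hd hn hne₁ hne₂ ih₁ ih₂ =>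
    intro y hy
    change R₁.1 ⊓ R₂.1 ≤ y ∧ y ≤ R₁.2 ⊔ R₂.2
    rw [Finset.mem_union] at hy
    rcases hy with hy | hy
    · exact ⟨inf_le_left.trans (ih₁ y hy).1, (ih₁ y hy).2.trans le_sup_left⟩
    · exact ⟨inf_le_right.trans (ih₂ y hy).1, (ih₂ y hy).2.trans le_sup_right⟩

theorem Span.card {W : Finset (Vtx n d)} {R : BoxT n d} (h : Span W R) :
    phi R + 2 ≤ 2 * W.card := by
  induction h with
  | single x => simp [phi]
  | @merge W₁ W₂ R₁ R₂ h₁ h₂ hd hn hne₁ hne₂ ih₁ ih₂ =>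
    have := phi_hull_le h₁.le h₂.le hn
    rw [Finset.card_union_of_disjoint hd]
    omega

/-- A closed set containing `A` contains its closure. -/
theorem bclosure_subset_aux {A U : Set (Vtx n d)} (hA : A ⊆ U) (hU : Closed U) :
    bclosure 2 A ⊆ U := by
  have key : ∀ t : ℕ, (step 2)^[t] A ⊆ U := by
    intro t
    induction t with
    | zero => exact hA
    | succ t ih =>
      rw [Function.iterate_succ_apply']
      rintro v (hv | hv)
      · exact ih hv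
      · have hv' : 1 < {u | u ∈ (step 2)^[t] A ∧ Adj v u}.ncard := hv
        obtain ⟨x, y, hx, hy, hxy⟩ := (Set.one_lt_ncard_iff (Set.toFinite _)).1 hv'
        exact hU v x y (ih hx.1) (ih hy.1) hxy hx.2 hy.2
  exact Set.iUnion_subset key

/-- the distance of two boxes is at most the distance of two of their points -/
theorem near_of_mem {R S : BoxT n d} {x y : Vtx n d} (hx : R.1 ≤ x ∧ x ≤ R.2)
    (hy : S.1 ≤ y ∧ y ≤ S.2)
    (h : ∑ i, (((y i : ℕ) - x i) + ((x i : ℕ) - y i)) ≤ 2) : Near R S := by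
  unfold Near
  refine le_trans (Finset.sum_le_sum fun i _ => ?_) h
  have h1 : (R.1 i : ℕ) ≤ x i := Fin.le_def.1 (hx.1 i)
  have h2 : (x i : ℕ) ≤ R.2 i := Fin.le_def.1 (hx.2 i)
  have h3 : (S.1 i : ℕ) ≤ y i := Fin.le_def.1 (hy.1 i)
  have h4 : (y i : ℕ) ≤ S.2 i := Fin.le_def.1 (hy.2 i)
  omega

theorem sum_adj {x y : Vtx n d} (h : Adj x y) :
    ∑ i, (((y i : ℕ) - x i) + ((x i : ℕ) - y i)) = 1 := by
  obtain ⟨i, h1, h2⟩ := h
  rw [Finset.sum_eq_single i]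
  · omega
  · intro j _ hj
    rw [h1 j hj]
    omega
  · intro hi
    exact absurd (Finset.mem_univ i) hi

theorem mem_box_of_adj {R : BoxT n d} {v x y : Vtx n d} (hx : R.1 ≤ x ∧ x ≤ R.2)
    (hy : R.1 ≤ y ∧ y ≤ R.2) (hxy : x ≠ y) (h1 : Adj v x) (h2 : Adj v y) :
    R.1 ≤ v ∧ v ≤ R.2 := by
  obtain ⟨i, hi, hi'⟩ := h1
  obtain ⟨j, hj, hj'⟩ := h2
  have key : ∀ l, R.1 l ≤ v l ∧ v l ≤ R.2 l := by
    intro l
    by_cases hl : l = i
    · by_cases hl' : l = j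
      · subst hl
        subst hl'
        have hne : (x l : ℕ) ≠ y l := by
          intro he
          apply hxy
          funext m
          by_cases hm : m = l
          · rw [hm]; exact Fin.ext he
          · rw [← hi m hm, ← hj m hm]
        have h3 : (R.1 l : ℕ) ≤ x l := Fin.le_def.1 (hx.1 l)
        have h4 : (x l : ℕ) ≤ R.2 l := Fin.le_def.1 (hx.2 l)
        have h5 : (R.1 l : ℕ) ≤ y l := Fin.le_def.1 (hy.1 l)
        have h6 : (y l : ℕ) ≤ R.2 l := Fin.le_def.1 (hy.2 l)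
        rw [Fin.le_def, Fin.le_def]
        omega
      · rw [hj l hl']
        exact ⟨hy.1 l, hy.2 l⟩
    · rw [hi l hl]
      exact ⟨hx.1 l, hx.2 l⟩
  exact ⟨fun l => (key l).1, fun l => (key l).2⟩

/-- The induction. -/
theorem crossing_aux {A : Finset (Vtx n d)}
    (hA : Percolates 2 (A : Set (Vtx n d))) (k : ℕ) (hk : 1 ≤ k) (hkn : k ≤ d * (n - 1))
    (N : ℕ) : ∀ 𝒞 : Finset (Finset (Vtx n d) × BoxT n d), 𝒞.card = N →
      (∀ P ∈ 𝒞, Span P.1 P.2 ∧ P.1 ⊆ A ∧ phi P.2 < k) →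
      (∀ P ∈ 𝒞, ∀ Q ∈ 𝒞, P ≠ Q → Disjoint P.1 Q.1) →
      (∀ x ∈ A, ∃ P ∈ 𝒞, P.2.1 ≤ x ∧ x ≤ P.2.2) →
    ∃ (W₁ W₂ : Finset (Vtx n d)) (R₁ R₂ : BoxT n d), Span W₁ R₁ ∧ Span W₂ R₂ ∧ Disjoint W₁ W₂ ∧
      W₁ ⊆ A ∧ W₂ ⊆ A ∧ Near R₁ R₂ ∧ phi R₁ < k ∧ phi R₂ < k ∧ k ≤ phi (hull R₁ R₂) := by
  classical
  induction N using Nat.strong_induction_on with
  | _ N ih =>
  intro 𝒞 hcard h1 h2 h3
  by_cases hnear : ∃ P ∈ 𝒞, ∃ Q ∈ 𝒞, P ≠ Q ∧ Near P.2 Q.2
  · obtain ⟨P, hP, Q, hQ, hPQ, hn⟩ := hnear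
    -- removing a box contained in another one
    have hdrop : ∀ P ∈ 𝒞, ∀ Q ∈ 𝒞, P ≠ Q → (P.2.1 ≤ Q.2.1 ∧ Q.2.2 ≤ P.2.2) →
        ∃ (W₁ W₂ : Finset (Vtx n d)) (R₁ R₂ : BoxT n d), Span W₁ R₁ ∧ Span W₂ R₂ ∧
          Disjoint W₁ W₂ ∧ W₁ ⊆ A ∧ W₂ ⊆ A ∧ Near R₁ R₂ ∧ phi R₁ < k ∧ phi R₂ < k ∧
          k ≤ phi (hull R₁ R₂) := by
      intro P hP Q hQ hPQ hsub
      refine ih (N - 1) ?_ (𝒞.erase Q) ?_ ?_ ?_ ?_
      · have : 0 < 𝒞.card := Finset.card_pos.2 ⟨Q, hQ⟩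
        omega
      · rw [Finset.card_erase_of_mem hQ, hcard]
      · intro P' hP'
        exact h1 P' (Finset.mem_of_mem_erase hP')
      · intro P' hP' Q' hQ' hne
        exact h2 P' (Finset.mem_of_mem_erase hP') Q' (Finset.mem_of_mem_erase hQ') hne
      · intro x hx
        obtain ⟨P', hP', hx1, hx2⟩ := h3 x hx
        by_cases hP'Q : P' = Q
        · subst hP'Q
          exact ⟨P, Finset.mem_erase.2 ⟨hPQ, hP⟩, hsub.1.trans hx1, hx2.trans hsub.2⟩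
        · exact ⟨P', Finset.mem_erase.2 ⟨hP'Q, hP'⟩, hx1, hx2⟩
    by_cases hh1 : hull P.2 Q.2 = P.2
    · apply hdrop P hP Q hQ hPQ
      have e1 : P.2.1 ⊓ Q.2.1 = P.2.1 := congrArg Prod.fst hh1
      have e2 : P.2.2 ⊔ Q.2.2 = P.2.2 := congrArg Prod.snd hh1
      exact ⟨inf_eq_left.1 e1, sup_eq_left.1 e2⟩
    by_cases hh2 : hull P.2 Q.2 = Q.2
    · apply hdrop Q hQ P hP hPQ.symm
      have e1 : P.2.1 ⊓ Q.2.1 = Q.2.1 := congrArg Prod.fst hh2
      have e2 : P.2.2 ⊔ Q.2.2 = Q.2.2 := congrArg Prod.snd hh2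
      exact ⟨inf_eq_right.1 e1, sup_eq_right.1 e2⟩
    by_cases hbig : k ≤ phi (hull P.2 Q.2)
    · exact ⟨P.1, Q.1, P.2, Q.2, (h1 P hP).1, (h1 Q hQ).1, h2 P hP Q hQ hPQ, (h1 P hP).2.1,
        (h1 Q hQ).2.1, hn, (h1 P hP).2.2, (h1 Q hQ).2.2, hbig⟩
    · -- merge
      set T : Finset (Vtx n d) × BoxT n d := (P.1 ∪ Q.1, hull P.2 Q.2) with hT
      have hQ' : Q ∈ 𝒞.erase P := Finset.mem_erase.2 ⟨hPQ.symm, hQ⟩
      have hc1 : ((𝒞.erase P).erase Q).card = N - 1 - 1 := by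
        rw [Finset.card_erase_of_mem hQ', Finset.card_erase_of_mem hP, hcard]
      have hc0 : 1 < 𝒞.card := Finset.one_lt_card.2 ⟨P, hP, Q, hQ, hPQ⟩
      have hc2 : (insert T ((𝒞.erase P).erase Q)).card ≤ N - 1 := by
        have := Finset.card_insert_le T ((𝒞.erase P).erase Q)
        omega
      have hmem : ∀ P' ∈ (𝒞.erase P).erase Q, P' ∈ 𝒞 ∧ P' ≠ P ∧ P' ≠ Q := by
        intro P' hP'
        rw [Finset.mem_erase, Finset.mem_erase] at hP'
        exact ⟨hP'.2.2, hP'.2.1, hP'.1⟩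
      have hTd : ∀ P' ∈ (𝒞.erase P).erase Q, Disjoint T.1 P'.1 := by
        intro P' hP'
        obtain ⟨m1, m2, m3⟩ := hmem P' hP'
        rw [hT]
        exact Finset.disjoint_union_left.2 ⟨h2 P hP P' m1 m2.symm, h2 Q hQ P' m1 m3.symm⟩
      refine ih _ (by omega) (insert T ((𝒞.erase P).erase Q)) rfl ?_ ?_ ?_
      · intro P' hP'
        rw [Finset.mem_insert] at hP'
        rcases hP' with rfl | hP'
        · exact ⟨Span.merge (h1 P hP).1 (h1 Q hQ).1 (h2 P hP Q hQ hPQ) hn hh1 hh2,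
            Finset.union_subset (h1 P hP).2.1 (h1 Q hQ).2.1, not_le.1 hbig⟩
        · exact h1 P' (hmem P' hP').1
      · intro P' hP' Q' hQ' hne
        rw [Finset.mem_insert] at hP' hQ'
        rcases hP' with rfl | hP'
        · rcases hQ' with rfl | hQ'
          · exact absurd rfl hne
          · exact hTd Q' hQ'
        · rcases hQ' with rfl | hQ'
          · exact (hTd P' hP').symm
          · exact h2 P' (hmem P' hP').1 Q' (hmem Q' hQ').1 hne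
      · intro x hx
        obtain ⟨P', hP', hx1, hx2⟩ := h3 x hx
        by_cases e1 : P' = P
        · subst e1
          exact ⟨T, Finset.mem_insert_self _ _, inf_le_left.trans hx1, hx2.trans le_sup_left⟩
        · by_cases e2 : P' = Q
          · subst e2
            exact ⟨T, Finset.mem_insert_self _ _, inf_le_right.trans hx1,
              hx2.trans le_sup_right⟩
          · exact ⟨P', Finset.mem_insert_of_mem
              (Finset.mem_erase.2 ⟨e2, Finset.mem_erase.2 ⟨e1, hP'⟩⟩), hx1, hx2⟩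
  · exfalso
    have hfar : ∀ P ∈ 𝒞, ∀ Q ∈ 𝒞, Near P.2 Q.2 → P = Q := by
      intro P hP Q hQ hn
      by_contra hne
      exact hnear ⟨P, hP, Q, hQ, hne, hn⟩
    set U : Set (Vtx n d) := {x | ∃ P ∈ 𝒞, P.2.1 ≤ x ∧ x ≤ P.2.2} with hU
    have hUc : Closed U := by
      rintro v x y ⟨P, hP, hx⟩ ⟨Q, hQ, hy⟩ hxy hvx hvy
      have hPQ : P = Q := by
        apply hfar P hP Q hQ
        apply near_of_mem hx hy
        have e1 := sum_adj hvx
        have e2 := sum_adj hvy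
        have e3 : ∑ i, (((y i : ℕ) - x i) + ((x i : ℕ) - y i)) ≤
            ∑ i, (((x i : ℕ) - v i) + ((v i : ℕ) - x i)) +
              ∑ i, (((y i : ℕ) - v i) + ((v i : ℕ) - y i)) := by
          rw [← Finset.sum_add_distrib]
          exact Finset.sum_le_sum fun i _ => by omega
        omega
      subst hPQ
      exact ⟨P, hP, mem_box_of_adj hx hy hxy hvx hvy⟩
    have hUtop : ∀ x : Vtx n d, x ∈ U := by
      intro x
      have hsub := bclosure_subset_aux (A := (A : Set (Vtx n d))) (U := U)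
        (fun x hx => h3 x hx) hUc
      apply hsub
      have : bclosure 2 (A : Set (Vtx n d)) = univ := hA
      rw [this]
      trivial
    have hn2 : 0 < n - 1 := by
      rcases Nat.eq_zero_or_pos (n - 1) with h | h
      · rw [h] at hkn
        omega
      · exact h
    have hn0 : 0 < n := by omega
    obtain ⟨P, hP, hx1, hx2⟩ := hUtop (fun _ => ⟨0, hn0⟩)
    have hex : ∃ i, (P.2.2 i : ℕ) < n - 1 := by
      by_contra hall
      have hall : ∀ i, n - 1 ≤ (P.2.2 i : ℕ) := by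
        intro i
        by_contra h
        exact hall ⟨i, not_le.1 h⟩
      have h4 : d * (n - 1) ≤ phi P.2 := by
        unfold phi
        calc d * (n - 1) = ∑ _i : Fin d, (n - 1) := by simp
          _ ≤ ∑ i, ((P.2.2 i : ℕ) - P.2.1 i) := by
            refine Finset.sum_le_sum fun i _ => ?_
            have h5 : (P.2.1 i : ℕ) ≤ 0 := Fin.le_def.1 (hx1 i)
            have h6 := hall i
            omega
      have h5 := (h1 P hP).2.2
      omega
    obtain ⟨i, hi⟩ := hex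
    have hz : (P.2.2 i : ℕ) + 1 < n := by omega
    set z : Vtx n d := Function.update P.2.2 i ⟨(P.2.2 i : ℕ) + 1, hz⟩ with hzdef
    have hadj : Adj P.2.2 z := by
      refine ⟨i, fun j hj => ?_, Or.inl ?_⟩
      · rw [hzdef, Function.update_of_ne hj]
      · rw [hzdef, Function.update_self]
    obtain ⟨Q, hQ, hz1, hz2⟩ := hUtop z
    have hPQ : P = Q := by
      apply hfar P hP Q hQ
      apply near_of_mem (x := P.2.2) (y := z) ⟨(h1 P hP).1.le, le_rfl⟩ ⟨hz1, hz2⟩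
      rw [sum_adj hadj]
      norm_num
    subst hPQ
    have h7 : (z i : ℕ) ≤ P.2.2 i := Fin.le_def.1 (hz2 i)
    rw [hzdef, Function.update_self] at h7
    simp at h7

theorem exists_crossing (hd : 1 ≤ d) {A : Finset (Vtx n d)}
    (hA : Percolates 2 (A : Set (Vtx n d))) (k : ℕ) (hk : 1 ≤ k) (hkn : k ≤ d * (n - 1)) :
    ∃ (W₁ W₂ : Finset (Vtx n d)) (R₁ R₂ : BoxT n d), Span W₁ R₁ ∧ Span W₂ R₂ ∧ Disjoint W₁ W₂ ∧
      W₁ ⊆ A ∧ W₂ ⊆ A ∧ Near R₁ R₂ ∧ phi R₁ < k ∧ phi R₂ < k ∧ k ≤ phi (hull R₁ R₂) := by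
  classical
  refine crossing_aux hA k hk hkn _ (A.image fun x => ({x}, (x, x))) rfl ?_ ?_ ?_
  · intro P hP
    rw [Finset.mem_image] at hP
    obtain ⟨x, hx, rfl⟩ := hP
    refine ⟨Span.single x, Finset.singleton_subset_iff.2 hx, ?_⟩
    simp only [phi, tsub_self, Finset.sum_const_zero]
    omega
  · intro P hP Q hQ hne
    rw [Finset.mem_image] at hP hQ
    obtain ⟨x, hx, rfl⟩ := hP
    obtain ⟨y, hy, rfl⟩ := hQ
    rw [Finset.disjoint_singleton]
    rintro rfl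
    exact hne rfl
  · intro x hx
    exact ⟨({x}, (x, x)), Finset.mem_image.2 ⟨x, hx, rfl⟩, le_rfl, le_rfl⟩

end Pool.Agent.Lib.MP_8501c9_pr
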