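import Pool.Agent.Lib.MP_8501c9_pr.Prob
import Pool.Agent.Lib.MP_8501c9_pr.Closure

/-!
# Percolation from one internally filled cube
-/

set_option autoImplicit false
open Set

namespace Pool.Agent.Lib.MP_8501c9_pr

open Classical in
/-- a piece of a layer orthogonal to the coordinate `i` -/
noncomputable def layerPiece {n d : ℕ} (S : ℕ) (t : Fin d × ℕ × (Fin d → ℕ)) :
    Finset (Vtx n d) :=
  Finset.univ.filter fun x : Vtx n d =>
    (x t.1 : ℕ) = t.2.1 ∧ ∀ j, j ≠ t.1 → t.2.2 j ≤ (x j : ℕ) ∧ (x j : ℕ) < t.2.2 j + S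

theorem card_layerPiece {n d : ℕ} (S : ℕ) (t : Fin d × ℕ × (Fin d → ℕ)) (hc : t.2.1 < n)
    (ho : ∀ j, t.2.2 j + S ≤ n) : S ^ (d - 1) ≤ (layerPiece (n := n) S t).card := by
  classical
  obtain ⟨i, c, o⟩ := t
  simp only at hc ho
  let g : ({j : Fin d // j ≠ i} → Fin S) → Vtx n d := fun f j =>
    if h : j = i then ⟨c, hc⟩ else ⟨o j + f ⟨j, h⟩, by
      have := ho j; have := (f ⟨j, h⟩).2; omega⟩
  have hcard : Fintype.card ({j : Fin d // j ≠ i} → Fin S) = S ^ (d - 1) := by
    rw [Fintype.card_fun, Fintype.card_fin]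
    congr 1
    rw [Fintype.card_subtype_compl, Fintype.card_fin]
    simp
  rw [← hcard, ← Finset.card_univ]
  apply Finset.card_le_card_of_injOn g
  · intro f _
    simp only [layerPiece, Finset.coe_filter, Finset.mem_univ, true_and, Set.mem_ofPred_eq]
    constructor
    · simp [g]
    · intro j hj
      simp only [g, hj, dif_neg, not_false_eq_true]
      have := (f ⟨j, hj⟩).2
      omega
  · intro f _ f' _ hff
    funext ⟨j, hj⟩
    have h1 := congrArg (fun x : Vtx n d => (x j : ℕ)) hff
    simp only [g, hj, dif_neg, not_false_eq_true] at h1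
    apply Fin.ext
    omega

theorem percProb_ge (n d : ℕ) (hd : 1 ≤ d) (p : ℝ) (hp0 : 0 ≤ p) (hp1 : p ≤ 1) (S B : ℕ)
    (hS : 1 ≤ S) (hSB : S ≤ B) (hBn : B ≤ n) (q : ℝ) (hq0 : 0 ≤ q) (hq1 : q ≤ 1)
    (hcube : ∀ o : Fin d → ℕ, (∀ i, o i + B ≤ n) → q ≤ Pr p (fun A : Finset (Vtx n d) =>
      nbox o (fun _ => S) ⊆ bclosure 2 ((A : Set (Vtx n d)) ∩ nbox o (fun _ => B)))) :
    1 - (1 - q) ^ ((n / B) ^ d) - d * (n : ℝ) ^ (d + 1) * (1 - p) ^ (S ^ (d - 1)) ≤
      percProb n d 2 p := by
  classical
  have hB : 1 ≤ B := hS.trans hSB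
  -- blocks
  set J : Finset (Fin d → ℕ) := Fintype.piFinset fun _ => Finset.range (n / B) with hJ
  have hJcard : J.card = (n / B) ^ d := by
    rw [hJ, Fintype.card_piFinset]
    simp
  let off : (Fin d → ℕ) → (Fin d → ℕ) := fun u i => u i * B
  have hoff : ∀ u ∈ J, ∀ i, off u i + B ≤ n := by
    intro u hu i
    have h1 : u i < n / B := by
      have := (Fintype.mem_piFinset.1 hu) i
      simpa using this
    have h2 : n / B * B ≤ n := Nat.div_mul_le_self n B
    have h3 : (u i + 1) * B ≤ n / B * B := Nat.mul_le_mul_right B h1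
    show u i * B + B ≤ n
    linarith
  let blk : (Fin d → ℕ) → Finset (Vtx n d) := fun u =>
    Finset.univ.filter fun x => x ∈ nbox (off u) (fun _ => B)
  have hblk : ∀ u (A : Finset (Vtx n d)),
      ((A ∩ blk u : Finset (Vtx n d)) : Set (Vtx n d)) = (A : Set (Vtx n d)) ∩
        nbox (off u) (fun _ => B) := by
    intro u A
    ext x
    simp [blk]
  have hdisj : (J : Set (Fin d → ℕ)).PairwiseDisjoint blk := by
    intro u _ w _ huw
    rw [Function.onFun, Finset.disjoint_left]
    intro x hx hx'
    apply huw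
    funext i
    have h1 := (Finset.mem_filter.1 hx).2 i
    have h2 := (Finset.mem_filter.1 hx').2 i
    simp only [off] at h1 h2
    have h3 : (x i : ℕ) / B = u i := by
      rw [Nat.div_eq_iff hB]
      exact ⟨h1.1, by omega⟩
    have h4 : (x i : ℕ) / B = w i := by
      rw [Nat.div_eq_iff hB]
      exact ⟨h2.1, by omega⟩
    rw [← h3, ← h4]
  let E : (Fin d → ℕ) → Finset (Vtx n d) → Prop := fun u A =>
    nbox (off u) (fun _ => S) ⊆ bclosure 2 (A : Set (Vtx n d))
  have hP1 : Pr p (fun A : Finset (Vtx n d) => ∀ u ∈ J, ¬ E u (A ∩ blk u)) ≤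
      (1 - q) ^ ((n / B) ^ d) := by
    rw [Pr_forall_indep J blk hdisj (fun u A => ¬ E u A), ← hJcard, ← Finset.prod_const]
    apply Finset.prod_le_prod
    · intro u _
      exact Pr_nonneg hp0 hp1 _
    · intro u hu
      rw [Pr_not (fun A : Finset (Vtx n d) => E u (A ∩ blk u))]
      have := hcube (off u) (hoff u hu)
      have h2 : (fun A : Finset (Vtx n d) => E u (A ∩ blk u)) = (fun A : Finset (Vtx n d) =>
          nbox (off u) (fun _ => S) ⊆
            bclosure 2 ((A : Set (Vtx n d)) ∩ nbox (off u) (fun _ => B))) := by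
        funext A
        simp only [E, hblk]
      rw [h2]
      linarith
  -- bad layers
  set T : Finset (Fin d × ℕ × (Fin d → ℕ)) :=
    Finset.univ ×ˢ (Finset.range n ×ˢ Fintype.piFinset fun _ => Finset.range n) with hT
  have hTcard : (T.card : ℝ) = d * (n : ℝ) ^ (d + 1) := by
    rw [hT, Finset.card_product, Finset.card_product, Fintype.card_piFinset]
    simp only [Finset.card_univ, Fintype.card_fin, Finset.card_range, Finset.prod_const]
    push_cast
    ring
  let bad : Option (Fin d × ℕ × (Fin d → ℕ)) → Finset (Vtx n d) → Prop := fun t A =>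
    match t with
    | none => ∀ u ∈ J, ¬ E u (A ∩ blk u)
    | some t => (∀ j, t.2.2 j + S ≤ n) ∧ Disjoint A (layerPiece S t)
  have hbad : ∀ t ∈ T, Pr p (bad (some t)) ≤ (1 - p) ^ (S ^ (d - 1)) := by
    intro t ht
    by_cases hgood : ∀ j, t.2.2 j + S ≤ n
    · have hc : t.2.1 < n := by
        rw [hT] at ht
        simp only [Finset.mem_product, Finset.mem_range] at ht
        exact ht.2.1
      have h1 : Pr p (bad (some t)) = Pr p (fun A : Finset (Vtx n d) =>
          Disjoint A (layerPiece S t)) := by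
        congr 1
        funext A
        simp only [bad, eq_iff_iff]
        exact ⟨fun h => h.2, fun h => ⟨hgood, h⟩⟩
      rw [h1, Pr_disjoint]
      exact pow_le_pow_of_le_one (by linarith) (by linarith) (card_layerPiece S t hc hgood)
    · have h1 : Pr p (bad (some t)) ≤ 0 := by
        have h2 : Pr p (bad (some t)) ≤ Pr p (fun A : Finset (Vtx n d) => ¬ True) := by
          apply Pr_mono hp0 hp1
          intro A hA
          exact absurd hA.1 hgood
        rw [Pr_not (fun _ : Finset (Vtx n d) => True), Pr_true] at h2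
        linarith
      exact h1.trans (pow_nonneg (by linarith) _)
  have hincl : ∀ A : Finset (Vtx n d), ¬ Percolates 2 (A : Set (Vtx n d)) →
      ∃ t ∈ Finset.insertNone T, bad t A := by
    intro A hA
    by_contra hcon
    push Not at hcon
    apply hA
    have hnone := hcon none (by simp)
    have hsome : ∀ t ∈ T, ¬ bad (some t) A := fun t ht => hcon (some t) (by simpa using ht)
    simp only [bad] at hnone
    push Not at hnone
    obtain ⟨u, hu, hEu⟩ := hnone
    have hcl : nbox (off u) (fun _ => S) ⊆ bclosure 2 (A : Set (Vtx n d)) := by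
      refine (show nbox (off u) (fun _ => S) ⊆ bclosure 2 ((A ∩ blk u : Finset (Vtx n d)) :
        Set (Vtx n d)) from hEu).trans (bclosure_mono 2 ?_)
      rw [hblk]
      exact inter_subset_left
    refine percolates_of_cube hS (o := off u) (fun i => ?_) hcl ?_
    · have := hoff u hu i
      omega
    · intro i c hc o' ho'
      have ht : (i, c, o') ∈ T := by
        rw [hT]
        simp only [Finset.mem_product, Finset.mem_univ, true_and, Finset.mem_range,
          Fintype.mem_piFinset]
        refine ⟨hc, fun j => ?_⟩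
        have := ho' j
        omega
      have h1 := hsome _ ht
      simp only [bad] at h1
      rw [not_and] at h1
      have h2 := h1 ho'
      rw [Finset.not_disjoint_iff] at h2
      obtain ⟨x, hxA, hxL⟩ := h2
      simp only [layerPiece, Finset.mem_filter, Finset.mem_univ, true_and] at hxL
      exact ⟨x, hxA, hxL.1, hxL.2⟩
  have hfinal : Pr p (fun A : Finset (Vtx n d) => ¬ Percolates 2 (A : Set (Vtx n d))) ≤
      (1 - q) ^ ((n / B) ^ d) + d * (n : ℝ) ^ (d + 1) * (1 - p) ^ (S ^ (d - 1)) := by
    refine (Pr_mono hp0 hp1 hincl).trans ((Pr_exists_le hp0 hp1 _ bad).trans ?_)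
    rw [Finset.sum_insertNone]
    refine add_le_add hP1 ?_
    refine (Finset.sum_le_sum hbad).trans ?_
    rw [Finset.sum_const, nsmul_eq_mul, hTcard]
  rw [Pr_not (fun A : Finset (Vtx n d) => Percolates 2 (A : Set (Vtx n d)))] at hfinal
  unfold percProb
  linarith

end Pool.Agent.Lib.MP_8501c9_pr
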