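import Pool.Agent.Lib.MP_8501c9_pr.SharpDefs
import Pool.Agent.Lib.MP_8501c9_pr.Count

/-!
# Decomposition of the spanning sets by peeling off single points
-/

set_option autoImplicit false
open Set

namespace Pool.Agent.Lib.MP_8501c9_pr

section SA
variable {n d : ℕ}

theorem Ext.sub {R₁ R : BoxT n d} {K : Finset (Vtx n d)} (h : Ext R₁ K R) :
    R.1 ≤ R₁.1 ∧ R₁.2 ≤ R.2 := by
  induction h with
  | nil => exact ⟨le_rfl, le_rfl⟩
  | @cons K B h x hx hn hne ih =>
    exact ⟨inf_le_left.trans ih.1, ih.2.trans le_sup_left⟩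

theorem span_point {W : Finset (Vtx n d)} {x : Vtx n d} (h : Span W (x, x)) : W = {x} := by
  have h2 := h.subset
  have h3 := h.card
  have h4 : W ⊆ {x} := by
    intro y hy
    rw [Finset.mem_singleton]
    exact le_antisymm (h2 y hy).2 (h2 y hy).1
  rcases Finset.subset_singleton_iff.1 h4 with h5 | h5
  · rw [h5] at h3
    simp at h3
  · exact h5

theorem eq_of_phi_zero {R : BoxT n d} (hR : R.1 ≤ R.2) (h : phi R = 0) : R.1 = R.2 := by
  unfold phi at h
  rw [Finset.sum_eq_zero_iff] at h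
  funext i
  have h1 := h i (Finset.mem_univ i)
  have h2 : (R.1 i : ℕ) ≤ R.2 i := Fin.le_def.1 (hR i)
  exact Fin.ext (by omega)

/-- first alternative -/
def AltA (s : ℕ) (W : Finset (Vtx n d)) (R : BoxT n d) : Prop :=
  ∃ (R₁ : BoxT n d) (W₁ K : Finset (Vtx n d)), Span W₁ R₁ ∧ Ext R₁ K R ∧ Disjoint W₁ K ∧
    W₁ ∪ K = W ∧ s ≤ phi R₁ + 1 ∧ phi R₁ ≤ s

/-- second alternative -/
def AltB (s : ℕ) (W : Finset (Vtx n d)) (R : BoxT n d) : Prop :=
  ∃ (R₁ : BoxT n d) (Q : BoxT n d × BoxT n d) (W₁ W₂ K : Finset (Vtx n d)),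
    PairOK R₁ Q ∧ 1 ≤ phi Q.2 ∧ phi Q.2 ≤ phi Q.1 ∧ Span W₁ Q.1 ∧ Span W₂ Q.2 ∧ Ext R₁ K R ∧
    Disjoint W₁ W₂ ∧ Disjoint (W₁ ∪ W₂) K ∧ (W₁ ∪ W₂) ∪ K = W ∧ s < phi R₁

theorem alt_step {s : ℕ} {W₁ W₂ : Finset (Vtx n d)} {R₁ R₂ : BoxT n d}
    (h₁ : Span W₁ R₁) (h₂ : Span W₂ R₂) (hd : Disjoint W₁ W₂) (hn : Near R₁ R₂)
    (hne₁ : hull R₁ R₂ ≠ R₁) (hne₂ : hull R₁ R₂ ≠ R₂) (hle : phi R₂ ≤ phi R₁)
    (hs : s ≤ phi (hull R₁ R₂)) (ih : s ≤ phi R₁ → AltA s W₁ R₁ ∨ AltB s W₁ R₁) :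
    AltA s (W₁ ∪ W₂) (hull R₁ R₂) ∨ AltB s (W₁ ∪ W₂) (hull R₁ R₂) := by
  rcases hs.eq_or_lt with heq | hlt
  · left
    refine ⟨hull R₁ R₂, W₁ ∪ W₂, ∅, Span.merge h₁ h₂ hd hn hne₁ hne₂, Ext.nil,
      Finset.disjoint_empty_right _, Finset.union_empty _, by omega, by omega⟩
  · rcases Nat.eq_zero_or_pos (phi R₂) with h0 | hpos
    · -- a single point
      obtain ⟨x, y⟩ := R₂
      obtain rfl : x = y := eq_of_phi_zero h₂.le h0
      have hW₂ : W₂ = {x} := span_point h₂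
      subst hW₂
      have hphi := phi_hull_le h₁.le h₂.le hn
      rw [h0] at hphi
      have hx : x ∉ W₁ := Finset.disjoint_singleton_right.mp hd
      by_cases hsm : phi R₁ ≤ s
      · left
        refine ⟨R₁, W₁, insert x ∅, h₁, ?_, ?_, ?_, by omega, hsm⟩
        · exact Ext.cons Ext.nil x (Finset.notMem_empty x) hn hne₁
        · simpa using hx
        · simp
      · rcases ih (by omega) with ⟨Q, V, K, h3, h4, h5, h6, h7, h8⟩ |
          ⟨Q, P, V₁, V₂, K, h3, h4, h5, h6, h7, h8, h9, h10, h11, h12⟩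
        · left
          have hxK : x ∉ K := fun h => hx (by rw [← h6]; exact Finset.mem_union_right _ h)
          have hxV : x ∉ V := fun h => hx (by rw [← h6]; exact Finset.mem_union_left _ h)
          refine ⟨Q, V, insert x K, h3, Ext.cons h4 x hxK hn hne₁, ?_, ?_, h7, h8⟩
          · rw [Finset.disjoint_insert_right]
            exact ⟨hxV, h5⟩
          · rw [← h6]
            ext z; simp only [Finset.mem_union, Finset.mem_insert, Finset.mem_singleton]; tauto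
        · right
          have hxK : x ∉ K := fun h => hx (by rw [← h11]; exact Finset.mem_union_right _ h)
          have hxV : x ∉ V₁ ∪ V₂ := fun h => hx (by rw [← h11]; exact Finset.mem_union_left _ h)
          refine ⟨Q, P, V₁, V₂, insert x K, h3, h4, h5, h6, h7, Ext.cons h8 x hxK hn hne₁, h9,
            ?_, ?_, h12⟩
          · rw [Finset.disjoint_insert_right]
            exact ⟨hxV, h10⟩
          · rw [← h11]
            ext z; simp only [Finset.mem_union, Finset.mem_insert, Finset.mem_singleton]; tauto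
    · right
      refine ⟨hull R₁ R₂, (R₁, R₂), W₁, W₂, ∅, ⟨h₁.le, h₂.le, hn, rfl, fun e => hne₁ e.symm,
        fun e => hne₂ e.symm⟩, hpos, hle, h₁, h₂, Ext.nil, hd, Finset.disjoint_empty_right _,
        Finset.union_empty _, hlt⟩

theorem hull_comm' (R S : BoxT n d) : hull R S = hull S R := by
  unfold hull
  rw [inf_comm, sup_comm]

theorem near_comm' {R S : BoxT n d} (h : Near R S) : Near S R := by
  unfold Near at *
  refine le_trans (le_of_eq ?_) h
  exact Finset.sum_congr rfl fun i _ => by omega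

theorem alt_of_span {s : ℕ} (hs1 : 1 ≤ s) {W : Finset (Vtx n d)} {R : BoxT n d} (h : Span W R)
    (hs : s ≤ phi R) : AltA s W R ∨ AltB s W R := by
  induction h with
  | single x =>
    exfalso
    simp only [phi, tsub_self, Finset.sum_const_zero] at hs
    omega
  | @merge W₁ W₂ R₁ R₂ h₁ h₂ hd hn hne₁ hne₂ ih₁ ih₂ =>
    rcases le_total (phi R₂) (phi R₁) with hle | hle
    · exact alt_step h₁ h₂ hd hn hne₁ hne₂ hle hs ih₁
    · rw [hull_comm', Finset.union_comm]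
      rw [hull_comm'] at hne₁ hne₂ hs
      exact alt_step h₂ h₁ hd.symm (near_comm' hn) hne₂ hne₁ hle hs ih₂

theorem sum_le_of_inj {α τ : Type*} [DecidableEq τ] (S : Finset α) (T : Finset τ) (f : α → ℝ)
    (g : τ → ℝ) (φ : α → τ) (hφ : ∀ a ∈ S, φ a ∈ T) (hinj : Set.InjOn φ (S : Set α))
    (hfg : ∀ a ∈ S, f a = g (φ a)) (hg : ∀ t ∈ T, 0 ≤ g t) : ∑ a ∈ S, f a ≤ ∑ t ∈ T, g t := by
  rw [Finset.sum_congr rfl hfg, ← Finset.sum_image (f := g) hinj]
  refine Finset.sum_le_sum_of_subset_of_nonneg ?_ fun t ht _ => hg t ht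
  intro t ht
  obtain ⟨a, ha, rfl⟩ := Finset.mem_image.mp ht
  exact hφ a ha

open Classical in
/-- Peel off single points until the size has dropped by `D` (first sum) or until a merger of two
boxes neither of which is a point is met (second sum). -/
theorem wt_decomp (p : ℝ) (hp : 0 ≤ p) (R : BoxT n d) (D : ℕ) (hD : 1 ≤ D) (hDR : D + 1 ≤ phi R) :
    wt p R ≤
      ∑ R₁ : BoxT n d with (SubBox R₁ R ∧ phi R₁ + D ≤ phi R ∧ phi R ≤ phi R₁ + D + 1),
        wt p R₁ * Tw p R₁ R +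
      ∑ R₁ : BoxT n d with (SubBox R₁ R ∧ phi R < phi R₁ + D), Xw p R₁ * Tw p R₁ R := by
  set s : ℕ := phi R - D with hs
  set S : Finset (Finset (Vtx n d)) := Finset.univ.filter (fun W => Span W R) with hS
  have hmemS : ∀ W, W ∈ S ↔ Span W R := by
    intro W; simp [hS]
  have hsplit : wt p R = ∑ W ∈ S.filter (fun W => AltA s W R), p ^ W.card +
      ∑ W ∈ S.filter (fun W => ¬ AltA s W R), p ^ W.card := by
    unfold wt
    rw [Finset.sum_filter_add_sum_filter_not]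
  rw [hsplit]
  apply add_le_add
  · -- first alternative
    have hex : ∀ W : Finset (Vtx n d), AltA s W R →
        ∃ t : (_ : BoxT n d) × (Finset (Vtx n d) × Finset (Vtx n d)),
          Span t.2.1 t.1 ∧ Ext t.1 t.2.2 R ∧ Disjoint t.2.1 t.2.2 ∧ t.2.1 ∪ t.2.2 = W ∧
            s ≤ phi t.1 + 1 ∧ phi t.1 ≤ s := by
      rintro W ⟨R₁, W₁, K, h⟩
      exact ⟨⟨R₁, (W₁, K)⟩, h⟩
    have hinh : Nonempty ((_ : BoxT n d) × (Finset (Vtx n d) × Finset (Vtx n d))) :=
      ⟨⟨R, (∅, ∅)⟩⟩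
    choose! φ hφ using hex
    set T : Finset ((_ : BoxT n d) × (Finset (Vtx n d) × Finset (Vtx n d))) :=
      (Finset.univ.filter (fun R₁ : BoxT n d =>
        SubBox R₁ R ∧ phi R₁ + D ≤ phi R ∧ phi R ≤ phi R₁ + D + 1)).sigma
        (fun R₁ => (Finset.univ.filter (fun W => Span W R₁)) ×ˢ
          (Finset.univ.filter (fun K => Ext R₁ K R))) with hT
    have h1 : ∑ R₁ : BoxT n d with
          (SubBox R₁ R ∧ phi R₁ + D ≤ phi R ∧ phi R ≤ phi R₁ + D + 1),
        wt p R₁ * Tw p R₁ R = ∑ t ∈ T, p ^ t.2.1.card * p ^ t.2.2.card := by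
      rw [hT, Finset.sum_sigma]
      refine Finset.sum_congr rfl fun R₁ _ => ?_
      rw [Finset.sum_product]
      unfold wt Tw
      rw [Finset.sum_mul_sum]
    rw [h1]
    apply sum_le_of_inj _ T _ (fun t => p ^ t.2.1.card * p ^ t.2.2.card) φ
    · intro W hW
      obtain ⟨a1, a2, a3, a4, a5, a6⟩ := hφ W (Finset.mem_filter.mp hW).2
      rw [hT, Finset.mem_sigma, Finset.mem_product, Finset.mem_filter, Finset.mem_filter,
        Finset.mem_filter]
      refine ⟨⟨Finset.mem_univ _, ⟨a1.le, a2.sub.1, a2.sub.2⟩, ?_, ?_⟩,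
        ⟨Finset.mem_univ _, a1⟩, ⟨Finset.mem_univ _, a2⟩⟩
      · omega
      · omega
    · intro W hW W' hW' he
      have hW1 := (Finset.mem_filter.mp (Finset.mem_coe.mp hW)).2
      have hW1' := (Finset.mem_filter.mp (Finset.mem_coe.mp hW')).2
      rw [← (hφ W hW1).2.2.2.1, ← (hφ W' hW1').2.2.2.1, he]
    · intro W hW
      obtain ⟨a1, a2, a3, a4, a5, a6⟩ := hφ W (Finset.mem_filter.mp hW).2
      rw [← pow_add, ← Finset.card_union_of_disjoint a3, a4]
    · intro t _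
      positivity
  · -- second alternative
    have hex : ∀ W : Finset (Vtx n d), AltB s W R →
        ∃ t : (_ : BoxT n d) × ((_ : BoxT n d × BoxT n d) ×
            (Finset (Vtx n d) × (Finset (Vtx n d) × Finset (Vtx n d)))),
          PairOK t.1 t.2.1 ∧ 1 ≤ phi t.2.1.2 ∧ phi t.2.1.2 ≤ phi t.2.1.1 ∧
          Span t.2.2.1 t.2.1.1 ∧ Span t.2.2.2.1 t.2.1.2 ∧ Ext t.1 t.2.2.2.2 R ∧
          Disjoint t.2.2.1 t.2.2.2.1 ∧ Disjoint (t.2.2.1 ∪ t.2.2.2.1) t.2.2.2.2 ∧
          (t.2.2.1 ∪ t.2.2.2.1) ∪ t.2.2.2.2 = W ∧ s < phi t.1 := by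
      rintro W ⟨R₁, Q, W₁, W₂, K, h⟩
      exact ⟨⟨R₁, ⟨Q, (W₁, (W₂, K))⟩⟩, h⟩
    have hinh : Nonempty ((_ : BoxT n d) × ((_ : BoxT n d × BoxT n d) ×
            (Finset (Vtx n d) × (Finset (Vtx n d) × Finset (Vtx n d))))) :=
      ⟨⟨R, ⟨(R, R), (∅, (∅, ∅))⟩⟩⟩
    choose! φ hφ using hex
    set T : Finset ((_ : BoxT n d) × ((_ : BoxT n d × BoxT n d) ×
            (Finset (Vtx n d) × (Finset (Vtx n d) × Finset (Vtx n d))))) :=
      (Finset.univ.filter (fun R₁ : BoxT n d => SubBox R₁ R ∧ phi R < phi R₁ + D)).sigma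
        (fun R₁ => (Finset.univ.filter (fun P : BoxT n d × BoxT n d =>
          PairOK R₁ P ∧ 1 ≤ phi P.2 ∧ phi P.2 ≤ phi P.1)).sigma
          (fun P => (Finset.univ.filter (fun W => Span W P.1)) ×ˢ
            ((Finset.univ.filter (fun W => Span W P.2)) ×ˢ
              (Finset.univ.filter (fun K => Ext R₁ K R))))) with hT
    have h1 : ∑ R₁ : BoxT n d with (SubBox R₁ R ∧ phi R < phi R₁ + D), Xw p R₁ * Tw p R₁ R
        = ∑ t ∈ T, p ^ t.2.2.1.card * (p ^ t.2.2.2.1.card * p ^ t.2.2.2.2.card) := by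
      rw [hT, Finset.sum_sigma]
      refine Finset.sum_congr rfl fun R₁ _ => ?_
      rw [Finset.sum_sigma]
      unfold Xw
      rw [Finset.sum_mul]
      refine Finset.sum_congr rfl fun P _ => ?_
      rw [Finset.sum_product]
      unfold wt Tw
      rw [mul_assoc, Finset.sum_mul]
      refine Finset.sum_congr rfl fun W _ => ?_
      rw [Finset.sum_product, Finset.sum_mul_sum, Finset.mul_sum]
      refine Finset.sum_congr rfl fun W' _ => ?_
      rw [Finset.mul_sum]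
    rw [h1]
    have hB : ∀ W ∈ S.filter (fun W => ¬ AltA s W R), AltB s W R := by
      intro W hW
      rw [Finset.mem_filter, hmemS] at hW
      rcases alt_of_span (s := s) (by omega) hW.1 (by omega) with h | h
      · exact absurd h hW.2
      · exact h
    apply sum_le_of_inj _ T _
      (fun t => p ^ t.2.2.1.card * (p ^ t.2.2.2.1.card * p ^ t.2.2.2.2.card)) φ
    · intro W hW
      obtain ⟨a1, a2, a3, a4, a5, a6, a7, a8, a9, a10⟩ := hφ W (hB W hW)
      rw [hT, Finset.mem_sigma, Finset.mem_sigma, Finset.mem_product, Finset.mem_product,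
        Finset.mem_filter, Finset.mem_filter, Finset.mem_filter, Finset.mem_filter,
        Finset.mem_filter]
      have hle : (φ W).1.1 ≤ (φ W).1.2 := by
        obtain ⟨p1, p2, p3, p4, p5, p6⟩ := a1
        have h5 := hull_le p4
        exact h5.1.1.trans (p1.trans h5.1.2)
      refine ⟨⟨Finset.mem_univ _, ⟨hle, a6.sub.1, a6.sub.2⟩, ?_⟩,
        ⟨Finset.mem_univ _, a1, a2, a3⟩, ⟨Finset.mem_univ _, a4⟩, ⟨Finset.mem_univ _, a5⟩,
        ⟨Finset.mem_univ _, a6⟩⟩
      omega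
    · intro W hW W' hW' he
      have hW1 := hB W (Finset.mem_coe.mp hW)
      have hW1' := hB W' (Finset.mem_coe.mp hW')
      have e1 := (hφ W hW1).2.2.2.2.2.2.2.2.1
      have e2 := (hφ W' hW1').2.2.2.2.2.2.2.2.1
      rw [← e1, ← e2, he]
    · intro W hW
      obtain ⟨a1, a2, a3, a4, a5, a6, a7, a8, a9, a10⟩ := hφ W (hB W hW)
      rw [← mul_assoc, ← pow_add, ← Finset.card_union_of_disjoint a7, ← pow_add,
        ← Finset.card_union_of_disjoint a8, a9]
    · intro t _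
      positivity
end SA

end Pool.Agent.Lib.MP_8501c9_pr
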