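import Pool.Agent.Lib.MP_8501c9_pr.PotB

/-!
# The increase of the main part of the potential
-/

set_option autoImplicit false
open Set

namespace Pool.Agent.Lib.MP_8501c9_pr

section SC
variable {n d : ℕ}

theorem phi_eq_add (R₁ R : BoxT n d) (h : SubBox R₁ R) :
    phi R = phi R₁ + ∑ i, exc R₁ R i := phi_eq_add' R₁ R h

theorem side_add {R₁ R : BoxT n d} (h : SubBox R₁ R) (i : Fin d) :
    (R.2 i : ℕ) - R.1 i = ((R₁.2 i : ℕ) - R₁.1 i) + exc R₁ R i := by
  have h1 : (R₁.1 i : ℕ) ≤ R₁.2 i := Fin.le_def.1 (h.1 i)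
  have h2 : (R.1 i : ℕ) ≤ R₁.1 i := Fin.le_def.1 (h.2.1 i)
  have h3 : (R₁.2 i : ℕ) ≤ R.2 i := Fin.le_def.1 (h.2.2 i)
  unfold exc
  omega

theorem log_fact_add (x c y : ℕ) (hy : x + c ≤ y) :
    Real.log (Nat.factorial (x + c)) ≤ Real.log (Nat.factorial x) + c * Real.log y := by
  induction c with
  | zero => simp
  | succ c ih =>
    have h1 := ih (by omega)
    rw [← add_assoc, Nat.factorial_succ]
    push_cast
    rw [Real.log_mul (by positivity) (by positivity)]
    have h2 : Real.log ((x : ℝ) + c + 1) ≤ Real.log y := by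
      apply Real.log_le_log (by positivity)
      exact_mod_cast hy
    linarith

/-- the increase of the main part -/
theorem Fmain_sub_aux (R₁ R : BoxT n d) (h : SubBox R₁ R) (L : ℝ) (a : ℝ)
    (ha : ∀ t, phi R₁ ≤ t → t < phi R → a ≤ sfun d t) (y : Fin d → ℕ)
    (hy : ∀ i, (R.2 i : ℕ) - R.1 i ≤ y i) :
    Fmain L R - Fmain L R₁ ≤ (((∑ i, exc R₁ R i : ℕ) : ℝ) * (L - a) +
      ∑ i, (exc R₁ R i : ℝ) * Real.log (y i)) / 2 := by
  have hadd := phi_eq_add R₁ R h
  set D : ℕ := ∑ i, exc R₁ R i with hD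
  have h1 : (D : ℝ) * a ≤ ∑ t ∈ Finset.range D, sfun d (phi R₁ + t) := by
    calc (D : ℝ) * a = ∑ _t ∈ Finset.range D, a := by
          rw [Finset.sum_const, Finset.card_range, nsmul_eq_mul]
      _ ≤ _ := Finset.sum_le_sum fun t ht => by
          rw [Finset.mem_range] at ht
          exact ha _ (by omega) (by omega)
  have h2 : ∑ i, Real.log (Nat.factorial ((R.2 i : ℕ) - R.1 i)) ≤
      ∑ i, Real.log (Nat.factorial ((R₁.2 i : ℕ) - R₁.1 i)) +
        ∑ i, (exc R₁ R i : ℝ) * Real.log (y i) := by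
    rw [← Finset.sum_add_distrib]
    refine Finset.sum_le_sum fun i _ => ?_
    have h3 := side_add h i
    rw [h3]
    apply log_fact_add
    rw [← h3]
    exact hy i
  unfold Fmain
  rw [hadd, Finset.sum_range_add]
  push_cast
  linarith

theorem log_sd_le (hd : 1 ≤ d) (R : BoxT n d) :
    ∑ j, Real.log (sd R j) ≤ sfun d (phi R) := by
  have h := sum_log_le_sfun (Finset.univ : Finset (Fin d)) d (phi R) hd (by simp)
    (fun j => (R.2 j : ℕ) - R.1 j) le_rfl
  refine le_trans (le_of_eq ?_) h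
  refine Finset.sum_congr rfl fun j _ => ?_
  unfold sd
  congr 1
  push_cast
  ring

theorem sfun_sub_le (N s c : ℕ) (hN : 1 ≤ N) :
    sfun N (s + c) ≤ sfun N s + c / (((s / N : ℕ) : ℝ) + 1) := by
  induction c with
  | zero => simp
  | succ c ih =>
    rw [← add_assoc, sfun_succ' N _ hN]
    have h1 : vslope ((s + c) / N) ≤ vslope (s / N) :=
      vslope_anti (Nat.div_le_div_right (Nat.le_add_right s c))
    have h2 := vslope_le (s / N)
    push_cast
    rw [add_div]
    linarith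

theorem Fmain_chunk (hd : 1 ≤ d) (R₁ R : BoxT n d) (h : SubBox R₁ R) (L : ℝ) :
    Fmain L R - Fmain L R₁ ≤
      ∑ i, (exc R₁ R i : ℝ) * (L - ∑ j, Real.log (sd R j) + Real.log (sd R i)) / 2 +
      ((∑ i, exc R₁ R i : ℕ) : ℝ) ^ 2 / (2 * ((phi R₁ / d : ℕ) + 1)) := by
  have hadd := phi_eq_add R₁ R h
  have hq : (0 : ℝ) < ((phi R₁ / d : ℕ) : ℝ) + 1 := by positivity
  have hmain := Fmain_sub_aux R₁ R h L (∑ j, Real.log (sd R j) -
    ((∑ i, exc R₁ R i : ℕ) : ℝ) / (((phi R₁ / d : ℕ) : ℝ) + 1)) (fun t h1 h2 => by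
      have e1 := log_sd_le hd R
      have e2 := sfun_sub_le d (phi R₁) (∑ i, exc R₁ R i) hd
      rw [← hadd] at e2
      have e3 : sfun d (phi R₁) ≤ sfun d t := sfun_mono d hd h1
      linarith) (fun i => sd R i) (fun i => by unfold sd; omega)
  refine hmain.trans (le_of_eq ?_)
  have e4 : ∑ i, (exc R₁ R i : ℝ) * (L - ∑ j, Real.log (sd R j) + Real.log (sd R i)) / 2 =
      (((∑ i, exc R₁ R i : ℕ) : ℝ) * (L - ∑ j, Real.log (sd R j)) +
        ∑ i, (exc R₁ R i : ℝ) * Real.log (sd R i)) / 2 := by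
    push_cast
    rw [Finset.sum_mul, ← Finset.sum_add_distrib, Finset.sum_div]
    exact Finset.sum_congr rfl fun i _ => by ring
  rw [e4]
  field_simp
  ring

/-- crude bound for the increase, for unbalanced boxes as well -/
theorem Fmain_sub_le (hd : 2 ≤ d) (R₁ R : BoxT n d) (h : SubBox R₁ R) (L : ℝ) (c : ℕ)
    (hc : phi R = phi R₁ + c) (h3 : phi R ≤ 3 * phi R₁) :
    Fmain L R - Fmain L R₁ ≤ c / 2 * (L - Gb d (phi R₁) + Real.log (3 * d)) := by
  have hadd := phi_eq_add R₁ R h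
  have hcD : ∑ i, exc R₁ R i = c := by omega
  have hmain := Fmain_sub_aux R₁ R h L (sfun d (phi R₁)) (fun t h1 _ =>
    sfun_mono d (by omega) h1) (fun _ => phi R) (fun i => by
      unfold phi
      exact Finset.single_le_sum (f := fun i => (R.2 i : ℕ) - R.1 i)
        (fun _ _ => Nat.zero_le _) (Finset.mem_univ i))
  refine hmain.trans ?_
  rw [← Finset.sum_mul]
  have e1 : (∑ i, (exc R₁ R i : ℝ)) = c := by exact_mod_cast hcD
  rw [hcD, e1, sfun_eq_Gb d (phi R₁) hd]
  rcases Nat.eq_zero_or_pos (phi R₁) with h0 | hpos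
  · have : c = 0 := by omega
    subst this
    simp
  · have hR : 0 < phi R := by omega
    have e2 : Real.log (phi R) ≤ Real.log (((phi R₁ / d : ℕ) : ℝ) + 1) + Real.log (3 * d) := by
      have hd0 : (0 : ℝ) < d := by exact_mod_cast (by omega : 0 < d)
      rw [← Real.log_mul (by positivity) (by positivity)]
      apply Real.log_le_log (by exact_mod_cast hR)
      have e3 : phi R₁ ≤ (phi R₁ / d + 1) * d := by
        rw [Nat.succ_mul, mul_comm (phi R₁ / d) d]
        have := Nat.div_add_mod (phi R₁) d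
        have := Nat.mod_lt (phi R₁) (show 0 < d by omega)
        omega
      have e4 : phi R ≤ (phi R₁ / d + 1) * (3 * d) := by
        calc phi R ≤ 3 * phi R₁ := h3
          _ ≤ 3 * ((phi R₁ / d + 1) * d) := Nat.mul_le_mul_left 3 e3
          _ = _ := by ring
      exact_mod_cast e4
    have hc0 : (0 : ℝ) ≤ c := by positivity
    nlinarith [mul_le_mul_of_nonneg_left e2 hc0]
end SC

end Pool.Agent.Lib.MP_8501c9_pr
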