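import Pool.Agent.Lib.MP_8501c9_pr.Defs

/-!
# Elementary probability of random subsets of a finite type
-/

set_option autoImplicit false
open Set

namespace Pool.Agent.Lib.MP_8501c9_pr

section Prob
variable {V : Type*} [Fintype V] {p : ℝ}

theorem Pr_nonneg (hp0 : 0 ≤ p) (hp1 : p ≤ 1) (E : Finset V → Prop) : 0 ≤ Pr p E := by
  classical
  refine Finset.sum_nonneg fun A _ => ?_
  have : 0 ≤ 1 - p := by linarith
  positivity

theorem Pr_mono (hp0 : 0 ≤ p) (hp1 : p ≤ 1) {E F : Finset V → Prop} (h : ∀ A, E A → F A) :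
    Pr p E ≤ Pr p F := by
  classical
  refine Finset.sum_le_sum_of_subset_of_nonneg ?_ ?_
  · intro A hA
    simp only [Finset.mem_filter, Finset.mem_univ, true_and] at hA ⊢
    exact h A hA
  · intro A _ _
    have : 0 ≤ 1 - p := by linarith
    positivity

/-- expectation of a real function of the random set -/
noncomputable def Ex (p : ℝ) (f : Finset V → ℝ) : ℝ :=
  ∑ A : Finset V, p ^ A.card * (1 - p) ^ (Fintype.card V - A.card) * f A

theorem Pr_eq_Ex (E : Finset V → Prop) [DecidablePred E] :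
    Pr p E = Ex p (fun A => if E A then 1 else 0) := by
  unfold Pr Ex
  rw [Finset.sum_filter]
  refine Finset.sum_congr rfl fun A _ => ?_
  by_cases h : E A <;> simp [h]

theorem sum_split [DecidableEq V] (D : Finset V) (h : Finset V → Finset V → ℝ) :
    ∑ A : Finset V, h (A ∩ D) (A \ D) = ∑ B ∈ D.powerset, ∑ C ∈ Dᶜ.powerset, h B C := by
  rw [← Finset.sum_product']
  refine Finset.sum_nbij' (fun A => (A ∩ D, A \ D)) (fun P => P.1 ∪ P.2) ?_ ?_ ?_ ?_ ?_
  · intro A _
    simp only [Finset.mem_product, Finset.mem_powerset]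
    refine ⟨Finset.inter_subset_right, ?_⟩
    intro x hx
    simp only [Finset.mem_sdiff] at hx
    simpa using hx.2
  · intro P _
    simp
  · intro A _
    ext x
    simp only [Finset.mem_union, Finset.mem_inter, Finset.mem_sdiff]
    tauto
  · rintro ⟨B, C⟩ hP
    simp only [Finset.mem_product, Finset.mem_powerset] at hP
    obtain ⟨hB, hC⟩ := hP
    have hC' : ∀ x ∈ C, x ∉ D := fun x hx => by simpa using hC hx
    ext x
    · simp only [Finset.mem_inter, Finset.mem_union]
      constructor
      · rintro ⟨h1 | h1, h2⟩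
        · exact h1
        · exact absurd h2 (hC' x h1)
      · intro h1
        exact ⟨Or.inl h1, hB h1⟩
    · simp only [Finset.mem_sdiff, Finset.mem_union]
      constructor
      · rintro ⟨h1 | h1, h2⟩
        · exact absurd (hB h1) h2
        · exact h1
      · intro h1
        exact ⟨Or.inr h1, hC' x h1⟩
  · intro A _
    rfl

omit [Fintype V] in
theorem sum_powerset_one [DecidableEq V] (D : Finset V) :
    ∑ B ∈ D.powerset, p ^ B.card * (1 - p) ^ (D.card - B.card) = 1 := by
  rw [Finset.sum_pow_mul_eq_add_pow]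
  simp

theorem Ex_mul_split [DecidableEq V] (D : Finset V) (f g : Finset V → ℝ) :
    Ex p (fun A => f (A ∩ D) * g (A \ D)) =
      (∑ B ∈ D.powerset, p ^ B.card * (1 - p) ^ (D.card - B.card) * f B) *
      ∑ C ∈ Dᶜ.powerset, p ^ C.card * (1 - p) ^ (Dᶜ.card - C.card) * g C := by
  rw [Finset.sum_mul_sum, ← sum_split D (fun B C => p ^ B.card * (1 - p) ^ (D.card - B.card) * f B *
    (p ^ C.card * (1 - p) ^ (Dᶜ.card - C.card) * g C))]
  unfold Ex
  refine Finset.sum_congr rfl fun A _ => ?_
  have h1 : A.card = (A ∩ D).card + (A \ D).card := by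
    rw [← Finset.card_inter_add_card_sdiff A D]
  have h2 : (A ∩ D).card ≤ D.card := Finset.card_le_card Finset.inter_subset_right
  have h3 : (A \ D).card ≤ Dᶜ.card := by
    refine Finset.card_le_card fun x hx => ?_
    simp only [Finset.mem_sdiff] at hx
    simpa using hx.2
  have h4 : Fintype.card V = D.card + Dᶜ.card := by
    rw [Finset.card_add_card_compl]
  have h5 : Fintype.card V - A.card = (D.card - (A ∩ D).card) + (Dᶜ.card - (A \ D).card) := by
    omega
  rw [h5, h1, pow_add, pow_add]
  ring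

theorem Ex_left [DecidableEq V] (D : Finset V) (f : Finset V → ℝ) :
    Ex p (fun A => f (A ∩ D)) =
      ∑ B ∈ D.powerset, p ^ B.card * (1 - p) ^ (D.card - B.card) * f B := by
  have h := Ex_mul_split (p := p) D f (fun _ => 1)
  simp only [mul_one] at h
  rw [h, sum_powerset_one, mul_one]

theorem Ex_right [DecidableEq V] (D : Finset V) (g : Finset V → ℝ) :
    Ex p (fun A => g (A \ D)) =
      ∑ C ∈ Dᶜ.powerset, p ^ C.card * (1 - p) ^ (Dᶜ.card - C.card) * g C := by
  have h := Ex_mul_split (p := p) D (fun _ => 1) g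
  simp only [mul_one, one_mul] at h
  rw [h, sum_powerset_one, one_mul]

theorem Ex_indep [DecidableEq V] (D : Finset V) (f g : Finset V → ℝ) :
    Ex p (fun A => f (A ∩ D) * g (A \ D)) =
      Ex p (fun A => f (A ∩ D)) * Ex p (fun A => g (A \ D)) := by
  rw [Ex_mul_split, Ex_left, Ex_right]

theorem Ex_one : Ex p (fun _ : Finset V => 1) = 1 := by
  classical
  have h := Ex_left (p := p) (Finset.univ : Finset V) (fun _ => 1)
  simp only [mul_one] at h
  rw [h, sum_powerset_one]

theorem Ex_prod_indep [DecidableEq V] {ι : Type*} (J : Finset ι) (S : ι → Finset V)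
    (hS : (J : Set ι).PairwiseDisjoint S) (f : ι → Finset V → ℝ) :
    Ex p (fun A => ∏ j ∈ J, f j (A ∩ S j)) = ∏ j ∈ J, Ex p (fun A => f j (A ∩ S j)) := by
  classical
  induction J using Finset.induction_on with
  | empty => simp [Ex_one]
  | insert j J hj ih =>
    have hS' : (J : Set ι).PairwiseDisjoint S :=
      hS.subset (by simp)
    rw [Finset.prod_insert hj, ← ih hS']
    have h1 : (fun A : Finset V => ∏ i ∈ insert j J, f i (A ∩ S i)) =
        fun A => f j (A ∩ S j) * (fun C => ∏ i ∈ J, f i (C ∩ S i)) (A \ S j) := by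
      funext A
      rw [Finset.prod_insert hj]
      congr 1
      refine Finset.prod_congr rfl fun i hi => ?_
      congr 1
      have hd : Disjoint (S i) (S j) := hS (by simp [hi]) (by simp) (by
        rintro rfl
        exact hj hi)
      ext x
      simp only [Finset.mem_inter, Finset.mem_sdiff]
      constructor
      · rintro ⟨h1, h2⟩
        exact ⟨⟨h1, fun h3 => (Finset.disjoint_left.mp hd) h2 h3⟩, h2⟩
      · rintro ⟨⟨h1, -⟩, h2⟩
        exact ⟨h1, h2⟩
    have h2 : (fun A : Finset V => ∏ i ∈ J, f i (A ∩ S i)) =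
        fun A => (fun C => ∏ i ∈ J, f i (C ∩ S i)) (A \ S j) := by
      funext A
      refine Finset.prod_congr rfl fun i hi => ?_
      congr 1
      have hd : Disjoint (S i) (S j) := hS (by simp [hi]) (by simp) (by
        rintro rfl
        exact hj hi)
      ext x
      simp only [Finset.mem_inter, Finset.mem_sdiff]
      constructor
      · rintro ⟨h1, h2⟩
        exact ⟨⟨h1, fun h3 => (Finset.disjoint_left.mp hd) h2 h3⟩, h2⟩
      · rintro ⟨⟨h1, -⟩, h2⟩
        exact ⟨h1, h2⟩
    have h3 := Ex_indep (p := p) (S j) (f j) (fun C => ∏ i ∈ J, f i (C ∩ S i))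
    rw [h1, h3]
    congr 1
    exact congrArg (Ex p) h2.symm

theorem Pr_true : Pr p (fun _ : Finset V => True) = 1 := by
  rw [Pr_eq_Ex]
  simp [Ex_one]

theorem Pr_not (E : Finset V → Prop) : Pr p (fun A => ¬ E A) = 1 - Pr p E := by
  classical
  rw [← Pr_true (p := p) (V := V), Pr_eq_Ex, Pr_eq_Ex, Pr_eq_Ex]
  unfold Ex
  rw [← Finset.sum_sub_distrib]
  refine Finset.sum_congr rfl fun A _ => ?_
  by_cases h : E A <;> simp [h]

theorem Pr_exists_le (hp0 : 0 ≤ p) (hp1 : p ≤ 1) {ι : Type*} (I : Finset ι)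
    (E : ι → Finset V → Prop) : Pr p (fun A => ∃ i ∈ I, E i A) ≤ ∑ i ∈ I, Pr p (E i) := by
  classical
  simp only [Pr_eq_Ex]
  unfold Ex
  rw [Finset.sum_comm]
  refine Finset.sum_le_sum fun A _ => ?_
  rw [← Finset.mul_sum]
  have h1 : 0 ≤ p ^ A.card * (1 - p) ^ (Fintype.card V - A.card) := by
    have : 0 ≤ 1 - p := by linarith
    positivity
  refine mul_le_mul_of_nonneg_left ?_ h1
  by_cases h : ∃ i ∈ I, E i A
  · simp only [h, if_true]
    obtain ⟨i, hi, hE⟩ := h
    calc (1 : ℝ) = if E i A then 1 else 0 := by simp [hE]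
      _ ≤ ∑ i ∈ I, if E i A then (1 : ℝ) else 0 :=
        Finset.single_le_sum (f := fun i => if E i A then (1 : ℝ) else 0)
          (fun j _ => by positivity) hi
  · simp only [h, if_false]
    exact Finset.sum_nonneg fun j _ => by positivity

theorem Pr_superset (W : Finset V) : Pr p (fun A => W ⊆ A) = p ^ W.card := by
  classical
  rw [Pr_eq_Ex]
  have h1 : (fun A : Finset V => if W ⊆ A then (1 : ℝ) else 0) =
      fun A => (fun B => if B = W then (1 : ℝ) else 0) (A ∩ W) := by
    funext A
    simp only [Finset.inter_eq_right]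
  rw [h1, Ex_left W (fun B => if B = W then (1 : ℝ) else 0)]
  rw [Finset.sum_eq_single_of_mem W (by simp)]
  · simp
  · intro B _ hB
    simp [hB]

theorem Pr_disjoint (D : Finset V) : Pr p (fun A => Disjoint A D) = (1 - p) ^ D.card := by
  classical
  rw [Pr_eq_Ex]
  have h1 : (fun A : Finset V => if Disjoint A D then (1 : ℝ) else 0) =
      fun A => (fun B => if B = ∅ then (1 : ℝ) else 0) (A ∩ D) := by
    funext A
    simp only [Finset.disjoint_iff_inter_eq_empty]
  rw [h1, Ex_left D (fun B => if B = ∅ then (1 : ℝ) else 0)]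
  rw [Finset.sum_eq_single_of_mem ∅ (by simp)]
  · simp
  · intro B _ hB
    simp [hB]

theorem Pr_forall_indep [DecidableEq V] {ι : Type*} (J : Finset ι) (S : ι → Finset V)
    (hS : (J : Set ι).PairwiseDisjoint S) (E : ι → Finset V → Prop) :
    Pr p (fun A => ∀ j ∈ J, E j (A ∩ S j)) = ∏ j ∈ J, Pr p (fun A => E j (A ∩ S j)) := by
  classical
  simp only [Pr_eq_Ex]
  rw [← Ex_prod_indep J S hS (fun j B => if E j B then (1 : ℝ) else 0)]
  congr 1
  funext A
  rw [Finset.prod_ite_zero]
  simp

end Prob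

end Pool.Agent.Lib.MP_8501c9_pr
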