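import Pool.Agent.Lib.MP_8501c9_pr.Volume

/-!
# Task E: the rate function `ell`
-/

set_option autoImplicit false
open Set MeasureTheory

namespace Pool.Agent.Lib.MP_8501c9_pr

section Ell

/-- the line through the nodes `q`, `q+1` lies above `vfun` -/
theorem vfun_le_line (q : ℕ) (u : ℝ) : vfun u ≤ Real.log (q + 1) + (u - q) * vslope q := by
  have hstep : ∀ k : ℕ, Real.log ((k + 1 : ℕ) + 1) = Real.log (k + 1) + vslope k := by
    intro k
    unfold vslope
    push_cast
    have e1 : (k:ℝ) + 1 + 1 = k + 2 := by ring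
    rw [e1]
    ring
  have hu : u < ⌊u⌋₊ + 1 := Nat.lt_floor_add_one u
  rw [vfun_def]
  rcases le_total ⌊u⌋₊ q with h | h
  · generalize hk : ⌊u⌋₊ = k at h hu ⊢
    induction q, h using Nat.le_induction with
    | base => exact le_rfl
    | succ q hq ih =>
      refine ih.trans ?_
      rw [hstep q]
      have h1 := vslope_anti (Nat.le_succ q)
      have h2 : (k:ℝ) ≤ q := by exact_mod_cast hq
      push_cast
      nlinarith
  · rcases Nat.eq_zero_or_pos ⌊u⌋₊ with h0 | h0
    · have hq : q = 0 := by omega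
      subst hq
      rw [h0]
    · have hu' : (⌊u⌋₊ : ℝ) ≤ u := Nat.floor_le (by
        by_contra hc
        push Not at hc
        have := Nat.floor_of_nonpos hc.le
        omega)
      have key : ∀ k : ℕ, q ≤ k → (k:ℝ) ≤ u →
          Real.log (k + 1) + (u - k) * vslope k ≤ Real.log (q + 1) + (u - q) * vslope q := by
        intro k hk
        induction k, hk using Nat.le_induction with
        | base => intro _; exact le_rfl
        | succ k hk ih =>
          intro hku
          push_cast at hku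
          refine le_trans ?_ (ih (by linarith))
          rw [hstep k]
          have h1 := vslope_anti (Nat.le_succ k)
          push_cast
          nlinarith
      exact key _ h hu'

theorem vfun_sub_le (u w : ℝ) :
    vfun w - vfun u ≤ (w - u) * vslope ⌊u⌋₊ := by
  have h1 := vfun_le_line ⌊u⌋₊ w
  rw [vfun_def u]
  linarith

theorem vfun_monotone : Monotone vfun := by
  intro u w h
  have h1 := vfun_le_line ⌊w⌋₊ u
  have h2 : vfun w = Real.log (⌊w⌋₊ + 1) + (w - ⌊w⌋₊) * vslope ⌊w⌋₊ := vfun_def w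
  nlinarith [vslope_nonneg ⌊w⌋₊, mul_nonneg (sub_nonneg.2 h) (vslope_nonneg ⌊w⌋₊)]

theorem vfun_mono : MonotoneOn vfun (Ici 0) := vfun_monotone.monotoneOn _

theorem vfun_continuous : Continuous vfun := by
  have h2 : 0 ≤ Real.log 2 := Real.log_nonneg (by norm_num)
  have : LipschitzWith ⟨Real.log 2, h2⟩ vfun := by
    refine LipschitzWith.of_le_add_mul _ ?_
    intro x y
    show vfun x ≤ vfun y + Real.log 2 * dist x y
    rcases le_total x y with h | h
    · have := vfun_monotone h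
      have h3 : 0 ≤ Real.log 2 * dist x y := mul_nonneg h2 dist_nonneg
      linarith
    · have h3 := vfun_sub_le y x
      have h4 := mul_le_mul_of_nonneg_left (vslope_le_log_two ⌊y⌋₊) (sub_nonneg.2 h)
      rw [Real.dist_eq, abs_of_nonneg (sub_nonneg.2 h)]
      linarith
  exact this.continuous

theorem vfun_continuousOn : ContinuousOn vfun (Ici 0) := vfun_continuous.continuousOn

theorem vfun_zero : vfun 0 = 0 := by
  have := vfun_nat 0
  simpa using this

theorem vfun_nonneg {u : ℝ} (hu : 0 ≤ u) : 0 ≤ vfun u := by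
  rw [← vfun_zero]
  exact vfun_monotone hu

theorem vfun_le_log {u : ℝ} (hu : 0 ≤ u) : vfun u ≤ Real.log (1 + u) := by
  have h1 : (⌊u⌋₊ : ℝ) ≤ u := Nat.floor_le hu
  have h2 : u < ⌊u⌋₊ + 1 := Nat.lt_floor_add_one u
  have m1 : (⌊u⌋₊ : ℝ) + 1 ∈ Ioi (0:ℝ) := by simp only [mem_Ioi]; positivity
  have m2 : (⌊u⌋₊ : ℝ) + 2 ∈ Ioi (0:ℝ) := by simp only [mem_Ioi]; positivity
  have p1 : 0 ≤ 1 - (u - (⌊u⌋₊ : ℝ)) := by linarith
  have p2 : 0 ≤ u - (⌊u⌋₊ : ℝ) := by linarith
  have hc := strictConcaveOn_log_Ioi.concaveOn.2 m1 m2 p1 p2 (by ring)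
  simp only [smul_eq_mul] at hc
  have e : (1 - (u - ⌊u⌋₊)) * ((⌊u⌋₊ : ℝ) + 1) + (u - ⌊u⌋₊) * ((⌊u⌋₊ : ℝ) + 2) = 1 + u := by ring
  rw [e] at hc
  rw [vfun_def]
  unfold vslope
  linarith

theorem vfun_add_le {u w : ℝ} (_hu : 0 ≤ u) (hw : 0 ≤ w) :
    vfun (u + w) ≤ vfun u + w * Real.log 2 := by
  have h3 := vfun_sub_le u (u + w)
  have h4 := mul_le_mul_of_nonneg_left (vslope_le_log_two ⌊u⌋₊) hw
  have e : u + w - u = w := by ring
  rw [e] at h3
  linarith

theorem vfun_int (a b : ℝ) : IntervalIntegrable vfun volume a b :=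
  vfun_continuous.intervalIntegrable a b

theorem integral_vfun_nonneg {a : ℝ} (ha : 0 ≤ a) : 0 ≤ ∫ u in (0 : ℝ)..a, vfun u :=
  intervalIntegral.integral_nonneg ha fun _ hu => vfun_nonneg hu.1

theorem integral_vfun_lower {a b : ℝ} (hab : a ≤ b) :
    (b - a) * vfun a ≤ ∫ u in a..b, vfun u := by
  have h : ∫ u in a..b, vfun a ≤ ∫ u in a..b, vfun u := by
    refine intervalIntegral.integral_mono_on hab (by simp) (vfun_int _ _) ?_
    intro x hx
    exact vfun_monotone hx.1
  rw [intervalIntegral.integral_const, smul_eq_mul] at h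
  exact h

theorem integral_vfun_upper {a b : ℝ} (hab : a ≤ b) :
    ∫ u in a..b, vfun u ≤ (b - a) * vfun b := by
  have h : ∫ u in a..b, vfun u ≤ ∫ u in a..b, vfun b := by
    refine intervalIntegral.integral_mono_on hab (vfun_int _ _) (by simp) ?_
    intro x hx
    exact vfun_monotone hx.2
  rw [intervalIntegral.integral_const, smul_eq_mul] at h
  exact h

/-- the tangent-type inequality, valid on both sides -/
theorem integral_vfun_tangent (a b : ℝ) :
    (b - a) * vfun a ≤ ∫ u in a..b, vfun u := by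
  rcases le_total a b with h | h
  · exact integral_vfun_lower h
  · have := integral_vfun_upper h
    rw [intervalIntegral.integral_symm]
    linarith

theorem ell_bdd {b : ℝ} (hb : 0 ≤ b) :
    BddBelow (range fun a : Ioi (0:ℝ) => (2 * b + ∫ u in (0 : ℝ)..a, vfun u) / a) := by
  refine ⟨0, ?_⟩
  rintro _ ⟨⟨a, ha⟩, rfl⟩
  have h1 := integral_vfun_nonneg (le_of_lt (mem_Ioi.1 ha))
  have h2 : (0:ℝ) < a := ha
  simp only
  positivity

theorem ell_le {b a : ℝ} (hb : 0 ≤ b) (ha : 0 < a) :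
    ell b ≤ (2 * b + ∫ u in (0 : ℝ)..a, vfun u) / a := by
  unfold ell
  exact ciInf_le (ell_bdd hb) (⟨a, ha⟩ : Ioi (0:ℝ))

/-- `θ(a) = a v(a) - ∫_0^a v` -/
noncomputable def vtheta (a : ℝ) : ℝ := a * vfun a - ∫ u in (0 : ℝ)..a, vfun u

theorem vtheta_continuous : Continuous vtheta := by
  unfold vtheta
  exact (continuous_id.mul vfun_continuous).sub
    (intervalIntegral.continuous_primitive vfun_int 0)

theorem vtheta_zero : vtheta 0 = 0 := by simp [vtheta]

theorem vtheta_sub (a b : ℝ) :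
    vtheta b - vtheta a = b * vfun b - a * vfun a - ∫ u in a..b, vfun u := by
  unfold vtheta
  rw [← intervalIntegral.integral_add_adjacent_intervals (vfun_int 0 a) (vfun_int a b)]
  ring

theorem vtheta_le_unit (q : ℕ) {u : ℝ} (h1 : (q : ℝ) ≤ u) (h2 : u ≤ q + 1)
    (hq : vtheta q ≤ q) : vtheta u ≤ u := by
  have h3 := vtheta_sub q u
  have h4 := integral_vfun_lower h1
  have h5 := vfun_affine' q u h1 h2
  have h6 : vfun q = Real.log (q + 1) := vfun_nat q
  have h7 := vslope_le q
  have h8 : u * vslope q ≤ 1 := by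
    have h9 : u * vslope q ≤ (q + 1) * (1 / ((q:ℝ) + 1)) :=
      mul_le_mul h2 h7 (vslope_nonneg q) (by positivity)
    rwa [mul_one_div_cancel (by positivity)] at h9
  have h10 : (u - q) * (u * vslope q) ≤ (u - q) * 1 :=
    mul_le_mul_of_nonneg_left h8 (sub_nonneg.2 h1)
  have h11 : u * vfun u - q * vfun q - (u - q) * vfun q = (u - q) * (u * vslope q) := by
    rw [h5, h6]
    ring
  linarith

theorem vtheta_le_nat (q : ℕ) : vtheta q ≤ q := by
  induction q with
  | zero => simp [vtheta_zero]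
  | succ q ih =>
    have := vtheta_le_unit q (u := ((q + 1 : ℕ) : ℝ)) (by push_cast; linarith)
      (by push_cast; linarith) ih
    exact this

theorem vtheta_le {u : ℝ} (hu : 0 ≤ u) : vtheta u ≤ u :=
  vtheta_le_unit ⌊u⌋₊ (Nat.floor_le hu) (Nat.lt_floor_add_one u).le (vtheta_le_nat _)

theorem vtheta_ge_unit (q : ℕ) (hq2 : 2 ≤ q) {u : ℝ} (h1 : (q : ℝ) ≤ u) (h2 : u ≤ q + 1)
    (hq : (q : ℝ) / 2 - 1 ≤ vtheta q) : u / 2 - 1 ≤ vtheta u := by
  have h3 := vtheta_sub q u
  have h4 := integral_vfun_upper h1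
  have h5 := vfun_affine' q u h1 h2
  have h6 : vfun q = Real.log (q + 1) := vfun_nat q
  have h7 := vslope_ge q
  have hq2' : (2:ℝ) ≤ q := by exact_mod_cast hq2
  have h8 : 1 / 2 ≤ q * vslope q := by
    have h9 : q * (1 / ((q:ℝ) + 2)) ≤ q * vslope q := mul_le_mul_of_nonneg_left h7 (by positivity)
    have h10 : 1 / 2 ≤ q * (1 / ((q:ℝ) + 2)) := by
      rw [mul_one_div, div_le_div_iff₀ (by norm_num) (by positivity)]
      linarith
    linarith
  have h10 : (u - q) * (1 / 2) ≤ (u - q) * (q * vslope q) :=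
    mul_le_mul_of_nonneg_left h8 (sub_nonneg.2 h1)
  have h11 : u * vfun u - q * vfun q - (u - q) * vfun u = (u - q) * (q * vslope q) := by
    rw [h5, h6]
    ring
  linarith

theorem vtheta_nonneg {u : ℝ} (hu : 0 ≤ u) : 0 ≤ vtheta u := by
  have := integral_vfun_upper hu
  unfold vtheta
  linarith

theorem vtheta_ge_nat (q : ℕ) (hq : 2 ≤ q) : (q : ℝ) / 2 - 1 ≤ vtheta q := by
  induction q, hq using Nat.le_induction with
  | base =>
    have := vtheta_nonneg (u := ((2:ℕ) : ℝ)) (by norm_num)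
    push_cast at this ⊢
    linarith
  | succ q hq ih =>
    exact vtheta_ge_unit q hq (u := ((q + 1 : ℕ) : ℝ)) (by push_cast; linarith)
      (by push_cast; linarith) ih

theorem vtheta_ge {u : ℝ} (hu : 0 ≤ u) : u / 2 - 1 ≤ vtheta u := by
  rcases le_total u 2 with h | h
  · have := vtheta_nonneg hu
    linarith
  · have h2 : 2 ≤ ⌊u⌋₊ := Nat.le_floor (by exact_mod_cast h)
    exact vtheta_ge_unit ⌊u⌋₊ h2 (Nat.floor_le hu) (Nat.lt_floor_add_one u).le
      (vtheta_ge_nat _ h2)

theorem exists_minimiser {b : ℝ} (hb : 0 < b) : ∃ a : ℝ, 0 < a ∧ ell b = vfun a ∧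
    a * vfun a - ∫ u in (0 : ℝ)..a, vfun u = 2 * b ∧ 2 * b ≤ a ∧ a ≤ 4 * b + 2 := by
  have h0 : (0:ℝ) ≤ 4 * b + 2 := by linarith
  obtain ⟨a, ha, ha'⟩ := intermediate_value_Icc h0 vtheta_continuous.continuousOn
    (show 2 * b ∈ Icc (vtheta 0) (vtheta (4 * b + 2)) from
      ⟨by rw [vtheta_zero]; linarith, by have := vtheta_ge h0; linarith⟩)
  have h2 : 2 * b ≤ a := by
    rw [← ha']
    exact vtheta_le ha.1
  have hapos : 0 < a := by linarith
  have hth : a * vfun a - ∫ u in (0 : ℝ)..a, vfun u = 2 * b := ha'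
  refine ⟨a, hapos, ?_, hth, h2, ha.2⟩
  apply le_antisymm
  · have h3 := ell_le hb.le hapos
    have h4 : (2 * b + ∫ u in (0 : ℝ)..a, vfun u) / a = vfun a := by
      rw [← hth]
      field_simp
      ring
    rwa [h4] at h3
  · unfold ell
    have : Nonempty (Ioi (0:ℝ)) := ⟨⟨1, by simp⟩⟩
    refine le_ciInf ?_
    rintro ⟨c, hc⟩
    have hc' : (0:ℝ) < c := hc
    rw [le_div_iff₀ hc']
    have h5 := integral_vfun_tangent a c
    have h6 := intervalIntegral.integral_add_adjacent_intervals (vfun_int 0 a) (vfun_int a c)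
    show vfun a * c ≤ 2 * b + ∫ u in (0:ℝ)..c, vfun u
    rw [← h6]
    linarith

theorem sum_sfun_le (N k : ℕ) (hN : 1 ≤ N) :
    ∑ t ∈ Finset.range k, sfun N t ≤ N ^ 2 * ∫ u in (0 : ℝ)..(k / N), vfun u := by
  have hN' : (0:ℝ) < N := by exact_mod_cast hN
  induction k with
  | zero => simp
  | succ k ih =>
    rw [Finset.sum_range_succ]
    have hle : (k:ℝ) / N ≤ ((k + 1 : ℕ) : ℝ) / N := by
      push_cast
      gcongr
      linarith
    have h6 := intervalIntegral.integral_add_adjacent_intervals (vfun_int 0 (k / N))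
      (vfun_int (k / N) (((k + 1 : ℕ) : ℝ) / N))
    have h5 := integral_vfun_lower hle
    rw [← h6, mul_add]
    refine add_le_add ih ?_
    have h7 : (N:ℝ) ^ 2 * ((((k + 1 : ℕ) : ℝ) / N - k / N) * vfun (k / N)) = sfun N k := by
      unfold sfun
      push_cast
      field_simp
      ring
    rw [← h7]
    exact mul_le_mul_of_nonneg_left h5 (by positivity)

theorem le_sum_sfun (N k : ℕ) (hN : 1 ≤ N) :
    N ^ 2 * ∫ u in (0 : ℝ)..(k / N), vfun u ≤ ∑ t ∈ Finset.range k, sfun N (t + 1) := by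
  have hN' : (0:ℝ) < N := by exact_mod_cast hN
  induction k with
  | zero => simp
  | succ k ih =>
    rw [Finset.sum_range_succ]
    have hle : (k:ℝ) / N ≤ ((k + 1 : ℕ) : ℝ) / N := by
      push_cast
      gcongr
      linarith
    have h6 := intervalIntegral.integral_add_adjacent_intervals (vfun_int 0 (k / N))
      (vfun_int (k / N) (((k + 1 : ℕ) : ℝ) / N))
    have h5 := integral_vfun_upper hle
    rw [← h6, mul_add]
    refine add_le_add ih ?_
    have h7 : (N:ℝ) ^ 2 * ((((k + 1 : ℕ) : ℝ) / N - k / N) * vfun (((k + 1 : ℕ) : ℝ) / N)) =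
        sfun N (k + 1) := by
      unfold sfun
      push_cast
      field_simp
      ring
    rw [← h7]
    exact mul_le_mul_of_nonneg_left h5 (by positivity)

theorem integral_vfun_le {a : ℝ} (ha : 0 ≤ a) :
    ∫ u in (0 : ℝ)..a, vfun u ≤ (1 + a) * Real.log (1 + a) - a := by
  have hcont : ContinuousOn (fun u : ℝ => Real.log (1 + u)) (uIcc 0 a) := by
    rw [uIcc_of_le ha]
    refine ContinuousOn.log (by fun_prop) ?_
    intro x hx
    have : (0:ℝ) < 1 + x := by linarith [hx.1]
    exact this.ne'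
  have h1 : ∫ u in (0 : ℝ)..a, vfun u ≤ ∫ u in (0 : ℝ)..a, Real.log (1 + u) := by
    refine intervalIntegral.integral_mono_on ha (vfun_int _ _) hcont.intervalIntegrable ?_
    intro x hx
    exact vfun_le_log hx.1
  have h2 : ∫ u in (0 : ℝ)..a, Real.log (1 + u) = (1 + a) * Real.log (1 + a) - a := by
    have hd : ∀ x ∈ uIcc 0 a, HasDerivAt (fun u : ℝ => (1 + u) * Real.log (1 + u) - u)
        (Real.log (1 + x)) x := by
      intro x hx
      rw [uIcc_of_le ha] at hx
      have hx0 : (0:ℝ) < 1 + x := by linarith [hx.1]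
      have e1 : HasDerivAt (fun u : ℝ => 1 + u) 1 x := by
        simpa using (hasDerivAt_id x).const_add (1:ℝ)
      have e2 := e1.log hx0.ne'
      have e3 := (e1.mul e2).sub (hasDerivAt_id x)
      refine e3.congr_deriv ?_
      field_simp
      ring
    rw [intervalIntegral.integral_eq_sub_of_hasDerivAt hd hcont.intervalIntegrable]
    simp
  linarith

end Ell

end Pool.Agent.Lib.MP_8501c9_pr
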