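import Pool.Agent.Lib.MP_8501c9_pr.Defs
import Pool.Agent.Lib.MP_8501c9_pr.Volume

set_option autoImplicit false
open Set

namespace Pool.Agent.Lib.MP_8501c9_pr

theorem cost_mono (d m0 : ℕ) (hd : 2 ≤ d) : Monotone (cost d m0) := by
  intro s t hst
  unfold cost
  have h1 := sfun_mono (d - 1) (by omega) (Nat.add_le_add_right hst 1)
  have h2 : ((min s m0 + 3 : ℕ) : ℝ) ≤ ((min t m0 + 3 : ℕ) : ℝ) := by
    exact_mod_cast Nat.add_le_add_right (min_le_min_right m0 hst) 3
  have h3 : 0 ≤ Real.log 2 := Real.log_nonneg (by norm_num)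
  have h4 := mul_le_mul_of_nonneg_right h2 h3
  linarith

theorem gain_key (d m0 : ℕ) (hm0 : 80 * Real.log (4 * d) + 1 ≤ m0) (hd : m0 + 2 ≤ d) (x t : ℕ)
    (htx : t ≤ x) (hx : m0 ≤ 2 * x + 1) : 4 * Real.log (4 * d) ≤ cost d m0 (t + x) - cost d m0 t := by
  have hd1 : (1 : ℝ) ≤ (d : ℝ) := by exact_mod_cast (by omega : 1 ≤ d)
  have hlam : 0 < Real.log (4 * d) := Real.log_pos (by linarith)
  have h1 := le_sfun_add (d - 1) (t + 1) x (by omega)
  have h2 : ((min t m0 + 3 : ℕ) : ℝ) ≤ ((min (t + x) m0 + 3 : ℕ) : ℝ) := by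
    exact_mod_cast Nat.add_le_add_right (min_le_min_right m0 (Nat.le_add_right t x)) 3
  have h3 : 0 ≤ Real.log 2 := Real.log_nonneg (by norm_num)
  have h4 := mul_le_mul_of_nonneg_right h2 h3
  have hN : (((d - 1 : ℕ) : ℝ)) = (d : ℝ) - 1 := by
    rw [Nat.cast_sub (by omega)]
    simp
  set N : ℕ := d - 1 with hNdef
  have hNm : m0 + 1 ≤ N := by omega
  have hNm' : (m0 : ℝ) + 1 ≤ N := by exact_mod_cast hNm
  have hx' : (m0 : ℝ) ≤ 2 * x + 1 := by exact_mod_cast hx
  have htx' : (t : ℝ) ≤ x := by exact_mod_cast htx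
  have ht0 : (0 : ℝ) ≤ t := by positivity
  have hx0 : 40 * Real.log (4 * d) ≤ x := by linarith
  have hxpos : (0 : ℝ) < x := by linarith
  have hx1 : (1 : ℝ) ≤ x := by
    have : 0 < x := by exact_mod_cast hxpos
    exact_mod_cast this
  have hN0 : 80 * Real.log (4 * d) ≤ N := by linarith
  have hNpos : (1 : ℝ) ≤ N := by linarith
  have h5 : 8 * Real.log (4 * d) ≤ x * (N / ((t + 1 : ℕ) + x + 2 * N)) := by
    push_cast
    rw [← mul_div_assoc, le_div_iff₀ (by positivity)]
    rcases le_total (x : ℝ) N with h | h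
    · have : (t : ℝ) + 1 + x + 2 * N ≤ 5 * N := by linarith
      calc 8 * Real.log (4 * d) * ((t : ℝ) + 1 + x + 2 * N) ≤ 8 * Real.log (4 * d) * (5 * N) := by
            gcongr
        _ = (40 * Real.log (4 * d)) * N := by ring
        _ ≤ x * N := by gcongr
    · have : (t : ℝ) + 1 + x + 2 * N ≤ 5 * x := by linarith
      calc 8 * Real.log (4 * d) * ((t : ℝ) + 1 + x + 2 * N) ≤ 8 * Real.log (4 * d) * (5 * x) := by
            gcongr
        _ = (40 * Real.log (4 * d)) * x := by ring
        _ ≤ N * x := by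
            gcongr
            linarith
        _ = x * N := mul_comm _ _
  unfold cost
  rw [show t + x + 1 = t + 1 + x by ring]
  rw [← hNdef]
  linarith

theorem gain_card (m h : ℕ) (hhm : h + 1 ≤ m) :
    (h : ℝ) / 2 ≤ ((Finset.range h).filter (fun t => 2 * (t + 1) ≤ m)).card := by
  have hsub : Finset.range (min h (m / 2)) ⊆ (Finset.range h).filter (fun t => 2 * (t + 1) ≤ m) := by
    intro t ht
    rw [Finset.mem_range] at ht
    rw [Finset.mem_filter, Finset.mem_range]
    omega
  have h1 := Finset.card_le_card hsub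
  rw [Finset.card_range] at h1
  have h2 : h ≤ 2 * min h (m / 2) := by omega
  have h3 : (h : ℝ) ≤ 2 * ((min h (m / 2) : ℕ) : ℝ) := by exact_mod_cast h2
  have h4 : ((min h (m / 2) : ℕ) : ℝ) ≤ ((Finset.range h).filter (fun t => 2 * (t + 1) ≤ m)).card := by
    exact_mod_cast h1
  linarith

theorem gain (d m0 M m c h : ℕ) (L : ℝ) (hm0 : 80 * Real.log (4 * d) + 1 ≤ m0)
    (hd : m0 + 2 ≤ d) (hM : cost d m0 M ≤ L / 2) (hm : m0 < m) (hmM : m ≤ M) (hc1 : 1 ≤ c)
    (hch : c ≤ h + 2) (hhm : h + c ≤ m) :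
    Gfun d m0 L m + sfun (d - 1) m + (2 * h + 4) * Real.log (4 * d) ≤
      Gfun d m0 L (m - c) + Gfun d m0 L h := by
  have hd1 : (1 : ℝ) ≤ (d : ℝ) := by exact_mod_cast (by omega : 1 ≤ d)
  have hlam : 0 < Real.log (4 * d) := Real.log_pos (by linarith)
  have hlog2 : (1 : ℝ) / 2 ≤ Real.log 2 := by
    have := Real.log_two_gt_d9
    linarith
  have hmono := cost_mono d m0 (by omega)
  obtain ⟨m1, rfl⟩ : ∃ m1, m = m1 + c := ⟨m - c, by omega⟩
  rw [Nat.add_sub_cancel]
  set γ : ℕ → ℝ := fun t => L / 2 - cost d m0 (t + 1) with hγ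
  have hγ0 : ∀ t, t + 1 ≤ M → 0 ≤ γ t := by
    intro t ht
    have := hmono ht
    simp only [hγ]
    linarith
  -- cost at `m - 1`
  have hcm : 2 * cost d m0 (m1 + c - 1) = sfun (d - 1) (m1 + c) + (m0 + 3) * Real.log 2 := by
    unfold cost
    rw [Nat.sub_add_cancel (by omega), min_eq_right (by omega)]
    push_cast
    ring
  have h4lam : 4 * Real.log (4 * d) ≤ (m0 + 3) * Real.log 2 := by
    have : 80 * Real.log (4 * d) ≤ (m0 + 3 : ℝ) := by linarith
    nlinarith
  have hsplit : Gfun d m0 L (m1 + c) = Gfun d m0 L m1 + ∑ t ∈ Finset.range c, γ (m1 + t) := by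
    unfold Gfun
    rw [Finset.sum_range_add]
    simp only [hγ]
    ring
  have hstep : ∀ t ∈ Finset.range h, (if 2 * (t + 1) ≤ m1 + c then 4 * Real.log (4 * d) else 0) +
      (if t < c then γ (m1 + t) else 0) ≤ γ t := by
    intro t ht
    rw [Finset.mem_range] at ht
    have h0 : (if 2 * (t + 1) ≤ m1 + c then 4 * Real.log (4 * d) else 0) ≤
        4 * Real.log (4 * d) := by
      split_ifs
      · exact le_rfl
      · positivity
    by_cases htc : t < c
    · rw [if_pos htc]
      have := gain_key d m0 hm0 hd m1 (t + 1) (by omega) (by omega)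
      have e : cost d m0 (m1 + t + 1) = cost d m0 (t + 1 + m1) := by
        congr 1
        ring
      simp only [hγ]
      rw [e]
      linarith
    · rw [if_neg htc, add_zero]
      by_cases htm : 2 * (t + 1) ≤ m1 + c
      · rw [if_pos htm]
        obtain ⟨x, hx⟩ : ∃ x, m1 + c = t + 1 + x := ⟨m1 + c - (t + 1), by omega⟩
        have h1 := gain_key d m0 hm0 hd x (t + 1) (by omega) (by omega)
        have h2 := hmono hmM
        rw [hx] at h2
        simp only [hγ]
        linarith
      · rw [if_neg htm]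
        exact hγ0 t (by omega)
  have hsumstep := Finset.sum_le_sum hstep
  rw [Finset.sum_add_distrib, ← Finset.sum_filter, Finset.sum_const, nsmul_eq_mul] at hsumstep
  have hcard := gain_card (m1 + c) h (by omega)
  have hcard2 : 2 * (h : ℝ) * Real.log (4 * d) ≤
      ((Finset.range h).filter (fun t => 2 * (t + 1) ≤ m1 + c)).card * (4 * Real.log (4 * d)) := by
    nlinarith
  have hL : 2 * cost d m0 (m1 + c - 1) ≤ L := by
    have := hmono (show m1 + c - 1 ≤ M by omega)
    linarith
  have hmain : ∑ t ∈ Finset.range c, γ (m1 + t) ≤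
      ∑ t ∈ Finset.range h, (if t < c then γ (m1 + t) else 0) +
        (L - 2 * cost d m0 (m1 + c - 1)) := by
    rcases Nat.lt_or_ge h c with hlt | hge
    · have e1 : ∑ t ∈ Finset.range h, (if t < c then γ (m1 + t) else 0) =
          ∑ t ∈ Finset.range h, γ (m1 + t) := by
        refine Finset.sum_congr rfl fun t ht => ?_
        rw [Finset.mem_range] at ht
        rw [if_pos (ht.trans hlt)]
      rw [e1]
      rcases (show c = h + 1 ∨ c = h + 2 by omega) with rfl | rfl
      · rw [Finset.sum_range_succ]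
        have h1 := hmono (show m1 + (h + 1) - 1 ≤ m1 + h + 1 by omega)
        simp only [hγ]
        linarith
      · rw [Finset.sum_range_succ, Finset.sum_range_succ]
        have h1 := hmono (show m1 + (h + 2) - 1 ≤ m1 + (h + 1) + 1 by omega)
        have h2 : m1 + (h + 2) - 1 = m1 + h + 1 := by omega
        rw [h2] at h1 ⊢
        simp only [hγ]
        linarith
    · have e1 : ∑ t ∈ Finset.range h, (if t < c then γ (m1 + t) else 0) =
          ∑ t ∈ Finset.range c, γ (m1 + t) := by
        rw [← Finset.sum_filter]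
        congr 1
        ext t
        rw [Finset.mem_filter, Finset.mem_range, Finset.mem_range]
        omega
      rw [e1]
      linarith
  have hG : Gfun d m0 L h = L + ∑ t ∈ Finset.range h, γ t := rfl
  rw [hsplit, hG]
  linarith

end Pool.Agent.Lib.MP_8501c9_pr
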