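import Pool.Agent.Lib.MP_8501c9_pr.Crossing
import Pool.Agent.Lib.MP_8501c9_pr.Volume
import Pool.Agent.Lib.MP_8501c9_pr.Prob
import Pool.Agent.Lib.MP_8501c9_pr.Count
import Pool.Agent.Lib.MP_8501c9_pr.Gain

/-!
# Bounds for the generating function of spanning sets
-/

set_option autoImplicit false
open Set

namespace Pool.Agent.Lib.MP_8501c9_pr


variable {n d : ℕ}

theorem wt_nonneg {p : ℝ} (hp : 0 ≤ p) (R : BoxT n d) : 0 ≤ wt p R := by
  classical
  unfold wt
  exact Finset.sum_nonneg fun _ _ => by positivity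

theorem wt_mono {p q : ℝ} (hp : 0 ≤ p) (h : p ≤ q) (R : BoxT n d) : wt p R ≤ wt q R := by
  classical
  unfold wt
  exact Finset.sum_le_sum fun _ _ => pow_le_pow_left₀ hp h _

theorem near_symm {R S : BoxT n d} (h : Near R S) : Near S R := by
  unfold Near at h ⊢
  simpa only [add_comm] using h

theorem hull_symm (R S : BoxT n d) : hull R S = hull S R := by
  unfold hull
  rw [inf_comm, sup_comm]

theorem PairOK.swap {R : BoxT n d} {P : BoxT n d × BoxT n d} (h : PairOK R P) :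
    PairOK R (P.2, P.1) := by
  obtain ⟨h1, h2, h3, h4, h5, h6⟩ := h
  exact ⟨h2, h1, near_symm h3, by rw [← h4, hull_symm], h6, h5⟩

theorem PairOK.phi_le {R : BoxT n d} {P : BoxT n d × BoxT n d} (h : PairOK R P) :
    phi R ≤ phi P.1 + phi P.2 + 2 := by
  obtain ⟨h1, h2, h3, h4, h5, h6⟩ := h
  rw [← h4]
  exact phi_hull_le h1 h2 h3

theorem PairOK.phi_lt {R : BoxT n d} {P : BoxT n d × BoxT n d} (h : PairOK R P) :
    phi P.1 < phi R := by
  obtain ⟨h1, h2, h3, h4, h5, h6⟩ := h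
  have ha : ∀ i, (R.1 i : ℕ) ≤ P.1.1 i := fun i => by
    have : R.1 ≤ P.1.1 := by rw [← h4]; exact inf_le_left
    exact this i
  have hb : ∀ i, (P.1.2 i : ℕ) ≤ R.2 i := fun i => by
    have : P.1.2 ≤ R.2 := by rw [← h4]; exact le_sup_left
    exact this i
  have hc : ∀ i, (P.1.1 i : ℕ) ≤ P.1.2 i := fun i => h1 i
  have hex : ∃ i, (R.1 i : ℕ) ≠ P.1.1 i ∨ (R.2 i : ℕ) ≠ P.1.2 i := by
    by_contra hcon
    push Not at hcon
    apply h5
    refine Prod.ext (funext fun i => Fin.ext ?_) (funext fun i => Fin.ext ?_)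
    · exact (hcon i).1.symm
    · exact (hcon i).2.symm
  obtain ⟨i, hi⟩ := hex
  unfold phi
  refine Finset.sum_lt_sum (fun j _ => ?_) ⟨i, Finset.mem_univ i, ?_⟩
  · have := ha j
    have := hb j
    have := hc j
    omega
  · have := ha i
    have := hb i
    have := hc i
    omega

/-- the real inequality behind the recursion -/
theorem pair_term (d m0 M k m1 h r : ℕ) (L : ℝ) (hm0 : 80 * Real.log (4 * d) + 1 ≤ m0)
    (hd : m0 + 2 ≤ d) (hM : cost d m0 M ≤ L / 2) (hk : m0 < k) (hkM : k ≤ M) (hkr : k ≤ r)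
    (hm1 : m1 < k) (hh : h ≤ m1) (hr : r ≤ m1 + h + 2) :
    (2 * d) ^ (r - m1) * d ^ h * Real.exp (sfun (d - 1) r) *
      (Real.exp (-(Gfun d m0 L m1)) * Real.exp (-(Gfun d m0 L h))) ≤
    Real.exp (-(Gfun d m0 L k)) * ((1 / 2) ^ (k - m1) * (1 / 2) ^ h / 8) := by
  have hd2 : (2 : ℝ) ≤ d := by
    have : 2 ≤ d := by omega
    exact_mod_cast this
  have hd0 : (0 : ℝ) < d := by linarith
  have hl2 : 0 < Real.log 2 := Real.log_pos (by norm_num)
  have hld : 0 ≤ Real.log d := Real.log_nonneg (by linarith)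
  have hg := gain d m0 M k (k - m1) h L hm0 hd hM hk hkM (by omega) (by omega) (by omega)
  have hkk : k - (k - m1) = m1 := by omega
  rw [hkk] at hg
  have hs : sfun (d - 1) r ≤ sfun (d - 1) k + (r - k : ℕ) * Real.log 2 := by
    have h1 := sfun_add_le (d - 1) k (r - k) (by omega)
    rwa [Nat.add_sub_cancel' hkr] at h1
  have e1 : (2 * d : ℝ) ^ (r - m1) = Real.exp ((r - m1 : ℕ) * (Real.log 2 + Real.log d)) := by
    rw [← Real.log_mul (by norm_num) hd0.ne', Real.exp_nat_mul, Real.exp_log (by positivity)]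
  have e2 : (d : ℝ) ^ h = Real.exp (h * Real.log d) := by
    rw [Real.exp_nat_mul, Real.exp_log hd0]
  have e3 : ∀ j : ℕ, ((1 : ℝ) / 2) ^ j = Real.exp (-(j * Real.log 2)) := by
    intro j
    rw [Real.exp_neg, Real.exp_nat_mul, Real.exp_log (by norm_num)]
    simp
  have e4 : (1 : ℝ) / 8 = Real.exp (-(3 * Real.log 2)) := by
    have h1 := e3 3
    norm_num at h1
    norm_num
    exact h1
  have e5 : Real.log (4 * d) = 2 * Real.log 2 + Real.log d := by
    rw [Real.log_mul (by norm_num) hd0.ne']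
    have : (4 : ℝ) = 2 ^ 2 := by norm_num
    rw [this, Real.log_pow]
    push_cast
    ring
  have e6 : (1 / 2 : ℝ) ^ (k - m1) * (1 / 2) ^ h / 8 =
      (1 / 2 : ℝ) ^ (k - m1) * (1 / 2) ^ h * (1 / 8) := by ring
  rw [e6, e1, e2, e3, e3, e4]
  simp only [← Real.exp_add]
  refine Real.exp_le_exp.2 ?_
  rw [e5] at hg
  have c1 : ((r - m1 : ℕ) : ℝ) = r - m1 := by
    rw [Nat.cast_sub (by omega)]
  have c2 : ((r - k : ℕ) : ℝ) = r - k := by
    rw [Nat.cast_sub (by omega)]
  have c3 : ((k - m1 : ℕ) : ℝ) = k - m1 := by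
    rw [Nat.cast_sub (by omega)]
  rw [c2] at hs
  rw [c1, c3]
  have hr' : (r : ℝ) ≤ m1 + h + 2 := by exact_mod_cast hr
  have hkr' : (k : ℝ) ≤ r := by exact_mod_cast hkr
  have hm1' : (m1 : ℝ) + 1 ≤ k := by exact_mod_cast hm1
  have hh0 : (0 : ℝ) ≤ h := Nat.cast_nonneg h
  nlinarith [mul_nonneg hld (by linarith : (0 : ℝ) ≤ m1 + h + 2 - r),
    mul_nonneg hl2.le (by linarith : (0 : ℝ) ≤ m1 + h + 2 - r),
    mul_nonneg hl2.le hh0, mul_nonneg hld hh0]

open Classical in
theorem sum_pairs_le (m0 M k : ℕ) (L : ℝ) (hm0 : 80 * Real.log (4 * d) + 1 ≤ m0)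
    (hd : m0 + 2 ≤ d) (hM : cost d m0 M ≤ L / 2) (hk : m0 < k) (hkM : k ≤ M) (R : BoxT n d)
    (hR : R.1 ≤ R.2) (hkr : k ≤ phi R) :
    ∑ P : BoxT n d × BoxT n d with (PairOK R P ∧ phi P.1 < k ∧ phi P.2 < k),
      Real.exp (-(Gfun d m0 L (phi P.1))) * Real.exp (-(Gfun d m0 L (phi P.2))) ≤
    Real.exp (-(Gfun d m0 L k)) := by
  set f : ℕ → ℝ := fun t => Real.exp (-(Gfun d m0 L t)) with hf
  have hf0 : ∀ t, 0 ≤ f t := fun t => (Real.exp_pos _).le
  set T : Finset (BoxT n d × BoxT n d) :=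
    Finset.univ.filter (fun P => PairOK R P ∧ phi P.1 < k ∧ phi P.2 < k) with hT
  set T1 := T.filter (fun P => phi P.2 ≤ phi P.1) with hT1
  set T2 := T.filter (fun P => ¬ phi P.2 ≤ phi P.1) with hT2
  have hsum : ∑ P ∈ T, f (phi P.1) * f (phi P.2) =
      ∑ P ∈ T1, f (phi P.1) * f (phi P.2) + ∑ P ∈ T2, f (phi P.1) * f (phi P.2) := by
    rw [hT1, hT2, Finset.sum_filter_add_sum_filter_not]
  have h21 : ∑ P ∈ T2, f (phi P.1) * f (phi P.2) ≤ ∑ P ∈ T1, f (phi P.1) * f (phi P.2) := by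
    have h1 : ∑ P ∈ T2, f (phi P.1) * f (phi P.2) =
        ∑ P ∈ T2.image Prod.swap, f (phi P.1) * f (phi P.2) := by
      rw [Finset.sum_image (fun a _ b _ h => Prod.swap_injective h)]
      refine Finset.sum_congr rfl fun P _ => ?_
      simp only [Prod.fst_swap, Prod.snd_swap]
      ring
    rw [h1]
    refine Finset.sum_le_sum_of_subset_of_nonneg ?_ (fun P _ _ => mul_nonneg (hf0 _) (hf0 _))
    intro P hP
    simp only [hT1, hT2, hT, Finset.mem_image, Finset.mem_filter, Finset.mem_univ,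
      true_and] at hP ⊢
    obtain ⟨Q, ⟨⟨hQ, hQ1, hQ2⟩, hQ3⟩, rfl⟩ := hP
    exact ⟨⟨hQ.swap, hQ2, hQ1⟩, by simp only [Prod.fst_swap, Prod.snd_swap]; omega⟩
  have hfib : ∑ P ∈ T1, f (phi P.1) * f (phi P.2) =
      ∑ q ∈ Finset.range k ×ˢ Finset.range k,
        ∑ P ∈ T1 with (phi P.1, phi P.2) = q, f (phi P.1) * f (phi P.2) := by
    refine (Finset.sum_fiberwise_of_maps_to ?_ _).symm
    intro P hP
    simp only [hT1, hT, Finset.mem_filter, Finset.mem_univ, true_and] at hP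
    simp only [Finset.mem_product, Finset.mem_range]
    exact ⟨hP.1.2.1, hP.1.2.2⟩
  have hterm : ∀ q ∈ Finset.range k ×ˢ Finset.range k,
      ∑ P ∈ T1 with (phi P.1, phi P.2) = q, f (phi P.1) * f (phi P.2) ≤
      f k * ((1 / 2) ^ (k - q.1) * (1 / 2) ^ q.2 / 8) := by
    rintro ⟨m1, h⟩ hq
    simp only [Finset.mem_product, Finset.mem_range] at hq
    have hnn : 0 ≤ f k * (((1 : ℝ) / 2) ^ (k - m1) * (1 / 2) ^ h / 8) := by
      have := hf0 k
      positivity
    rcases Finset.eq_empty_or_nonempty (T1.filter (fun P => (phi P.1, phi P.2) = (m1, h))) with he | hne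
    · rw [he]
      simpa using hnn
    · obtain ⟨Q, hQ⟩ := hne
      simp only [hT1, hT, Finset.mem_filter, Finset.mem_univ, true_and, Prod.mk.injEq] at hQ
      obtain ⟨⟨⟨hQ1, hQ2, hQ3⟩, hQ4⟩, hQ5, hQ6⟩ := hQ
      have hrm := hQ1.phi_le
      have hlt := hQ1.phi_lt
      rw [hQ5, hQ6] at hrm
      rw [hQ5, hQ6] at hQ4
      have hsub : T1.filter (fun P => (phi P.1, phi P.2) = (m1, h)) ⊆
          (Finset.univ.filter (fun P : BoxT n d × BoxT n d =>
            PairOK R P ∧ phi P.1 + (phi R - m1) = phi R ∧ phi P.2 = h)) := by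
        intro P hP
        simp only [hT1, hT, Finset.mem_filter, Finset.mem_univ, true_and, Prod.mk.injEq] at hP ⊢
        obtain ⟨⟨⟨hP1, hP2, hP3⟩, hP4⟩, hP5, hP6⟩ := hP
        exact ⟨hP1, by omega, hP6⟩
      have hcard := card_pairs (by omega : 2 ≤ d) R hR (phi R - m1) h (by omega)
      have hnc : ({P : BoxT n d × BoxT n d | PairOK R P ∧ phi P.1 + (phi R - m1) = phi R ∧
          phi P.2 = h}.ncard : ℝ) = ((Finset.univ.filter (fun P : BoxT n d × BoxT n d =>
            PairOK R P ∧ phi P.1 + (phi R - m1) = phi R ∧ phi P.2 = h)).card : ℝ) := by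
        rw [← Set.ncard_coe_finset]
        congr 2
        ext P
        simp
      rw [hnc] at hcard
      calc ∑ P ∈ T1 with (phi P.1, phi P.2) = (m1, h), f (phi P.1) * f (phi P.2)
          = ∑ P ∈ T1 with (phi P.1, phi P.2) = (m1, h), f m1 * f h := by
            refine Finset.sum_congr rfl fun P hP => ?_
            simp only [Finset.mem_filter, Prod.mk.injEq] at hP
            rw [hP.2.1, hP.2.2]
        _ = ((T1.filter (fun P => (phi P.1, phi P.2) = (m1, h))).card : ℝ) * (f m1 * f h) := by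
            rw [Finset.sum_const, nsmul_eq_mul]
        _ ≤ ((2 * d) ^ (phi R - m1) * d ^ h * Real.exp (sfun (d - 1) (phi R))) * (f m1 * f h) := by
            refine mul_le_mul_of_nonneg_right ?_ (mul_nonneg (hf0 _) (hf0 _))
            refine le_trans ?_ hcard
            exact_mod_cast Finset.card_le_card hsub
        _ ≤ _ := pair_term d m0 M k m1 h (phi R) L hm0 hd hM hk hkM hkr hq.1 hQ4 hrm
  have hgeo1 : ∑ m1 ∈ Finset.range k, ((1 : ℝ) / 2) ^ (k - m1) ≤ 1 := by
    have h1 : ∑ m1 ∈ Finset.range k, ((1 : ℝ) / 2) ^ (k - m1) =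
        ∑ j ∈ Finset.range k, ((1 : ℝ) / 2) ^ (j + 1) := by
      rw [← Finset.sum_range_reflect]
      refine Finset.sum_congr rfl fun j hj => ?_
      rw [Finset.mem_range] at hj
      congr 1
      omega
    rw [h1]
    have h2 : ∑ j ∈ Finset.range k, ((1 : ℝ) / 2) ^ (j + 1) = 1 - (1 / 2) ^ k := by
      simp only [pow_succ]
      rw [← Finset.sum_mul, geom_sum_eq (by norm_num)]
      ring
    rw [h2]
    have : (0 : ℝ) < (1 / 2) ^ k := by positivity
    linarith
  have hgeo2 : ∑ h ∈ Finset.range k, ((1 : ℝ) / 2) ^ h ≤ 2 := by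
    rw [geom_sum_eq (by norm_num)]
    have : (0 : ℝ) < (1 / 2) ^ k := by positivity
    have h1 : ((1 / 2 : ℝ) ^ k - 1) / (1 / 2 - 1) = 2 - 2 * (1 / 2) ^ k := by ring
    rw [h1]
    linarith
  have hT1le : ∑ P ∈ T1, f (phi P.1) * f (phi P.2) ≤ f k / 4 := by
    rw [hfib]
    refine (Finset.sum_le_sum hterm).trans ?_
    rw [← Finset.mul_sum, Finset.sum_product]
    have h1 : ∑ x ∈ Finset.range k, ∑ y ∈ Finset.range k,
        ((1 : ℝ) / 2) ^ (k - x) * (1 / 2) ^ y / 8 =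
        (∑ x ∈ Finset.range k, ((1 : ℝ) / 2) ^ (k - x)) *
          (∑ y ∈ Finset.range k, ((1 : ℝ) / 2) ^ y) / 8 := by
      rw [Finset.sum_mul_sum, Finset.sum_div]
      refine Finset.sum_congr rfl fun x _ => ?_
      rw [Finset.sum_div]
    simp only
    rw [h1]
    have h2 : (∑ x ∈ Finset.range k, ((1 : ℝ) / 2) ^ (k - x)) *
          (∑ y ∈ Finset.range k, ((1 : ℝ) / 2) ^ y) ≤ 1 * 2 :=
      mul_le_mul hgeo1 hgeo2 (Finset.sum_nonneg fun _ _ => by positivity) (by norm_num)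
    have h3 := hf0 k
    nlinarith
  have := hf0 k
  rw [hsum]
  change _ ≤ f k
  linarith

theorem phi_eq_zero {R : BoxT n d} (hR : R.1 ≤ R.2) (h : phi R = 0) : R.1 = R.2 := by
  unfold phi at h
  rw [Finset.sum_eq_zero_iff] at h
  funext i
  have h1 := h i (Finset.mem_univ i)
  have h2 : (R.1 i : ℕ) ≤ R.2 i := hR i
  exact Fin.ext (by omega)

theorem cost_small (d m0 t : ℕ) (hd : m0 + 2 ≤ d) (ht : t ≤ m0) :
    cost d m0 t = (t + 2) * Real.log 2 := by
  unfold cost
  rw [sfun_of_le (d - 1) (t + 1) (by omega) (by omega), min_eq_left ht]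
  push_cast
  ring

theorem Gfun_small (d m0 m : ℕ) (L : ℝ) (hd : m0 + 2 ≤ d) (hm : m ≤ m0) :
    Gfun d m0 L m = (m / 2 + 1) * L - (m * (m + 1) / 2 + 2 * m) * Real.log 2 := by
  unfold Gfun
  have h1 : ∀ t ∈ Finset.range m, L / 2 - cost d m0 (t + 1) = L / 2 - (t + 3) * Real.log 2 := by
    intro t ht
    rw [Finset.mem_range] at ht
    rw [cost_small d m0 (t + 1) hd (by omega)]
    push_cast
    ring
  rw [Finset.sum_congr rfl h1, Finset.sum_sub_distrib, ← Finset.sum_mul]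
  have h2 : ∀ m : ℕ, ∑ t ∈ Finset.range m, ((t : ℝ) + 3) = m * (m + 1) / 2 + 2 * m := by
    intro m
    induction m with
    | zero => simp
    | succ m ih =>
      rw [Finset.sum_range_succ, ih]
      push_cast
      ring
  rw [h2]
  simp
  ring

theorem wt_bound (n d m0 M : ℕ) (L : ℝ) (hm0 : 80 * Real.log (4 * d) + 1 ≤ m0)
    (hd : m0 + 2 ≤ d) (hM : cost d m0 M ≤ L / 2) (R : BoxT n d) (hR : R.1 ≤ R.2)
    (hphi : phi R ≤ M) : wt (Real.exp (-L)) R ≤ Real.exp (-(Gfun d m0 L (phi R))) := by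
  classical
  have hl2 : 0 < Real.log 2 := Real.log_pos (by norm_num)
  induction hm : phi R using Nat.strong_induction_on generalizing R with
  | _ m ih =>
    subst hm
    rcases Nat.eq_zero_or_pos (phi R) with h0 | hpos
    · rw [wt_eq_of_eq _ R (phi_eq_zero hR h0), h0]
      simp [Gfun]
    have hcM : cost d m0 (phi R) ≤ L / 2 := (cost_mono d m0 (by omega) hphi).trans hM
    rcases le_or_gt (phi R) m0 with hle | hgt
    · -- small boxes
      have hc := cost_small d m0 (phi R) hd hle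
      rw [hc] at hcM
      have hpos' : (1 : ℝ) ≤ phi R := by exact_mod_cast hpos
      have e1 : (2 : ℝ) ^ phi R * Real.exp (-L) = Real.exp (phi R * Real.log 2 - L) := by
        rw [sub_eq_add_neg, Real.exp_add, Real.exp_nat_mul, Real.exp_log (by norm_num)]
      have hhalf : (1 : ℝ) / 2 = Real.exp (-Real.log 2) := by
        rw [Real.exp_neg, Real.exp_log (by norm_num)]
        norm_num
      have hle2 : (2 : ℝ) ^ phi R * Real.exp (-L) ≤ 1 / 2 := by
        rw [e1, hhalf]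
        refine Real.exp_le_exp.2 ?_
        nlinarith
      have hw := wt_crude (Real.exp (-L)) (Real.exp_pos _).le R hR hle2 ((phi R + 3) / 2)
        (by omega)
      refine hw.trans ?_
      rw [Gfun_small d m0 (phi R) L hd hle, e1, ← Real.exp_nat_mul]
      have e2 : (2 : ℝ) = Real.exp (Real.log 2) := by rw [Real.exp_log (by norm_num)]
      nth_rewrite 1 [e2]
      rw [← Real.exp_add]
      refine Real.exp_le_exp.2 ?_
      have hk : ((phi R : ℝ) + 2) / 2 ≤ ((phi R + 3) / 2 : ℕ) := by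
        have : phi R + 2 ≤ 2 * ((phi R + 3) / 2) := by omega
        have h' : ((phi R : ℝ) + 2) ≤ 2 * (((phi R + 3) / 2 : ℕ) : ℝ) := by exact_mod_cast this
        linarith
      have hneg : (phi R : ℝ) * Real.log 2 - L ≤ 0 := by nlinarith
      have h3 : (((phi R + 3) / 2 : ℕ) : ℝ) * (phi R * Real.log 2 - L) ≤
          ((phi R : ℝ) + 2) / 2 * (phi R * Real.log 2 - L) :=
        mul_le_mul_of_nonpos_right hk hneg
      nlinarith [mul_nonneg hl2.le (by linarith : (0 : ℝ) ≤ phi R - 1)]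
    · -- large boxes
      have hne : R.1 ≠ R.2 := by
        intro heq
        have : phi R = 0 := by
          unfold phi
          rw [heq]
          simp
        omega
      refine (wt_le_sum _ (Real.exp_pos _).le R hne).trans ?_
      refine le_trans ?_ (sum_pairs_le m0 M (phi R) L hm0 hd hM hgt hphi R hR le_rfl)
      have hfe : (Finset.univ.filter (fun P : BoxT n d × BoxT n d => PairOK R P)) =
          Finset.univ.filter (fun P : BoxT n d × BoxT n d =>
            PairOK R P ∧ phi P.1 < phi R ∧ phi P.2 < phi R) := by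
        ext P
        simp only [Finset.mem_filter, Finset.mem_univ, true_and]
        constructor
        · intro h
          exact ⟨h, h.phi_lt, h.swap.phi_lt⟩
        · intro h
          exact h.1
      rw [hfe]
      refine Finset.sum_le_sum fun P hP => ?_
      simp only [Finset.mem_filter, Finset.mem_univ, true_and] at hP
      obtain ⟨hP1, hP2, hP3⟩ := hP
      exact mul_le_mul (ih _ hP2 P.1 hP1.1 (by omega) rfl) (ih _ hP3 P.2 hP1.2.1 (by omega) rfl)
        (wt_nonneg (Real.exp_pos _).le _) (Real.exp_pos _).le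

open Classical in
/-- union bound over the crossing pairs -/
theorem percProb_le_sum (hd : 1 ≤ d) (p : ℝ) (hp0 : 0 ≤ p) (hp1 : p ≤ 1) (k : ℕ) (hk : 1 ≤ k)
    (hkn : k ≤ d * (n - 1)) :
    percProb n d 2 p ≤ ∑ P : BoxT n d × BoxT n d with (P.1.1 ≤ P.1.2 ∧ P.2.1 ≤ P.2.2 ∧
      Near P.1 P.2 ∧ phi P.1 < k ∧ phi P.2 < k ∧ k ≤ phi (hull P.1 P.2)),
      wt p P.1 * wt p P.2 := by
  set I : Finset (BoxT n d × BoxT n d) := Finset.univ.filter (fun P => P.1.1 ≤ P.1.2 ∧
    P.2.1 ≤ P.2.2 ∧ Near P.1 P.2 ∧ phi P.1 < k ∧ phi P.2 < k ∧ k ≤ phi (hull P.1 P.2)) with hI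
  set J : Finset ((BoxT n d × BoxT n d) × (Finset (Vtx n d) × Finset (Vtx n d))) :=
    I.sigma (fun P => (Finset.univ.filter (fun W => Span W P.1)) ×ˢ
      (Finset.univ.filter (fun W => Span W P.2))) |>.map
      ⟨fun x => (x.1, x.2), fun x y h => by
        rcases x with ⟨x1, x2⟩
        rcases y with ⟨y1, y2⟩
        simp only [Prod.mk.injEq] at h
        obtain ⟨h1, h2⟩ := h
        subst h1
        subst h2
        rfl⟩ with hJ
  have h1 : percProb n d 2 p ≤ Pr p (fun A : Finset (Vtx n d) => ∃ Q ∈ J.filter (fun Q =>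
      Disjoint Q.2.1 Q.2.2), Q.2.1 ∪ Q.2.2 ⊆ A) := by
    unfold percProb
    refine Pr_mono hp0 hp1 fun A hA => ?_
    obtain ⟨W₁, W₂, R₁, R₂, hs1, hs2, hdis, hW1, hW2, hn, hp1, hp2, hp3⟩ :=
      exists_crossing hd hA k hk hkn
    refine ⟨((R₁, R₂), (W₁, W₂)), ?_, Finset.union_subset hW1 hW2⟩
    simp only [hJ, hI, Finset.mem_filter, Finset.mem_map, Finset.mem_sigma, Finset.mem_univ,
      true_and, Finset.mem_product]
    exact ⟨⟨⟨(R₁, R₂), (W₁, W₂)⟩, ⟨⟨hs1.le, hs2.le, hn, hp1, hp2, hp3⟩, hs1, hs2⟩, rfl⟩, hdis⟩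
  refine h1.trans ((Pr_exists_le hp0 hp1 _ _).trans ?_)
  have h2 : ∀ Q ∈ J.filter (fun Q => Disjoint Q.2.1 Q.2.2),
      Pr p (fun A : Finset (Vtx n d) => Q.2.1 ∪ Q.2.2 ⊆ A) = p ^ Q.2.1.card * p ^ Q.2.2.card := by
    intro Q hQ
    rw [Finset.mem_filter] at hQ
    rw [Pr_superset, Finset.card_union_of_disjoint hQ.2, pow_add]
  rw [Finset.sum_congr rfl h2]
  refine (Finset.sum_le_sum_of_subset_of_nonneg (Finset.filter_subset _ _)
    (fun _ _ _ => by positivity)).trans ?_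
  rw [hJ, Finset.sum_map, Finset.sum_sigma]
  refine Finset.sum_le_sum fun P _ => ?_
  unfold wt
  rw [Finset.sum_mul_sum, Finset.sum_product]
  exact le_rfl

open Classical in
theorem sum_crossing_le (m0 k : ℕ) (L : ℝ) (hm0 : 80 * Real.log (4 * d) + 1 ≤ m0)
    (hd : m0 + 2 ≤ d) (hM : cost d m0 k ≤ L / 2) (hk : m0 < k) :
    ∑ P : BoxT n d × BoxT n d with (P.1.1 ≤ P.1.2 ∧ P.2.1 ≤ P.2.2 ∧
      Near P.1 P.2 ∧ phi P.1 < k ∧ phi P.2 < k ∧ k ≤ phi (hull P.1 P.2)),
      wt (Real.exp (-L)) P.1 * wt (Real.exp (-L)) P.2 ≤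
    (k + 1) * (n ^ d * d ^ (2 * k)) * Real.exp (-(Gfun d m0 L k)) := by
  set I : Finset (BoxT n d × BoxT n d) := Finset.univ.filter (fun P => P.1.1 ≤ P.1.2 ∧
    P.2.1 ≤ P.2.2 ∧ Near P.1 P.2 ∧ phi P.1 < k ∧ phi P.2 < k ∧ k ≤ phi (hull P.1 P.2)) with hI
  set B : Finset (BoxT n d) := Finset.univ.filter (fun R => R.1 ≤ R.2 ∧ k ≤ phi R ∧
    phi R ≤ 2 * k) with hB
  have h1 : ∑ P ∈ I, wt (Real.exp (-L)) P.1 * wt (Real.exp (-L)) P.2 =
      ∑ R ∈ B, ∑ P ∈ I with hull P.1 P.2 = R,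
        wt (Real.exp (-L)) P.1 * wt (Real.exp (-L)) P.2 := by
    refine (Finset.sum_fiberwise_of_maps_to ?_ _).symm
    intro P hP
    simp only [hI, hB, Finset.mem_filter, Finset.mem_univ, true_and] at hP ⊢
    obtain ⟨h1, h2, h3, h4, h5, h6⟩ := hP
    refine ⟨?_, h6, ?_⟩
    · exact (inf_le_left.trans h1).trans le_sup_left
    · have := phi_hull_le h1 h2 h3
      omega
  have h2 : ∀ R ∈ B, ∑ P ∈ I with hull P.1 P.2 = R,
      wt (Real.exp (-L)) P.1 * wt (Real.exp (-L)) P.2 ≤ Real.exp (-(Gfun d m0 L k)) := by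
    intro R hR
    simp only [hB, Finset.mem_filter, Finset.mem_univ, true_and] at hR
    refine le_trans ?_ (sum_pairs_le m0 k k L hm0 hd hM hk le_rfl R hR.1 hR.2.1)
    have hsub : I.filter (fun P => hull P.1 P.2 = R) ⊆
        (Finset.univ.filter (fun P : BoxT n d × BoxT n d =>
          PairOK R P ∧ phi P.1 < k ∧ phi P.2 < k)) := by
      intro P hP
      simp only [hI, Finset.mem_filter, Finset.mem_univ, true_and] at hP ⊢
      obtain ⟨⟨h1, h2, h3, h4, h5, h6⟩, h7⟩ := hP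
      refine ⟨⟨h1, h2, h3, h7, ?_, ?_⟩, h4, h5⟩
      · intro h8
        rw [h7, ← h8] at h6
        omega
      · intro h8
        rw [h7, ← h8] at h6
        omega
    calc ∑ P ∈ I with hull P.1 P.2 = R, wt (Real.exp (-L)) P.1 * wt (Real.exp (-L)) P.2
        ≤ ∑ P ∈ I with hull P.1 P.2 = R,
          Real.exp (-(Gfun d m0 L (phi P.1))) * Real.exp (-(Gfun d m0 L (phi P.2))) := by
          refine Finset.sum_le_sum fun P hP => ?_
          have hP' := hsub hP
          simp only [Finset.mem_filter, Finset.mem_univ, true_and] at hP'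
          obtain ⟨h1, h2, h3⟩ := hP'
          exact mul_le_mul (wt_bound n d m0 k L hm0 hd hM P.1 h1.1 h2.le)
            (wt_bound n d m0 k L hm0 hd hM P.2 h1.2.1 h3.le)
            (wt_nonneg (Real.exp_pos _).le _) (Real.exp_pos _).le
      _ ≤ _ := Finset.sum_le_sum_of_subset_of_nonneg hsub (fun _ _ _ => by positivity)
  rw [h1]
  refine (Finset.sum_le_sum h2).trans ?_
  rw [Finset.sum_const, nsmul_eq_mul]
  refine mul_le_mul_of_nonneg_right ?_ (Real.exp_pos _).le
  have hd1 : 1 ≤ d := by omega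
  have h3 : B.card ≤ (k + 1) * (n ^ d * d ^ (2 * k)) := by
    have hsub : B ⊆ (Finset.Icc k (2 * k)).biUnion (fun m =>
        Finset.univ.filter (fun R : BoxT n d => R.1 ≤ R.2 ∧ phi R = m)) := by
      intro R hR
      simp only [hB, Finset.mem_filter, Finset.mem_univ, true_and] at hR
      simp only [Finset.mem_biUnion, Finset.mem_Icc, Finset.mem_filter, Finset.mem_univ, true_and]
      exact ⟨phi R, hR.2, hR.1, rfl⟩
    refine (Finset.card_le_card hsub).trans (Finset.card_biUnion_le.trans ?_)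
    have h4 : ∀ m ∈ Finset.Icc k (2 * k),
        (Finset.univ.filter (fun R : BoxT n d => R.1 ≤ R.2 ∧ phi R = m)).card ≤
          n ^ d * d ^ (2 * k) := by
      intro m hm
      rw [Finset.mem_Icc] at hm
      have h5 := card_boxes (n := n) (d := d) m
      have h6 : {R : BoxT n d | R.1 ≤ R.2 ∧ phi R = m}.ncard =
          (Finset.univ.filter (fun R : BoxT n d => R.1 ≤ R.2 ∧ phi R = m)).card := by
        rw [← Set.ncard_coe_finset]
        congr 1
        ext R
        simp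
      rw [h6] at h5
      exact h5.trans (Nat.mul_le_mul_left _ (Nat.pow_le_pow_right hd1 hm.2))
    refine (Finset.sum_le_sum h4).trans ?_
    rw [Finset.sum_const, smul_eq_mul, Nat.card_Icc]
    refine Nat.mul_le_mul_right _ ?_
    omega
  calc (B.card : ℝ) ≤ (((k + 1) * (n ^ d * d ^ (2 * k)) : ℕ) : ℝ) := by exact_mod_cast h3
    _ = _ := by push_cast; ring

theorem percProb_lt_half (n d m0 k : ℕ) (L : ℝ) (hn : 2 ≤ n)
    (hm0 : 80 * Real.log (4 * d) + 1 ≤ m0) (hm0' : (m0 : ℝ) ≤ 80 * Real.log (4 * d) + 2)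
    (hd : m0 + 2 ≤ d) (hk0 : m0 < k) (hkn : k ≤ d * (n - 1))
    (hL1 : sfun (d - 1) (k + 1) + 60 * Real.log (4 * d) ≤ L)
    (hL2 : 2 * d * Real.log n + ∑ t ∈ Finset.range k, sfun (d - 1) (t + 2) +
      72 * k * Real.log (4 * d) ≤ k * L)
    (p : ℝ) (hp0 : 0 ≤ p) (hp : p ≤ Real.exp (-L)) : percProb n d 2 p < 1 / 2 := by
  classical
  have hd2 : (2 : ℝ) ≤ d := by
    have : 2 ≤ d := by omega
    exact_mod_cast this
  have hd0 : (0 : ℝ) < d := by linarith
  have hn0 : (0 : ℝ) < n := by exact_mod_cast (by omega : 0 < n)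
  have hl2 : Real.log 2 < 0.6931471808 := Real.log_two_lt_d9
  have hl2' : 0 < Real.log 2 := Real.log_pos (by norm_num)
  set lam := Real.log (4 * d) with hlam
  have hlam2 : 3 * Real.log 2 ≤ lam := by
    have h1 : (3 : ℝ) * Real.log 2 = Real.log (2 ^ 3) := by
      rw [Real.log_pow]
      norm_num
    rw [h1, hlam]
    exact Real.log_le_log (by norm_num) (by linarith)
  have hl2'' : (0.6931471803 : ℝ) < Real.log 2 := Real.log_two_gt_d9
  have hlam1 : 2 ≤ lam := by linarith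
  have hm0l : ((m0 : ℝ) + 3) * Real.log 2 ≤ 60 * lam := by
    have h1 : ((m0 : ℝ) + 3) * Real.log 2 ≤ (80 * lam + 5) * 0.6931471808 := by
      refine mul_le_mul (by linarith) hl2.le hl2'.le (by linarith)
    linarith
  have hcost : ∀ t, cost d m0 t ≤ (sfun (d - 1) (t + 1) + 60 * lam) / 2 := by
    intro t
    unfold cost
    have h1 : ((min t m0 + 3 : ℕ) : ℝ) ≤ (m0 : ℝ) + 3 := by
      have : min t m0 + 3 ≤ m0 + 3 := by omega
      exact_mod_cast this
    have h2 : ((min t m0 + 3 : ℕ) : ℝ) * Real.log 2 ≤ ((m0 : ℝ) + 3) * Real.log 2 :=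
      mul_le_mul_of_nonneg_right h1 hl2'.le
    linarith
  have hM : cost d m0 k ≤ L / 2 := by
    have := hcost k
    linarith
  have hG : L + d * Real.log n + 6 * k * lam ≤ Gfun d m0 L k := by
    unfold Gfun
    rw [Finset.sum_sub_distrib]
    have h1 : ∑ t ∈ Finset.range k, cost d m0 (t + 1) ≤
        ∑ t ∈ Finset.range k, (sfun (d - 1) (t + 2) + 60 * lam) / 2 :=
      Finset.sum_le_sum fun t _ => hcost (t + 1)
    rw [← Finset.sum_div, Finset.sum_add_distrib] at h1
    simp only [Finset.sum_const, Finset.card_range, nsmul_eq_mul] at h1 ⊢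
    linarith
  have hL0 : 0 ≤ L := by
    have h1 : 0 ≤ sfun (d - 1) (k + 1) := by
      rw [← sfun_zero (d - 1)]
      exact sfun_mono (d - 1) (by omega) (Nat.zero_le _)
    linarith
  have hp1 : p ≤ 1 := hp.trans (Real.exp_le_one_iff.2 (by linarith))
  have h1 := percProb_le_sum (n := n) (by omega : 1 ≤ d) p hp0 hp1 k (by omega) hkn
  have h2 : percProb n d 2 p ≤ (k + 1) * (n ^ d * d ^ (2 * k)) * Real.exp (-(Gfun d m0 L k)) := by
    refine h1.trans (le_trans ?_ (sum_crossing_le (n := n) m0 k L hm0 hd hM hk0))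
    exact Finset.sum_le_sum fun P _ => mul_le_mul (wt_mono hp0 hp _) (wt_mono hp0 hp _)
      (wt_nonneg hp0 _) (wt_nonneg (Real.exp_pos _).le _)
  refine h2.trans_lt ?_
  have e1 : (n : ℝ) ^ d = Real.exp (d * Real.log n) := by
    rw [Real.exp_nat_mul, Real.exp_log hn0]
  have e2 : (d : ℝ) ^ (2 * k) = Real.exp (2 * k * Real.log d) := by
    have : (2 * (k : ℝ)) = ((2 * k : ℕ) : ℝ) := by push_cast; ring
    rw [this, Real.exp_nat_mul, Real.exp_log hd0]
  have e3 : ((k : ℝ) + 1) ≤ Real.exp k := Real.add_one_le_exp _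
  have hld : Real.log d ≤ lam := Real.log_le_log hd0 (by linarith)
  have hk1 : (1 : ℝ) ≤ k := by
    have : 1 ≤ k := by omega
    exact_mod_cast this
  calc ((k : ℝ) + 1) * (n ^ d * d ^ (2 * k)) * Real.exp (-(Gfun d m0 L k))
      ≤ Real.exp k * (n ^ d * d ^ (2 * k)) * Real.exp (-(L + d * Real.log n + 6 * k * lam)) := by
        refine mul_le_mul ?_ (Real.exp_le_exp.2 (by linarith)) (Real.exp_pos _).le (by positivity)
        exact mul_le_mul_of_nonneg_right e3 (by positivity)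
    _ = Real.exp (k + 2 * k * Real.log d - L - 6 * k * lam) := by
        rw [e1, e2, ← Real.exp_add, ← Real.exp_add, ← Real.exp_add]
        congr 1
        ring
    _ ≤ Real.exp (-1) := by
        refine Real.exp_le_exp.2 ?_
        nlinarith [mul_le_mul_of_nonneg_left hld (by linarith : (0 : ℝ) ≤ k),
          mul_le_mul hk1 hlam1 (by norm_num) (by linarith : (0 : ℝ) ≤ k)]
    _ < 1 / 2 := by
        rw [Real.exp_neg]
        have := Real.exp_one_gt_d9
        rw [inv_lt_comm₀ (Real.exp_pos _) (by norm_num)]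
        norm_num
        linarith

end Pool.Agent.Lib.MP_8501c9_pr
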