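import Pool.Agent.Lib.MP_8501c9_pr.SharpDefs

/-!
# Labelled layers: the sets of single points extending a box
-/

set_option autoImplicit false
open Set

namespace Pool.Agent.Lib.MP_8501c9_pr

variable {n d : ℕ}

/-- the point `x` fits the block `{u, v}` of layers -/
def Fit (R₁ : BoxT n d) (u v : Fin d × ℕ) (x : Vtx n d) : Prop :=
  (u = v ∧ (x u.1 : ℕ) = u.2) ∨
  (u.1 = v.1 ∧ v.2 = u.2 + 1 ∧ ((u.2 < (R₁.1 u.1 : ℕ) ∧ (x u.1 : ℕ) = u.2) ∨
    ((R₁.2 u.1 : ℕ) < u.2 ∧ (x u.1 : ℕ) = v.2))) ∨
  (u.1 ≠ v.1 ∧ (x u.1 : ℕ) = u.2 ∧ (x v.1 : ℕ) = v.2)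

/-- the points of `K` can be assigned to disjoint blocks with union `U` -/
inductive Lab (R₁ R : BoxT n d) : Finset (Fin d × ℕ) → Finset (Vtx n d) → Prop
  | nil : Lab R₁ R ∅ ∅
  | cons {U : Finset (Fin d × ℕ)} {K : Finset (Vtx n d)} (h : Lab R₁ R U K) (u v : Fin d × ℕ)
      (x : Vtx n d) (hx : x ∉ K) (h1 : R.1 ≤ x) (h2 : x ≤ R.2) (hu : u ∉ U) (hv : v ∉ U)
      (hf : Fit R₁ u v x) : Lab R₁ R (insert u (insert v U)) (insert x K)

theorem Lab.remove {R₁ R : BoxT n d} {U : Finset (Fin d × ℕ)} {K : Finset (Vtx n d)}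
    (h : Lab R₁ R U K) (u : Fin d × ℕ) (hu : u ∈ U) :
    ∃ v ∈ U, ∃ x ∈ K, R.1 ≤ x ∧ x ≤ R.2 ∧ (Fit R₁ u v x ∨ Fit R₁ v u x) ∧
      Lab R₁ R ((U.erase u).erase v) (K.erase x) := by
  induction h with
  | nil => simp at hu
  | @cons U' K' h u' v' x' hx h1 h2 hu' hv' hf ih =>
    by_cases hc1 : u = u'
    · subst hc1
      refine ⟨v', by simp, x', by simp, h1, h2, Or.inl hf, ?_⟩
      have e1 : ((insert u (insert v' U')).erase u).erase v' = U' := by
        ext w
        simp only [Finset.mem_erase, Finset.mem_insert]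
        constructor
        · rintro ⟨h3, h4, h5⟩
          tauto
        · intro h3
          refine ⟨?_, ?_, Or.inr (Or.inr h3)⟩
          · rintro rfl; exact hv' h3
          · rintro rfl; exact hu' h3
      have e2 : (insert x' K').erase x' = K' := Finset.erase_insert hx
      rw [e1, e2]
      exact h
    · by_cases hc2 : u = v'
      · subst hc2
        refine ⟨u', by simp, x', by simp, h1, h2, Or.inr hf, ?_⟩
        have e1 : ((insert u' (insert u U')).erase u).erase u' = U' := by
          ext w
          simp only [Finset.mem_erase, Finset.mem_insert]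
          constructor
          · rintro ⟨h3, h4, h5⟩
            tauto
          · intro h3
            refine ⟨?_, ?_, Or.inr (Or.inr h3)⟩
            · rintro rfl; exact hu' h3
            · rintro rfl; exact hv' h3
        have e2 : (insert x' K').erase x' = K' := Finset.erase_insert hx
        rw [e1, e2]
        exact h
      · have huU : u ∈ U' := by
          simp only [Finset.mem_insert] at hu
          tauto
        obtain ⟨v, hvU, x, hxK, hx1, hx2, hfit, hlab⟩ := ih huU
        refine ⟨v, by simp [hvU], x, by simp [hxK], hx1, hx2, hfit, ?_⟩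
        have hne : x' ≠ x := by rintro rfl; exact hx hxK
        have hlab2 := Lab.cons hlab u' v' x' (fun h3 => hx (Finset.mem_of_mem_erase h3)) h1 h2
          (fun h3 => hu' (Finset.mem_of_mem_erase (Finset.mem_of_mem_erase h3)))
          (fun h3 => hv' (Finset.mem_of_mem_erase (Finset.mem_of_mem_erase h3))) hf
        have e1 : ((insert u' (insert v' U')).erase u).erase v =
            insert u' (insert v' ((U'.erase u).erase v)) := by
          have n1 : u' ≠ v := by rintro rfl; exact hu' hvU
          have n2 : v' ≠ v := by rintro rfl; exact hv' hvU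
          ext w
          simp only [Finset.mem_erase, Finset.mem_insert]
          constructor
          · rintro ⟨h3, h4, h5⟩
            tauto
          · rintro (rfl | rfl | ⟨h3, h4, h5⟩)
            · exact ⟨n1, fun h => hc1 h.symm, Or.inl rfl⟩
            · exact ⟨n2, fun h => hc2 h.symm, Or.inr (Or.inl rfl)⟩
            · exact ⟨h3, h4, Or.inr (Or.inr h5)⟩
        have e2 : (insert x' K').erase x = insert x' (K'.erase x) :=
          Finset.erase_insert_of_ne hne
        rw [e1, e2]
        exact hlab2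

open Classical in
/-- generating function of the labelled sets -/
noncomputable def Wl (p : ℝ) (R₁ R : BoxT n d) (U : Finset (Fin d × ℕ)) : ℝ :=
  ∑ K : Finset (Vtx n d) with Lab R₁ R U K, p ^ K.card

theorem Wl_nonneg (p : ℝ) (hp : 0 ≤ p) (R₁ R : BoxT n d) (U : Finset (Fin d × ℕ)) :
    0 ≤ Wl p R₁ R U := Finset.sum_nonneg fun _ _ => pow_nonneg hp _

open Classical in
/-- the points fitting a block -/
noncomputable def Xf (R₁ R : BoxT n d) (u v : Fin d × ℕ) : Finset (Vtx n d) :=
  {x : Vtx n d | R.1 ≤ x ∧ x ≤ R.2 ∧ (Fit R₁ u v x ∨ Fit R₁ v u x)}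

theorem Wl_le (p : ℝ) (hp : 0 ≤ p) (R₁ R : BoxT n d) (U : Finset (Fin d × ℕ))
    (u : Fin d × ℕ) (hu : u ∈ U) :
    Wl p R₁ R U ≤ ∑ v ∈ U, ((Xf R₁ R u v).card : ℝ) * (p * Wl p R₁ R ((U.erase u).erase v)) := by
  classical
  have h1 : ∀ K ∈ ({K : Finset (Vtx n d) | Lab R₁ R U K} : Finset (Finset (Vtx n d))),
      p ^ K.card ≤ ∑ v ∈ U, ∑ x ∈ Xf R₁ R u v,
        if x ∈ K ∧ Lab R₁ R ((U.erase u).erase v) (K.erase x) then p * p ^ (K.erase x).card
        else 0 := by
    intro K hK
    obtain ⟨v, hvU, x, hxK, hx1, hx2, hfit, hlab⟩ := Lab.remove (by simpa using hK) u hu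
    have hx : x ∈ Xf R₁ R u v := by simp [Xf, hx1, hx2, hfit]
    have hnn : ∀ (v' : Fin d × ℕ) (x' : Vtx n d), 0 ≤ (if x' ∈ K ∧
        Lab R₁ R ((U.erase u).erase v') (K.erase x') then p * p ^ (K.erase x').card else 0) := by
      intro v' x'
      split_ifs
      · positivity
      · exact le_rfl
    calc p ^ K.card = p * p ^ (K.erase x).card := by
          rw [← pow_succ', Finset.card_erase_add_one hxK]
      _ = if x ∈ K ∧ Lab R₁ R ((U.erase u).erase v) (K.erase x) then p * p ^ (K.erase x).card
        else 0 := by rw [if_pos ⟨hxK, hlab⟩]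
      _ ≤ ∑ x ∈ Xf R₁ R u v,
          if x ∈ K ∧ Lab R₁ R ((U.erase u).erase v) (K.erase x) then p * p ^ (K.erase x).card
          else 0 := Finset.single_le_sum (f := fun x =>
            if x ∈ K ∧ Lab R₁ R ((U.erase u).erase v) (K.erase x) then p * p ^ (K.erase x).card
            else 0) (fun x' _ => hnn v x') hx
      _ ≤ _ := Finset.single_le_sum (f := fun v => ∑ x ∈ Xf R₁ R u v,
            if x ∈ K ∧ Lab R₁ R ((U.erase u).erase v) (K.erase x) then p * p ^ (K.erase x).card
            else 0) (fun v' _ => Finset.sum_nonneg fun x' _ => hnn v' x') hvU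
  refine (Finset.sum_le_sum h1).trans ?_
  rw [Finset.sum_comm]
  refine Finset.sum_le_sum fun v _ => ?_
  rw [Finset.sum_comm, ← nsmul_eq_mul]
  refine Finset.sum_le_card_nsmul _ _ _ fun x _ => ?_
  rw [← Finset.sum_filter, ← Finset.mul_sum]
  refine mul_le_mul_of_nonneg_left ?_ hp
  unfold Wl
  rw [← Finset.sum_image (s := {K ∈ ({K : Finset (Vtx n d) | Lab R₁ R U K} :
      Finset (Finset (Vtx n d))) | x ∈ K ∧ Lab R₁ R ((U.erase u).erase v) (K.erase x)})
      (g := fun K : Finset (Vtx n d) => K.erase x) (f := fun K => p ^ K.card)]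
  · refine Finset.sum_le_sum_of_subset_of_nonneg ?_ fun _ _ _ => pow_nonneg hp _
    intro K hK
    simp only [Finset.mem_image, Finset.mem_filter, Finset.mem_univ, true_and] at hK
    obtain ⟨K', ⟨_, _, h3⟩, rfl⟩ := hK
    simpa using h3
  · intro K hK K' hK' hKK
    simp only [Finset.coe_filter, Finset.mem_filter, Finset.mem_univ, true_and,
      Set.mem_ofPred_eq] at hK hK'
    have h3 : K.erase x = K'.erase x := hKK
    rw [← Finset.insert_erase hK.2.1, h3, Finset.insert_erase hK'.2.1]

/-- the layers of `B` which do not meet `R₁` -/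
def UN (R₁ B : BoxT n d) : Finset (Fin d × ℕ) :=
  ((Finset.univ : Finset (Fin d)) ×ˢ Finset.range n).filter
    (fun u => (B.1 u.1 : ℕ) ≤ u.2 ∧ u.2 ≤ (B.2 u.1 : ℕ) ∧
      (u.2 < (R₁.1 u.1 : ℕ) ∨ (R₁.2 u.1 : ℕ) < u.2))

theorem mem_UN (R₁ B : BoxT n d) (k : Fin d) (c : ℕ) :
    (k, c) ∈ UN R₁ B ↔ ((B.1 k : ℕ) ≤ c ∧ c ≤ (B.2 k : ℕ) ∧
      (c < (R₁.1 k : ℕ) ∨ (R₁.2 k : ℕ) < c)) := by
  simp only [UN, Finset.mem_filter, Finset.mem_product, Finset.mem_univ, Finset.mem_range,
    true_and]
  constructor
  · rintro ⟨_, h⟩; exact h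
  · intro h
    exact ⟨lt_of_le_of_lt h.2.1 (B.2 k).2, h⟩

theorem ext_sub {R₁ B : BoxT n d} {K : Finset (Vtx n d)} (h : Ext R₁ K B) :
    B.1 ≤ R₁.1 ∧ R₁.2 ≤ B.2 := by
  induction h with
  | nil => exact ⟨le_rfl, le_rfl⟩
  | cons h x hx hn hne ih =>
    exact ⟨le_trans inf_le_left ih.1, le_trans ih.2 le_sup_left⟩

theorem hull_pt_fst (B : BoxT n d) (x : Vtx n d) (k : Fin d) :
    (((hull B (x, x)).1 k : Fin n) : ℕ) = min (B.1 k : ℕ) (x k) := by
  simp only [hull, Pi.inf_apply]
  rfl

theorem hull_pt_snd (B : BoxT n d) (x : Vtx n d) (k : Fin d) :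
    (((hull B (x, x)).2 k : Fin n) : ℕ) = max (B.2 k : ℕ) (x k) := by
  simp only [hull, Pi.sup_apply]
  rfl

theorem ext_block (R₁ B : BoxT n d) (x : Vtx n d) (h0 : R₁.1 ≤ R₁.2) (hB1 : B.1 ≤ R₁.1)
    (hB2 : R₁.2 ≤ B.2) (hn : Near B (x, x)) (hne : hull B (x, x) ≠ B) :
    ∃ u v : Fin d × ℕ, u ∉ UN R₁ B ∧ v ∉ UN R₁ B ∧ Fit R₁ u v x ∧
      UN R₁ (hull B (x, x)) = insert u (insert v (UN R₁ B)) := by
  classical
  have g0 : ∀ k, (R₁.1 k : ℕ) ≤ R₁.2 k := fun k => h0 k
  have g1 : ∀ k, (B.1 k : ℕ) ≤ R₁.1 k := fun k => hB1 k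
  have g2 : ∀ k, (R₁.2 k : ℕ) ≤ B.2 k := fun k => hB2 k
  set e : Fin d → ℕ := fun k => ((x k : ℕ) - B.2 k) + ((B.1 k : ℕ) - x k) with he
  have hsum : ∑ k, e k ≤ 2 := hn
  have hex : ∃ i, 1 ≤ e i := by
    by_contra hcon
    push Not at hcon
    apply hne
    have h1 : ∀ k, (B.1 k : ℕ) ≤ x k ∧ (x k : ℕ) ≤ B.2 k := by
      intro k
      have := hcon k
      simp only [he] at this
      omega
    have h2 : (hull B (x, x)).1 = B.1 := by
      funext k
      apply Fin.ext
      rw [hull_pt_fst]
      exact min_eq_left (h1 k).1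
    have h3 : (hull B (x, x)).2 = B.2 := by
      funext k
      apply Fin.ext
      rw [hull_pt_snd]
      exact max_eq_left (h1 k).2
    exact Prod.ext h2 h3
  obtain ⟨i, hi⟩ := hex
  have hpair : ∀ j, j ≠ i → e i + e j ≤ 2 := by
    intro j hj
    have : ∑ k ∈ ({i, j} : Finset (Fin d)), e k ≤ ∑ k, e k :=
      Finset.sum_le_sum_of_subset (Finset.subset_univ _)
    rw [Finset.sum_pair hj.symm] at this
    omega
  have htri : ∀ j k, j ≠ i → k ≠ i → k ≠ j → e i + e j + e k ≤ 2 := by
    intro j k hj hk hkj
    have : ∑ k ∈ ({i, j, k} : Finset (Fin d)), e k ≤ ∑ k, e k :=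
      Finset.sum_le_sum_of_subset (Finset.subset_univ _)
    rw [Finset.sum_insert (by simp [hj.symm, hk.symm]), Finset.sum_pair hkj.symm] at this
    omega
  by_cases hc : 2 ≤ e i
  · -- straight block
    have hother : ∀ j, j ≠ i → e j = 0 := fun j hj => by have := hpair j hj; omega
    have hei : e i ≤ 2 := (Finset.single_le_sum (f := e) (fun k _ => Nat.zero_le _)
      (Finset.mem_univ i)).trans hsum
    by_cases hup : (B.2 i : ℕ) < x i
    · have hxi : (x i : ℕ) = B.2 i + 2 := by
        simp only [he] at hc hei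
        have := g0 i; have := g1 i; have := g2 i
        omega
      refine ⟨(i, B.2 i + 1), (i, B.2 i + 2), ?_, ?_, ?_, ?_⟩
      · rw [mem_UN]; omega
      · rw [mem_UN]; omega
      · right; left
        refine ⟨rfl, rfl, Or.inr ⟨?_, hxi⟩⟩
        have := g2 i
        change (R₁.2 i : ℕ) < B.2 i + 1
        omega
      · ext ⟨k, c⟩
        simp only [mem_UN, Finset.mem_insert, Prod.mk.injEq]
        rw [hull_pt_fst, hull_pt_snd]
        have := g0 k; have := g1 k; have := g2 k
        by_cases hk : k = i
        · subst hk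
          simp only [true_and]
          omega
        · have h4 := hother k hk
          simp only [he] at h4
          simp only [hk, false_and, false_or]
          omega
    · have hxi : (x i : ℕ) + 2 = B.1 i := by
        simp only [he] at hc hei
        have := g0 i; have := g1 i; have := g2 i
        omega
      refine ⟨(i, x i), (i, x i + 1), ?_, ?_, ?_, ?_⟩
      · rw [mem_UN]; omega
      · rw [mem_UN]; omega
      · right; left
        refine ⟨rfl, rfl, Or.inl ⟨?_, rfl⟩⟩
        have := g1 i
        change (x i : ℕ) < R₁.1 i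
        omega
      · ext ⟨k, c⟩
        simp only [mem_UN, Finset.mem_insert, Prod.mk.injEq]
        rw [hull_pt_fst, hull_pt_snd]
        have := g0 k; have := g1 k; have := g2 k
        by_cases hk : k = i
        · subst hk
          simp only [true_and]
          omega
        · have h4 := hother k hk
          simp only [he] at h4
          simp only [hk, false_and, false_or]
          omega
  · have hei : e i = 1 := by omega
    by_cases hj : ∃ j, j ≠ i ∧ 1 ≤ e j
    · obtain ⟨j, hji, hj1⟩ := hj
      have hej : e j = 1 := by have := hpair j hji; omega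
      have hother : ∀ k, k ≠ i → k ≠ j → e k = 0 := fun k hk hkj => by
        have := htri j k hji hk hkj; omega
      refine ⟨(i, x i), (j, x j), ?_, ?_, ?_, ?_⟩
      · rw [mem_UN]
        simp only [he] at hei
        omega
      · rw [mem_UN]
        simp only [he] at hej
        omega
      · right; right
        exact ⟨hji.symm, rfl, rfl⟩
      · ext ⟨k, c⟩
        simp only [mem_UN, Finset.mem_insert, Prod.mk.injEq]
        rw [hull_pt_fst, hull_pt_snd]
        have := g0 k; have := g1 k; have := g2 k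
        by_cases hk : k = i
        · subst hk
          simp only [he] at hei
          simp only [true_and, hji.symm, false_and, false_or]
          omega
        · by_cases hkj : k = j
          · subst hkj
            simp only [he] at hej
            simp only [true_and, hk, false_and, false_or]
            omega
          · have h4 := hother k hk hkj
            simp only [he] at h4
            simp only [hk, hkj, false_and, false_or]
            omega
    · push Not at hj
      have hother : ∀ k, k ≠ i → e k = 0 := fun k hk => by have := hj k hk; omega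
      refine ⟨(i, x i), (i, x i), ?_, ?_, ?_, ?_⟩
      · rw [mem_UN]
        simp only [he] at hei
        omega
      · rw [mem_UN]
        simp only [he] at hei
        omega
      · left
        exact ⟨rfl, rfl⟩
      · ext ⟨k, c⟩
        simp only [mem_UN, Finset.mem_insert, Prod.mk.injEq]
        rw [hull_pt_fst, hull_pt_snd]
        have := g0 k; have := g1 k; have := g2 k
        by_cases hk : k = i
        · subst hk
          simp only [he] at hei
          simp only [true_and]
          omega
        · have h4 := hother k hk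
          simp only [he] at h4
          simp only [hk, false_and, false_or]
          omega

theorem ext_lab {R₁ R B : BoxT n d} {K : Finset (Vtx n d)} (h : Ext R₁ K B)
    (h0 : R₁.1 ≤ R₁.2) (hR1 : R.1 ≤ B.1) (hR2 : B.2 ≤ R.2) : Lab R₁ R (UN R₁ B) K := by
  induction h with
  | nil =>
    have h1 : UN R₁ R₁ = ∅ := by
      ext ⟨k, c⟩
      have := h0 k
      rw [mem_UN]
      simp only [Finset.notMem_empty, iff_false]
      rintro ⟨h3, h4, h5 | h5⟩ <;> omega
    rw [h1]
    exact Lab.nil
  | @cons K' B' h x hx hn hne ih =>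
    have hs := ext_sub h
    have hR1' : R.1 ≤ B'.1 ⊓ x := hR1
    have hR2' : B'.2 ⊔ x ≤ R.2 := hR2
    have ih' := ih (hR1'.trans inf_le_left) (le_sup_left.trans hR2')
    obtain ⟨u, v, hu, hv, hf, hU⟩ := ext_block R₁ B' x h0 hs.1 hs.2 hn hne
    rw [hU]
    exact Lab.cons ih' u v x hx (hR1'.trans inf_le_right) (le_sup_right.trans hR2') hu hv hf

theorem Tw_le_Wl (p : ℝ) (hp : 0 ≤ p) (R₁ R : BoxT n d) (h0 : R₁.1 ≤ R₁.2) :
    Tw p R₁ R ≤ Wl p R₁ R (UN R₁ R) := by
  classical
  unfold Tw Wl
  refine Finset.sum_le_sum_of_subset_of_nonneg ?_ fun _ _ _ => pow_nonneg hp _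
  intro K hK
  simp only [Finset.mem_filter, Finset.mem_univ, true_and] at hK ⊢
  exact ext_lab hK h0 le_rfl le_rfl

/-! ### counting the points which fit -/

/-- at most one element -/
def slice (n c : ℕ) : Finset (Fin n) := Finset.univ.filter (fun y : Fin n => (y : ℕ) = c)

theorem mem_slice (c : ℕ) (y : Fin n) : y ∈ slice n c ↔ (y : ℕ) = c := by
  simp [slice]

theorem card_slice_le (c : ℕ) : (slice n c).card ≤ 1 := by
  rw [Finset.card_le_one]
  intro a ha b hb
  rw [mem_slice] at ha hb
  exact Fin.ext (ha.trans hb.symm)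

theorem card_Icc_sd (R : BoxT n d) (hR : R.1 ≤ R.2) (k : Fin d) :
    (Finset.Icc (R.1 k) (R.2 k)).card = sd R k := by
  rw [Fin.card_Icc, sd]
  have : (R.1 k : ℕ) ≤ R.2 k := hR k
  omega

theorem card_one_le (R : BoxT n d) (hR : R.1 ≤ R.2) (i : Fin d) (c : ℕ)
    (X : Finset (Vtx n d)) (hX : ∀ x ∈ X, R.1 ≤ x ∧ x ≤ R.2 ∧ (x i : ℕ) = c) :
    X.card ≤ ∏ j ∈ Finset.univ.erase i, sd R j := by
  classical
  have h1 : X ⊆ Fintype.piFinset (fun j => if j = i then
      slice n c
      else Finset.Icc (R.1 j) (R.2 j)) := by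
    intro x hx
    obtain ⟨h2, h3, h4⟩ := hX x hx
    rw [Fintype.mem_piFinset]
    intro j
    split_ifs with hj
    · subst hj; exact (mem_slice _ _).2 h4
    · exact Finset.mem_Icc.2 ⟨h2 j, h3 j⟩
  refine (Finset.card_le_card h1).trans ?_
  rw [Fintype.card_piFinset, ← Finset.mul_prod_erase _ _ (Finset.mem_univ i)]
  rw [if_pos rfl]
  have h2 : ∏ j ∈ Finset.univ.erase i, (if j = i then
      slice n c
      else (Finset.Icc (R.1 j) (R.2 j) : Finset (Fin n))).card =
        ∏ j ∈ Finset.univ.erase i, sd R j := by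
    refine Finset.prod_congr rfl fun j hj => ?_
    rw [if_neg (Finset.ne_of_mem_erase hj), card_Icc_sd R hR]
  rw [h2]
  calc _ ≤ 1 * ∏ j ∈ Finset.univ.erase i, sd R j :=
        Nat.mul_le_mul_right _ (card_slice_le c)
    _ = _ := one_mul _

theorem card_two_le (R : BoxT n d) (hR : R.1 ≤ R.2) (i k : Fin d) (hik : k ≠ i) (c c' : ℕ)
    (X : Finset (Vtx n d))
    (hX : ∀ x ∈ X, R.1 ≤ x ∧ x ≤ R.2 ∧ (x i : ℕ) = c ∧ (x k : ℕ) = c') :
    X.card ≤ ∏ j ∈ (Finset.univ.erase i).erase k, sd R j := by
  classical
  have h1 : X ⊆ Fintype.piFinset (fun j => if j = i then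
      slice n c
      else if j = k then slice n c'
      else Finset.Icc (R.1 j) (R.2 j)) := by
    intro x hx
    obtain ⟨h2, h3, h4, h5⟩ := hX x hx
    rw [Fintype.mem_piFinset]
    intro j
    split_ifs with hj hj'
    · subst hj; exact (mem_slice _ _).2 h4
    · subst hj'; exact (mem_slice _ _).2 h5
    · exact Finset.mem_Icc.2 ⟨h2 j, h3 j⟩
  refine (Finset.card_le_card h1).trans ?_
  rw [Fintype.card_piFinset, ← Finset.mul_prod_erase _ _ (Finset.mem_univ i),
    ← Finset.mul_prod_erase _ _ (Finset.mem_erase.2 ⟨hik, Finset.mem_univ k⟩)]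
  rw [if_pos rfl, if_neg hik, if_pos rfl]
  have h2 : ∏ j ∈ (Finset.univ.erase i).erase k, (if j = i then
      slice n c
      else if j = k then slice n c'
      else (Finset.Icc (R.1 j) (R.2 j) : Finset (Fin n))).card =
        ∏ j ∈ (Finset.univ.erase i).erase k, sd R j := by
    refine Finset.prod_congr rfl fun j hj => ?_
    rw [if_neg (Finset.ne_of_mem_erase (Finset.mem_of_mem_erase hj)),
      if_neg (Finset.ne_of_mem_erase hj), card_Icc_sd R hR]
  rw [h2]
  calc _ ≤ 1 * (1 * ∏ j ∈ (Finset.univ.erase i).erase k, sd R j) :=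
        Nat.mul_le_mul (card_slice_le c) (Nat.mul_le_mul_right _ (card_slice_le c'))
    _ = _ := by rw [one_mul, one_mul]

/-! ### the main induction -/

theorem Xf_self_le (R₁ R : BoxT n d) (hR : R.1 ≤ R.2) (u : Fin d × ℕ) :
    (Xf R₁ R u u).card ≤ ∏ j ∈ Finset.univ.erase u.1, sd R j := by
  classical
  refine card_one_le R hR u.1 u.2 _ ?_
  intro x hx
  simp only [Xf, Finset.mem_filter, Finset.mem_univ, true_and, or_self] at hx
  refine ⟨hx.1, hx.2.1, ?_⟩
  rcases hx.2.2 with h | h | h
  · exact h.2
  · omega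
  · exact absurd rfl h.1

theorem Xf_straight_le (R₁ R : BoxT n d) (h0 : R₁.1 ≤ R₁.2) (hR : R.1 ≤ R.2) (u v : Fin d × ℕ)
    (huv : v.1 = u.1) (hlt : u.2 < v.2) :
    (Xf R₁ R u v).card ≤ (if v.2 = u.2 + 1 then 1 else 0) *
      ∏ j ∈ Finset.univ.erase u.1, sd R j := by
  classical
  by_cases hv : v.2 = u.2 + 1
  · rw [if_pos hv, one_mul]
    have h1 : (R₁.1 u.1 : ℕ) ≤ R₁.2 u.1 := h0 u.1
    by_cases hc : u.2 < (R₁.1 u.1 : ℕ)
    · refine card_one_le R hR u.1 u.2 _ ?_
      intro x hx
      simp only [Xf, Finset.mem_filter, Finset.mem_univ, true_and] at hx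
      refine ⟨hx.1, hx.2.1, ?_⟩
      rcases hx.2.2 with (h | h | h) | (h | h | h)
      · rw [h.1] at hlt; omega
      · rcases h.2.2 with h | h <;> omega
      · exact absurd huv.symm h.1
      · rw [h.1] at hlt; omega
      · omega
      · exact absurd huv h.1
    · refine card_one_le R hR u.1 v.2 _ ?_
      intro x hx
      simp only [Xf, Finset.mem_filter, Finset.mem_univ, true_and] at hx
      refine ⟨hx.1, hx.2.1, ?_⟩
      rcases hx.2.2 with (h | h | h) | (h | h | h)
      · rw [h.1] at hlt; omega
      · rcases h.2.2 with h | h <;> omega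
      · exact absurd huv.symm h.1
      · rw [h.1] at hlt; omega
      · omega
      · exact absurd huv h.1
  · rw [if_neg hv, zero_mul, Nat.le_zero, Finset.card_eq_zero]
    rw [Finset.eq_empty_iff_forall_notMem]
    intro x hx
    simp only [Xf, Finset.mem_filter, Finset.mem_univ, true_and] at hx
    rcases hx.2.2 with (h | h | h) | (h | h | h)
    · rw [h.1] at hlt; omega
    · omega
    · exact absurd huv.symm h.1
    · rw [h.1] at hlt; omega
    · omega
    · exact absurd huv h.1

theorem Xf_corner_le (R₁ R : BoxT n d) (hR : R.1 ≤ R.2) (u v : Fin d × ℕ)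
    (huv : v.1 ≠ u.1) :
    (Xf R₁ R u v).card ≤ ∏ j ∈ (Finset.univ.erase u.1).erase v.1, sd R j := by
  classical
  refine card_two_le R hR u.1 v.1 huv u.2 v.2 _ ?_
  intro x hx
  simp only [Xf, Finset.mem_filter, Finset.mem_univ, true_and] at hx
  refine ⟨hx.1, hx.2.1, ?_⟩
  rcases hx.2.2 with (h | h | h) | (h | h | h)
  · rw [h.1] at huv; exact absurd rfl huv
  · exact absurd h.1.symm huv
  · exact h.2
  · rw [h.1] at huv; exact absurd rfl huv
  · exact absurd h.1 huv
  · exact ⟨h.2.2, h.2.1⟩

theorem sd_pos (R : BoxT n d) (i : Fin d) : (0 : ℝ) < sd R i := by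
  unfold sd; positivity

theorem log_sd_nonneg (R : BoxT n d) (i : Fin d) : 0 ≤ Real.log (sd R i) := by
  apply Real.log_nonneg
  have : 1 ≤ sd R i := by unfold sd; omega
  exact_mod_cast this

theorem prod_erase_eq_exp (R : BoxT n d) (i : Fin d) :
    ∏ j ∈ Finset.univ.erase i, (sd R j : ℝ) =
      Real.exp (∑ j, Real.log (sd R j) - Real.log (sd R i)) := by
  rw [← Finset.add_sum_erase _ _ (Finset.mem_univ i), add_sub_cancel_left, Real.exp_sum]
  exact Finset.prod_congr rfl fun j _ => (Real.exp_log (sd_pos R j)).symm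

theorem prod_erase_erase_eq_exp (R : BoxT n d) (i k : Fin d) (hik : k ≠ i) :
    ∏ j ∈ (Finset.univ.erase i).erase k, (sd R j : ℝ) =
      Real.exp (∑ j, Real.log (sd R j) - Real.log (sd R i) - Real.log (sd R k)) := by
  rw [← Finset.add_sum_erase _ _ (Finset.mem_univ i), add_sub_cancel_left,
    ← Finset.add_sum_erase _ _ (Finset.mem_erase.2 ⟨hik, Finset.mem_univ k⟩),
    add_sub_cancel_left, Real.exp_sum]
  exact Finset.prod_congr rfl fun j _ => (Real.exp_log (sd_pos R j)).symm

theorem Wl_empty_le (p : ℝ) (hp : 0 ≤ p) (R₁ R : BoxT n d) : Wl p R₁ R ∅ ≤ 1 := by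
  classical
  have h1 : ∀ U K, Lab R₁ R U K → U = ∅ → K = ∅ := by
    intro U K h hU
    cases h with
    | nil => rfl
    | cons h u v x => simp at hU
  unfold Wl
  calc _ ≤ ∑ K ∈ ({∅} : Finset (Finset (Vtx n d))), p ^ K.card := by
        refine Finset.sum_le_sum_of_subset_of_nonneg ?_ fun _ _ _ => pow_nonneg hp _
        intro K hK
        simp only [Finset.mem_filter, Finset.mem_univ, true_and] at hK
        simpa using h1 _ _ hK rfl
    _ = 1 := by simp

/-- the exponent attached to a layer of direction `i` -/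
noncomputable def et (R : BoxT n d) (L : ℝ) (i : Fin d) : ℝ :=
  (L - ∑ j, Real.log (sd R j) + Real.log (sd R i)) / 2

/-- the correction attached to a layer of direction `i` -/
noncomputable def kp (R : BoxT n d) (ζ : ℝ) (D s : ℕ) (i : Fin d) : ℝ :=
  ζ + (D : ℝ) / s + if sd R i < s then Real.log ((D : ℝ) + 2) else 0

theorem Wl_bound (R₁ R : BoxT n d) (h0 : R₁.1 ≤ R₁.2) (hR : R.1 ≤ R.2) (L ζ : ℝ) (D s : ℕ)
    (hs : 1 ≤ s) (hζ0 : 0 ≤ ζ) (hζ1 : ζ ≤ 1)
    (hz : ∀ i, Real.exp (-L) * ∏ j ∈ Finset.univ.erase i, (sd R j : ℝ) ≤ ζ ^ 2) :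
    ∀ (m : ℕ) (U : Finset (Fin d × ℕ)), U.card = m → U.card ≤ D →
      Wl (Real.exp (-L)) R₁ R U ≤ Real.exp (∑ v ∈ U, (kp R ζ D s v.1 - et R L v.1)) := by
  classical
  intro m
  induction m using Nat.strong_induction_on with
  | _ m ih =>
    intro U hm hD
    have hp : 0 ≤ Real.exp (-L) := (Real.exp_pos _).le
    have hs' : (0 : ℝ) < s := by exact_mod_cast hs
    by_cases hU : U = ∅
    · subst hU
      simpa using Wl_empty_le (Real.exp (-L)) hp R₁ R
    · -- choice of the layer
      have hne : U.Nonempty := Finset.nonempty_iff_ne_empty.2 hU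
      obtain ⟨u, huU, hmin, hsm⟩ : ∃ u ∈ U, (∀ v ∈ U, v.1 = u.1 → u.2 ≤ v.2) ∧
          (sd R u.1 < s ∨ ∀ v ∈ U, ¬ sd R v.1 < s) := by
        by_cases hex : (U.filter (fun v => sd R v.1 < s)).Nonempty
        · obtain ⟨u, hu, hu2⟩ := Finset.exists_min_image _ (fun v : Fin d × ℕ => v.2) hex
          rw [Finset.mem_filter] at hu
          refine ⟨u, hu.1, ?_, Or.inl hu.2⟩
          intro v hv hv1
          exact hu2 v (Finset.mem_filter.2 ⟨hv, by rw [hv1]; exact hu.2⟩)
        · obtain ⟨u, hu, hu2⟩ := Finset.exists_min_image _ (fun v : Fin d × ℕ => v.2) hne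
          refine ⟨u, hu, fun v hv _ => hu2 v hv, Or.inr ?_⟩
          intro v hv hv2
          exact hex ⟨v, Finset.mem_filter.2 ⟨hv, hv2⟩⟩
      have hkp0 : ∀ i, 0 ≤ kp R ζ D s i := by
        intro i
        unfold kp
        have h1 : (0 : ℝ) ≤ (D : ℝ) / s := by positivity
        have h2 : 0 ≤ Real.log ((D : ℝ) + 2) := Real.log_nonneg (by
          have : (0 : ℝ) ≤ D := Nat.cast_nonneg D
          linarith)
        split_ifs <;> linarith
      -- the weight of the one-layer blocks
      have hzz : ∀ i, Real.exp (-et R L i) ≤ ζ := by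
        intro i
        have h1 := hz i
        rw [prod_erase_eq_exp, ← Real.exp_add] at h1
        have h2 : Real.exp (-et R L i) ^ 2 ≤ ζ ^ 2 := by
          rw [← Real.exp_nat_mul]
          refine le_trans (le_of_eq ?_) h1
          congr 1
          unfold et
          push_cast
          ring
        exact (pow_le_pow_iff_left₀ (Real.exp_pos _).le hζ0 two_ne_zero).1 h2
      have hstep := Wl_le (Real.exp (-L)) hp R₁ R U u huU
      set S : ℝ := ∑ v ∈ U, (kp R ζ D s v.1 - et R L v.1) with hS
      -- the bound of a single term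
      set hf : Fin d × ℕ → ℝ := fun v => if v = u then ζ * Real.exp (-kp R ζ D s u.1) else
        if v.1 = u.1 then (if v.2 = u.2 + 1 then Real.exp (-2 * kp R ζ D s u.1) else 0) else
        Real.exp (-(Real.log (sd R u.1) + Real.log (sd R v.1)) / 2 - kp R ζ D s u.1 -
          kp R ζ D s v.1) with hhf
      have hterm : ∀ v ∈ U, ((Xf R₁ R u v).card : ℝ) *
          (Real.exp (-L) * Wl (Real.exp (-L)) R₁ R ((U.erase u).erase v)) ≤
          Real.exp S * hf v := by
        intro v hv
        have hcard : ((U.erase u).erase v).card < m := by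
          calc ((U.erase u).erase v).card ≤ (U.erase u).card := Finset.card_erase_le
            _ < U.card := Finset.card_erase_lt_of_mem huU
            _ = m := hm
        have hih := ih _ hcard ((U.erase u).erase v) rfl (by omega)
        have hX0 : (0 : ℝ) ≤ ((Xf R₁ R u v).card : ℝ) := Nat.cast_nonneg _
        refine (mul_le_mul_of_nonneg_left (mul_le_mul_of_nonneg_left hih hp) hX0).trans ?_
        by_cases hvu : v = u
        · subst hvu
          have e1 : (U.erase v).erase v = U.erase v :=
            Finset.erase_eq_of_notMem (Finset.notMem_erase v U)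
          have e2 : ∑ w ∈ U.erase v, (kp R ζ D s w.1 - et R L w.1) =
              S - (kp R ζ D s v.1 - et R L v.1) := by
            rw [hS, ← Finset.add_sum_erase _ _ huU]; ring
          rw [e1, e2, hhf]
          simp only [if_true]
          have h3 : ((Xf R₁ R v v).card : ℝ) ≤
              Real.exp (∑ j, Real.log (sd R j) - Real.log (sd R v.1)) := by
            rw [← prod_erase_eq_exp]
            exact_mod_cast Xf_self_le R₁ R hR v
          calc ((Xf R₁ R v v).card : ℝ) * (Real.exp (-L) *
                Real.exp (S - (kp R ζ D s v.1 - et R L v.1)))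
              ≤ Real.exp (∑ j, Real.log (sd R j) - Real.log (sd R v.1)) * (Real.exp (-L) *
                Real.exp (S - (kp R ζ D s v.1 - et R L v.1))) :=
                mul_le_mul_of_nonneg_right h3 (by positivity)
            _ = Real.exp S * (Real.exp (-et R L v.1) * Real.exp (-kp R ζ D s v.1)) := by
                simp only [← Real.exp_add]
                congr 1
                unfold et
                ring
            _ ≤ Real.exp S * (ζ * Real.exp (-kp R ζ D s v.1)) :=
                mul_le_mul_of_nonneg_left (mul_le_mul_of_nonneg_right (hzz _)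
                  (Real.exp_pos _).le) (Real.exp_pos _).le
        · have e2 : ∑ w ∈ (U.erase u).erase v, (kp R ζ D s w.1 - et R L w.1) =
              S - (kp R ζ D s u.1 - et R L u.1) - (kp R ζ D s v.1 - et R L v.1) := by
            rw [hS, ← Finset.add_sum_erase _ _ huU,
              ← Finset.add_sum_erase _ _ (Finset.mem_erase.2 ⟨hvu, hv⟩)]
            ring
          rw [e2, hhf]
          simp only [if_neg hvu]
          by_cases h1 : v.1 = u.1
          · rw [if_pos h1]
            have hlt : u.2 < v.2 := by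
              rcases lt_or_eq_of_le (hmin v hv h1) with h | h
              · exact h
              · exact absurd (Prod.ext h1 h.symm) hvu
            have h3 : ((Xf R₁ R u v).card : ℝ) ≤ (if v.2 = u.2 + 1 then 1 else 0) *
                Real.exp (∑ j, Real.log (sd R j) - Real.log (sd R u.1)) := by
              rw [← prod_erase_eq_exp]
              exact_mod_cast Xf_straight_le R₁ R h0 hR u v h1 hlt
            calc ((Xf R₁ R u v).card : ℝ) * (Real.exp (-L) *
                  Real.exp (S - (kp R ζ D s u.1 - et R L u.1) - (kp R ζ D s v.1 - et R L v.1)))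
                ≤ ((if v.2 = u.2 + 1 then 1 else 0) *
                  Real.exp (∑ j, Real.log (sd R j) - Real.log (sd R u.1))) * (Real.exp (-L) *
                  Real.exp (S - (kp R ζ D s u.1 - et R L u.1) -
                    (kp R ζ D s v.1 - et R L v.1))) :=
                  mul_le_mul_of_nonneg_right h3 (by positivity)
              _ = Real.exp S * (if v.2 = u.2 + 1 then Real.exp (-2 * kp R ζ D s u.1) else 0) := by
                  split_ifs with h4
                  · rw [one_mul]
                    simp only [← Real.exp_add]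
                    congr 1
                    rw [h1]
                    unfold et
                    ring
                  · simp
              _ ≤ _ := le_rfl
          · rw [if_neg h1]
            have h3 : ((Xf R₁ R u v).card : ℝ) ≤
                Real.exp (∑ j, Real.log (sd R j) - Real.log (sd R u.1) -
                  Real.log (sd R v.1)) := by
              rw [← prod_erase_erase_eq_exp R u.1 v.1 h1]
              exact_mod_cast Xf_corner_le R₁ R hR u v h1
            calc ((Xf R₁ R u v).card : ℝ) * (Real.exp (-L) *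
                  Real.exp (S - (kp R ζ D s u.1 - et R L u.1) - (kp R ζ D s v.1 - et R L v.1)))
                ≤ Real.exp (∑ j, Real.log (sd R j) - Real.log (sd R u.1) -
                  Real.log (sd R v.1)) * (Real.exp (-L) *
                  Real.exp (S - (kp R ζ D s u.1 - et R L u.1) -
                    (kp R ζ D s v.1 - et R L v.1))) :=
                  mul_le_mul_of_nonneg_right h3 (by positivity)
              _ = Real.exp S * Real.exp (-(Real.log (sd R u.1) + Real.log (sd R v.1)) / 2 -
                  kp R ζ D s u.1 - kp R ζ D s v.1) := by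
                  simp only [← Real.exp_add]
                  congr 1
                  unfold et
                  ring
              _ ≤ _ := le_rfl
      have hsum : ∑ v ∈ U, hf v ≤ 1 := by
        have hD0 : (0 : ℝ) ≤ D := Nat.cast_nonneg D
        have hUD : (U.card : ℝ) ≤ D := by exact_mod_cast hD
        rcases hsm with hsm | hsm
        · -- a small direction
          have h1 : ∀ v ∈ U, hf v ≤ 1 / ((D : ℝ) + 2) := by
            intro v _
            have h2 : Real.exp (-kp R ζ D s u.1) ≤ 1 / ((D : ℝ) + 2) := by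
              rw [one_div, ← Real.exp_log (show (0:ℝ) < (D : ℝ) + 2 by linarith), ← Real.exp_neg]
              apply Real.exp_le_exp.2
              unfold kp
              rw [if_pos hsm]
              have : (0 : ℝ) ≤ (D : ℝ) / s := by positivity
              linarith
            have h3 := hkp0 u.1
            have h4 := hkp0 v.1
            have h5 := log_sd_nonneg R u.1
            have h6 := log_sd_nonneg R v.1
            refine le_trans ?_ h2
            rw [hhf]
            dsimp only
            split_ifs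
            · calc ζ * Real.exp (-kp R ζ D s u.1) ≤ 1 * Real.exp (-kp R ζ D s u.1) :=
                    mul_le_mul_of_nonneg_right hζ1 (Real.exp_pos _).le
                _ = _ := one_mul _
            · exact Real.exp_le_exp.2 (by linarith)
            · exact (Real.exp_pos _).le
            · exact Real.exp_le_exp.2 (by linarith)
          refine (Finset.sum_le_card_nsmul _ _ _ h1).trans ?_
          rw [nsmul_eq_mul, mul_one_div, div_le_one (by linarith)]
          linarith
        · -- all directions are large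
          set κ : ℝ := ζ + (D : ℝ) / s with hκ
          have hk : ∀ v ∈ U, kp R ζ D s v.1 = κ := by
            intro v hv
            unfold kp
            rw [if_neg (hsm v hv), add_zero]
          set y : ℝ := Real.exp (-κ) with hy
          have hy0 : 0 < y := Real.exp_pos _
          have hDs : (0 : ℝ) ≤ (D : ℝ) / s := by positivity
          have hy1 : y ≤ 1 := by
            rw [hy, ← Real.exp_zero]
            exact Real.exp_le_exp.2 (by rw [hκ]; linarith)
          have hy2 : y * (1 + ζ + (D : ℝ) / s) ≤ 1 := by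
            have h1 : 1 + ζ + (D : ℝ) / s ≤ Real.exp κ := by
              have := Real.add_one_le_exp κ
              rw [hκ] at this ⊢
              linarith
            calc y * (1 + ζ + (D : ℝ) / s) ≤ y * Real.exp κ :=
                  mul_le_mul_of_nonneg_left h1 hy0.le
              _ = 1 := by rw [hy, ← Real.exp_add]; simp
          have h1 : ∀ v ∈ U, hf v ≤ (if v = u then ζ * y else 0) +
              (if v = (u.1, u.2 + 1) then y ^ 2 else 0) + y ^ 2 / s := by
            intro v hv
            have h7 : (0 : ℝ) ≤ y ^ 2 / s := by positivity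
            have h8 : y ^ 2 = Real.exp (-2 * κ) := by
              rw [hy, ← Real.exp_nat_mul]; congr 1; push_cast; ring
            rw [hhf]
            dsimp only
            rw [hk u huU, hk v hv]
            by_cases h2 : v = u
            · rw [if_pos h2, if_pos h2]
              have h9 : (0:ℝ) ≤ if v = (u.1, u.2 + 1) then y ^ 2 else 0 := by
                split_ifs
                · positivity
                · exact le_rfl
              linarith
            · rw [if_neg h2, if_neg h2]
              by_cases h3 : v.1 = u.1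
              · rw [if_pos h3]
                by_cases h4 : v.2 = u.2 + 1
                · have h5 : v = (u.1, u.2 + 1) := Prod.ext h3 h4
                  rw [if_pos h4, if_pos h5, ← h8]
                  linarith
                · have h5 : ¬ v = (u.1, u.2 + 1) := fun h => h4 (by rw [h])
                  rw [if_neg h4, if_neg h5]
                  linarith
              · rw [if_neg h3]
                have h5 : ¬ v = (u.1, u.2 + 1) := fun h => h3 (by rw [h])
                rw [if_neg h5, zero_add, zero_add]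
                have h9 : Real.log s ≤ Real.log (sd R u.1) :=
                  Real.log_le_log hs' (by exact_mod_cast not_lt.1 (hsm u huU))
                have h10 : Real.log s ≤ Real.log (sd R v.1) :=
                  Real.log_le_log hs' (by exact_mod_cast not_lt.1 (hsm v hv))
                calc Real.exp (-(Real.log (sd R u.1) + Real.log (sd R v.1)) / 2 - κ - κ)
                    ≤ Real.exp (-2 * κ + -Real.log s) := Real.exp_le_exp.2 (by linarith)
                  _ = y ^ 2 / s := by
                      rw [Real.exp_add, ← h8, Real.exp_neg, Real.exp_log hs', div_eq_mul_inv]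
          refine (Finset.sum_le_sum h1).trans ?_
          rw [Finset.sum_add_distrib, Finset.sum_add_distrib, Finset.sum_ite_eq',
            Finset.sum_ite_eq', if_pos huU, Finset.sum_const, nsmul_eq_mul]
          have h11 : (if (u.1, u.2 + 1) ∈ U then y ^ 2 else 0) ≤ y ^ 2 := by
            split_ifs
            · exact le_rfl
            · positivity
          have h12 : (U.card : ℝ) * (y ^ 2 / s) ≤ y * ((D : ℝ) / s) := by
            calc (U.card : ℝ) * (y ^ 2 / s) ≤ D * (y ^ 2 / s) :=
                  mul_le_mul_of_nonneg_right hUD (by positivity)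
              _ = y ^ 2 * ((D : ℝ) / s) := by ring
              _ ≤ y * ((D : ℝ) / s) := mul_le_mul_of_nonneg_right (by nlinarith) hDs
          have h13 : y ^ 2 ≤ y := by nlinarith
          nlinarith
      calc Wl (Real.exp (-L)) R₁ R U
          ≤ ∑ v ∈ U, Real.exp S * hf v := hstep.trans (Finset.sum_le_sum hterm)
        _ = Real.exp S * ∑ v ∈ U, hf v := by rw [Finset.mul_sum]
        _ ≤ Real.exp S * 1 := mul_le_mul_of_nonneg_left hsum (Real.exp_pos _).le
        _ = Real.exp S := mul_one _

theorem card_UN_fiber (R₁ R : BoxT n d) (h : SubBox R₁ R) (i : Fin d) :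
    ((UN R₁ R).filter (fun v => v.1 = i)).card = exc R₁ R i := by
  classical
  have h0 : (R₁.1 i : ℕ) ≤ R₁.2 i := h.1 i
  have h1 : (R.1 i : ℕ) ≤ R₁.1 i := h.2.1 i
  have h2 : (R₁.2 i : ℕ) ≤ R.2 i := h.2.2 i
  have h3 : (UN R₁ R).filter (fun v => v.1 = i) =
      (Finset.Ico (R.1 i : ℕ) (R₁.1 i) ∪ Finset.Ioc (R₁.2 i : ℕ) (R.2 i)).image
        (fun c => (i, c)) := by
    ext ⟨k, c⟩
    simp only [Finset.mem_filter, mem_UN, Finset.mem_image, Finset.mem_union, Finset.mem_Ico,
      Finset.mem_Ioc, Prod.mk.injEq]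
    constructor
    · rintro ⟨h4, rfl⟩
      exact ⟨c, by omega, rfl, rfl⟩
    · rintro ⟨c', h4, rfl, rfl⟩
      exact ⟨by omega, rfl⟩
  rw [h3, Finset.card_image_of_injective _ (fun a b hab => (Prod.mk.inj hab).2),
    Finset.card_union_of_disjoint, Nat.card_Ico, Nat.card_Ioc]
  · rfl
  · rw [Finset.disjoint_left]
    intro c hc1 hc2
    rw [Finset.mem_Ico] at hc1
    rw [Finset.mem_Ioc] at hc2
    omega

theorem sum_UN (R₁ R : BoxT n d) (h : SubBox R₁ R) (f : Fin d → ℝ) :
    ∑ v ∈ UN R₁ R, f v.1 = ∑ i, (exc R₁ R i : ℝ) * f i := by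
  classical
  rw [← Finset.sum_fiberwise (UN R₁ R) (fun v => v.1) (fun v => f v.1)]
  refine Finset.sum_congr rfl fun i _ => ?_
  rw [← card_UN_fiber R₁ R h i, ← nsmul_eq_mul, ← Finset.sum_const]
  refine Finset.sum_congr rfl fun v hv => ?_
  rw [(Finset.mem_filter.1 hv).2]

theorem card_UN (R₁ R : BoxT n d) (h : SubBox R₁ R) :
    (UN R₁ R).card = ∑ i, exc R₁ R i := by
  have h1 := sum_UN R₁ R h (fun _ => 1)
  simp only [Finset.sum_const, nsmul_eq_mul, mul_one] at h1
  exact_mod_cast h1

/-- the sets of single points extending `R₁` to `R` -/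
theorem Tw_le (R₁ R : BoxT n d) (h : SubBox R₁ R) (L ζ : ℝ) (s : ℕ) (hs : 1 ≤ s) (hζ0 : 0 ≤ ζ)
    (hζ1 : ζ ≤ 1)
    (hz : ∀ i, Real.exp (-L) * ∏ j ∈ Finset.univ.erase i, (sd R j : ℝ) ≤ ζ ^ 2) :
    Tw (Real.exp (-L)) R₁ R ≤ Real.exp (-(∑ i, (exc R₁ R i : ℝ) *
        (L - ∑ j, Real.log (sd R j) + Real.log (sd R i)) / 2) +
      (ζ + ((∑ i, exc R₁ R i : ℕ) : ℝ) / s) * ((∑ i, exc R₁ R i : ℕ) : ℝ) +
      Real.log (((∑ i, exc R₁ R i : ℕ) : ℝ) + 2) *
        ∑ i with sd R i < s, (exc R₁ R i : ℝ)) := by
  classical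
  have h0 : R₁.1 ≤ R₁.2 := h.1
  have hR : R.1 ≤ R.2 := h.2.1.trans (h.1.trans h.2.2)
  set D : ℕ := ∑ i, exc R₁ R i with hD
  refine (Tw_le_Wl _ (Real.exp_pos _).le R₁ R h0).trans ?_
  refine (Wl_bound R₁ R h0 hR L ζ D s hs hζ0 hζ1 hz _ (UN R₁ R) rfl
    (by rw [card_UN R₁ R h])).trans ?_
  refine le_of_eq ?_
  congr 1
  rw [sum_UN R₁ R h (fun i => kp R ζ D s i - et R L i)]
  have h1 : ∀ i : Fin d, (exc R₁ R i : ℝ) * (kp R ζ D s i - et R L i) =
      -((exc R₁ R i : ℝ) * (L - ∑ j, Real.log (sd R j) + Real.log (sd R i)) / 2) +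
      (ζ + (D : ℝ) / s) * (exc R₁ R i : ℝ) +
      Real.log ((D : ℝ) + 2) * (if sd R i < s then (exc R₁ R i : ℝ) else 0) := by
    intro i
    unfold kp et
    split_ifs <;> ring
  rw [Finset.sum_congr rfl fun i _ => h1 i, Finset.sum_add_distrib, Finset.sum_add_distrib,
    Finset.sum_neg_distrib, ← Finset.mul_sum, ← Finset.mul_sum, ← Finset.sum_filter]
  congr 3
  rw [hD]
  push_cast
  rfl

end Pool.Agent.Lib.MP_8501c9_pr
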