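import Pool.Agent.Lib.MP_8501c9_pr.SharpDefs
import Pool.Agent.Lib.MP_8501c9_pr.Weight

/-!
# Counting near pairs of boxes
-/

set_option autoImplicit false
open Set

namespace Pool.Agent.Lib.MP_8501c9_pr

theorem sd_le_phi {n d : ℕ} (R : BoxT n d) (i : Fin d) : (R.2 i : ℕ) - R.1 i ≤ phi R := by
  unfold phi
  exact Finset.single_le_sum (f := fun i => (R.2 i : ℕ) - R.1 i) (fun _ _ => Nat.zero_le _)
    (Finset.mem_univ i)

theorem Near.le_two {n d : ℕ} {R S : BoxT n d} (h : Near R S) (i : Fin d) :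
    ((S.1 i : ℕ) - R.2 i) + ((R.1 i : ℕ) - S.2 i) ≤ 2 := by
  unfold Near at h
  exact (Finset.single_le_sum (f := fun i => ((S.1 i : ℕ) - R.2 i) + ((R.1 i : ℕ) - S.2 i))
    (fun _ _ => Nat.zero_le _) (Finset.mem_univ i)).trans h

open Classical in
theorem card_near_pairs {n d : ℕ} (k : ℕ) (hk : 1 ≤ k) :
    (Finset.univ.filter (fun P : BoxT n d × BoxT n d => P.1.1 ≤ P.1.2 ∧ P.2.1 ≤ P.2.2 ∧
      Near P.1 P.2 ∧ phi P.1 < k ∧ phi P.2 < k)).card ≤ n ^ d * (3 * k + 3) ^ (3 * d) := by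
  set K : ℕ := 3 * k + 3 with hK
  have hK0 : 0 < K := by omega
  let F : BoxT n d × BoxT n d → Vtx n d × (Fin d → Fin K) × (Fin d → Fin K) × (Fin d → Fin K) :=
    fun P => (P.1.1, fun i => ⟨((P.1.2 i : ℕ) - P.1.1 i) % K, Nat.mod_lt _ hK0⟩,
      fun i => ⟨((P.2.1 i : ℕ) + (k + 1) - P.1.1 i) % K, Nat.mod_lt _ hK0⟩,
      fun i => ⟨((P.2.2 i : ℕ) - P.2.1 i) % K, Nat.mod_lt _ hK0⟩)
  have h1 : (Finset.univ.filter (fun P : BoxT n d × BoxT n d => P.1.1 ≤ P.1.2 ∧ P.2.1 ≤ P.2.2 ∧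
      Near P.1 P.2 ∧ phi P.1 < k ∧ phi P.2 < k)).card ≤
      (Finset.univ : Finset (Vtx n d × (Fin d → Fin K) × (Fin d → Fin K) × (Fin d → Fin K))).card := by
    refine Finset.card_le_card_of_injOn F (fun _ _ => Finset.mem_univ _) ?_
    rintro ⟨⟨a, b⟩, ⟨c, e⟩⟩ hP ⟨⟨a', b'⟩, ⟨c', e'⟩⟩ hQ hF
    simp only [Finset.coe_filter, Finset.mem_univ, true_and, Set.mem_ofPred_eq] at hP hQ
    obtain ⟨hP1, hP2, hP3, hP4, hP5⟩ := hP
    obtain ⟨hQ1, hQ2, hQ3, hQ4, hQ5⟩ := hQ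
    have f1 : a = a' := congrArg Prod.fst hF
    have f2 := congrArg (fun z => z.2.1) hF
    have f3 := congrArg (fun z => z.2.2.1) hF
    have f4 := congrArg (fun z => z.2.2.2) hF
    subst f1
    have key : ∀ i, (b i = b' i) ∧ (c i = c' i) ∧ (e i = e' i) := by
      intro i
      have g2 := congrArg Fin.val (congrFun f2 i)
      have g3 := congrArg Fin.val (congrFun f3 i)
      have g4 := congrArg Fin.val (congrFun f4 i)
      simp only [F] at g2 g3 g4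
      have p1 : (a i : ℕ) ≤ b i := hP1 i
      have p2 : (c i : ℕ) ≤ e i := hP2 i
      have p3 := hP3.le_two i
      have p4 := sd_le_phi (n := n) (a, b) i
      have p5 := sd_le_phi (n := n) (c, e) i
      have q1 : (a i : ℕ) ≤ b' i := hQ1 i
      have q2 : (c' i : ℕ) ≤ e' i := hQ2 i
      have q3 := hQ3.le_two i
      have q4 := sd_le_phi (n := n) (a, b') i
      have q5 := sd_le_phi (n := n) (c', e') i
      simp only at p3 p4 p5 q3 q4 q5 hP4 hP5 hQ4 hQ5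
      rw [Nat.mod_eq_of_lt (by omega), Nat.mod_eq_of_lt (by omega)] at g2
      rw [Nat.mod_eq_of_lt (by omega), Nat.mod_eq_of_lt (by omega)] at g3
      rw [Nat.mod_eq_of_lt (by omega), Nat.mod_eq_of_lt (by omega)] at g4
      refine ⟨Fin.ext (by omega), Fin.ext (by omega), Fin.ext (by omega)⟩
    have hb : b = b' := funext fun i => (key i).1
    have hc : c = c' := funext fun i => (key i).2.1
    have he : e = e' := funext fun i => (key i).2.2
    rw [hb, hc, he]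
  refine h1.trans (le_of_eq ?_)
  rw [Finset.card_univ]
  simp only [Fintype.card_prod, Fintype.card_fun, Fintype.card_fin]
  rw [mul_comm 3 d, pow_mul]
  ring

theorem percProb_le_max {n d : ℕ} (hd : 1 ≤ d) (p : ℝ) (hp0 : 0 ≤ p) (hp1 : p ≤ 1) (k : ℕ)
    (hk : 1 ≤ k) (hkn : k ≤ d * (n - 1)) (W : ℝ) (hW : 0 ≤ W)
    (hw : ∀ P : BoxT n d × BoxT n d, P.1.1 ≤ P.1.2 → P.2.1 ≤ P.2.2 → phi P.1 < k → phi P.2 < k →
      k ≤ phi P.1 + phi P.2 + 2 → wt p P.1 * wt p P.2 ≤ W) :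
    percProb n d 2 p ≤ (n : ℝ) ^ d * (3 * k + 3) ^ (3 * d) * W := by
  classical
  refine (percProb_le_sum hd p hp0 hp1 k hk hkn).trans ?_
  have h1 : ∀ P ∈ Finset.univ.filter (fun P : BoxT n d × BoxT n d => P.1.1 ≤ P.1.2 ∧
      P.2.1 ≤ P.2.2 ∧ Near P.1 P.2 ∧ phi P.1 < k ∧ phi P.2 < k ∧ k ≤ phi (hull P.1 P.2)),
      wt p P.1 * wt p P.2 ≤ W := by
    intro P hP
    simp only [Finset.mem_filter, Finset.mem_univ, true_and] at hP
    obtain ⟨h1, h2, h3, h4, h5, h6⟩ := hP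
    exact hw P h1 h2 h4 h5 (h6.trans (phi_hull_le h1 h2 h3))
  have h2 := Finset.sum_le_sum h1
  rw [Finset.sum_const, nsmul_eq_mul] at h2
  refine le_trans (le_of_eq ?_) (h2.trans ?_)
  · congr!
  · refine mul_le_mul_of_nonneg_right ?_ hW
    have h3 : (Finset.univ.filter (fun P : BoxT n d × BoxT n d => P.1.1 ≤ P.1.2 ∧
      P.2.1 ≤ P.2.2 ∧ Near P.1 P.2 ∧ phi P.1 < k ∧ phi P.2 < k ∧ k ≤ phi (hull P.1 P.2))).card ≤
      n ^ d * (3 * k + 3) ^ (3 * d) := by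
      refine (Finset.card_le_card ?_).trans (card_near_pairs k hk)
      intro P hP
      simp only [Finset.mem_filter, Finset.mem_univ, true_and] at hP ⊢
      exact ⟨hP.1, hP.2.1, hP.2.2.1, hP.2.2.2.1, hP.2.2.2.2.1⟩
    exact_mod_cast h3

end Pool.Agent.Lib.MP_8501c9_pr
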