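import Pool.Agent.Lib.MP_8501c9_pr.SharpDefs
import Pool.Agent.Lib.MP_8501c9_pr.Volume

/-!
# The error part of the potential
-/

set_option autoImplicit false
open Set

namespace Pool.Agent.Lib.MP_8501c9_pr

section SD
variable {n d : ℕ}

theorem Gb_mono (d : ℕ) (hd : 2 ≤ d) : Monotone (Gb d) := by
  intro a b hab
  unfold Gb
  apply sfun_mono (d - 1) (by omega)
  obtain ⟨c, rfl⟩ := Nat.exists_eq_add_of_le hab
  have h1 : (a + c) / d ≤ a / d + c := by
    have h2 : a / d + c = (a + c * d) / d := by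
      rw [Nat.add_mul_div_right _ _ (by omega)]
    rw [h2]
    apply Nat.div_le_div_right
    nlinarith
  omega

theorem Gb_eq (d Q r : ℕ) (hd : 2 ≤ d) (hr : r < d) :
    Gb d (d * Q + r) = (d - 1 : ℝ) * Real.log (Q + 1) + r * vslope Q := by
  unfold Gb
  have h1 : (d * Q + r) / d = Q := by
    rw [Nat.mul_add_div (by omega), Nat.div_eq_of_lt hr, add_zero]
  rw [h1]
  have h2 : d * Q + r - Q = Q * (d - 1) + r := by
    obtain ⟨e, rfl⟩ := Nat.exists_eq_add_of_le hd
    have : 2 + e - 1 = 1 + e := by omega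
    rw [this]
    have h3 : (2 + e) * Q + r = Q * (1 + e) + r + Q := by ring
    omega
  rw [h2, sfun_eq (d - 1) (Q * (d - 1) + r) (by omega) Q (by omega) (by
    rw [Nat.succ_mul]; omega)]
  have h4 : ((d - 1 : ℕ) : ℝ) = (d : ℝ) - 1 := by
    rw [Nat.cast_sub (by omega)]; simp
  push_cast
  rw [h4]
  ring

theorem sfun_eq_Gb (d t : ℕ) (hd : 2 ≤ d) :
    sfun d t = Gb d t + Real.log ((t / d : ℕ) + 1) := by
  have hr : t % d < d := Nat.mod_lt _ (by omega)
  have ht : d * (t / d) + t % d = t := Nat.div_add_mod t d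
  have h1 := Gb_eq d (t / d) (t % d) hd hr
  rw [ht] at h1
  have h2 : (t / d) * d ≤ t := Nat.div_mul_le_self t d
  have h3 : t ≤ (t / d + 1) * d := by
    rw [Nat.succ_mul, mul_comm]; omega
  rw [h1, sfun_eq d t (by omega) (t / d) h2 h3]
  have h4 : (t : ℝ) = d * ((t / d : ℕ) : ℝ) + ((t % d : ℕ) : ℝ) := by
    exact_mod_cast ht.symm
  have h5 : (t : ℝ) - ((t / d : ℕ) : ℝ) * d = ((t % d : ℕ) : ℝ) := by
    rw [sub_eq_iff_eq_add]
    rw [add_comm, mul_comm]; exact h4
  rw [h5]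
  ring

theorem sum_log_fact (d : ℕ) (hd : 1 ≤ d) (m : ℕ) : ∀ x : Fin d → ℕ, ∑ i, x i = m →
    ∑ t ∈ Finset.range m, Real.log ((t / d : ℕ) + 1) ≤
      ∑ i, Real.log (Nat.factorial (x i)) := by
  induction m with
  | zero =>
    intro x _
    rw [Finset.range_zero, Finset.sum_empty]
    refine Finset.sum_nonneg fun i _ => Real.log_nonneg ?_
    exact_mod_cast Nat.one_le_iff_ne_zero.mpr (Nat.factorial_ne_zero _)
  | succ m ih =>
    intro x hx
    have hex : ∃ i, m / d + 1 ≤ x i := by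
      by_contra hcon
      push Not at hcon
      have h1 : ∑ i, x i ≤ ∑ _i : Fin d, m / d := Finset.sum_le_sum fun i _ => by
        have := hcon i; omega
      rw [Finset.sum_const, Finset.card_univ, Fintype.card_fin, smul_eq_mul] at h1
      have h2 := Nat.mul_div_le m d
      omega
    obtain ⟨i, hi⟩ := hex
    have hxi : 1 ≤ x i := le_trans (Nat.le_add_left 1 _) hi
    set y : Fin d → ℕ := Function.update x i (x i - 1) with hy
    have hxy : ∀ f : ℕ → ℝ, ∑ j, f (x j) = ∑ j, f (y j) + (f (x i) - f (x i - 1)) := by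
      intro f
      rw [← Finset.add_sum_erase _ _ (Finset.mem_univ i),
        ← Finset.add_sum_erase _ (fun j => f (y j)) (Finset.mem_univ i)]
      have h1 : y i = x i - 1 := by rw [hy, Function.update_self]
      have h2 : ∑ j ∈ Finset.univ.erase i, f (y j) = ∑ j ∈ Finset.univ.erase i, f (x j) := by
        refine Finset.sum_congr rfl fun j hj => ?_
        rw [hy, Function.update_of_ne (Finset.ne_of_mem_erase hj)]
      rw [h1, h2]
      ring
    have hysum : ∑ j, y j = m := by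
      have h1 := hxy (fun a => (a : ℝ))
      have h2 : (∑ j, (x j : ℝ)) = ((m + 1 : ℕ) : ℝ) := by rw [← hx]; push_cast; rfl
      rw [h2] at h1
      have h3 : ((x i - 1 : ℕ) : ℝ) = (x i : ℝ) - 1 := by
        rw [Nat.cast_sub hxi]; simp
      rw [h3] at h1
      have h4 : (∑ j, (y j : ℝ)) = m := by push_cast at h1; linarith
      exact_mod_cast h4
    rw [Finset.sum_range_succ, hxy (fun a => Real.log (Nat.factorial a))]
    apply add_le_add (ih y hysum)
    obtain ⟨a, ha⟩ : ∃ a, x i = a + 1 := ⟨x i - 1, (Nat.sub_add_cancel hxi).symm⟩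
    rw [ha, Nat.add_sub_cancel, Nat.factorial_succ]
    push_cast
    rw [Real.log_mul (by positivity) (by positivity)]
    have h5 : Real.log (((m / d : ℕ) : ℝ) + 1) ≤ Real.log ((a : ℝ) + 1) := by
      apply Real.log_le_log (by positivity)
      have : m / d ≤ a := by omega
      have : ((m / d : ℕ) : ℝ) ≤ a := by exact_mod_cast this
      linarith
    linarith

/-- the potential is at least the potential of balanced boxes -/
theorem fb_le_Fmain (hd : 2 ≤ d) (L : ℝ) (R : BoxT n d) (hR : R.1 ≤ R.2) :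
    fb d L (phi R) ≤ Fmain L R := by
  unfold fb Fmain
  have h1 := sum_log_fact d (by omega) (phi R) (fun i => (R.2 i : ℕ) - R.1 i) rfl
  have h2 : ∑ t ∈ Finset.range (phi R), sfun d t = ∑ t ∈ Finset.range (phi R), Gb d t +
      ∑ t ∈ Finset.range (phi R), Real.log ((t / d : ℕ) + 1) := by
    rw [← Finset.sum_add_distrib]
    exact Finset.sum_congr rfl fun t _ => sfun_eq_Gb d t hd
  rw [h2, Finset.sum_sub_distrib, Finset.sum_const, Finset.card_range, nsmul_eq_mul]
  linarith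

theorem sum_Gb (d Q : ℕ) (hd : 2 ≤ d) : ∑ t ∈ Finset.range (d * Q), Gb d t =
    d * (d - 1) * (Real.log (Nat.factorial Q) + Real.log (Q + 1) / 2) := by
  induction Q with
  | zero => simp
  | succ Q ih =>
    rw [Nat.mul_succ, Finset.sum_range_add, ih]
    have h1 : ∑ r ∈ Finset.range d, Gb d (d * Q + r) =
        ∑ r ∈ Finset.range d, ((d - 1 : ℝ) * Real.log (Q + 1) + r * vslope Q) :=
      Finset.sum_congr rfl fun r hr => Gb_eq d Q r hd (Finset.mem_range.mp hr)
    have h2 : ∑ r ∈ Finset.range d, (r : ℝ) = d * (d - 1) / 2 := by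
      clear h1 ih hd
      induction d with
      | zero => simp
      | succ d ih => rw [Finset.sum_range_succ, ih]; push_cast; ring
    rw [h1, Finset.sum_add_distrib, Finset.sum_const, Finset.card_range, nsmul_eq_mul,
      ← Finset.sum_mul, h2, Nat.factorial_succ]
    push_cast
    rw [Real.log_mul (by positivity) (by positivity)]
    unfold vslope
    have h3 : (Q : ℝ) + 1 + 1 = Q + 2 := by ring
    rw [h3]
    ring

theorem Mz_nonneg (A d : ℕ) (hA : 1 ≤ A) (hd : 1 ≤ d) : 0 ≤ Mz A d := by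
  unfold Mz
  have h1 : (1 : ℝ) ≤ A := by exact_mod_cast hA
  have h2 : (1 : ℝ) ≤ d := by exact_mod_cast hd
  have h3 : 0 ≤ Real.log (4 * d) := Real.log_nonneg (by linarith)
  have h4 : 0 ≤ Real.log ((A : ℝ) ^ 2 * d ^ 2) := Real.log_nonneg (by
    have : 1 ≤ (A : ℝ) * d := by nlinarith
    nlinarith)
  linarith

theorem logAd_nonneg (A d : ℕ) : 0 ≤ Real.log ((A : ℝ) * d + 3) :=
  Real.log_nonneg (by
    have : (0 : ℝ) ≤ (A : ℝ) * d := by positivity
    linarith)

theorem Ferr_nonneg (A : ℕ) (hA : 1 ≤ A) (hd : 1 ≤ d) (ε L : ℝ) (hε : 0 ≤ ε) (R : BoxT n d) :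
    0 ≤ Ferr A ε L R := by
  unfold Ferr
  have h1 := Mz_nonneg A d hA hd
  have h2 := logAd_nonneg A d
  have h3 : 0 ≤ ∑ t ∈ Finset.range (phi R),
      Real.exp (-(L - sfun (d - 1) (t + A * d + 1)) / 2) :=
    Finset.sum_nonneg fun t _ => (Real.exp_pos _).le
  positivity

theorem geom_le (a : ℝ) (ha : 0 < a) (k : ℕ) :
    ∑ t ∈ Finset.range k, Real.exp (-(((k : ℝ) - t) * a)) ≤ 1 / a := by
  induction k with
  | zero => simp; positivity
  | succ k ih =>
    rw [Finset.sum_range_succ]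
    have h1 : ∑ t ∈ Finset.range k, Real.exp (-((((k + 1 : ℕ) : ℝ) - t) * a)) =
        Real.exp (-a) * ∑ t ∈ Finset.range k, Real.exp (-(((k : ℝ) - t) * a)) := by
      rw [Finset.mul_sum]
      refine Finset.sum_congr rfl fun t _ => ?_
      rw [← Real.exp_add]
      congr 1
      push_cast; ring
    have h2 : Real.exp (-((((k + 1 : ℕ) : ℝ) - k) * a)) = Real.exp (-a) := by
      congr 1; push_cast; ring
    rw [h1, h2]
    have h3 : Real.exp (-a) * (1 + a) ≤ 1 := by
      rw [Real.exp_neg, inv_mul_le_iff₀ (Real.exp_pos _), mul_one]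
      linarith [Real.add_one_le_exp a]
    have h4 : Real.exp (-a) * (1 / a) + Real.exp (-a) ≤ 1 / a := by
      have h5 : Real.exp (-a) * (1 / a) + Real.exp (-a) = (Real.exp (-a) * (1 + a)) / a := by
        field_simp
      rw [h5]
      exact div_le_div_of_nonneg_right h3 ha.le
    have h6 := mul_le_mul_of_nonneg_left ih (Real.exp_pos (-a)).le
    linarith

theorem Ferr_le (A : ℕ) (hA : 1 ≤ A) (hd : 2 ≤ d) (ε L : ℝ) (hε : 0 ≤ ε) (k : ℕ)
    (hL : sfun (d - 1) (k + A * d + 1) ≤ L) (R : BoxT n d) (hR : phi R ≤ k) :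
    Ferr A ε L R ≤ Mz A d * (A ^ 2 * d ^ 2) + ε * k + (2 * (k + A * d + 1) / (d - 1) + 5) +
      Real.log (A * d + 3) * (A ^ 2 * d ^ 2) := by
  unfold Ferr
  have h4 : ((d - 1 : ℕ) : ℝ) = (d : ℝ) - 1 := by
    rw [Nat.cast_sub (by omega)]; simp
  have hN : (0 : ℝ) < (d : ℝ) - 1 := by
    have : (2 : ℝ) ≤ d := by exact_mod_cast hd
    linarith
  have hRk : (phi R : ℝ) ≤ k := by exact_mod_cast hR
  -- first
  have t1 : Mz A d * (min (phi R) (A ^ 2 * d ^ 2) : ℕ) ≤ Mz A d * (A ^ 2 * d ^ 2) := by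
    apply mul_le_mul_of_nonneg_left _ (Mz_nonneg A d hA (by omega))
    have : min (phi R) (A ^ 2 * d ^ 2) ≤ A ^ 2 * d ^ 2 := min_le_right _ _
    exact_mod_cast this
  have t2 : ε * (phi R : ℝ) ≤ ε * k := mul_le_mul_of_nonneg_left hRk hε
  have t3 : ∑ t ∈ Finset.range (phi R), Real.exp (-(L - sfun (d - 1) (t + A * d + 1)) / 2) ≤
      2 * (k + A * d + 1) / (d - 1) + 5 := by
    set T : ℝ := (k : ℝ) + A * d + 1 with hT
    have hT0 : 0 < T := by rw [hT]; positivity
    set a : ℝ := ((d : ℝ) - 1) / (2 * (T + 2 * (d - 1))) with ha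
    have ha0 : 0 < a := by rw [ha]; positivity
    have hterm : ∀ t ∈ Finset.range (phi R),
        Real.exp (-(L - sfun (d - 1) (t + A * d + 1)) / 2) ≤
          Real.exp (-(((k : ℝ) - t) * a)) := by
      intro t ht
      rw [Finset.mem_range] at ht
      apply Real.exp_le_exp.2
      have h5 := le_sfun_add (d - 1) (t + A * d + 1) (k - t) (by omega)
      have h6 : t + A * d + 1 + (k - t) = k + A * d + 1 := by omega
      rw [h6] at h5
      have h7 : ((k - t : ℕ) : ℝ) = (k : ℝ) - t := by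
        rw [Nat.cast_sub (by omega)]
      rw [h7, h4] at h5
      push_cast at h5
      have h8 : ((t : ℝ) + A * d + 1 + ((k : ℝ) - t) + 2 * (d - 1)) = T + 2 * (d - 1) := by
        rw [hT]; ring
      rw [h8] at h5
      have h9 : ((k : ℝ) - t) * (((d : ℝ) - 1) / (T + 2 * (d - 1))) = 2 * (((k : ℝ) - t) * a) := by
        rw [ha]
        field_simp
      rw [h9] at h5
      linarith
    refine (Finset.sum_le_sum hterm).trans ?_
    have h10 : ∑ t ∈ Finset.range (phi R), Real.exp (-(((k : ℝ) - t) * a)) ≤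
        ∑ t ∈ Finset.range k, Real.exp (-(((k : ℝ) - t) * a)) :=
      Finset.sum_le_sum_of_subset_of_nonneg (Finset.range_subset_range.2 hR)
        fun t _ _ => (Real.exp_pos _).le
    refine h10.trans ((geom_le a ha0 k).trans ?_)
    have h11 : 1 / a = 2 * T / (d - 1) + 4 := by
      rw [ha]
      field_simp
      ring
    rw [h11]
    linarith
  have t4 : Real.log (A * d + 3) * ∑ i, (min ((R.2 i : ℕ) - R.1 i) (A ^ 2 * d) : ℕ) ≤
      Real.log (A * d + 3) * (A ^ 2 * d ^ 2) := by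
    apply mul_le_mul_of_nonneg_left _ (logAd_nonneg A d)
    have h5 : ∑ i, min ((R.2 i : ℕ) - R.1 i) (A ^ 2 * d) ≤ ∑ _i : Fin d, A ^ 2 * d :=
      Finset.sum_le_sum fun i _ => min_le_right _ _
    rw [Finset.sum_const, Finset.card_univ, Fintype.card_fin, smul_eq_mul] at h5
    have h6 : d * (A ^ 2 * d) = A ^ 2 * d ^ 2 := by ring
    rw [h6] at h5
    exact_mod_cast h5
  push_cast at t4 ⊢
  push_cast at t1
  linarith

/-- the error per unit -/
theorem Ferr_le_mul (A : ℕ) (hA : 1 ≤ A) (hd : 2 ≤ d) (ε L : ℝ) (hε : 0 ≤ ε) (k : ℕ)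
    (hL : sfun (d - 1) (k + A * d + 1) ≤ L) (R : BoxT n d) (hR : phi R ≤ k) :
    Ferr A ε L R ≤ phi R * (Mz A d + ε + 1 + Real.log (A * d + 3)) := by
  unfold Ferr
  have t1 : Mz A d * (min (phi R) (A ^ 2 * d ^ 2) : ℕ) ≤ Mz A d * phi R := by
    apply mul_le_mul_of_nonneg_left _ (Mz_nonneg A d hA (by omega))
    have : min (phi R) (A ^ 2 * d ^ 2) ≤ phi R := min_le_left _ _
    exact_mod_cast this
  have t3 : ∑ t ∈ Finset.range (phi R), Real.exp (-(L - sfun (d - 1) (t + A * d + 1)) / 2) ≤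
      phi R := by
    calc _ ≤ ∑ _t ∈ Finset.range (phi R), (1 : ℝ) := by
          refine Finset.sum_le_sum fun t ht => ?_
          rw [Finset.mem_range] at ht
          have h1 : sfun (d - 1) (t + A * d + 1) ≤ sfun (d - 1) (k + A * d + 1) :=
            sfun_mono (d - 1) (by omega) (by omega)
          rw [← Real.exp_zero]
          apply Real.exp_le_exp.2
          linarith
      _ = phi R := by rw [Finset.sum_const, Finset.card_range, nsmul_eq_mul, mul_one]
  have t4 : Real.log (A * d + 3) * ∑ i, (min ((R.2 i : ℕ) - R.1 i) (A ^ 2 * d) : ℕ) ≤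
      Real.log (A * d + 3) * phi R := by
    apply mul_le_mul_of_nonneg_left _ (logAd_nonneg A d)
    have h5 : ∑ i, min ((R.2 i : ℕ) - R.1 i) (A ^ 2 * d) ≤ phi R :=
      Finset.sum_le_sum fun i _ => min_le_left _ _
    exact_mod_cast h5
  push_cast at t4 ⊢
  push_cast at t1
  linarith

theorem phi_eq_add' (R₁ R : BoxT n d) (h : SubBox R₁ R) :
    phi R = phi R₁ + ∑ i, exc R₁ R i := by
  unfold phi exc
  rw [← Finset.sum_add_distrib]
  refine Finset.sum_congr rfl fun i _ => ?_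
  have h1 : (R₁.1 i : ℕ) ≤ R₁.2 i := Fin.le_def.1 (h.1 i)
  have h2 : (R.1 i : ℕ) ≤ R₁.1 i := Fin.le_def.1 (h.2.1 i)
  have h3 : (R₁.2 i : ℕ) ≤ R.2 i := Fin.le_def.1 (h.2.2 i)
  omega

theorem side_le {R₁ R : BoxT n d} (h : SubBox R₁ R) (i : Fin d) :
    (R₁.2 i : ℕ) - R₁.1 i ≤ (R.2 i : ℕ) - R.1 i := by
  have h2 : (R.1 i : ℕ) ≤ R₁.1 i := Fin.le_def.1 (h.2.1 i)
  have h3 : (R₁.2 i : ℕ) ≤ R.2 i := Fin.le_def.1 (h.2.2 i)
  omega

theorem Ferr_mono (A : ℕ) (hA : 1 ≤ A) (hd : 2 ≤ d) (ε L : ℝ) (hε : 0 ≤ ε) (R₁ R : BoxT n d)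
    (h : SubBox R₁ R) : Ferr A ε L R₁ ≤ Ferr A ε L R := by
  have hphi : phi R₁ ≤ phi R := by rw [phi_eq_add' R₁ R h]; omega
  have hphi' : (phi R₁ : ℝ) ≤ phi R := by exact_mod_cast hphi
  unfold Ferr
  apply add_le_add
  · apply add_le_add
    · apply add_le_add
      · apply mul_le_mul_of_nonneg_left _ (Mz_nonneg A d hA (by omega))
        exact_mod_cast min_le_min_right _ hphi
      · exact mul_le_mul_of_nonneg_left hphi' hε
    · exact Finset.sum_le_sum_of_subset_of_nonneg (Finset.range_subset_range.2 hphi)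
        fun t _ _ => (Real.exp_pos _).le
  · apply mul_le_mul_of_nonneg_left _ (logAd_nonneg A d)
    exact_mod_cast Finset.sum_le_sum fun i _ => min_le_min_right _ (side_le h i)

theorem Ferr_sub (A : ℕ) (hA : 1 ≤ A) (hd : 2 ≤ d) (ε L : ℝ) (hε : 0 ≤ ε) (R₁ R : BoxT n d)
    (h : SubBox R₁ R) (hc : phi R ≤ phi R₁ + A * d + 1) :
    ε * ((∑ i, exc R₁ R i : ℕ) : ℝ) +
      ((∑ i, exc R₁ R i : ℕ) : ℝ) * Real.exp (-(L - sfun (d - 1) (phi R)) / 2) +
      Real.log (A * d + 3) * ∑ i with sd R i < A ^ 2 * d, (exc R₁ R i : ℝ) ≤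
    Ferr A ε L R - Ferr A ε L R₁ := by
  have hadd := phi_eq_add' R₁ R h
  have hphi : phi R₁ ≤ phi R := by omega
  set D : ℕ := ∑ i, exc R₁ R i with hD
  have haddR : (phi R : ℝ) = phi R₁ + D := by exact_mod_cast hadd
  unfold Ferr
  have t1 : Mz A d * (min (phi R₁) (A ^ 2 * d ^ 2) : ℕ) ≤
      Mz A d * (min (phi R) (A ^ 2 * d ^ 2) : ℕ) := by
    apply mul_le_mul_of_nonneg_left _ (Mz_nonneg A d hA (by omega))
    exact_mod_cast min_le_min_right _ hphi
  have t2 : ε * (phi R : ℝ) = ε * phi R₁ + ε * D := by rw [haddR]; ring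
  have t3 : ∑ t ∈ Finset.range (phi R₁), Real.exp (-(L - sfun (d - 1) (t + A * d + 1)) / 2) +
      (D : ℝ) * Real.exp (-(L - sfun (d - 1) (phi R)) / 2) ≤
      ∑ t ∈ Finset.range (phi R), Real.exp (-(L - sfun (d - 1) (t + A * d + 1)) / 2) := by
    rw [hadd, Finset.sum_range_add]
    apply add_le_add le_rfl
    calc (D : ℝ) * Real.exp (-(L - sfun (d - 1) (phi R₁ + D)) / 2)
        = ∑ _t ∈ Finset.range D, Real.exp (-(L - sfun (d - 1) (phi R₁ + D)) / 2) := by
          rw [Finset.sum_const, Finset.card_range, nsmul_eq_mul]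
      _ ≤ _ := by
          refine Finset.sum_le_sum fun t _ => ?_
          apply Real.exp_le_exp.2
          have h1 : sfun (d - 1) (phi R₁ + D) ≤ sfun (d - 1) (phi R₁ + t + A * d + 1) :=
            sfun_mono (d - 1) (by omega) (by omega)
          linarith
  have t4 : Real.log (A * d + 3) * ((∑ i, (min ((R₁.2 i : ℕ) - R₁.1 i) (A ^ 2 * d) : ℕ) : ℕ) : ℝ) +
      Real.log (A * d + 3) * ∑ i with sd R i < A ^ 2 * d, (exc R₁ R i : ℝ) ≤
      Real.log (A * d + 3) * ((∑ i, (min ((R.2 i : ℕ) - R.1 i) (A ^ 2 * d) : ℕ) : ℕ) : ℝ) := by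
    rw [← mul_add]
    apply mul_le_mul_of_nonneg_left _ (logAd_nonneg A d)
    have h5 : ∑ i, min ((R₁.2 i : ℕ) - R₁.1 i) (A ^ 2 * d) +
        ∑ i with sd R i < A ^ 2 * d, exc R₁ R i ≤
        ∑ i, min ((R.2 i : ℕ) - R.1 i) (A ^ 2 * d) := by
      rw [Finset.sum_filter, ← Finset.sum_add_distrib]
      refine Finset.sum_le_sum fun i _ => ?_
      have h1 : (R₁.1 i : ℕ) ≤ R₁.2 i := Fin.le_def.1 (h.1 i)
      have h2 : (R.1 i : ℕ) ≤ R₁.1 i := Fin.le_def.1 (h.2.1 i)
      have h3 : (R₁.2 i : ℕ) ≤ R.2 i := Fin.le_def.1 (h.2.2 i)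
      have h4 := side_le h i
      unfold sd exc
      split_ifs with hs
      · omega
      · rw [add_zero]
        exact min_le_min_right _ h4
    exact_mod_cast h5
  push_cast at t1 t4 ⊢
  linarith
end SD

end Pool.Agent.Lib.MP_8501c9_pr
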