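import Pool.Agent.Lib.MP_8501c9_pr.SharpDefs
import Pool.Agent.Lib.MP_8501c9_pr.Volume
import Pool.Agent.Lib.MP_8501c9_pr.Basic

/-!
# Task SF1: the gain when two large boxes are merged
-/

set_option autoImplicit false
open Set

namespace Pool.Agent.Lib.MP_8501c9_pr

/-- increments of `sfun` from below by logarithms -/
theorem sf1_log_le (N a r : ℕ) (hN : 1 ≤ N) :
    N * (Real.log ((a + r : ℕ) + 2 * N) - Real.log (a + 2 * N)) ≤ sfun N (a + r) - sfun N a := by
  have hN' : (0 : ℝ) < N := by exact_mod_cast hN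
  induction r with
  | zero => simp
  | succ r ih =>
    have h1 : sfun N (a + (r + 1)) = sfun N (a + r) + vslope ((a + r) / N) :=
      sfun_succ' N (a + r) hN
    have h2 := vslope_ge ((a + r) / N)
    have h3 : (N : ℝ) / (((a + r : ℕ) : ℝ) + 2 * N) ≤ 1 / ((((a + r) / N : ℕ) : ℝ) + 2) := by
      rw [div_le_div_iff₀ (by positivity) (by positivity)]
      have h4 : (((a + r) / N : ℕ) : ℝ) ≤ ((a + r : ℕ) : ℝ) / N := Nat.cast_div_le
      have h5 : (N : ℝ) * (((a + r) / N : ℕ) : ℝ) ≤ ((a + r : ℕ) : ℝ) := by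
        have := mul_le_mul_of_nonneg_left h4 hN'.le
        rwa [mul_div_cancel₀ _ hN'.ne'] at this
      linarith
    have hx : (0 : ℝ) < ((a + r : ℕ) : ℝ) + 2 * N := by positivity
    have h6 : Real.log ((a + (r + 1) : ℕ) + 2 * N) - Real.log (((a + r : ℕ) : ℝ) + 2 * N) ≤
        1 / (((a + r : ℕ) : ℝ) + 2 * N) := by
      rw [← Real.log_div (by positivity) hx.ne']
      have e1 : (((a + (r + 1) : ℕ) : ℝ) + 2 * N) / (((a + r : ℕ) : ℝ) + 2 * N) =
          1 + 1 / (((a + r : ℕ) : ℝ) + 2 * N) := by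
        rw [eq_comm, eq_div_iff hx.ne', add_mul, div_mul_cancel₀ _ hx.ne']
        push_cast
        ring
      rw [e1]
      have := Real.log_le_sub_one_of_pos (x := 1 + 1 / (((a + r : ℕ) : ℝ) + 2 * N))
        (by positivity)
      linarith
    have h7 : (N : ℝ) * (Real.log ((a + (r + 1) : ℕ) + 2 * N) -
        Real.log (((a + r : ℕ) : ℝ) + 2 * N)) ≤ N / (((a + r : ℕ) : ℝ) + 2 * N) := by
      have := mul_le_mul_of_nonneg_left h6 hN'.le
      rwa [mul_one_div] at this
    rw [h1]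
    linarith

theorem sf1_sub_div_mono (d : ℕ) (hd : 1 ≤ d) {t m : ℕ} (h : t ≤ m) : t - t / d ≤ m - m / d := by
  obtain ⟨s, rfl⟩ := Nat.exists_eq_add_of_le h
  have h1 : (t + s) / d < t / d + s + 1 := by
    apply Nat.div_lt_of_lt_mul
    have h2 := Nat.lt_mul_div_succ t (by omega : 0 < d)
    have h3 : s ≤ d * s := Nat.le_mul_of_pos_left s hd
    have h4 : d * (t / d + s + 1) = d * (t / d + 1) + d * s := by ring
    omega
  have h5 : t / d ≤ t := Nat.div_le_self _ _
  omega

theorem sf1_diff_nonneg (d : ℕ) (hd : 2 ≤ d) {t m : ℕ} (h : t ≤ m) : 0 ≤ Gb d m - Gb d t := by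
  unfold Gb
  have := sfun_mono (d - 1) (by omega) (sf1_sub_div_mono d (by omega) h)
  linarith

theorem sf1_diff (d : ℕ) (hd : 2 ≤ d) {t m : ℕ} (h : t ≤ m) (x y : ℝ) (hy0 : 0 < y)
    (hx : y ≤ (m : ℝ) * (1 - 1 / d) + 2 * (d - 1)) (hx0 : 0 < x) (ht : (t : ℝ) + 2 * (d - 1) ≤ x) :
    ((d : ℝ) - 1) * (Real.log y - Real.log x) ≤ Gb d m - Gb d t := by
  have hab := sf1_sub_div_mono d (by omega) h
  obtain ⟨r, hr⟩ := Nat.exists_eq_add_of_le hab
  have h1 := sf1_log_le (d - 1) (t - t / d) r (by omega)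
  rw [← hr] at h1
  have hN : ((d - 1 : ℕ) : ℝ) = d - 1 := by
    rw [Nat.cast_sub (by omega)]; simp
  rw [hN] at h1
  unfold Gb
  refine le_trans ?_ h1
  have hd' : (2 : ℝ) ≤ d := by exact_mod_cast hd
  apply mul_le_mul_of_nonneg_left _ (by linarith)
  have e1 : Real.log y ≤ Real.log (((m - m / d : ℕ) : ℝ) + 2 * (d - 1)) := by
    apply Real.log_le_log hy0
    refine hx.trans ?_
    have h2 : m / d ≤ m := Nat.div_le_self _ _
    rw [Nat.cast_sub h2]
    have h3 : ((m / d : ℕ) : ℝ) ≤ (m : ℝ) / d := Nat.cast_div_le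
    have h4 : (m : ℝ) * (1 - 1 / d) = m - m / d := by ring
    linarith
  have e2 : Real.log (((t - t / d : ℕ) : ℝ) + 2 * (d - 1)) ≤ Real.log x := by
    apply Real.log_le_log
    · have : (0 : ℝ) ≤ ((t - t / d : ℕ) : ℝ) := Nat.cast_nonneg _
      linarith
    · refine le_trans ?_ ht
      have : ((t - t / d : ℕ) : ℝ) ≤ t := by exact_mod_cast Nat.sub_le _ _
      linarith
  linarith

theorem Gb_gain (A : ℕ) (hA : 1 ≤ A) (C : ℝ) : ∃ D₀ : ℕ, ∀ d m h : ℕ, D₀ ≤ d →
    A ^ 2 * d ^ 2 ≤ 4 * m → 1 ≤ h → h ≤ m →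
    C * Real.log d * (h + 1) + A * (d - 1) + (d - 1) * h / 40 ≤
      (∑ t ∈ Finset.range h, (Gb d m - Gb d t)) / 2 := by
  obtain ⟨D, hD⟩ := exists_log_le (108 * |C|) 0 (1 / 2) (by norm_num)
  refine ⟨⌈D⌉₊ + ⌈64 * Real.exp (8 * A)⌉₊ + 40, ?_⟩
  intro d m h hd hm hh hhm
  have hd40 : (40 : ℝ) ≤ d := by
    have : 40 ≤ d := by omega
    exact_mod_cast this
  have hdD : D ≤ d := by
    have h1 : (⌈D⌉₊ : ℝ) ≤ d := by
      have : ⌈D⌉₊ ≤ d := by omega
      exact_mod_cast this
    exact (Nat.le_ceil D).trans h1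
  have hdE : 64 * Real.exp (8 * A) ≤ d := by
    have h1 : (⌈64 * Real.exp (8 * A)⌉₊ : ℝ) ≤ d := by
      have : ⌈64 * Real.exp (8 * A)⌉₊ ≤ d := by omega
      exact_mod_cast this
    exact (Nat.le_ceil _).trans h1
  have hl0 : 0 ≤ Real.log d := Real.log_nonneg (by linarith)
  have hlog : 108 * (|C| * Real.log d) ≤ d / 2 := by
    have h1 := hD d hdD
    have h2 : Real.log d ≤ Real.log (4 * d) := Real.log_le_log (by linarith) (by linarith)
    have h3 : |C| * Real.log d ≤ |C| * Real.log (4 * d) :=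
      mul_le_mul_of_nonneg_left h2 (abs_nonneg C)
    linarith
  set N : ℝ := (d : ℝ) - 1 with hN
  have hN0 : 0 < N := by rw [hN]; linarith
  have hh' : (1 : ℝ) ≤ h := by exact_mod_cast hh
  have hA' : (1 : ℝ) ≤ A := by exact_mod_cast hA
  have hm' : (A : ℝ) ^ 2 * d ^ 2 ≤ 4 * m := by exact_mod_cast hm
  have hhm' : (h : ℝ) ≤ m := by exact_mod_cast hhm
  -- the logarithmic term
  have hC : C * Real.log d * (h + 1) ≤ h * N / 54 := by
    have h1 : C * Real.log d ≤ |C| * Real.log d :=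
      mul_le_mul_of_nonneg_right (le_abs_self C) hl0
    have h2 : 0 ≤ |C| * Real.log d := mul_nonneg (abs_nonneg C) hl0
    have h3 : |C| * Real.log d ≤ N / 108 := by rw [hN]; linarith
    have h4 : C * Real.log d * (h + 1) ≤ |C| * Real.log d * (h + 1) :=
      mul_le_mul_of_nonneg_right h1 (by linarith)
    have h5 : |C| * Real.log d * (h + 1) ≤ |C| * Real.log d * (2 * h) :=
      mul_le_mul_of_nonneg_left (by linarith) h2
    have h6 : |C| * Real.log d * (2 * h) ≤ N / 108 * (2 * h) :=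
      mul_le_mul_of_nonneg_right h3 (by linarith)
    linarith
  have hd2 : 2 ≤ d := by omega
  have hm0 : (0 : ℝ) < m := by
    have : (0 : ℝ) < A ^ 2 * d ^ 2 := by positivity
    linarith
  have hAd : (d : ℝ) ^ 2 ≤ A ^ 2 * d ^ 2 := by
    have : (1 : ℝ) ≤ (A : ℝ) ^ 2 := one_le_pow₀ hA'
    nlinarith [sq_nonneg (d : ℝ)]
  have hmd : (d : ℝ) ^ 2 ≤ 4 * m := hAd.trans hm'
  have hbig : (m : ℝ) / 2 ≤ (m : ℝ) * (1 - 1 / d) + 2 * (d - 1) := by
    have h1 : 1 / (d : ℝ) ≤ 1 / 2 := by
      apply one_div_le_one_div_of_le (by norm_num); linarith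
    nlinarith
  set E := Real.exp (-(8 * A : ℝ)) with hE
  have hE0 : 0 < E := Real.exp_pos _
  have hE1 : Real.exp (8 * A) * E = 1 := by rw [hE, ← Real.exp_add]; simp
  have hdE' : 64 ≤ d * E := by
    have := mul_le_mul_of_nonneg_right hdE hE0.le
    rw [mul_assoc, hE1, mul_one] at this
    exact this
  have hmE : 2 * N ≤ m * E / 8 := by
    have h1 : (d : ℝ) ^ 2 * E ≤ 4 * m * E := mul_le_mul_of_nonneg_right hmd hE0.le
    have h2 : (64 : ℝ) * d ≤ d * E * d := mul_le_mul_of_nonneg_right hdE' (by linarith)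
    have h3 : (d : ℝ) ^ 2 * E = d * E * d := by ring
    rw [hN]
    nlinarith
  by_cases hcase : (h : ℝ) ≤ m * E / 8
  · -- short
    have hterm : ∀ t ∈ Finset.range h, N * (8 * A) ≤ Gb d m - Gb d t := by
      intro t ht
      rw [Finset.mem_range] at ht
      have ht' : (t : ℝ) ≤ h := by exact_mod_cast ht.le
      have h1 := sf1_diff d hd2 (by omega : t ≤ m) (m * E / 4) (m / 2) (by positivity) hbig
        (by positivity) (by rw [← hN]; linarith)
      refine le_trans ?_ h1
      apply mul_le_mul_of_nonneg_left _ hN0.le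
      have h2 : Real.log ((m : ℝ) / 2) - Real.log (m * E / 4) = Real.log 2 + 8 * A := by
        rw [Real.log_div hm0.ne' (by norm_num), Real.log_div (by positivity) (by norm_num),
          Real.log_mul hm0.ne' hE0.ne', hE, Real.log_exp]
        have h4 : Real.log 4 = 2 * Real.log 2 := by
          rw [show (4 : ℝ) = 2 ^ 2 by norm_num, Real.log_pow]; norm_num
        rw [h4]
        ring
      rw [h2]
      have : 0 ≤ Real.log 2 := Real.log_nonneg (by norm_num)
      linarith
    have hs := Finset.card_nsmul_le_sum _ _ _ hterm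
    rw [Finset.card_range, nsmul_eq_mul] at hs
    have h3 : N * A ≤ N * A * h := by
      have : 0 ≤ N * A := by positivity
      nlinarith
    have h4 : h * N ≤ N * A * h := by
      have : 0 ≤ N * h := by positivity
      nlinarith
    have h5 : (h : ℝ) * (N * (8 * A)) = 8 * (N * A * h) := by ring
    rw [h5] at hs
    have h6 : (A : ℝ) * N = N * A := by ring
    have h7 : N * h / 40 = h * N / 40 := by ring
    rw [h6, h7]
    have h8 : 0 ≤ N * A * h := by positivity
    linarith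
  · -- long
    rw [not_le] at hcase
    have h27 : 27 * (A : ℝ) ≤ h := by
      have h1 : (A : ℝ) ^ 2 * d ^ 2 * E ≤ 4 * m * E := mul_le_mul_of_nonneg_right hm' hE0.le
      have h2 : (A : ℝ) ^ 2 * d * 64 ≤ (A : ℝ) ^ 2 * d * (d * E) :=
        mul_le_mul_of_nonneg_left hdE' (by positivity)
      have h3 : (A : ℝ) ^ 2 * d ^ 2 * E = (A : ℝ) ^ 2 * d * (d * E) := by ring
      have h4 : (A : ℝ) * 40 ≤ (A : ℝ) ^ 2 * d := by
        have h5 : (A : ℝ) * 40 ≤ A * d := mul_le_mul_of_nonneg_left hd40 (by linarith)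
        have h6 : (A : ℝ) * d * 1 ≤ A * d * A :=
          mul_le_mul_of_nonneg_left hA' (by positivity)
        have h7 : (A : ℝ) ^ 2 * d = A * d * A := by ring
        linarith
      nlinarith
    have hsub : ∑ t ∈ Finset.range ((h + 1) / 2), (Gb d m - Gb d t) ≤
        ∑ t ∈ Finset.range h, (Gb d m - Gb d t) := by
      apply Finset.sum_le_sum_of_subset_of_nonneg
      · intro t ht
        rw [Finset.mem_range] at ht ⊢
        omega
      · intro t ht _
        rw [Finset.mem_range] at ht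
        exact sf1_diff_nonneg d hd2 (by omega)
    have hterm : ∀ t ∈ Finset.range ((h + 1) / 2), N * (2 / 5) ≤ Gb d m - Gb d t := by
      intro t ht
      rw [Finset.mem_range] at ht
      have ht2 : 2 * t ≤ m := by omega
      have ht' : 2 * (t : ℝ) ≤ m := by exact_mod_cast ht2
      have hy : 3 / 2 * ((m : ℝ) / 2 + 2 * (d - 1)) ≤ (m : ℝ) * (1 - 1 / d) + 2 * (d - 1) := by
        have h1 : 1 / (d : ℝ) ≤ 1 / 40 := by
          apply one_div_le_one_div_of_le (by norm_num); linarith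
        have h2 : (m : ℝ) * (1 / d) ≤ m * (1 / 40) := mul_le_mul_of_nonneg_left h1 hm0.le
        have h3 : 10 * (d : ℝ) ≤ m := by nlinarith
        nlinarith
      have hp : 0 < (m : ℝ) / 2 + 2 * (d - 1) := by rw [← hN]; positivity
      have h1 := sf1_diff d hd2 (by omega : t ≤ m) ((m : ℝ) / 2 + 2 * (d - 1))
        (3 / 2 * ((m : ℝ) / 2 + 2 * (d - 1))) (by positivity) hy hp (by linarith)
      refine le_trans ?_ h1
      apply mul_le_mul_of_nonneg_left _ hN0.le
      rw [Real.log_mul (by norm_num) hp.ne']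
      have h2 : (2 : ℝ) / 5 ≤ Real.log (3 / 2) := by
        have h3 : Real.log (2 / 3) ≤ -(2 / 5) := by
          rw [Real.log_le_iff_le_exp (by norm_num)]
          have h4 : Real.exp (2 / 5) ≤ 3 / 2 := by
            have := Real.exp_bound' (x := 2 / 5) (by norm_num) (by norm_num) (n := 4) (by norm_num)
            refine this.trans ?_
            norm_num [Finset.sum_range_succ, Nat.factorial]
          rw [Real.exp_neg]
          have h5 : (2 / 3 : ℝ) = (3 / 2)⁻¹ := by norm_num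
          rw [h5]
          exact inv_anti₀ (Real.exp_pos _) h4
        have h6 : Real.log (3 / 2) = - Real.log (2 / 3) := by
          rw [← Real.log_inv]; norm_num
        linarith
      linarith
    have hs := Finset.card_nsmul_le_sum _ _ _ hterm
    rw [Finset.card_range, nsmul_eq_mul] at hs
    have h8 : (h : ℝ) / 2 ≤ (((h + 1) / 2 : ℕ) : ℝ) := by
      have : h ≤ 2 * ((h + 1) / 2) := by omega
      have h9 : (h : ℝ) ≤ 2 * (((h + 1) / 2 : ℕ) : ℝ) := by exact_mod_cast this
      linarith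
    have h10 : (h : ℝ) / 2 * (N * (2 / 5)) ≤ (((h + 1) / 2 : ℕ) : ℝ) * (N * (2 / 5)) :=
      mul_le_mul_of_nonneg_right h8 (by positivity)
    have h11 : (A : ℝ) * N ≤ h / 27 * N := mul_le_mul_of_nonneg_right (by linarith) hN0.le
    have h12 : (h : ℝ) / 2 * (N * (2 / 5)) = h * N / 5 := by ring
    have h13 : (h : ℝ) / 27 * N = h * N / 27 := by ring
    have h14 : N * h / 40 = h * N / 40 := by ring
    have h15 : 0 ≤ (h : ℝ) * N := by positivity
    rw [h14]
    rw [h12] at h10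
    rw [h13] at h11
    linarith

end Pool.Agent.Lib.MP_8501c9_pr
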