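import Pool.Agent.Lib.MP_8501c9_pr.SharpDefs
import Pool.Agent.Lib.MP_8501c9_pr.Weight
import Pool.Agent.Lib.MP_8501c9_pr.PotA
import Pool.Agent.Lib.MP_8501c9_pr.PotB
import Pool.Agent.Lib.MP_8501c9_pr.GbGain

/-!
# Task SF2: mergers of two boxes neither of which is a point
-/

set_option autoImplicit false
open Set

namespace Pool.Agent.Lib.MP_8501c9_pr

/-- increments of `sfun` far out -/
theorem sf2_sfun_sub_le (N a : ℕ) (hN : 1 ≤ N) (ha : 1 ≤ a) (r : ℕ) :
    sfun N (a + r) - sfun N a ≤ r * ((N : ℝ) / a) := by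
  induction r with
  | zero => simp
  | succ r ih =>
    have h1 : sfun N (a + (r + 1)) = sfun N (a + r) + vslope ((a + r) / N) :=
      sfun_succ' N (a + r) hN
    have h2 := vslope_le ((a + r) / N)
    have h3 : (1 : ℝ) / (((a + r) / N : ℕ) + 1) ≤ (N : ℝ) / a := by
      have ha' : (0 : ℝ) < a := by exact_mod_cast ha
      rw [div_le_div_iff₀ (by positivity) ha']
      have h4 : a ≤ N * ((a + r) / N + 1) := by
        have := Nat.lt_mul_div_succ (a + r) (by omega : 0 < N)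
        omega
      have h5 : (a : ℝ) ≤ (N : ℝ) * (((a + r) / N : ℕ) + 1) := by exact_mod_cast h4
      linarith
    rw [h1]
    push_cast
    linarith

/-- the area of a face of `R` against the one of the large component -/
theorem sf2_area (d m m1 h : ℕ) (hd : 2 ≤ d) (hm1 : d - 1 ≤ m1) (hm : m ≤ m1 + h + 2)
    (hmm : m1 ≤ m) :
    sfun (d - 1) m ≤ Gb d m1 + (2 * (h + 2) + 2) := by
  have hdm : m1 / d ≤ m1 := Nat.div_le_self _ _
  have h2 : m1 / d * 2 ≤ m1 := by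
    have h3 : m1 / d * d ≤ m1 := Nat.div_mul_le_self _ _
    nlinarith [Nat.zero_le (m1 / d)]
  have hm1' : 1 ≤ m1 := by omega
  have ha : 1 ≤ m1 - m1 / d := by omega
  have h4 := sf2_sfun_sub_le (d - 1) (m1 - m1 / d) (by omega) ha (m - (m1 - m1 / d))
  rw [Nat.add_sub_cancel' (by omega)] at h4
  have h5 : (((m - (m1 - m1 / d) : ℕ)) : ℝ) ≤ (h : ℝ) + 2 + (m1 / d : ℕ) := by
    have : m - (m1 - m1 / d) ≤ h + 2 + m1 / d := by omega
    exact_mod_cast this
  have hN : ((d - 1 : ℕ) : ℝ) = d - 1 := by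
    rw [Nat.cast_sub (by omega)]; simp
  have h6 : (((d - 1 : ℕ)) : ℝ) / (m1 - m1 / d : ℕ) ≤ 2 * (d - 1) / m1 := by
    rw [hN]
    have e1 : (0 : ℝ) < (m1 - m1 / d : ℕ) := by exact_mod_cast ha
    have e2 : (0 : ℝ) < m1 := by exact_mod_cast hm1'
    rw [div_le_div_iff₀ e1 e2]
    have e3 : m1 ≤ 2 * (m1 - m1 / d) := by omega
    have e4 : (m1 : ℝ) ≤ 2 * ((m1 - m1 / d : ℕ) : ℝ) := by exact_mod_cast e3
    have e5 : (0 : ℝ) ≤ (d : ℝ) - 1 := by
      have : (2 : ℝ) ≤ d := by exact_mod_cast hd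
      linarith
    nlinarith
  have e2 : (0 : ℝ) < m1 := by exact_mod_cast hm1'
  have hd' : (2 : ℝ) ≤ d := by exact_mod_cast hd
  have h7 : (0 : ℝ) ≤ 2 * (d - 1) / m1 := by
    apply div_nonneg _ e2.le
    linarith
  have h8 : (((m - (m1 - m1 / d) : ℕ)) : ℝ) * ((((d - 1 : ℕ)) : ℝ) / (m1 - m1 / d : ℕ)) ≤
      ((h : ℝ) + 2 + (m1 / d : ℕ)) * (2 * (d - 1) / m1) := by
    apply mul_le_mul h5 h6 (by positivity) (by positivity)
  have h9 : ((h : ℝ) + 2) * (2 * (d - 1) / m1) ≤ 2 * (h + 2) := by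
    have e6 : 2 * ((d : ℝ) - 1) / m1 ≤ 2 := by
      rw [div_le_iff₀ e2]
      have : ((d - 1 : ℕ) : ℝ) ≤ m1 := by exact_mod_cast hm1
      rw [hN] at this
      linarith
    have e7 : (0 : ℝ) ≤ (h : ℝ) + 2 := by positivity
    nlinarith
  have h10 : ((m1 / d : ℕ) : ℝ) * (2 * (d - 1) / m1) ≤ 2 := by
    have e8 : ((m1 / d : ℕ) : ℝ) ≤ (m1 : ℝ) / d := Nat.cast_div_le
    have e9 : ((m1 / d : ℕ) : ℝ) * (2 * (d - 1) / m1) ≤ (m1 : ℝ) / d * (2 * (d - 1) / m1) :=
      mul_le_mul_of_nonneg_right e8 h7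
    refine e9.trans ?_
    have e10 : (m1 : ℝ) / d * (2 * (d - 1) / m1) = 2 * (d - 1) / d := by
      field_simp
    rw [e10, div_le_iff₀ (by linarith)]
    linarith
  have h11 : ((h : ℝ) + 2 + (m1 / d : ℕ)) * (2 * (d - 1) / m1) =
      ((h : ℝ) + 2) * (2 * (d - 1) / m1) + ((m1 / d : ℕ) : ℝ) * (2 * (d - 1) / m1) := by ring
  unfold Gb
  linarith

/-- the real inequality for one class of mergers -/
theorem sf2_real (A d c h : ℕ) (hA : 1 ≤ A) (hd : 3 ≤ d) (hAd : A ≤ d) (hc : c ≤ h + 2) (ε : ℝ)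
    (hε : ε ≤ 1) :
    c * Real.log (2 * d) + h * Real.log d + (2 * (h + 2) + 2) +
      ((h : ℝ) + 2) / 2 * Real.log (3 * d) +
      h * (Mz A d + ε + 1 + Real.log (A * d + 3)) + (c + h) * Real.log 2 ≤
      120 * Real.log d * (h + 1) := by
  have hd3 : (3 : ℝ) ≤ d := by exact_mod_cast hd
  have hd0 : (0 : ℝ) < d := by linarith
  have hl1 : 1 ≤ Real.log d := by
    rw [Real.le_log_iff_exp_le hd0]
    have := Real.exp_one_lt_d9
    linarith
  set l := Real.log d with hl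
  have hl2 : Real.log 2 ≤ 1 := by
    have := Real.log_two_lt_d9
    linarith
  have hl20 : 0 ≤ Real.log 2 := Real.log_nonneg (by norm_num)
  have e1 : Real.log (2 * d) ≤ 2 * l := by
    rw [Real.log_mul (by norm_num) hd0.ne']; linarith
  have hl3 : Real.log 3 ≤ 2 := by
    have h1 : Real.log 3 ≤ Real.log 4 := Real.log_le_log (by norm_num) (by norm_num)
    have h2 : Real.log 4 = 2 * Real.log 2 := by
      rw [show (4 : ℝ) = 2 ^ 2 by norm_num, Real.log_pow]; norm_num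
    linarith
  have hl4 : Real.log 4 ≤ 2 := by
    have h2 : Real.log 4 = 2 * Real.log 2 := by
      rw [show (4 : ℝ) = 2 ^ 2 by norm_num, Real.log_pow]; norm_num
    linarith
  have e2 : Real.log (3 * d) ≤ 3 * l := by
    rw [Real.log_mul (by norm_num) hd0.ne']; linarith
  have e3 : Real.log (4 * d) ≤ 3 * l := by
    rw [Real.log_mul (by norm_num) hd0.ne']; linarith
  have hA0 : (0 : ℝ) < A := by exact_mod_cast hA
  have hAd' : (A : ℝ) ≤ d := by exact_mod_cast hAd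
  have e4 : Real.log (A ^ 2 * d ^ 2) / 2 ≤ 2 * l := by
    have h1 : Real.log ((A : ℝ) ^ 2 * d ^ 2) ≤ Real.log ((d : ℝ) ^ 4) := by
      apply Real.log_le_log (by positivity)
      have : (A : ℝ) ^ 2 ≤ (d : ℝ) ^ 2 := pow_le_pow_left₀ hA0.le hAd' 2
      nlinarith [sq_nonneg (d : ℝ)]
    rw [Real.log_pow] at h1
    push_cast at h1
    linarith
  have e5 : Real.log (A * d + 3) ≤ 3 * l := by
    have h1 : Real.log ((A : ℝ) * d + 3) ≤ Real.log ((d : ℝ) ^ 3) := by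
      apply Real.log_le_log (by positivity)
      nlinarith [mul_nonneg (sub_nonneg.mpr hAd') hd0.le, mul_nonneg hd0.le hd0.le,
        mul_nonneg (sub_nonneg.mpr hd3) (mul_nonneg hd0.le hd0.le)]
    rw [Real.log_pow] at h1
    push_cast at h1
    linarith
  have hc' : (c : ℝ) ≤ h + 2 := by exact_mod_cast hc
  have hc0 : (0 : ℝ) ≤ c := Nat.cast_nonneg c
  have hh0 : (0 : ℝ) ≤ h := Nat.cast_nonneg h
  have hE : Mz A d + ε + 1 + Real.log (A * d + 3) ≤ 100 * l := by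
    unfold Mz
    linarith
  have t1 : (c : ℝ) * Real.log (2 * d) ≤ (h + 2) * (2 * l) :=
    mul_le_mul hc' e1 (Real.log_nonneg (by linarith)) (by positivity)
  have t2 : ((h : ℝ) + 2) / 2 * Real.log (3 * d) ≤ (h + 2) / 2 * (3 * l) :=
    mul_le_mul_of_nonneg_left e2 (by positivity)
  have t3 : (h : ℝ) * (Mz A d + ε + 1 + Real.log (A * d + 3)) ≤ h * (100 * l) :=
    mul_le_mul_of_nonneg_left hE hh0
  have t4 : ((c : ℝ) + h) * Real.log 2 ≤ (2 * h + 2) * l := by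
    have h1 : Real.log 2 ≤ l := by linarith
    exact mul_le_mul (by linarith) h1 hl20 (by positivity)
  have t5 : (2 * ((h : ℝ) + 2) + 2) ≤ (2 * h + 6) * l := by nlinarith
  nlinarith [mul_nonneg hh0 (by linarith : 0 ≤ l)]

/-- one pair of boxes -/
theorem sf2_pair {n d : ℕ} (A k : ℕ) (hA : 1 ≤ A) (hd : 2 ≤ d) (L ε : ℝ) (hε : 0 ≤ ε)
    (hL : sfun (d - 1) (k + A * d + 1) ≤ L) (R : BoxT n d) (hRk : phi R ≤ k)
    (P : BoxT n d × BoxT n d) (hP : PairOK R P) (h12 : phi P.2 ≤ phi P.1) (h1 : 2 ≤ phi P.1) :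
    FF A ε L R - FF A ε L P.1 - FF A ε L P.2 ≤
      -((∑ t ∈ Finset.range (phi P.2), (Gb d (phi P.1) - Gb d t)) / 2) - Gb d (phi P.1) +
        ((phi P.2 : ℝ) + 2) / 2 * Real.log (3 * d) +
        phi P.2 * (Mz A d + ε + 1 + Real.log (A * d + 3)) := by
  have hlt := hP.phi_lt
  have hle := hP.phi_le
  have hP' := hP
  obtain ⟨p1, p2, p3, p4, p5, p6⟩ := hP'
  have hh := hull_le p4
  have hsub : SubBox P.1 R := ⟨p1, hh.1.1, hh.1.2⟩
  have hm1k : phi P.1 ≤ k := by omega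
  have f1 := Fmain_sub_le hd P.1 R hsub L (phi R - phi P.1) (by omega) (by omega)
  have f2 := Ferr_mono A hA hd ε L hε P.1 R hsub
  have f3 := fb_le_Fmain hd L P.2 p2
  have f4 := Ferr_le_mul A hA hd ε L hε k hL P.2 (by omega)
  have hGL : Gb d (phi P.1) ≤ L := by
    refine le_trans ?_ hL
    unfold Gb
    apply sfun_mono (d - 1) (by omega)
    have : phi P.1 - phi P.1 / d ≤ phi P.1 := Nat.sub_le _ _
    omega
  have hlog : 0 ≤ Real.log (3 * (d : ℝ)) := by
    apply Real.log_nonneg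
    have : (2 : ℝ) ≤ d := by exact_mod_cast hd
    linarith
  have f5 : (((phi R - phi P.1 : ℕ)) : ℝ) / 2 * (L - Gb d (phi P.1) + Real.log (3 * d)) ≤
      ((phi P.2 : ℝ) + 2) / 2 * (L - Gb d (phi P.1) + Real.log (3 * d)) := by
    apply mul_le_mul_of_nonneg_right _ (by linarith)
    have : phi R - phi P.1 ≤ phi P.2 + 2 := by omega
    have h' : (((phi R - phi P.1 : ℕ)) : ℝ) ≤ (phi P.2 : ℝ) + 2 := by exact_mod_cast this
    linarith
  unfold fb at f3
  have f6 : ∑ t ∈ Finset.range (phi P.2), (L - Gb d t) =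
      (phi P.2 : ℝ) * L - ∑ t ∈ Finset.range (phi P.2), Gb d t := by
    rw [Finset.sum_sub_distrib]; simp
  have f7 : ∑ t ∈ Finset.range (phi P.2), (Gb d (phi P.1) - Gb d t) =
      (phi P.2 : ℝ) * Gb d (phi P.1) - ∑ t ∈ Finset.range (phi P.2), Gb d t := by
    rw [Finset.sum_sub_distrib]; simp
  rw [f6] at f3
  rw [f7]
  unfold FF
  nlinarith

theorem sf2_geom (m : ℕ) : ∑ c ∈ Finset.Icc 1 m, ((1 : ℝ) / 2) ^ c ≤ 1 := by
  have h : ∀ m : ℕ, ∑ c ∈ Finset.Icc 1 m, ((1 : ℝ) / 2) ^ c = 1 - (1 / 2) ^ m := by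
    intro m
    induction m with
    | zero => simp
    | succ m ih =>
      rw [Finset.sum_Icc_succ_top (by omega), ih]
      ring
  rw [h]
  have : (0 : ℝ) ≤ (1 / 2) ^ m := by positivity
  linarith

theorem Xw_le (A : ℕ) (hA : 1 ≤ A) : ∃ D₀ : ℕ, ∀ (n d k : ℕ) (L ε : ℝ), D₀ ≤ d → 0 ≤ ε → ε ≤ 1 →
    sfun (d - 1) (k + A * d + 1) ≤ L → ∀ R : BoxT n d, R.1 ≤ R.2 →
    A ^ 2 * d ^ 2 ≤ phi R + A * d + 1 → phi R ≤ k →
    (∀ Q : BoxT n d, Q.1 ≤ Q.2 → phi Q < phi R →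
      wt (Real.exp (-L)) Q ≤ Real.exp (-(FF A ε L Q))) →
    Xw (Real.exp (-L)) R ≤ Real.exp (-(A * (d - 1))) * Real.exp (-(FF A ε L R)) := by
  classical
  obtain ⟨D₁, hD₁⟩ := Gb_gain A hA 120
  refine ⟨D₁ + A + 10, ?_⟩
  intro n d k L ε hdD hε0 hε1 hL R hR hbig hRk hIH
  have hd3 : 3 ≤ d := by omega
  have hdA : A ≤ d := by omega
  have hd10 : 10 ≤ d := by omega
  set p := Real.exp (-L) with hp
  have hp0 : 0 ≤ p := (Real.exp_pos _).le
  set K := Real.exp (-(A * (d - 1))) * Real.exp (-(FF A ε L R)) with hK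
  have hK0 : 0 ≤ K := by positivity
  unfold Xw
  set S : Finset (BoxT n d × BoxT n d) :=
    Finset.univ.filter (fun P => PairOK R P ∧ 1 ≤ phi P.2 ∧ phi P.2 ≤ phi P.1) with hS
  -- sizes
  have hsize : ∀ P ∈ S, phi P.1 < phi R ∧ phi R ≤ phi P.1 + phi P.2 + 2 ∧
      A ^ 2 * d ^ 2 ≤ 4 * phi P.1 := by
    intro P hP
    rw [hS, Finset.mem_filter] at hP
    obtain ⟨-, hP1, hP2, hP3⟩ := hP
    have a1 := hP1.phi_lt
    have a2 := hP1.phi_le
    refine ⟨a1, a2, ?_⟩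
    have hx : 10 ≤ A * d := by nlinarith
    have hxx : A ^ 2 * d ^ 2 = (A * d) * (A * d) := by ring
    rw [hxx] at hbig ⊢
    generalize A * d = x at hx hbig ⊢
    nlinarith
  have hmaps : ∀ P ∈ S, (phi R - phi P.1, phi P.2) ∈
      Finset.Icc 1 (phi R) ×ˢ Finset.Icc 1 (phi R) := by
    intro P hP
    obtain ⟨b1, b2, b3⟩ := hsize P hP
    rw [hS, Finset.mem_filter] at hP
    obtain ⟨-, hP1, hP2, hP3⟩ := hP
    rw [Finset.mem_product, Finset.mem_Icc, Finset.mem_Icc]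
    refine ⟨⟨?_, ?_⟩, ?_, ?_⟩
    · show 1 ≤ phi R - phi P.1
      omega
    · show phi R - phi P.1 ≤ phi R
      omega
    · exact hP2
    · show phi P.2 ≤ phi R
      omega
  rw [← Finset.sum_fiberwise_of_maps_to hmaps]
  have hclass : ∀ q ∈ Finset.Icc 1 (phi R) ×ˢ Finset.Icc 1 (phi R),
      ∑ P ∈ S with (phi R - phi P.1, phi P.2) = q, wt p P.1 * wt p P.2 ≤
        K * ((1 / 2) ^ q.1 * (1 / 2) ^ q.2) := by
    rintro ⟨c, h⟩ hq
    rw [Finset.mem_product, Finset.mem_Icc, Finset.mem_Icc] at hq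
    obtain ⟨⟨hc1, hc2⟩, hh1, hh2⟩ := hq
    simp only at hc1 hc2 hh1 hh2
    set T := S.filter (fun P => (phi R - phi P.1, phi P.2) = (c, h)) with hT
    -- facts for members
    rcases T.eq_empty_or_nonempty with hTe | ⟨P₀, hP₀⟩
    · rw [hTe, Finset.sum_empty]
      positivity
    have hmem : ∀ P ∈ T, PairOK R P ∧ phi P.1 + c = phi R ∧ phi P.2 = h ∧ phi P.2 ≤ phi P.1 ∧
        phi R ≤ phi P.1 + phi P.2 + 2 ∧ A ^ 2 * d ^ 2 ≤ 4 * phi P.1 := by
      intro P hP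
      rw [hT, Finset.mem_filter] at hP
      obtain ⟨hPS, hPe⟩ := hP
      obtain ⟨b1, b2, b3⟩ := hsize P hPS
      rw [hS, Finset.mem_filter] at hPS
      obtain ⟨-, hP1, hP2, hP3⟩ := hPS
      have e1 : phi R - phi P.1 = c := (Prod.mk.inj hPe).1
      have e2 : phi P.2 = h := (Prod.mk.inj hPe).2
      exact ⟨hP1, by omega, e2, hP3, b2, b3⟩
    obtain ⟨g1, g2, g3, g4, g5, g6⟩ := hmem P₀ hP₀
    set m1 := phi P₀.1 with hm1
    have hch : c ≤ h + 2 := by omega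
    have hhm : h ≤ m1 := by omega
    have hm1d : d - 1 ≤ m1 := by
      have : d * d ≤ A ^ 2 * d ^ 2 := by nlinarith [Nat.one_le_iff_ne_zero.mp hA, sq_nonneg d, Nat.one_le_pow 2 A hA]
      have : d * 10 ≤ d * d := Nat.mul_le_mul_left d hd10
      omega
    have hcount := card_pairs (by omega : 2 ≤ d) R hR c h hc1
    have hcard : (T.card : ℝ) ≤ (2 * d) ^ c * d ^ h * Real.exp (sfun (d - 1) (phi R)) := by
      refine le_trans ?_ hcount
      rw [← Set.ncard_coe_finset]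
      have : (T : Set (BoxT n d × BoxT n d)).ncard ≤
          {P : BoxT n d × BoxT n d | PairOK R P ∧ phi P.1 + c = phi R ∧ phi P.2 = h}.ncard := by
        refine Set.ncard_le_ncard ?_ (Set.toFinite _)
        intro P hP
        obtain ⟨x1, x2, x3, x4, x5, x6⟩ := hmem P hP
        exact ⟨x1, x2, x3⟩
      exact_mod_cast this
    set V : ℝ := -((∑ t ∈ Finset.range h, (Gb d m1 - Gb d t)) / 2) - Gb d m1 +
        ((h : ℝ) + 2) / 2 * Real.log (3 * d) +
        h * (Mz A d + ε + 1 + Real.log (A * d + 3)) with hV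
    have hterm : ∀ P ∈ T, wt p P.1 * wt p P.2 ≤ Real.exp (V - FF A ε L R) := by
      intro P hP
      obtain ⟨x1, x2, x3, x4, x5, x6⟩ := hmem P hP
      have hm : phi P.1 = m1 := by omega
      have hx7 : 2 ≤ phi P.1 := by omega
      have y := sf2_pair A k hA (by omega) L ε hε0 hL R hRk P x1 x4 hx7
      rw [x3, hm, ← hV] at y
      have w1 := hIH P.1 x1.1 (by omega)
      have w2 := hIH P.2 x1.2.1 (by omega)
      calc wt p P.1 * wt p P.2 ≤ Real.exp (-(FF A ε L P.1)) * Real.exp (-(FF A ε L P.2)) :=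
            mul_le_mul w1 w2 (wt_nonneg hp0 _) (Real.exp_pos _).le
        _ = Real.exp (-(FF A ε L P.1) + -(FF A ε L P.2)) := by rw [Real.exp_add]
        _ ≤ _ := Real.exp_le_exp.2 (by linarith)
    have hd0 : (0 : ℝ) < d := by
      have : 0 < d := by omega
      exact_mod_cast this
    have hsum : ∑ P ∈ T, wt p P.1 * wt p P.2 ≤ T.card * Real.exp (V - FF A ε L R) := by
      have := Finset.sum_le_card_nsmul T _ _ hterm
      rwa [nsmul_eq_mul] at this
    refine hsum.trans ?_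
    have harea := sf2_area d (phi R) m1 h (by omega) hm1d (by omega) (by omega)
    have hgain := hD₁ d m1 h (by omega) g6 hh1 hhm
    have hreal := sf2_real A d c h hA hd3 hdA hch ε hε1
    have e1 : (2 * d : ℝ) ^ c = Real.exp (c * Real.log (2 * d)) := by
      rw [Real.exp_nat_mul, Real.exp_log (by positivity)]
    have e2 : (d : ℝ) ^ h = Real.exp (h * Real.log d) := by
      rw [Real.exp_nat_mul, Real.exp_log hd0]
    have e3 : ∀ j : ℕ, ((1 : ℝ) / 2) ^ j = Real.exp (-(j * Real.log 2)) := by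
      intro j
      rw [Real.exp_neg, Real.exp_nat_mul, Real.exp_log (by norm_num)]
      simp
    calc (T.card : ℝ) * Real.exp (V - FF A ε L R)
        ≤ ((2 * d) ^ c * d ^ h * Real.exp (sfun (d - 1) (phi R))) *
            Real.exp (V - FF A ε L R) :=
          mul_le_mul_of_nonneg_right hcard (Real.exp_pos _).le
      _ ≤ K * ((1 / 2) ^ c * (1 / 2) ^ h) := by
          rw [hK, e1, e2, e3, e3]
          simp only [← Real.exp_add]
          apply Real.exp_le_exp.2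
          have hdh : 0 ≤ ((d : ℝ) - 1) * h / 40 := by
            have : (1 : ℝ) ≤ d := by
              have : 1 ≤ d := by omega
              exact_mod_cast this
            have h0 : (0 : ℝ) ≤ (d : ℝ) - 1 := by linarith
            positivity
          rw [hV]
          linarith
  calc ∑ q ∈ Finset.Icc 1 (phi R) ×ˢ Finset.Icc 1 (phi R),
        ∑ P ∈ S with (phi R - phi P.1, phi P.2) = q, wt p P.1 * wt p P.2
      ≤ ∑ q ∈ Finset.Icc 1 (phi R) ×ˢ Finset.Icc 1 (phi R),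
          K * ((1 / 2) ^ q.1 * (1 / 2) ^ q.2) := Finset.sum_le_sum hclass
    _ = K * ((∑ c ∈ Finset.Icc 1 (phi R), (1 / 2) ^ c) *
          (∑ c ∈ Finset.Icc 1 (phi R), (1 / 2) ^ c)) := by
        rw [← Finset.mul_sum, Finset.sum_mul_sum, Finset.sum_product]
    _ ≤ K * 1 := by
        apply mul_le_mul_of_nonneg_left _ hK0
        have h0 := sf2_geom (phi R)
        have h1 : (0 : ℝ) ≤ ∑ c ∈ Finset.Icc 1 (phi R), (1 / 2) ^ c :=
          Finset.sum_nonneg fun _ _ => by positivity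
        nlinarith
    _ = K := mul_one K

end Pool.Agent.Lib.MP_8501c9_pr
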