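import Pool.Agent.Lib.MP_8501c9_pr.SharpDefs
import Pool.Agent.Lib.MP_8501c9_pr.Weight
import Pool.Agent.Lib.MP_8501c9_pr.Basic

/-!
# Task SE: small boxes
-/

set_option autoImplicit false
open Set

namespace Pool.Agent.Lib.MP_8501c9_pr

theorem se_log_factorial (x M : ℕ) (hxM : x ≤ M) :
    Real.log (Nat.factorial x) ≤ x * Real.log M := by
  rcases Nat.eq_zero_or_pos x with h | h
  · subst h; simp
  · have h1 : Nat.factorial x ≤ M ^ x :=
      (Nat.factorial_le_pow x).trans (Nat.pow_le_pow_left hxM x)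
    have h2 : (0 : ℝ) < (Nat.factorial x : ℝ) := by exact_mod_cast Nat.factorial_pos x
    have h3 : Real.log (Nat.factorial x) ≤ Real.log ((M : ℝ) ^ x) := by
      apply Real.log_le_log h2
      exact_mod_cast h1
    rwa [Real.log_pow] at h3

theorem wt_small (A : ℕ) (hA : 1 ≤ A) : ∃ D₀ : ℕ, ∀ (n d k : ℕ) (L ε : ℝ), D₀ ≤ d → 0 ≤ ε →
    2 * (A ^ 2 * d ^ 2) ≤ k → sfun (d - 1) k ≤ L → ∀ R : BoxT n d, R.1 ≤ R.2 →
    phi R ≤ A ^ 2 * d ^ 2 → wt (Real.exp (-L)) R ≤ Real.exp (-(FF A ε L R)) := by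
  obtain ⟨D, hD⟩ := exists_log_le 240 5 (1 / 2) (by norm_num)
  refine ⟨⌈D⌉₊ + 10, ?_⟩
  intro n d k L ε hd hε hk hL R hR hphi
  have hd10 : 10 ≤ d := by omega
  have hd10' : (10 : ℝ) ≤ d := by exact_mod_cast hd10
  have hdD : D ≤ d := by
    have h1 : (⌈D⌉₊ : ℝ) ≤ d := by
      have : ⌈D⌉₊ ≤ d := by omega
      exact_mod_cast this
    exact (Nat.le_ceil D).trans h1
  have hlin := hD d hdD
  set lam := Real.log (4 * d) with hlam
  have hlam1 : 1 ≤ lam := by
    rw [hlam, Real.le_log_iff_exp_le (by positivity)]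
    have := Real.exp_one_lt_d9
    linarith
  set M := A ^ 2 * d ^ 2 with hM
  set m0 := ⌈80 * lam + 1⌉₊ with hm0
  have hm0ge : 80 * lam + 1 ≤ m0 := Nat.le_ceil _
  have hm0le : (m0 : ℝ) ≤ 80 * lam + 2 := by
    have := (Nat.ceil_lt_add_one (by positivity : (0 : ℝ) ≤ 80 * lam + 1)).le
    rw [← hm0] at this
    linarith
  have hm0d : m0 + 2 ≤ d := by
    have : (m0 : ℝ) + 2 ≤ d := by linarith
    exact_mod_cast this
  have hMd : d * d ≤ M := by
    rw [hM]
    have : 1 ≤ A ^ 2 := Nat.one_le_pow 2 A hA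
    calc d * d = 1 * d ^ 2 := by ring
      _ ≤ A ^ 2 * d ^ 2 := Nat.mul_le_mul_right _ this
  have hMd2 : 10 * d ≤ M := (Nat.mul_le_mul_right d hd10).trans hMd
  have hl2 : Real.log 2 ≤ 0.7 := by
    have := Real.log_two_lt_d9
    linarith
  have hl20 : 0 ≤ Real.log 2 := Real.log_nonneg (by norm_num)
  have hmin : ∀ t : ℕ, ((min t m0 + 3 : ℕ) : ℝ) * Real.log 2 ≤ 60 * lam := by
    intro t
    have h1 : ((min t m0 + 3 : ℕ) : ℝ) ≤ (m0 : ℝ) + 3 := by
      have : min t m0 + 3 ≤ m0 + 3 := by omega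
      exact_mod_cast this
    have h2 : ((min t m0 + 3 : ℕ) : ℝ) * Real.log 2 ≤ ((m0 : ℝ) + 3) * 0.7 :=
      mul_le_mul h1 hl2 hl20 (by positivity)
    linarith
  have hNN : ((d - 1 : ℕ) : ℝ) = d - 1 := by
    rw [Nat.cast_sub (by omega)]; simp
  have hcost : cost d m0 M ≤ L / 2 := by
    unfold cost
    have h1 := le_sfun_add (d - 1) (M + 1) (M - 1) (by omega)
    have h2 : M + 1 + (M - 1) = 2 * M := by omega
    rw [h2] at h1
    have h3 := sfun_mono (d - 1) (by omega) hk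
    have h4 := hmin M
    have hM1 : ((M - 1 : ℕ) : ℝ) = M - 1 := by
      rw [Nat.cast_sub (by omega)]; simp
    have h5 : 60 * lam ≤ ((M - 1 : ℕ) : ℝ) *
        (((d - 1 : ℕ) : ℝ) / (((M + 1 : ℕ) : ℝ) + ((M - 1 : ℕ) : ℝ) + 2 * ((d - 1 : ℕ) : ℝ))) := by
      rw [hM1, hNN]
      push_cast
      have hMd' : 10 * (d : ℝ) ≤ M := by exact_mod_cast hMd2
      have h6 : 60 * lam ≤ ((d : ℝ) - 1) / 4 := by linarith
      refine h6.trans ?_
      rw [← mul_div_assoc, div_le_div_iff₀ (by norm_num) (by nlinarith)]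
      nlinarith
    linarith
  have hw := wt_bound n d m0 M L hm0ge hm0d hcost R hR hphi
  refine hw.trans (Real.exp_le_exp.2 ?_)
  rw [neg_le_neg_iff]
  -- the comparison of the exponents
  set m := phi R with hm
  have hG : L * (1 + (m : ℝ) / 2) - (∑ t ∈ Finset.range m, sfun d t) / 2 - 31 * lam * m ≤
      Gfun d m0 L m := by
    unfold Gfun
    have h1 : ∀ t ∈ Finset.range m, L / 2 - sfun d t / 2 - 31 * lam ≤ L / 2 - cost d m0 (t + 1) := by
      intro t _
      unfold cost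
      have h2 := hmin (t + 1)
      have h3 := sfun_add_le (d - 1) t 2 (by omega)
      have h4 := sfun_le_sfun_succ (d - 1) t (by omega)
      rw [Nat.sub_add_cancel (by omega)] at h4
      have h5 : t + 1 + 1 = t + 2 := rfl
      rw [h5]
      push_cast at h2 h3 ⊢
      linarith
    have h6 := Finset.sum_le_sum h1
    have h7 : ∑ t ∈ Finset.range m, (L / 2 - sfun d t / 2 - 31 * lam) =
        m * (L / 2) - (∑ t ∈ Finset.range m, sfun d t) / 2 - m * (31 * lam) := by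
      rw [Finset.sum_sub_distrib, Finset.sum_sub_distrib, Finset.sum_div]
      simp
    rw [h7] at h6
    linarith
  refine le_trans ?_ hG
  unfold FF Fmain Ferr
  rw [← hm]
  have e1 : (min m (A ^ 2 * d ^ 2)) = m := min_eq_left hphi
  rw [e1]
  have e2 : ∑ i, Real.log (Nat.factorial ((R.2 i : ℕ) - R.1 i)) ≤ m * Real.log M := by
    have h1 : ∀ i ∈ (Finset.univ : Finset (Fin d)),
        Real.log (Nat.factorial ((R.2 i : ℕ) - R.1 i)) ≤
        (((R.2 i : ℕ) - R.1 i : ℕ) : ℝ) * Real.log M := by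
      intro i hi
      apply se_log_factorial
      refine le_trans ?_ hphi
      rw [hm]
      unfold phi
      exact Finset.single_le_sum (f := fun i => (R.2 i : ℕ) - R.1 i) (fun _ _ => Nat.zero_le _) hi
    refine (Finset.sum_le_sum h1).trans ?_
    rw [← Finset.sum_mul]
    apply mul_le_mul_of_nonneg_right _ (Real.log_natCast_nonneg _)
    rw [hm]
    unfold phi
    push_cast
    exact le_rfl
  have e3 : 0 ≤ ε * (m : ℝ) := by positivity
  have e4 : 0 ≤ ∑ t ∈ Finset.range m, Real.exp (-(L - sfun (d - 1) (t + A * d + 1)) / 2) :=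
    Finset.sum_nonneg fun _ _ => (Real.exp_pos _).le
  have e5 : 0 ≤ Real.log (A * d + 3) *
      ((∑ i, min ((R.2 i : ℕ) - R.1 i) (A ^ 2 * d) : ℕ) : ℝ) := by
    apply mul_nonneg
    · apply Real.log_nonneg
      have : (0 : ℝ) ≤ (A : ℝ) * d := by positivity
      linarith
    · exact Nat.cast_nonneg _
  have e6 : (M : ℝ) = (A : ℝ) ^ 2 * d ^ 2 := by rw [hM]; push_cast; ring
  rw [e6] at e2
  unfold Mz
  rw [← hlam]
  have e7 : (31 * lam + Real.log ((A : ℝ) ^ 2 * d ^ 2) / 2) * (m : ℝ) =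
      31 * lam * m + m * Real.log ((A : ℝ) ^ 2 * d ^ 2) / 2 := by ring
  rw [e7]
  linarith

end Pool.Agent.Lib.MP_8501c9_pr
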