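import Pool.Agent.Lib.MP_8501c9_pr.SharpDefs

/-!
# Counting sub-boxes
-/

set_option autoImplicit false
open Set

namespace Pool.Agent.Lib.MP_8501c9_pr

theorem geom_exp_le (n : ℕ) (θ : ℝ) (hθ0 : 0 < θ) (hθ1 : θ ≤ 1) :
    ∑ j ∈ Finset.range n, Real.exp (-(θ * j)) ≤ 2 / θ := by
  have h1 : ∀ j : ℕ, Real.exp (-(θ * j)) = Real.exp (-θ) ^ j := by
    intro j
    rw [← Real.exp_nat_mul]
    congr 1
    ring
  rw [Finset.sum_congr rfl fun j _ => h1 j]
  have h2 : Real.exp (-θ) < 1 := by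
    rw [← Real.exp_zero]
    exact Real.exp_lt_exp.2 (by linarith)
  have h3 : θ / 2 ≤ 1 - Real.exp (-θ) := by
    have h4 : Real.exp (-θ) ≤ 1 / (1 + θ) := by
      rw [Real.exp_neg, ← one_div]
      exact one_div_le_one_div_of_le (by linarith) (by linarith [Real.add_one_le_exp θ])
    have h5 : 1 / (1 + θ) ≤ 1 - θ / 2 := by
      rw [div_le_iff₀ (by linarith)]
      nlinarith
    linarith
  have h6 : ∑ j ∈ Finset.range n, Real.exp (-θ) ^ j ≤ 1 / (1 - Real.exp (-θ)) := by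
    rw [geom_sum_eq h2.ne n, le_div_iff₀ (by linarith), ← neg_div_neg_eq,
      div_mul_eq_mul_div, div_le_iff₀ (by linarith)]
    have h7 : 0 < Real.exp (-θ) ^ n := pow_pos (Real.exp_pos _) n
    nlinarith
  refine h6.trans ?_
  rw [div_le_div_iff₀ (by linarith) hθ0]
  linarith

theorem card_subbox {n d : ℕ} (R : BoxT n d) (m : ℕ) (θ : ℝ) (hθ0 : 0 < θ) (hθ1 : θ ≤ 1) :
    ({R₁ : BoxT n d | SubBox R₁ R ∧ phi R₁ + m = phi R}.ncard : ℝ) ≤
      Real.exp (θ * m + 2 * d * Real.log (2 / θ)) := by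
  classical
  set F : Finset (BoxT n d) := {R₁ : BoxT n d | SubBox R₁ R ∧ phi R₁ + m = phi R} with hF
  have hS : {R₁ : BoxT n d | SubBox R₁ R ∧ phi R₁ + m = phi R} = (F : Set (BoxT n d)) := by
    rw [hF]; simp
  rw [hS, Set.ncard_coe_finset]
  set g : BoxT n d → (Fin d → ℕ) × (Fin d → ℕ) := fun R₁ =>
    (fun i => (R₁.1 i : ℕ) - R.1 i, fun i => (R.2 i : ℕ) - R₁.2 i) with hg
  set w : (Fin d → ℕ) → ℝ := fun a => ∏ i, Real.exp (-(θ * a i)) with hw
  have hw0 : ∀ a, 0 ≤ w a := fun a => Finset.prod_nonneg fun i _ => (Real.exp_pos _).le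
  have hwexp : ∀ a, w a = Real.exp (-(θ * ((∑ i, a i : ℕ) : ℝ))) := by
    intro a
    rw [hw]
    simp only
    rw [← Real.exp_sum, Finset.sum_neg_distrib, ← Finset.mul_sum]
    push_cast
    rfl
  have hsumg : ∀ R₁ ∈ F, (∑ i, (g R₁).1 i) + ∑ i, (g R₁).2 i = m := by
    intro R₁ hR₁
    rw [hF, Finset.mem_filter] at hR₁
    obtain ⟨-, ⟨h1, h2, h3⟩, h4⟩ := hR₁
    have h5 : phi R = phi R₁ + ((∑ i, (g R₁).1 i) + ∑ i, (g R₁).2 i) := by
      unfold phi
      rw [← Finset.sum_add_distrib, ← Finset.sum_add_distrib]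
      refine Finset.sum_congr rfl fun i _ => ?_
      have e1 : (R₁.1 i : ℕ) ≤ R₁.2 i := h1 i
      have e2 : (R.1 i : ℕ) ≤ R₁.1 i := h2 i
      have e3 : (R₁.2 i : ℕ) ≤ R.2 i := h3 i
      simp only [hg]
      omega
    omega
  have hinj : Set.InjOn g (F : Set (BoxT n d)) := by
    intro A hA B hB hAB
    rw [Finset.mem_coe, hF, Finset.mem_filter] at hA hB
    obtain ⟨-, ⟨a1, a2, a3⟩, -⟩ := hA
    obtain ⟨-, ⟨b1, b2, b3⟩, -⟩ := hB
    simp only [hg, Prod.mk.injEq] at hAB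
    obtain ⟨h1, h2⟩ := hAB
    refine Prod.ext ?_ ?_
    · funext i
      apply Fin.ext
      have e1 := congrFun h1 i
      have e2 : (R.1 i : ℕ) ≤ A.1 i := a2 i
      have e3 : (R.1 i : ℕ) ≤ B.1 i := b2 i
      omega
    · funext i
      apply Fin.ext
      have e1 := congrFun h2 i
      have e2 : (A.2 i : ℕ) ≤ R.2 i := a3 i
      have e3 : (B.2 i : ℕ) ≤ R.2 i := b3 i
      omega
  set P : Finset (Fin d → ℕ) := Fintype.piFinset (fun _ => Finset.range n) with hP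
  have hmap : F.image g ⊆ P ×ˢ P := by
    intro q hq
    rw [Finset.mem_image] at hq
    obtain ⟨A, -, rfl⟩ := hq
    rw [Finset.mem_product, hP, Fintype.mem_piFinset, Fintype.mem_piFinset]
    constructor
    · intro i
      rw [Finset.mem_range]
      exact lt_of_le_of_lt (Nat.sub_le _ _) (A.1 i).2
    · intro i
      rw [Finset.mem_range]
      exact lt_of_le_of_lt (Nat.sub_le _ _) (R.2 i).2
  have h1 : (F.card : ℝ) ≤ Real.exp (θ * m) * ((∑ a ∈ P, w a) * ∑ a ∈ P, w a) := by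
    calc (F.card : ℝ) = ∑ A ∈ F, (1 : ℝ) := by simp
      _ = ∑ A ∈ F, Real.exp (θ * m) * (w (g A).1 * w (g A).2) := by
          refine Finset.sum_congr rfl fun A hA => ?_
          rw [hwexp, hwexp, ← Real.exp_add, ← Real.exp_add, ← hsumg A hA]
          push_cast
          rw [← Real.exp_zero]
          congr 1
          ring
      _ = Real.exp (θ * m) * ∑ A ∈ F, (w (g A).1 * w (g A).2) := by rw [Finset.mul_sum]
      _ = Real.exp (θ * m) * ∑ q ∈ F.image g, (w q.1 * w q.2) := by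
          rw [Finset.sum_image hinj]
      _ ≤ Real.exp (θ * m) * ∑ q ∈ P ×ˢ P, (w q.1 * w q.2) := by
          refine mul_le_mul_of_nonneg_left ?_ (Real.exp_pos _).le
          exact Finset.sum_le_sum_of_subset_of_nonneg hmap
            fun q _ _ => mul_nonneg (hw0 _) (hw0 _)
      _ = _ := by rw [Finset.sum_product, Finset.sum_mul_sum]
  have h2 : ∑ a ∈ P, w a = (∑ j ∈ Finset.range n, Real.exp (-(θ * j))) ^ d := by
    rw [hw, hP]
    simp only
    rw [← Finset.prod_univ_sum (fun _ : Fin d => Finset.range n)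
      (fun _ j => Real.exp (-(θ * (j : ℝ))))]
    simp
  have h3 : ∑ a ∈ P, w a ≤ (2 / θ) ^ d := by
    rw [h2]
    exact pow_le_pow_left₀ (Finset.sum_nonneg fun _ _ => (Real.exp_pos _).le)
      (geom_exp_le n θ hθ0 hθ1) d
  have h4 : 0 ≤ ∑ a ∈ P, w a := Finset.sum_nonneg fun a _ => hw0 a
  refine h1.trans ?_
  rw [Real.exp_add]
  refine mul_le_mul_of_nonneg_left ?_ (Real.exp_pos _).le
  have h5 : Real.exp (2 * d * Real.log (2 / θ)) = (2 / θ) ^ d * (2 / θ) ^ d := by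
    rw [← pow_add, ← Real.exp_log (show (0:ℝ) < 2 / θ by positivity), ← Real.exp_nat_mul]
    congr 1
    rw [Real.exp_log (by positivity)]
    push_cast
    ring
  rw [h5]
  exact mul_le_mul h3 h3 h4 (by positivity)

end Pool.Agent.Lib.MP_8501c9_pr
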