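import Pool.Agent.Lib.MP_8501c9_pr.SharpDefs
import Pool.Agent.Lib.MP_8501c9_pr.Basic
import Pool.Agent.Lib.MP_8501c9_pr.Volume
import Pool.Agent.Lib.MP_8501c9_pr.Weight
import Pool.Agent.Lib.MP_8501c9_pr.Decomp
import Pool.Agent.Lib.MP_8501c9_pr.Label
import Pool.Agent.Lib.MP_8501c9_pr.PotA
import Pool.Agent.Lib.MP_8501c9_pr.PotB
import Pool.Agent.Lib.MP_8501c9_pr.SmallBox
import Pool.Agent.Lib.MP_8501c9_pr.SubCount
import Pool.Agent.Lib.MP_8501c9_pr.Merge

/-!
# The sharp bound for the generating function of spanning sets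
-/

set_option autoImplicit false
open Set

namespace Pool.Agent.Lib.MP_8501c9_pr

variable {n d : ℕ}

theorem Tw_nonneg {p : ℝ} (hp : 0 ≤ p) (R₁ R : BoxT n d) : 0 ≤ Tw p R₁ R := by
  classical
  unfold Tw
  exact Finset.sum_nonneg fun _ _ => by positivity

theorem SubBox.le {R₁ R : BoxT n d} (h : SubBox R₁ R) : R.1 ≤ R.2 :=
  h.2.1.trans (h.1.trans h.2.2)

theorem face_le (hd : 2 ≤ d) (R : BoxT n d) (i : Fin d) :
    ∏ j ∈ Finset.univ.erase i, (sd R j : ℝ) ≤ Real.exp (sfun (d - 1) (phi R)) := by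
  have hpos : ∀ j, (0 : ℝ) < sd R j := fun j => by
    unfold sd
    positivity
  have h1 : ∏ j ∈ Finset.univ.erase i, (sd R j : ℝ) =
      Real.exp (∑ j ∈ Finset.univ.erase i, Real.log (1 + ((R.2 j : ℕ) - (R.1 j : ℕ) : ℕ))) := by
    rw [Real.exp_sum]
    refine Finset.prod_congr rfl fun j _ => ?_
    rw [Real.exp_log (by positivity)]
    unfold sd
    push_cast
    ring
  rw [h1]
  refine Real.exp_le_exp.2 ?_
  refine sum_log_le_sfun (Finset.univ.erase i) (d - 1) (phi R) (by omega) ?_ _ ?_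
  · rw [Finset.card_erase_of_mem (Finset.mem_univ i), Finset.card_univ, Fintype.card_fin]
  · unfold phi
    exact Finset.sum_le_sum_of_subset (Finset.erase_subset _ _)

/-- one chunk -/
theorem chunk_le (A : ℕ) (hA : 1 ≤ A) (hd : 2 ≤ d) (k : ℕ) (ε L : ℝ) (hε : 0 ≤ ε)
    (hL : sfun (d - 1) (k + A * d + 1) ≤ L) (R₁ R : BoxT n d) (h : SubBox R₁ R)
    (hc : phi R ≤ phi R₁ + A * d + 1) (hR : A ^ 2 * d ^ 2 < phi R) (hRk : phi R ≤ k) :
    Tw (Real.exp (-L)) R₁ R * Real.exp (-(FF A ε L R₁)) ≤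
      Real.exp (-(FF A ε L R)) * Real.exp ((4 / A - ε) * ((phi R - phi R₁ : ℕ) : ℝ)) := by
  have hphi := phi_eq_add R₁ R h
  set Δ : ℕ := ∑ i, exc R₁ R i with hΔ
  have hΔ' : phi R - phi R₁ = Δ := by omega
  have hΔle : Δ ≤ A * d + 1 := by omega
  have hs : 1 ≤ A ^ 2 * d := Nat.one_le_iff_ne_zero.2 (by positivity)
  set ζ : ℝ := Real.exp (-(L - sfun (d - 1) (phi R)) / 2) with hζ
  have hsL : sfun (d - 1) (phi R) ≤ L :=
    (sfun_mono (d - 1) (by omega) (by omega : phi R ≤ k + A * d + 1)).trans hL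
  have hζ0 : 0 ≤ ζ := (Real.exp_pos _).le
  have hζ1 : ζ ≤ 1 := Real.exp_le_one_iff.2 (by linarith)
  have hz : ∀ i, Real.exp (-L) * ∏ j ∈ Finset.univ.erase i, (sd R j : ℝ) ≤ ζ ^ 2 := by
    intro i
    have h1 := face_le hd R i
    have h2 : ζ ^ 2 = Real.exp (-L) * Real.exp (sfun (d - 1) (phi R)) := by
      rw [hζ, ← Real.exp_add, ← Real.exp_nat_mul]
      congr 1
      push_cast
      ring
    rw [h2]
    exact mul_le_mul_of_nonneg_left h1 (Real.exp_pos _).le
  have hT := Tw_le R₁ R h L ζ (A ^ 2 * d) hs hζ0 hζ1 hz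
  have hF := Fmain_chunk (by omega : 1 ≤ d) R₁ R h L
  have hE := Ferr_sub A hA hd ε L hε R₁ R h hc
  rw [← hΔ] at hT hF hE
  rw [← hζ] at hE
  rw [hΔ']
  set S : ℝ := ∑ i, (exc R₁ R i : ℝ) * (L - ∑ j, Real.log (sd R j) + Real.log (sd R i)) / 2 with hS
  set Sm : ℝ := ∑ i with sd R i < A ^ 2 * d, (exc R₁ R i : ℝ) with hSm
  have hSm0 : 0 ≤ Sm := Finset.sum_nonneg fun _ _ => Nat.cast_nonneg _
  have hlog : Real.log ((Δ : ℝ) + 2) ≤ Real.log (A * d + 3) := by
    refine Real.log_le_log (by positivity) ?_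
    have : (Δ : ℝ) ≤ A * d + 1 := by exact_mod_cast hΔle
    linarith
  have hlog' := mul_le_mul_of_nonneg_right hlog hSm0
  have hA' : (1 : ℝ) ≤ A := by exact_mod_cast hA
  have hd' : (2 : ℝ) ≤ d := by exact_mod_cast hd
  have hΔr : (Δ : ℝ) ≤ A * d + 1 := by exact_mod_cast hΔle
  have hΔ0 : (0 : ℝ) ≤ Δ := Nat.cast_nonneg _
  have hA2d : (0 : ℝ) < (A : ℝ) ^ 2 * d := by positivity
  -- the two small terms
  have e1 : (Δ : ℝ) / ((A ^ 2 * d : ℕ) : ℝ) * Δ ≤ 2 / A * Δ := by
    refine mul_le_mul_of_nonneg_right ?_ hΔ0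
    push_cast
    rw [div_le_div_iff₀ (by positivity) (by positivity)]
    nlinarith [mul_le_mul_of_nonneg_right hΔr (by positivity : (0 : ℝ) ≤ A),
      mul_nonneg (by linarith : (0 : ℝ) ≤ A - 1) (by positivity : (0 : ℝ) ≤ (A : ℝ) * d),
      mul_nonneg (by positivity : (0:ℝ) ≤ A) (by linarith : (0 : ℝ) ≤ (d:ℝ) - 2),
      mul_nonneg (mul_nonneg (by positivity : (0:ℝ) ≤ A) (by linarith : (0 : ℝ) ≤ A - 1)) (by linarith : (0 : ℝ) ≤ (d:ℝ) - 2)]
  have e2 : (Δ : ℝ) ^ 2 / (2 * ((phi R₁ / d : ℕ) + 1)) ≤ 2 / A * Δ := by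
    have h1 : A ^ 2 * d ^ 2 ≤ phi R₁ + A * d := by omega
    have h2 : (phi R₁ : ℝ) ≤ d * ((phi R₁ / d : ℕ) + 1) := by
      have := Nat.lt_mul_div_succ (phi R₁) (by omega : 0 < d)
      exact_mod_cast this.le
    have h3 : (A : ℝ) ^ 2 * d ^ 2 ≤ phi R₁ + A * d := by exact_mod_cast h1
    have h4 : (A : ℝ) ^ 2 * d - A ≤ (phi R₁ / d : ℕ) + 1 := by
      have h5 : (d : ℝ) * (A ^ 2 * d - A) ≤ d * ((phi R₁ / d : ℕ) + 1) := by nlinarith
      exact le_of_mul_le_mul_left h5 (by linarith)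
    have hq : (0 : ℝ) < (phi R₁ / d : ℕ) + 1 := by positivity
    have h6 : (Δ : ℝ) ^ 2 / (2 * ((phi R₁ / d : ℕ) + 1)) =
        Δ / (2 * ((phi R₁ / d : ℕ) + 1)) * Δ := by ring
    rw [h6]
    refine mul_le_mul_of_nonneg_right ?_ hΔ0
    rw [div_le_div_iff₀ (by positivity) (by positivity)]
    have h7 : (A : ℝ) * (A * d + 1) ≤ 4 * (A ^ 2 * d - A) := by
      nlinarith [mul_nonneg (by linarith : (0 : ℝ) ≤ A - 1) (by linarith : (0 : ℝ) ≤ (d : ℝ) - 2),
        mul_nonneg (mul_nonneg (by positivity : (0:ℝ) ≤ A) (by linarith : (0 : ℝ) ≤ A - 1)) (by linarith : (0 : ℝ) ≤ (d:ℝ) - 2)]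
    nlinarith [mul_le_mul_of_nonneg_right hΔr (by positivity : (0 : ℝ) ≤ A)]
  have e3 : (4 / A - ε) * (Δ : ℝ) = 2 / A * Δ + 2 / A * Δ - ε * Δ := by ring
  calc Tw (Real.exp (-L)) R₁ R * Real.exp (-(FF A ε L R₁))
      ≤ Real.exp (-S + (ζ + (Δ : ℝ) / ((A ^ 2 * d : ℕ) : ℝ)) * Δ + Real.log ((Δ : ℝ) + 2) * Sm) *
        Real.exp (-(FF A ε L R₁)) := mul_le_mul_of_nonneg_right hT (Real.exp_pos _).le
    _ ≤ Real.exp (-(FF A ε L R)) * Real.exp ((4 / A - ε) * (Δ : ℝ)) := by
        rw [← Real.exp_add, ← Real.exp_add]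
        refine Real.exp_le_exp.2 ?_
        unfold FF
        rw [e3]
        nlinarith

open Classical in
/-- summation over sub-boxes by size -/
theorem sum_sub_le (R : BoxT n d) (I : Finset (BoxT n d)) (S : Finset ℕ) (g : BoxT n d → ℝ)
    (G : ℕ → ℝ) (θ : ℝ) (hθ0 : 0 < θ) (hθ1 : θ ≤ 1) (hI : ∀ R₁ ∈ I, SubBox R₁ R ∧ phi R₁ ≤ phi R)
    (hS : ∀ R₁ ∈ I, phi R - phi R₁ ∈ S) (hG : ∀ m, 0 ≤ G m)
    (hg : ∀ R₁ ∈ I, g R₁ ≤ G (phi R - phi R₁)) :
    ∑ R₁ ∈ I, g R₁ ≤ ∑ m ∈ S, Real.exp (θ * m + 2 * d * Real.log (2 / θ)) * G m := by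
  rw [← Finset.sum_fiberwise_of_maps_to (g := fun R₁ => phi R - phi R₁) hS]
  refine Finset.sum_le_sum fun m _ => ?_
  calc ∑ R₁ ∈ I with phi R - phi R₁ = m, g R₁
      ≤ ∑ R₁ ∈ I with phi R - phi R₁ = m, G m := by
        refine Finset.sum_le_sum fun R₁ hR₁ => ?_
        rw [Finset.mem_filter] at hR₁
        rw [← hR₁.2]
        exact hg R₁ hR₁.1
    _ = ((I.filter (fun R₁ => phi R - phi R₁ = m)).card : ℝ) * G m := by
        rw [Finset.sum_const, nsmul_eq_mul]
    _ ≤ _ := by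
        refine mul_le_mul_of_nonneg_right ?_ (hG m)
        refine le_trans ?_ (card_subbox R m θ hθ0 hθ1)
        have h1 : ((I.filter (fun R₁ => phi R - phi R₁ = m) : Finset (BoxT n d)) :
            Set (BoxT n d)) ⊆ {R₁ : BoxT n d | SubBox R₁ R ∧ phi R₁ + m = phi R} := by
          intro R₁ hR₁
          simp only [Finset.coe_filter, Set.mem_ofPred_eq] at hR₁ ⊢
          have := hI R₁ hR₁.1
          exact ⟨this.1, by omega⟩
        have h2 := Set.ncard_le_ncard h1 (Set.toFinite _)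
        rw [Set.ncard_coe_finset] at h2
        exact_mod_cast h2

/-- parameters -/
theorem exists_params (ε : ℝ) (hε0 : 0 < ε) : ∃ A : ℕ, 1 ≤ A ∧ 4 / (A : ℝ) ≤ ε / 8 ∧
    2 * Real.log (16 / ε) ≤ ε / 8 * A := by
  obtain ⟨A, hA⟩ := exists_nat_ge (max 1 (max (32 / ε) (2 * Real.log (16 / ε) * (8 / ε))))
  have h1 : (1 : ℝ) ≤ A := (le_max_left _ _).trans hA
  have h2 : 32 / ε ≤ A := ((le_max_left _ _).trans (le_max_right _ _)).trans hA
  have h3 : 2 * Real.log (16 / ε) * (8 / ε) ≤ A :=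
    ((le_max_right _ _).trans (le_max_right _ _)).trans hA
  refine ⟨A, by exact_mod_cast h1, ?_, ?_⟩
  · rw [div_le_iff₀ hε0] at h2
    rw [div_le_iff₀ (by linarith)]
    linarith
  · have h4 : 2 * Real.log (16 / ε) = 2 * Real.log (16 / ε) * (8 / ε) * (ε / 8) := by
      field_simp
    rw [h4, mul_comm (ε / 8)]
    exact mul_le_mul_of_nonneg_right h3 (by positivity)

theorem exists_large (ε : ℝ) (hε0 : 0 < ε) (A : ℕ) (hA : 1 ≤ A) : ∃ D : ℕ, ∀ d : ℕ, D ≤ d →
    Real.exp (-(5 * ε / 8 * (A * d))) ≤ 1 / 4 ∧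
    (A * d : ℝ) * Real.exp (-(7 / 8 * (A * d)) + A) ≤ 1 / 2 := by
  have hA' : (1 : ℝ) ≤ A := by exact_mod_cast hA
  obtain ⟨D, hD⟩ := exists_nat_ge (max (8 / (5 * ε) * 2) (8 * (A + 4)))
  refine ⟨D, fun d hd => ?_⟩
  have hd' : (D : ℝ) ≤ d := by exact_mod_cast hd
  have h1 : 8 / (5 * ε) * 2 ≤ d := ((le_max_left _ _).trans hD).trans hd'
  have h2 : 8 * ((A : ℝ) + 4) ≤ d := ((le_max_right _ _).trans hD).trans hd'
  have hdA : (d : ℝ) ≤ A * d := by nlinarith
  constructor
  · have h3 : 2 ≤ 5 * ε / 8 * (A * d) := by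
      have h4 : (2 : ℝ) = 5 * ε / 8 * (8 / (5 * ε) * 2) := by field_simp
      rw [h4]
      exact mul_le_mul_of_nonneg_left (h1.trans hdA) (by positivity)
    calc Real.exp (-(5 * ε / 8 * (A * d))) ≤ Real.exp (-2) := Real.exp_le_exp.2 (by linarith)
      _ ≤ 1 / 4 := by
        rw [show (-2 : ℝ) = -1 + -1 by norm_num, Real.exp_add, Real.exp_neg]
        have := Real.exp_one_gt_d9
        have h5 : (Real.exp 1)⁻¹ ≤ 1 / 2 := by
          rw [inv_le_comm₀ (Real.exp_pos _) (by norm_num)]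
          norm_num
          linarith
        have h6 : 0 < (Real.exp 1)⁻¹ := by positivity
        nlinarith
  · set x : ℝ := A * d with hx
    have hx0 : 0 ≤ x := by positivity
    have h3 : x ≤ 4 * Real.exp (x / 4) := by
      have := Real.add_one_le_exp (x / 4)
      linarith
    have h4 : (A : ℝ) + 4 ≤ x / 8 := by linarith
    calc x * Real.exp (-(7 / 8 * x) + A) ≤ 4 * Real.exp (x / 4) * Real.exp (-(7 / 8 * x) + A) :=
          mul_le_mul_of_nonneg_right h3 (Real.exp_pos _).le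
      _ = 4 * Real.exp (x / 4 + (-(7 / 8 * x) + A)) := by rw [mul_assoc, ← Real.exp_add]
      _ ≤ 4 * Real.exp (-4) := by
          refine mul_le_mul_of_nonneg_left (Real.exp_le_exp.2 ?_) (by norm_num)
          linarith
      _ ≤ 1 / 2 := by
          have h5 : Real.exp (-4) ≤ 1 / 8 := by
            rw [Real.exp_neg, inv_le_comm₀ (Real.exp_pos _) (by norm_num)]
            have h6 : Real.exp 4 = Real.exp 1 ^ 4 := by
              rw [← Real.exp_nat_mul]; norm_num
            rw [h6]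
            have h7 := Real.exp_one_gt_d9
            have h8 : (2 : ℝ) ^ 4 ≤ Real.exp 1 ^ 4 := by gcongr; linarith
            norm_num at h8 ⊢
            linarith
          linarith

theorem wt_sharp (ε : ℝ) (hε0 : 0 < ε) (hε1 : ε ≤ 1) : ∃ A D₀ : ℕ, 1 ≤ A ∧
    ∀ (n d k : ℕ) (L : ℝ), D₀ ≤ d →
    2 * (A ^ 2 * d ^ 2) ≤ k → sfun (d - 1) (k + A * d + 1) ≤ L → ∀ R : BoxT n d, R.1 ≤ R.2 →
    phi R ≤ k → wt (Real.exp (-L)) R ≤ Real.exp (-(FF A ε L R)) := by
  classical
  obtain ⟨A, hA, hA4, hAl⟩ := exists_params ε hε0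
  obtain ⟨D1, hD1⟩ := wt_small A hA
  obtain ⟨D2, hD2⟩ := Xw_le A hA
  obtain ⟨D3, hD3⟩ := exists_large ε hε0 A hA
  refine ⟨A, max (max D1 D2) (max D3 2), hA, fun n d k L hd hk hL => ?_⟩
  have hdD1 : D1 ≤ d := ((le_max_left _ _).trans (le_max_left _ _)).trans hd
  have hdD2 : D2 ≤ d := ((le_max_right _ _).trans (le_max_left _ _)).trans hd
  have hdD3 : D3 ≤ d := ((le_max_left _ _).trans (le_max_right _ _)).trans hd
  have hd2 : 2 ≤ d := ((le_max_right _ _).trans (le_max_right _ _)).trans hd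
  obtain ⟨hl1, hl2⟩ := hD3 d hdD3
  have hsm := hD1 n d k L ε hdD1 hε0.le hk
    ((sfun_mono (d - 1) (by omega) (by omega : k ≤ k + A * d + 1)).trans hL)
  intro R
  induction hm : phi R using Nat.strong_induction_on generalizing R with
  | _ m ih =>
    subst hm
    intro hR hRk
    rcases le_or_gt (phi R) (A ^ 2 * d ^ 2) with hle | hgt
    · exact hsm R hR hle
    have hAd : 1 ≤ A * d := Nat.one_le_iff_ne_zero.2 (by positivity)
    have hAd2 : A * d * 1 ≤ A * d * (A * d) := Nat.mul_le_mul_left _ hAd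
    have hAd3 : A * d * (A * d) = A ^ 2 * d ^ 2 := by ring
    have hdec := wt_decomp (Real.exp (-L)) (Real.exp_pos _).le R (A * d) hAd (by omega)
    refine hdec.trans ?_
    set F : ℝ := Real.exp (-(FF A ε L R)) with hF
    have hF0 : 0 < F := Real.exp_pos _
    have hA' : (1 : ℝ) ≤ A := by exact_mod_cast hA
    have hd' : (2 : ℝ) ≤ d := by exact_mod_cast hd2
    have hsub : ∀ R₁ : BoxT n d, SubBox R₁ R → phi R₁ ≤ phi R := fun R₁ h => by
      have := phi_eq_add R₁ R h
      omega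
    have hlog16 : 2 / (ε / 8) = 16 / ε := by
      field_simp
      norm_num
    -- the normal part
    have hnormal : ∑ R₁ : BoxT n d with
        (SubBox R₁ R ∧ phi R₁ + A * d ≤ phi R ∧ phi R ≤ phi R₁ + A * d + 1),
        wt (Real.exp (-L)) R₁ * Tw (Real.exp (-L)) R₁ R ≤ F / 2 := by
      have h1 := sum_sub_le R (Finset.univ.filter (fun R₁ : BoxT n d =>
          SubBox R₁ R ∧ phi R₁ + A * d ≤ phi R ∧ phi R ≤ phi R₁ + A * d + 1))
        {A * d, A * d + 1} (fun R₁ => wt (Real.exp (-L)) R₁ * Tw (Real.exp (-L)) R₁ R)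
        (fun m => F * Real.exp ((4 / A - ε) * m)) (ε / 8) (by positivity) (by linarith)
        (by
          intro R₁ hR₁
          simp only [Finset.mem_filter, Finset.mem_univ, true_and] at hR₁
          exact ⟨hR₁.1, hsub R₁ hR₁.1⟩)
        (by
          intro R₁ hR₁
          simp only [Finset.mem_filter, Finset.mem_univ, true_and] at hR₁
          simp only [Finset.mem_insert, Finset.mem_singleton]
          omega)
        (fun m => by positivity)
        (by
          intro R₁ hR₁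
          simp only [Finset.mem_filter, Finset.mem_univ, true_and] at hR₁
          have h2 := chunk_le A hA hd2 k ε L hε0.le hL R₁ R hR₁.1 hR₁.2.2 hgt hRk
          have h3 := ih (phi R₁) (by omega) R₁ rfl hR₁.1.1 (by omega)
          calc wt (Real.exp (-L)) R₁ * Tw (Real.exp (-L)) R₁ R
              ≤ Real.exp (-(FF A ε L R₁)) * Tw (Real.exp (-L)) R₁ R :=
                mul_le_mul_of_nonneg_right h3 (Tw_nonneg (Real.exp_pos _).le _ _)
            _ = Tw (Real.exp (-L)) R₁ R * Real.exp (-(FF A ε L R₁)) := mul_comm _ _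
            _ ≤ _ := h2)
      refine h1.trans ?_
      have h4 : ∀ m ∈ ({A * d, A * d + 1} : Finset ℕ),
          Real.exp (ε / 8 * m + 2 * d * Real.log (2 / (ε / 8))) *
            (F * Real.exp ((4 / A - ε) * m)) ≤ F * (1 / 4) := by
        intro m hm
        have hm1 : A * d ≤ m := by
          simp only [Finset.mem_insert, Finset.mem_singleton] at hm
          omega
        have hm1' : (A : ℝ) * d ≤ m := by exact_mod_cast hm1
        have e1 : Real.exp (ε / 8 * m + 2 * d * Real.log (2 / (ε / 8))) *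
            (F * Real.exp ((4 / A - ε) * m)) =
            F * Real.exp (ε / 8 * m + 2 * d * Real.log (2 / (ε / 8)) + (4 / A - ε) * m) := by
          rw [Real.exp_add (ε / 8 * m + _)]
          ring
        rw [e1, hlog16]
        refine mul_le_mul_of_nonneg_left ?_ hF0.le
        refine le_trans (Real.exp_le_exp.2 ?_) hl1
        have e2 : 2 * (d : ℝ) * Real.log (16 / ε) ≤ ε / 8 * (A * d) := by
          have := mul_le_mul_of_nonneg_right hAl (by linarith : (0 : ℝ) ≤ d)
          linarith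
        have e3 : (4 / (A : ℝ) - ε) * m ≤ (ε / 8 - ε) * m :=
          mul_le_mul_of_nonneg_right (by linarith) (by positivity)
        have e4 : 5 * ε / 8 * (A * d) + ε / 8 * (A * d) ≤ 6 * ε / 8 * m := by
          nlinarith
        nlinarith
      calc ∑ m ∈ ({A * d, A * d + 1} : Finset ℕ),
          Real.exp (ε / 8 * m + 2 * d * Real.log (2 / (ε / 8))) *
            (F * Real.exp ((4 / A - ε) * m))
          ≤ ∑ m ∈ ({A * d, A * d + 1} : Finset ℕ), F * (1 / 4) := Finset.sum_le_sum h4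
        _ = F / 2 := by
          rw [Finset.sum_const, Finset.card_pair (by omega), nsmul_eq_mul]
          push_cast
          ring
    -- the exceptional part
    have hexc : ∑ R₁ : BoxT n d with (SubBox R₁ R ∧ phi R < phi R₁ + A * d),
        Xw (Real.exp (-L)) R₁ * Tw (Real.exp (-L)) R₁ R ≤ F / 2 := by
      have h1 := sum_sub_le R (Finset.univ.filter (fun R₁ : BoxT n d =>
          SubBox R₁ R ∧ phi R < phi R₁ + A * d))
        (Finset.range (A * d)) (fun R₁ => Xw (Real.exp (-L)) R₁ * Tw (Real.exp (-L)) R₁ R)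
        (fun m => Real.exp (-(A * (d - 1))) * (F * Real.exp ((4 / A - ε) * m))) (ε / 8)
        (by positivity) (by linarith)
        (by
          intro R₁ hR₁
          simp only [Finset.mem_filter, Finset.mem_univ, true_and] at hR₁
          exact ⟨hR₁.1, hsub R₁ hR₁.1⟩)
        (by
          intro R₁ hR₁
          simp only [Finset.mem_filter, Finset.mem_univ, true_and] at hR₁
          rw [Finset.mem_range]
          have := hsub R₁ hR₁.1
          omega)
        (fun m => by positivity)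
        (by
          intro R₁ hR₁
          simp only [Finset.mem_filter, Finset.mem_univ, true_and] at hR₁
          have h0 := hsub R₁ hR₁.1
          have h2 := chunk_le A hA hd2 k ε L hε0.le hL R₁ R hR₁.1 (by omega) hgt hRk
          have h3 := hD2 n d k L ε hdD2 hε0.le hε1 hL R₁ hR₁.1.1 (by omega) (by omega)
            (fun Q hQ1 hQ2 => ih (phi Q) (by omega) Q rfl hQ1 (by omega))
          calc Xw (Real.exp (-L)) R₁ * Tw (Real.exp (-L)) R₁ R
              ≤ Real.exp (-(A * (d - 1))) * Real.exp (-(FF A ε L R₁)) *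
                Tw (Real.exp (-L)) R₁ R :=
                mul_le_mul_of_nonneg_right h3 (Tw_nonneg (Real.exp_pos _).le _ _)
            _ = Real.exp (-(A * (d - 1))) *
                (Tw (Real.exp (-L)) R₁ R * Real.exp (-(FF A ε L R₁))) := by ring
            _ ≤ _ := mul_le_mul_of_nonneg_left h2 (Real.exp_pos _).le)
      refine h1.trans ?_
      have h4 : ∀ m ∈ Finset.range (A * d),
          Real.exp (ε / 8 * m + 2 * d * Real.log (2 / (ε / 8))) *
            (Real.exp (-(A * (d - 1))) * (F * Real.exp ((4 / A - ε) * m))) ≤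
            F * Real.exp (-(7 / 8 * (A * d)) + A) := by
        intro m hm
        have e1 : Real.exp (ε / 8 * m + 2 * d * Real.log (2 / (ε / 8))) *
            (Real.exp (-(A * (d - 1))) * (F * Real.exp ((4 / A - ε) * m))) =
            F * Real.exp (ε / 8 * m + 2 * d * Real.log (2 / (ε / 8)) + -(A * (d - 1)) +
              (4 / A - ε) * m) := by
          rw [Real.exp_add (ε / 8 * m + _ + _), Real.exp_add (ε / 8 * m + _)]
          ring
        rw [e1, hlog16]
        refine mul_le_mul_of_nonneg_left (Real.exp_le_exp.2 ?_) hF0.le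
        have e2 : 2 * (d : ℝ) * Real.log (16 / ε) ≤ ε / 8 * (A * d) := by
          have := mul_le_mul_of_nonneg_right hAl (by linarith : (0 : ℝ) ≤ d)
          linarith
        have e3 : (4 / (A : ℝ) - ε) * m ≤ (ε / 8 - ε) * m :=
          mul_le_mul_of_nonneg_right (by linarith) (by positivity)
        have e4 : ε / 8 * (A * d) ≤ 1 / 8 * (A * d) :=
          mul_le_mul_of_nonneg_right (by linarith) (by positivity)
        have e5 : 0 ≤ ε * m := by positivity
        nlinarith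
      calc ∑ m ∈ Finset.range (A * d),
          Real.exp (ε / 8 * m + 2 * d * Real.log (2 / (ε / 8))) *
            (Real.exp (-(A * (d - 1))) * (F * Real.exp ((4 / A - ε) * m)))
          ≤ ∑ m ∈ Finset.range (A * d), F * Real.exp (-(7 / 8 * (A * d)) + A) :=
            Finset.sum_le_sum h4
        _ = F * ((A * d : ℝ) * Real.exp (-(7 / 8 * (A * d)) + A)) := by
          rw [Finset.sum_const, Finset.card_range, nsmul_eq_mul]
          push_cast
          ring
        _ ≤ F * (1 / 2) := mul_le_mul_of_nonneg_left hl2 hF0.le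
        _ = F / 2 := by ring
    linarith

end Pool.Agent.Lib.MP_8501c9_pr
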