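import Pool.Agent.Lib.MP_8501c9_pr.SharpDefs
import Pool.Agent.Lib.MP_8501c9_pr.Basic
import Pool.Agent.Lib.MP_8501c9_pr.Volume
import Pool.Agent.Lib.MP_8501c9_pr.Ell
import Pool.Agent.Lib.MP_8501c9_pr.Weight
import Pool.Agent.Lib.MP_8501c9_pr.PotB
import Pool.Agent.Lib.MP_8501c9_pr.PairCount
import Pool.Agent.Lib.MP_8501c9_pr.SharpWeight

/-!
# The sharp lower bound for the critical probability
-/

set_option autoImplicit false
open Set

namespace Pool.Agent.Lib.MP_8501c9_pr

variable {n d : ℕ}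

theorem log_factorial_le (Q : ℕ) :
    Real.log (Nat.factorial Q) ≤ (Q + 1) * Real.log (Q + 1) - Q := by
  induction Q with
  | zero => simp
  | succ Q ih =>
    rw [Nat.factorial_succ]
    push_cast
    rw [Real.log_mul (by positivity) (by positivity)]
    have h1 : 1 - ((Q : ℝ) + 1 + 1) ⁻¹ * (Q + 1) ≤ Real.log ((Q + 1 + 1) / (Q + 1)) := by
      have h2 := Real.one_sub_inv_le_log_of_pos (x := ((Q : ℝ) + 1 + 1) / (Q + 1)) (by positivity)
      refine le_trans (le_of_eq ?_) h2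
      field_simp
    rw [Real.log_div (by positivity) (by positivity)] at h1
    have h3 : ((Q : ℝ) + 1 + 1) * (1 - ((Q : ℝ) + 1 + 1) ⁻¹ * (Q + 1)) = 1 := by
      field_simp
      ring
    have h4 := mul_le_mul_of_nonneg_left h1 (by positivity : (0 : ℝ) ≤ (Q : ℝ) + 1 + 1)
    rw [h3] at h4
    linarith

theorem fb_add_le (d : ℕ) (hd : 2 ≤ d) (L : ℝ) (k m h : ℕ) (hL : ∀ t < k, Gb d t ≤ L)
    (hm : m < k) (hh : h < k) (hk : k ≤ m + h + 2) :
    L + fb d L (k - 2) ≤ fb d L m + fb d L h := by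
  unfold fb
  have hg : ∀ t < k, 0 ≤ L - Gb d t := fun t ht => by linarith [hL t ht]
  have h1 : ∑ t ∈ Finset.range (k - 2), (L - Gb d t) ≤
      ∑ t ∈ Finset.range m, (L - Gb d t) + ∑ t ∈ Finset.range h, (L - Gb d t) := by
    rcases le_total (k - 2) m with h2 | h2
    · have h3 : ∑ t ∈ Finset.range (k - 2), (L - Gb d t) ≤ ∑ t ∈ Finset.range m, (L - Gb d t) := by
        refine Finset.sum_le_sum_of_subset_of_nonneg ?_ ?_
        · intro t ht
          rw [Finset.mem_range] at ht ⊢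
          omega
        · intro t ht _
          rw [Finset.mem_range] at ht
          exact hg t (by omega)
      have h4 : 0 ≤ ∑ t ∈ Finset.range h, (L - Gb d t) := Finset.sum_nonneg fun t ht => by
        rw [Finset.mem_range] at ht
        exact hg t (by omega)
      linarith
    · have h3 : k - 2 = m + (k - 2 - m) := by omega
      rw [h3, Finset.sum_range_add]
      have h4 : ∑ x ∈ Finset.range (k - 2 - m), (L - Gb d (m + x)) ≤
          ∑ x ∈ Finset.range (k - 2 - m), (L - Gb d x) :=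
        Finset.sum_le_sum fun t _ => by
          have := Gb_mono d hd (by omega : t ≤ m + t)
          linarith
      have h5 : ∑ x ∈ Finset.range (k - 2 - m), (L - Gb d x) ≤
          ∑ t ∈ Finset.range h, (L - Gb d t) := by
        refine Finset.sum_le_sum_of_subset_of_nonneg ?_ ?_
        · intro t ht
          rw [Finset.mem_range] at ht ⊢
          omega
        · intro t ht _
          rw [Finset.mem_range] at ht
          exact hg t (by omega)
      linarith
  linarith

/-- value of the balanced potential -/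
theorem fb_mul (d Q : ℕ) (hd : 2 ≤ d) (L α : ℝ) (hα : 1 ≤ α) (hL : L = (d - 1) * Real.log α)
    (hQ : (Q : ℝ) + 1 ≤ α) :
    (d - 1) * d / 2 * (2 * Q - Q * (Q + 1) / α - 3 / 2 * Real.log α) ≤ fb d L (d * Q) := by
  have hd' : (2 : ℝ) ≤ d := by exact_mod_cast hd
  have hα0 : 0 < α := by linarith
  have hla : 0 ≤ Real.log α := Real.log_nonneg hα
  unfold fb
  rw [Finset.sum_sub_distrib, sum_Gb d Q hd]
  simp only [Finset.sum_const, Finset.card_range, nsmul_eq_mul]
  have h1 := log_factorial_le Q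
  have h2 : Real.log (Q + 1) ≤ Real.log α := Real.log_le_log (by positivity) hQ
  have h3 : 1 - ((Q : ℝ) + 1) / α ≤ Real.log α - Real.log (Q + 1) := by
    have h4 := Real.one_sub_inv_le_log_of_pos (x := α / ((Q : ℝ) + 1)) (by positivity)
    rw [Real.log_div (by positivity) (by positivity), inv_div] at h4
    exact h4
  have h5 : (Q : ℝ) * (1 - ((Q : ℝ) + 1) / α) ≤ Q * (Real.log α - Real.log (Q + 1)) :=
    mul_le_mul_of_nonneg_left h3 (Nat.cast_nonneg Q)
  have h6 : 2 * (Q : ℝ) - Q * (Q + 1) / α - 3 / 2 * Real.log α ≤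
      Q * Real.log α - Real.log (Nat.factorial Q) - Real.log (Q + 1) / 2 := by
    have h7 : (Q : ℝ) * (1 - ((Q : ℝ) + 1) / α) = Q - Q * (Q + 1) / α := by ring
    rw [h7] at h5
    linarith
  have h8 : 0 ≤ L := by
    rw [hL]
    exact mul_nonneg (by linarith) hla
  have h9 : (0 : ℝ) ≤ (d - 1) * d / 2 := by
    have : (0 : ℝ) ≤ d - 1 := by linarith
    positivity
  have h10 := mul_le_mul_of_nonneg_left h6 h9
  refine h10.trans ?_
  have h11 : L + (((d * Q : ℕ) : ℝ) * L -
      d * (d - 1) * (Real.log (Nat.factorial Q) + Real.log (Q + 1) / 2)) / 2 =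
      L + (d - 1) * d / 2 * (Q * Real.log α - Real.log (Nat.factorial Q) - Real.log (Q + 1) / 2) := by
    rw [hL]
    push_cast
    ring
  rw [h11]
  linarith

/-- the probability bound from the weights -/
theorem perc_lt_of (ε : ℝ) (hε0 : 0 < ε) (hε1 : ε ≤ 1) : ∃ A D₀ : ℕ, 1 ≤ A ∧ ∀ (n d Q : ℕ)
    (α L : ℝ), D₀ ≤ d → 2 ≤ n → 1 ≤ α → L = (d - 1) * Real.log α →
    2 * (A ^ 2 * d ^ 2) ≤ d * Q + 2 → (d * Q : ℝ) + A * d + 4 ≤ (d - 1) * (α - 1) →
    d * Q + 2 ≤ d * (n - 1) →
    d * Real.log n + 3 * d * Real.log (3 * (d * Q + 2) + 3) +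
      2 * (Mz A d * (A ^ 2 * d ^ 2) + ε * (d * Q + 2) +
        (2 * ((d * Q + 2) + A * d + 1) / (d - 1) + 5) + Real.log (A * d + 3) * (A ^ 2 * d ^ 2)) +
      1 ≤ (d - 1) * d / 2 * (2 * Q - Q * (Q + 1) / α - 3 / 2 * Real.log α) →
    ∀ p : ℝ, 0 ≤ p → p ≤ Real.exp (-L) → percProb n d 2 p < 1 / 2 := by
  obtain ⟨A, D1, hA, hD1⟩ := wt_sharp ε hε0 hε1
  refine ⟨A, max D1 2, hA, fun n d Q α L hd hn hα hL hQ1 hQ2 hQ3 hmain p hp0 hp => ?_⟩
  have hdD1 : D1 ≤ d := (le_max_left _ _).trans hd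
  have hd2 : 2 ≤ d := (le_max_right _ _).trans hd
  have hd' : (2 : ℝ) ≤ d := by exact_mod_cast hd2
  have hα0 : 0 < α := by linarith
  have hla : 0 ≤ Real.log α := Real.log_nonneg hα
  have hL0 : 0 ≤ L := by
    rw [hL]
    exact mul_nonneg (by linarith) hla
  have hn0 : (0 : ℝ) < n := by exact_mod_cast (by omega : 0 < n)
  have hN : ((d - 1 : ℕ) : ℝ) = d - 1 := by
    rw [Nat.cast_sub (by omega)]; simp
  set k : ℕ := d * Q + 2 with hk
  have hkr : (k : ℝ) = d * Q + 2 := by rw [hk]; push_cast; ring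
  -- the size condition
  have hsk : sfun (d - 1) (k + A * d + 1) ≤ L := by
    unfold sfun
    rw [hN, hL]
    refine mul_le_mul_of_nonneg_left ?_ (by linarith)
    refine (vfun_le_log (by
      have : (0 : ℝ) ≤ (d : ℝ) - 1 := by linarith
      positivity)).trans ?_
    refine Real.log_le_log (by
      have : (0 : ℝ) ≤ (d : ℝ) - 1 := by linarith
      positivity) ?_
    have h1 : ((k + A * d + 1 : ℕ) : ℝ) / (d - 1) ≤ α - 1 := by
      rw [div_le_iff₀ (by linarith)]
      push_cast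
      rw [hkr]
      linarith
    linarith
  have hGb : ∀ t < k, Gb d t ≤ L := fun t ht => by
    unfold Gb
    exact (sfun_mono (d - 1) (by omega)
      ((Nat.sub_le t (t / d)).trans (by omega : t ≤ k + A * d + 1))).trans hsk
  have hL1 : p ≤ 1 := hp.trans (Real.exp_le_one_iff.2 (by linarith))
  set E : ℝ := Mz A d * (A ^ 2 * d ^ 2) + ε * k + (2 * (k + A * d + 1) / (d - 1) + 5) +
      Real.log (A * d + 3) * (A ^ 2 * d ^ 2) with hE
  have hwt : ∀ R : BoxT n d, R.1 ≤ R.2 → phi R < k →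
      wt (Real.exp (-L)) R ≤ Real.exp (-(fb d L (phi R)) + E) := by
    intro R hR hRk
    refine (hD1 n d k L hdD1 hQ1 hsk R hR hRk.le).trans (Real.exp_le_exp.2 ?_)
    unfold FF
    have h1 := fb_le_Fmain hd2 L R hR
    have h2 := Ferr_le A hA hd2 ε L hε0.le k hsk R hRk.le
    rw [← hE] at h2
    linarith
  have hfb := fb_mul d Q hd2 L α hα hL (by
    have h1 : (d : ℝ) * Q ≤ d * (α - 1) := by
      have h2 : ((d : ℝ) - 1) * (α - 1) ≤ d * (α - 1) :=
        mul_le_mul_of_nonneg_right (by linarith) (by linarith)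
      have h3 : (0 : ℝ) ≤ A * d := by positivity
      linarith
    have h4 := le_of_mul_le_mul_left h1 (by linarith)
    linarith)
  set W : ℝ := Real.exp (-(L + fb d L (k - 2)) + 2 * E) with hW
  have hpm := percProb_le_max (n := n) (by omega : 1 ≤ d) p hp0 hL1 k (by omega) hQ3 W
    (Real.exp_pos _).le (by
      intro P h1 h2 h3 h4 h5
      calc wt p P.1 * wt p P.2 ≤ wt (Real.exp (-L)) P.1 * wt (Real.exp (-L)) P.2 :=
            mul_le_mul (wt_mono hp0 hp _) (wt_mono hp0 hp _) (wt_nonneg hp0 _)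
              (wt_nonneg (Real.exp_pos _).le _)
        _ ≤ Real.exp (-(fb d L (phi P.1)) + E) * Real.exp (-(fb d L (phi P.2)) + E) :=
            mul_le_mul (hwt P.1 h1 h3) (hwt P.2 h2 h4) (wt_nonneg (Real.exp_pos _).le _)
              (Real.exp_pos _).le
        _ ≤ W := by
            rw [hW, ← Real.exp_add]
            refine Real.exp_le_exp.2 ?_
            have := fb_add_le d hd2 L k (phi P.1) (phi P.2) hGb h3 h4 h5
            linarith)
  refine hpm.trans_lt ?_
  have hk2 : k - 2 = d * Q := by omega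
  rw [hW, hk2]
  have e1 : (n : ℝ) ^ d = Real.exp (d * Real.log n) := by
    rw [Real.exp_nat_mul, Real.exp_log hn0]
  have e2 : (3 * (k : ℝ) + 3) ^ (3 * d) = Real.exp (3 * d * Real.log (3 * k + 3)) := by
    have h1 : (3 * (d : ℝ)) = ((3 * d : ℕ) : ℝ) := by push_cast; ring
    rw [h1, Real.exp_nat_mul, Real.exp_log (by positivity)]
  rw [e1, e2, ← Real.exp_add, ← Real.exp_add]
  calc Real.exp (d * Real.log n + 3 * d * Real.log (3 * k + 3) + (-(L + fb d L (d * Q)) + 2 * E))
      ≤ Real.exp (-1) := by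
        refine Real.exp_le_exp.2 ?_
        rw [hE, hkr]
        linarith
    _ < 1 / 2 := by
        rw [Real.exp_neg]
        have := Real.exp_one_gt_d9
        rw [inv_lt_comm₀ (Real.exp_pos _) (by norm_num)]
        norm_num
        linarith

theorem sq_log_le (δ : ℝ) (hδ0 : 0 < δ) : ∃ D : ℝ, ∀ d x : ℝ, D ≤ d → 2 ≤ d → 0 < x →
    d ^ 2 * Real.log d ≤ δ / 32 * x → 2 * d ^ 2 * Real.log x ≤ δ / 4 * x := by
  obtain ⟨D, hD⟩ := exists_log_le 2 0 (δ / 8) (by positivity)
  refine ⟨D, fun d x hd hd2 hx h => ?_⟩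
  rcases le_or_gt x (d ^ 4) with h1 | h1
  · have h2 : Real.log x ≤ 4 * Real.log d := by
      have h3 := Real.log_le_log hx h1
      rw [Real.log_pow] at h3
      push_cast at h3
      exact h3
    have h4 : 2 * d ^ 2 * Real.log x ≤ 2 * d ^ 2 * (4 * Real.log d) :=
      mul_le_mul_of_nonneg_left h2 (by positivity)
    nlinarith
  · set y := Real.sqrt x with hy
    have hyx : y ^ 2 = x := Real.sq_sqrt hx.le
    have hy0 : 0 < y := Real.sqrt_pos.2 hx
    have hdy : d ^ 2 ≤ y := by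
      rw [hy]
      refine Real.le_sqrt_of_sq_le ?_
      calc (d ^ 2) ^ 2 = d ^ 4 := by ring
        _ ≤ x := h1.le
    have hDy : D ≤ y := by nlinarith
    have h5 := hD y hDy
    have h6 : Real.log y ≤ Real.log (4 * y) := Real.log_le_log hy0 (by linarith)
    have h7 : Real.log x = 2 * Real.log y := by
      rw [← hyx, Real.log_pow]
      push_cast
      ring
    have h8 : Real.log x ≤ δ / 8 * y := by rw [h7]; linarith
    have h9 : 0 ≤ Real.log x := by
      have : 1 ≤ x := by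
        have : (1 : ℝ) ≤ d ^ 4 := one_le_pow₀ (by linarith)
        linarith
      exact Real.log_nonneg this
    calc 2 * d ^ 2 * Real.log x ≤ 2 * y * Real.log x := by
          refine mul_le_mul_of_nonneg_right ?_ h9
          linarith
      _ ≤ 2 * y * (δ / 8 * y) := mul_le_mul_of_nonneg_left h8 (by positivity)
      _ = δ / 4 * y ^ 2 := by ring
      _ = δ / 4 * x := by rw [hyx]

/-- lower bound for the main term -/
theorem sharp_main (a d N x α q δ : ℝ) (ha : 1 ≤ a) (hd : 5 ≤ d) (hN : N = d - 1)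
    (hδ0 : 0 < δ) (hx : 1 ≤ x) (hda : (a + 4) ^ 2 ≤ d)
    (hα1 : 2 * (x * (1 + δ / N)) ≤ N * α) (hα2 : N * α ≤ 4 * x) (hdx : d ^ 2 ≤ x)
    (_hq0 : 0 ≤ q) (hq1 : d * q + a * d + 4 ≤ N * (α - 1))
    (hq2 : N * (α - 1) - a * d - 4 - d ≤ d * q) :
    d * x + δ * x - 4 * x / N - N * d - 3 / 4 * (N * d * Real.log x) ≤
      N * d / 2 * (2 * q - q * (q + 1) / α - 3 / 2 * Real.log α) := by
  have hN4 : 4 ≤ N := by linarith
  have hN0 : 0 < N := by linarith
  have hd0 : 0 < d := by linarith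
  have hx0 : 0 < x := by linarith
  have ha0 : 0 < a := by linarith
  have hα0 : 0 < α := by
    have h1 : 0 < N * α := lt_of_lt_of_le (by positivity) hα1
    exact (mul_pos_iff_of_pos_left hN0).1 h1
  have hlx0 : 0 ≤ Real.log x := Real.log_nonneg hx
  -- the size of `α`
  have hα4 : α ≤ x := by
    have h1 : N * α ≤ N * x := by
      have : 4 * x ≤ N * x := mul_le_mul_of_nonneg_right hN4 hx0.le
      linarith
    exact le_of_mul_le_mul_left h1 hN0
  have hlα : Real.log α ≤ Real.log x := Real.log_le_log hα0 hα4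
  have hαd : 2 * d ≤ α := by
    have h1 : 2 * x ≤ N * α := by
      have h2 : 0 ≤ x * (δ / N) := by positivity
      linarith
    have h2 : N * α ≤ d * α := mul_le_mul_of_nonneg_right (by linarith) hα0.le
    have h3 : d * (2 * d) ≤ d * α := by
      have : d * (2 * d) = 2 * d ^ 2 := by ring
      linarith
    exact le_of_mul_le_mul_left h3 hd0
  have hαa : 2 * (a + 4) ^ 2 ≤ α := by linarith
  have had : 0 ≤ a * d := by positivity
  -- `e = α - q`
  set e := α - q with he
  have he1 : d * e ≤ α + (a + 4) * d := by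
    have h1 : d * e = d * α - d * q := by rw [he]; ring
    have h2 : N * (α - 1) = d * α - α - d + 1 := by rw [hN]; ring
    rw [h1]
    linarith
  have he0 : 0 ≤ e := by
    have h1 : d * q ≤ d * α := by
      have h2 : N * (α - 1) = d * α - α - d + 1 := by rw [hN]; ring
      linarith
    have := le_of_mul_le_mul_left h1 hd0
    linarith
  have he2 : e ≤ α / d + (a + 4) := by
    have h1 : d * e ≤ d * (α / d + (a + 4)) := by
      rw [mul_add, mul_div_cancel₀ _ hd0.ne']
      linarith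
    exact le_of_mul_le_mul_left h1 hd0
  have he3 : e ^ 2 / α ≤ 2 * α / d ^ 2 + 1 := by
    rw [div_le_iff₀ hα0]
    have h1 : e ^ 2 ≤ (α / d + (a + 4)) ^ 2 := pow_le_pow_left₀ he0 he2 2
    have h2 : (α / d + (a + 4)) ^ 2 ≤ 2 * (α / d) ^ 2 + 2 * (a + 4) ^ 2 := by
      have := sq_nonneg (α / d - (a + 4))
      linarith
    have h3 : (2 * α / d ^ 2 + 1) * α = 2 * (α / d) ^ 2 + α := by
      field_simp
    rw [h3]
    linarith
  have hqα : q / α ≤ 1 := by
    rw [div_le_one hα0]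
    linarith
  have hmain : α - 2 * α / d ^ 2 - 2 - 3 / 2 * Real.log x ≤
      2 * q - q * (q + 1) / α - 3 / 2 * Real.log α := by
    have h1 : 2 * q - q * (q + 1) / α = α - e ^ 2 / α - q / α := by
      rw [he]
      field_simp
      ring
    rw [h1]
    linarith
  have hR : N * d / 2 * (α - 2 * α / d ^ 2 - 2 - 3 / 2 * Real.log x) ≤
      N * d / 2 * (2 * q - q * (q + 1) / α - 3 / 2 * Real.log α) :=
    mul_le_mul_of_nonneg_left hmain (by positivity)
  refine le_trans ?_ hR
  have e1 : N * d / 2 * (α - 2 * α / d ^ 2 - 2 - 3 / 2 * Real.log x) =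
      d / 2 * (N * α) - (N * α) / d - N * d - 3 / 4 * (N * d * Real.log x) := by
    field_simp
    ring
  rw [e1]
  have e2 : d * x + δ * x ≤ d / 2 * (N * α) := by
    have h1 : d / 2 * (2 * (x * (1 + δ / N))) ≤ d / 2 * (N * α) :=
      mul_le_mul_of_nonneg_left hα1 (by positivity)
    have h2 : δ * x ≤ d * (x * (δ / N)) := by
      have h3 : d * (x * (δ / N)) = δ * x * (d / N) := by ring
      rw [h3]
      have h4 : 1 ≤ d / N := by
        rw [le_div_iff₀ hN0]
        linarith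
      have h5 : δ * x * 1 ≤ δ * x * (d / N) := mul_le_mul_of_nonneg_left h4 (by positivity)
      linarith
    have h6 : d / 2 * (2 * (x * (1 + δ / N))) = d * x + d * (x * (δ / N)) := by ring
    linarith
  have e3 : (N * α) / d ≤ 4 * x / N := by
    calc (N * α) / d ≤ 4 * x / d := by gcongr
      _ ≤ 4 * x / N := by
        gcongr
        linarith
  linarith

/-- upper bound for the error terms -/
theorem sharp_error (a d N x α q δ : ℝ) (ha : 1 ≤ a) (hd : 5 ≤ d) (hN : N = d - 1)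
    (hδ0 : 0 < δ) (hx : 1 ≤ x) (hld : 1 ≤ Real.log d) (hα2 : N * α ≤ 4 * x)
    (hq0 : 0 ≤ q) (hq1 : d * q + a * d + 4 ≤ N * (α - 1)) :
    d * x + 3 * d * Real.log (3 * (d * q + 2) + 3) +
      2 * ((31 * Real.log (4 * d) + Real.log (a ^ 2 * d ^ 2) / 2) * (a ^ 2 * d ^ 2) +
        δ / 64 * (d * q + 2) +
        (2 * ((d * q + 2) + a * d + 1) / N + 5) + Real.log (a * d + 3) * (a ^ 2 * d ^ 2)) +
      1 ≤ d * x + 3 * d * (3 + Real.log x) + 2 * (79 + 2 * a) * a ^ 2 * (d ^ 2 * Real.log d) +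
        δ / 8 * x + 16 * x / N + 8 * a + 15 := by
  have hN4 : 4 ≤ N := by linarith
  have hN0 : 0 < N := by linarith
  have hd0 : 0 < d := by linarith
  have hx0 : 0 < x := by linarith
  have ha0 : 0 < a := by linarith
  have had : 0 ≤ a * d := by positivity
  -- `dq + 2 ≤ 4 x`
  have hq4 : d * q + 2 ≤ 4 * x - N - a * d := by
    have h2 : N * (α - 1) = N * α - N := by ring
    linarith
  -- the logarithms
  have f1 : Real.log (3 * (d * q + 2) + 3) ≤ 3 + Real.log x := by
    have h1 : Real.log (3 * (d * q + 2) + 3) ≤ Real.log (15 * x) :=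
      Real.log_le_log (by positivity) (by linarith)
    have h2 : Real.log (15 * x) = Real.log 15 + Real.log x :=
      Real.log_mul (by norm_num) hx0.ne'
    have h3 : Real.log 15 ≤ 3 := by
      rw [Real.log_le_iff_le_exp (by norm_num)]
      have h4 : Real.exp 3 = Real.exp 1 ^ 3 := by
        rw [← Real.exp_nat_mul]; norm_num
      rw [h4]
      have h5 := Real.exp_one_gt_d9
      have h6 : (2.7 : ℝ) ^ 3 ≤ Real.exp 1 ^ 3 := by gcongr; linarith
      norm_num at h6 ⊢
      linarith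
    linarith
  have hlog2 : Real.log 2 ≤ 0.7 := by linarith [Real.log_two_lt_d9]
  have hald : a ≤ a * Real.log d := le_mul_of_one_le_right ha0.le hld
  have f2 : 31 * Real.log (4 * d) + Real.log (a ^ 2 * d ^ 2) / 2 ≤ (76 + a) * Real.log d := by
    have h1 : Real.log (4 * d) = 2 * Real.log 2 + Real.log d := by
      rw [Real.log_mul (by norm_num) hd0.ne', show (4 : ℝ) = 2 ^ 2 by norm_num, Real.log_pow]
      push_cast
      ring
    have h2 : Real.log (a ^ 2 * d ^ 2) = 2 * Real.log a + 2 * Real.log d := by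
      rw [Real.log_mul (by positivity) (by positivity), Real.log_pow, Real.log_pow]
      push_cast
      ring
    have h3 : Real.log a ≤ a := (Real.log_le_sub_one_of_pos ha0).trans (by linarith)
    rw [h1, h2]
    linarith
  have f3 : Real.log (a * d + 3) ≤ (a + 3) * Real.log d := by
    have h1 : Real.log (a * d + 3) ≤ Real.log ((a + 3) * d) :=
      Real.log_le_log (by positivity) (by linarith)
    have h2 : Real.log ((a + 3) * d) = Real.log (a + 3) + Real.log d :=
      Real.log_mul (by positivity) hd0.ne'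
    have h3 : Real.log (a + 3) ≤ a + 2 :=
      (Real.log_le_sub_one_of_pos (by positivity)).trans (by linarith)
    linarith
  have f4 : (31 * Real.log (4 * d) + Real.log (a ^ 2 * d ^ 2) / 2) * (a ^ 2 * d ^ 2) ≤
      (76 + a) * Real.log d * (a ^ 2 * d ^ 2) := mul_le_mul_of_nonneg_right f2 (by positivity)
  have f5 : Real.log (a * d + 3) * (a ^ 2 * d ^ 2) ≤ (a + 3) * Real.log d * (a ^ 2 * d ^ 2) :=
    mul_le_mul_of_nonneg_right f3 (by positivity)
  have f6 : 2 * (2 * ((d * q + 2) + a * d + 1) / N) ≤ 16 * x / N + 8 * a + 4 := by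
    have h2 : 2 * (2 * ((d * q + 2) + a * d + 1) / N) = (4 * ((d * q + 2) + a * d + 1)) / N := by
      ring
    rw [h2, div_le_iff₀ hN0]
    have h1 : (16 * x / N + 8 * a + 4) * N = 16 * x + 8 * a * N + 4 * N := by
      field_simp
    rw [h1]
    have h3 : 0 ≤ a * N := by positivity
    linarith
  have f7 : 3 * d * Real.log (3 * (d * q + 2) + 3) ≤ 3 * d * (3 + Real.log x) :=
    mul_le_mul_of_nonneg_left f1 (by positivity)
  have f8 : 2 * (δ / 64 * (d * q + 2)) ≤ δ / 8 * x := by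
    have h1 : δ / 32 * (d * q + 2) ≤ δ / 32 * (4 * x) :=
      mul_le_mul_of_nonneg_left (by linarith) (by positivity)
    linarith
  have g6 : 2 * ((76 + a) * Real.log d * (a ^ 2 * d ^ 2) + (a + 3) * Real.log d * (a ^ 2 * d ^ 2)) =
      2 * (79 + 2 * a) * a ^ 2 * (d ^ 2 * Real.log d) := by ring
  linarith

/-- the numerical inequality -/
theorem sharp_numeric (a d N x α q δ : ℝ) (ha : 1 ≤ a) (hd : 5 ≤ d) (hN : N = d - 1)
    (hδ0 : 0 < δ) (hx : 1 ≤ x) (hda : (a + 4) ^ 2 ≤ d) (hNδ : 160 / δ ≤ N)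
    (hld : 1 ≤ Real.log d)
    (hx2 : (24 + 8 * a + 1 + 2 * (79 + 2 * a) * a ^ 2) * (d ^ 2 * Real.log d) ≤ δ / 4 * x)
    (hx3 : 2 * d ^ 2 * Real.log x ≤ δ / 4 * x)
    (hα1 : 2 * (x * (1 + δ / N)) ≤ N * α) (hα2 : N * α ≤ 4 * x) (hdx : d ^ 2 ≤ x)
    (hq0 : 0 ≤ q) (hq1 : d * q + a * d + 4 ≤ N * (α - 1))
    (hq2 : N * (α - 1) - a * d - 4 - d ≤ d * q) :
    d * x + 3 * d * Real.log (3 * (d * q + 2) + 3) +
      2 * ((31 * Real.log (4 * d) + Real.log (a ^ 2 * d ^ 2) / 2) * (a ^ 2 * d ^ 2) +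
        δ / 64 * (d * q + 2) +
        (2 * ((d * q + 2) + a * d + 1) / N + 5) + Real.log (a * d + 3) * (a ^ 2 * d ^ 2)) +
      1 ≤ N * d / 2 * (2 * q - q * (q + 1) / α - 3 / 2 * Real.log α) := by
  refine (sharp_error a d N x α q δ ha hd hN hδ0 hx hld hα2 hq0 hq1).trans
    (le_trans ?_ (sharp_main a d N x α q δ ha hd hN hδ0 hx hda hα1 hα2 hdx hq0 hq1 hq2))
  have hN4 : 4 ≤ N := by linarith
  have hN0 : 0 < N := by linarith
  have hd0 : 0 < d := by linarith
  have hx0 : 0 < x := by linarith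
  have ha0 : 0 < a := by linarith
  have hlx0 : 0 ≤ Real.log x := Real.log_nonneg hx
  have e4 : 20 * x / N ≤ δ / 8 * x := by
    rw [div_le_iff₀ hδ0] at hNδ
    rw [div_le_iff₀ hN0]
    have h1 : 160 * x ≤ N * δ * x := mul_le_mul_of_nonneg_right hNδ hx0.le
    linarith
  have hd2 : 5 * d ≤ d ^ 2 := by
    have : d * 5 ≤ d * d := mul_le_mul_of_nonneg_left hd hd0.le
    linarith
  have hdl : d ^ 2 ≤ d ^ 2 * Real.log d := le_mul_of_one_le_right (by positivity) hld
  have g2 : 3 * d * Real.log x ≤ d ^ 2 * Real.log x :=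
    mul_le_mul_of_nonneg_right (by linarith) hlx0
  have hNd : N * d ≤ d ^ 2 := by
    rw [hN]
    linarith
  have g4 : 3 / 4 * (N * d * Real.log x) ≤ d ^ 2 * Real.log x := by
    have h2 := mul_le_mul_of_nonneg_right hNd hlx0
    have h3 : 0 ≤ N * d * Real.log x := by positivity
    linarith
  have g5 : (8 * a + 15) * 1 ≤ (8 * a + 15) * (d ^ 2 * Real.log d) :=
    mul_le_mul_of_nonneg_left (by linarith) (by linarith)
  have g7 : 16 * x / N + 4 * x / N = 20 * x / N := by ring
  have g8 : 0 < δ * x := mul_pos hδ0 hx0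
  linarith

theorem sharp_lower (δ : ℝ) (hδ0 : 0 < δ) (hδ1 : δ ≤ 1) : ∃ D c : ℝ, 0 < c ∧ ∀ n d : ℕ, D ≤ d →
    (d : ℝ) ^ 2 * Real.log d ≤ c * Real.log n →
    Real.exp (-δ) * ((d - 1) / (2 * Real.log n)) ^ (d - 1) ≤ pc n d 2 := by
  obtain ⟨A, D1, hA, hD1⟩ := perc_lt_of (δ / 64) (by positivity) (by linarith)
  obtain ⟨D2, hD2⟩ := sq_log_le δ hδ0
  have hA' : (1 : ℝ) ≤ A := by exact_mod_cast hA
  set K : ℝ := 24 + 8 * A + 1 + 2 * (79 + 2 * A) * A ^ 2 with hK
  have hK0 : 25 ≤ K := by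
    have : 0 ≤ 2 * (79 + 2 * (A : ℝ)) * A ^ 2 := by positivity
    linarith
  have hKA : 2 * (A : ℝ) ^ 2 + A + 6 ≤ K := by
    have : 2 * (A : ℝ) ^ 2 ≤ 2 * (79 + 2 * (A : ℝ)) * A ^ 2 := by
      have h1 : (0 : ℝ) ≤ A ^ 2 := by positivity
      have h2 : 1 * (A : ℝ) ^ 2 ≤ (79 + 2 * (A : ℝ)) * A ^ 2 :=
        mul_le_mul_of_nonneg_right (by linarith) h1
      linarith
    linarith
  refine ⟨max (max D1 D2) (max (((A : ℝ) + 4) ^ 2) (160 / δ + 1)), δ / (4 * K), by positivity,
    fun n d hd hdn => ?_⟩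
  have hdD1 : D1 ≤ d := by
    have : (D1 : ℝ) ≤ d := ((le_max_left _ _).trans (le_max_left _ _)).trans hd
    exact_mod_cast this
  have hdD2 : D2 ≤ (d : ℝ) := ((le_max_right _ _).trans (le_max_left _ _)).trans hd
  have hda : ((A : ℝ) + 4) ^ 2 ≤ d := ((le_max_left _ _).trans (le_max_right _ _)).trans hd
  have hdδ : 160 / δ + 1 ≤ d := ((le_max_right _ _).trans (le_max_right _ _)).trans hd
  have h25 : (25 : ℝ) ≤ d := by
    refine le_trans ?_ hda
    have : (5 : ℝ) ^ 2 ≤ ((A : ℝ) + 4) ^ 2 := pow_le_pow_left₀ (by norm_num) (by linarith) 2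
    linarith
  have hd2 : 2 ≤ d := by
    have : (2 : ℝ) ≤ d := by linarith
    exact_mod_cast this
  have hd0 : (0 : ℝ) < d := by linarith
  have hld : 1 ≤ Real.log d := by
    rw [Real.le_log_iff_exp_le hd0]
    linarith [Real.exp_one_lt_d9]
  set x := Real.log n with hx
  set N : ℝ := d - 1 with hN
  have hN0 : 0 < N := by linarith
  have hNN : ((d - 1 : ℕ) : ℝ) = N := by
    rw [Nat.cast_sub (by omega)]; simp [hN]
  have hd2ld : (d : ℝ) ^ 2 ≤ d ^ 2 * Real.log d := le_mul_of_one_le_right (by positivity) hld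
  -- `x` is large
  have hKx : K * ((d : ℝ) ^ 2 * Real.log d) ≤ δ / 4 * x := by
    have h1 := mul_le_mul_of_nonneg_left hdn (by linarith : (0 : ℝ) ≤ K)
    have h2 : K * (δ / (4 * K) * x) = δ / 4 * x := by field_simp
    linarith
  have hx25 : K * (d : ℝ) ^ 2 ≤ δ / 4 * x :=
    (mul_le_mul_of_nonneg_left hd2ld (by linarith)).trans hKx
  have hd25 : (625 : ℝ) ≤ d ^ 2 := by
    have := mul_le_mul h25 h25 (by norm_num) hd0.le
    linarith
  have hx0 : 0 < x := by
    by_contra hcon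
    push Not at hcon
    have h1 : δ / 4 * x ≤ 0 := mul_nonpos_of_nonneg_of_nonpos (by positivity) hcon
    have h2 : 0 < K * (d : ℝ) ^ 2 := by positivity
    linarith
  have hxx : 4 * (K * (d : ℝ) ^ 2) ≤ x := by
    have h1 : δ / 4 * x ≤ 1 / 4 * x := mul_le_mul_of_nonneg_right (by linarith) hx0.le
    linarith
  have hKd : 25 * (d : ℝ) ^ 2 ≤ K * d ^ 2 := mul_le_mul_of_nonneg_right hK0 (by positivity)
  have hdx : (d : ℝ) ^ 2 ≤ x := by linarith
  have hx6 : 6 ≤ x := by linarith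
  have hn0 : (0 : ℝ) < n := by
    rcases Nat.eq_zero_or_pos n with h | h
    · rw [h] at hx
      simp at hx
      linarith
    · exact_mod_cast h
  have hnx : Real.exp x = n := Real.exp_log hn0
  have hn4 : 4 * x + 1 ≤ n := by
    rw [← hnx]
    have h1 := Real.quadratic_le_exp_of_nonneg hx0.le
    have h2 : 6 * x ≤ x ^ 2 := by
      have := mul_le_mul_of_nonneg_right hx6 hx0.le
      linarith
    linarith
  have hn2 : 2 ≤ n := by
    have : (2 : ℝ) ≤ n := by linarith
    exact_mod_cast this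
  -- `α`
  set α : ℝ := 2 * x / N * Real.exp (δ / N) with hα
  have hNα : N * α = 2 * x * Real.exp (δ / N) := by
    rw [hα]
    field_simp
  have he1 : 1 + δ / N ≤ Real.exp (δ / N) := by linarith [Real.add_one_le_exp (δ / N)]
  have he2 : Real.exp (δ / N) ≤ 2 := by
    have h1 : δ / N ≤ Real.log 2 := by
      have h2 : δ / N ≤ 1 / 2 := by
        rw [div_le_iff₀ hN0]
        linarith
      linarith [Real.log_two_gt_d9]
    calc Real.exp (δ / N) ≤ Real.exp (Real.log 2) := Real.exp_le_exp.2 h1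
      _ = 2 := Real.exp_log (by norm_num)
  have hα1 : 2 * (x * (1 + δ / N)) ≤ N * α := by
    rw [hNα]
    have := mul_le_mul_of_nonneg_left he1 (by linarith : (0 : ℝ) ≤ 2 * x)
    linarith
  have hα2 : N * α ≤ 4 * x := by
    rw [hNα]
    have := mul_le_mul_of_nonneg_left he2 (by linarith : (0 : ℝ) ≤ 2 * x)
    linarith
  have h2x : 2 * x ≤ N * α := by
    have : 0 ≤ x * (δ / N) := by positivity
    linarith
  have hα0 : 0 < α := by positivity
  have hdd : (d : ℝ) ≤ d ^ 2 := by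
    have := mul_le_mul_of_nonneg_left (by linarith : (1 : ℝ) ≤ d) hd0.le
    linarith
  have hα1' : 1 ≤ α := by
    have h1 : N * 1 ≤ N * α := by linarith
    exact le_of_mul_le_mul_left h1 hN0
  set L : ℝ := (d - 1) * Real.log α with hL
  -- `Q`
  set T : ℝ := N * (α - 1) - A * d - 4 with hT
  have hA2 : 2 * (A : ℝ) ^ 2 * d ^ 2 + A * d + 6 * d ≤ K * d ^ 2 := by
    have h1 := mul_le_mul_of_nonneg_right hKA (by positivity : (0 : ℝ) ≤ (d : ℝ) ^ 2)
    have h2 : (A : ℝ) * d ≤ A * d ^ 2 := mul_le_mul_of_nonneg_left hdd (by linarith)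
    linarith
  have hKd0 : 0 ≤ K * (d : ℝ) ^ 2 := by positivity
  have hTd : 2 * (A : ℝ) ^ 2 * d ^ 2 + d ≤ T := by
    have h1 : N * (α - 1) = N * α - N := by ring
    rw [hT, h1]
    linarith
  have hT0 : 0 ≤ T := by
    have : 0 ≤ 2 * (A : ℝ) ^ 2 * d ^ 2 := by positivity
    linarith
  set Q : ℕ := ⌊T / d⌋₊ with hQ
  have hQ1 : (d : ℝ) * Q ≤ T := by
    have h1 : (Q : ℝ) ≤ T / d := Nat.floor_le (by positivity)
    rw [le_div_iff₀ hd0] at h1
    linarith
  have hQ2 : T - d ≤ d * Q := by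
    have h1 : T / d < Q + 1 := Nat.lt_floor_add_one _
    rw [div_lt_iff₀ hd0] at h1
    linarith
  have hperc := hD1 n d Q α L hdD1 hn2 hα1' hL
    (by
      have h1 : (2 * ((A : ℝ) ^ 2 * d ^ 2)) ≤ d * Q + 2 := by linarith
      exact_mod_cast h1)
    (by
      rw [hT] at hQ1
      linarith)
    (by
      have h1 : ((d * Q + 2 : ℕ) : ℝ) ≤ ((d * (n - 1) : ℕ) : ℝ) := by
        push_cast
        rw [Nat.cast_sub (by omega)]
        push_cast
        have h2 : N * (α - 1) = N * α - N := by ring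
        have h3 : (4 : ℝ) * x ≤ d * (n - 1) := by
          have h4 : (1 : ℝ) * (n - 1) ≤ d * (n - 1) :=
            mul_le_mul_of_nonneg_right (by linarith) (by linarith)
          linarith
        have h5 : (0 : ℝ) ≤ A * d := by positivity
        linarith
      exact_mod_cast h1)
    (by
      have h1 := sharp_numeric A d N x α Q δ hA' (by linarith) hN hδ0 (by linarith) hda
        (by linarith) hld (by rw [← hK]; exact hKx)
        (hD2 d x hdD2 (by linarith) hx0 (by
          refine hdn.trans (mul_le_mul_of_nonneg_right ?_ hx0.le)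
          refine div_le_div_of_nonneg_left hδ0.le (by norm_num) ?_
          linarith))
        hα1 hα2 hdx (Nat.cast_nonneg Q) (by rw [hT] at hQ1; linarith) (by rw [hT] at hQ2; linarith)
      unfold Mz
      exact h1)
  have hpc := le_pc_of n d (Real.exp (-L)) hperc
  refine le_trans (le_of_eq ?_) hpc
  have e1 : L = δ + (d - 1 : ℕ) * Real.log (2 * x / N) := by
    rw [hL, hα, Real.log_mul (by positivity) (Real.exp_pos _).ne', Real.log_exp, hNN, ← hN]
    field_simp
    ring
  rw [e1, neg_add, Real.exp_add]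
  congr 1
  rw [Real.exp_neg, Real.exp_nat_mul, Real.exp_log (by positivity), ← inv_pow, inv_div]

end Pool.Agent.Lib.MP_8501c9_pr
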