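import Pool.Agent.Lib.MP_8501c9_pr.UpperII

/-!
# Task SK: the sharp upper bound for the critical probability when `log n` is much larger than
`d ^ 2 * log d`
-/

set_option autoImplicit false
open Set

namespace Pool.Agent.Lib.MP_8501c9_pr

section SharpUpper

/-- Bernoulli, telescoped: sum of powers of odd numbers -/
theorem sum_odd_pow_le (N m : ℕ) :
    2 * ((N : ℝ) + 1) * ∑ q ∈ Finset.range m, (2 * (q : ℝ) + 1) ^ N ≤ (2 * m + 1) ^ (N + 1) := by
  induction m with
  | zero => simp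
  | succ m ih =>
    rw [Finset.sum_range_succ, mul_add]
    have hu : (0 : ℝ) < 2 * m + 1 := by positivity
    have e1 : (2 * ((m + 1 : ℕ) : ℝ) + 1) = (2 * m + 1) + 2 := by push_cast; ring
    rw [e1]
    set u : ℝ := 2 * m + 1 with hu'
    have h1 := one_add_mul_le_pow (a := 2 / u) (by
      have : 0 < 2 / u := by positivity
      linarith) (N + 1)
    have h2 := mul_le_mul_of_nonneg_left h1 (pow_pos hu (N + 1)).le
    rw [← mul_pow] at h2
    have e2 : u * (1 + 2 / u) = u + 2 := by field_simp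
    rw [e2] at h2
    have e3 : u ^ (N + 1) * (1 + ((N + 1 : ℕ) : ℝ) * (2 / u)) = u ^ (N + 1) +
        2 * ((N : ℝ) + 1) * u ^ N := by
      rw [pow_succ]
      push_cast
      field_simp
    rw [e3] at h2
    linarith

/-- the part below `α` -/
theorem sum_low_le (α : ℝ) (hα : 1 ≤ α) (N : ℕ) (Q : ℕ) :
    ∑ q ∈ Finset.range Q, (if 2 * (q : ℝ) + 1 ≤ α then ((2 * (q : ℝ) + 1) / α) ^ N else 0) ≤
      1 + α / (2 * (N + 1)) := by
  have hα0 : 0 < α := by linarith
  have hN : (0 : ℝ) < 2 * (N + 1) := by positivity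
  induction Q with
  | zero => simp; positivity
  | succ Q ih =>
    by_cases h : 2 * (Q : ℝ) + 1 ≤ α
    · have : ∑ q ∈ Finset.range (Q + 1),
          (if 2 * (q : ℝ) + 1 ≤ α then ((2 * (q : ℝ) + 1) / α) ^ N else 0) =
          ∑ q ∈ Finset.range (Q + 1), ((2 * (q : ℝ) + 1) / α) ^ N := by
        refine Finset.sum_congr rfl fun q hq => ?_
        have h1 : q ≤ Q := Nat.lt_succ_iff.1 (Finset.mem_range.1 hq)
        have h2 : (q : ℝ) ≤ Q := by exact_mod_cast h1
        rw [if_pos (by linarith)]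
      rw [this, Finset.sum_range_succ]
      have h3 : ((2 * (Q : ℝ) + 1) / α) ^ N ≤ 1 :=
        pow_le_one₀ (by positivity) ((div_le_one hα0).2 h)
      have h4 : ∑ q ∈ Finset.range Q, ((2 * (q : ℝ) + 1) / α) ^ N ≤ α / (2 * (N + 1)) := by
        rw [le_div_iff₀ hN]
        simp only [div_pow]
        rw [← Finset.sum_div, div_mul_eq_mul_div, div_le_iff₀ (by positivity)]
        have h5 := sum_odd_pow_le N Q
        have h6 : (2 * (Q : ℝ) + 1) ^ (N + 1) ≤ α ^ (N + 1) :=
          pow_le_pow_left₀ (by positivity) h _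
        rw [pow_succ α N] at h6
        linarith
      linarith
    · rw [Finset.sum_range_succ, if_neg h, add_zero]
      exact ih

/-- the part above `α` -/
theorem sum_high_le (α : ℝ) (hα : 1 ≤ α) (N : ℕ) (hN : 1 ≤ N) (Q : ℕ) :
    ∑ q ∈ Finset.range Q,
      (if 2 * (q : ℝ) + 1 ≤ α then 0 else (α / (2 * (q : ℝ) + 1)) ^ (N + 1)) ≤
      1 + α / (2 * N) := by
  have hα0 : 0 < α := by linarith
  have hN0 : (0 : ℝ) < N := by exact_mod_cast hN
  have key : ∀ Q : ℕ, ∑ q ∈ Finset.range Q,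
      (if 2 * (q : ℝ) + 1 ≤ α then 0 else (α / (2 * (q : ℝ) + 1)) ^ (N + 1)) ≤
      1 + α / (2 * N) - (if 2 * (Q : ℝ) - 1 ≤ α then 0 else
        α * (α / (2 * Q - 1)) ^ N / (2 * N)) := by
    intro Q
    induction Q with
    | zero =>
      simp only [Finset.range_zero, Finset.sum_empty, Nat.cast_zero, mul_zero, zero_sub]
      rw [if_pos (by linarith)]
      have : 0 ≤ α / (2 * N) := by positivity
      linarith
    | succ Q ih =>
      rw [Finset.sum_range_succ]
      have e1 : 2 * ((Q + 1 : ℕ) : ℝ) - 1 = 2 * Q + 1 := by push_cast; ring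
      rw [e1]
      by_cases h : 2 * (Q : ℝ) + 1 ≤ α
      · rw [if_pos h, if_pos h, add_zero, sub_zero]
        rw [if_pos (by linarith), sub_zero] at ih
        exact ih
      · rw [if_neg h, if_neg h]
        push Not at h
        by_cases h' : 2 * (Q : ℝ) - 1 ≤ α
        · -- all previous terms vanish
          have h0 : ∑ q ∈ Finset.range Q,
              (if 2 * (q : ℝ) + 1 ≤ α then 0 else (α / (2 * (q : ℝ) + 1)) ^ (N + 1)) = 0 := by
            refine Finset.sum_eq_zero fun q hq => ?_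
            have h1 : q + 1 ≤ Q := Finset.mem_range.1 hq
            have h2 : (q : ℝ) + 1 ≤ Q := by exact_mod_cast h1
            rw [if_pos (by linarith)]
          rw [h0, zero_add]
          have hx1 : α / (2 * (Q : ℝ) + 1) ≤ 1 := (div_le_one (by positivity)).2 h.le
          have hx0 : 0 ≤ α / (2 * (Q : ℝ) + 1) := by positivity
          have h3 : (α / (2 * (Q : ℝ) + 1)) ^ (N + 1) ≤ 1 := pow_le_one₀ hx0 hx1
          have h4 : α * (α / (2 * (Q : ℝ) + 1)) ^ N / (2 * N) ≤ α / (2 * N) := by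
            refine div_le_div_of_nonneg_right ?_ (by positivity)
            exact mul_le_of_le_one_right hα0.le (pow_le_one₀ hx0 hx1)
          linarith
        · rw [if_neg h'] at ih
          push Not at h'
          have hw : 0 < 2 * (Q : ℝ) - 1 := by linarith
          have hw2 : 0 < 2 * (Q : ℝ) + 1 := by linarith
          -- the telescoping inequality
          have h5 : (α / (2 * (Q : ℝ) + 1)) ^ (N + 1) + α * (α / (2 * (Q : ℝ) + 1)) ^ N / (2 * N) ≤
              α * (α / (2 * (Q : ℝ) - 1)) ^ N / (2 * N) := by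
            set w : ℝ := 2 * (Q : ℝ) - 1 with hw'
            have e2 : 2 * (Q : ℝ) + 1 = w + 2 := by rw [hw']; ring
            rw [e2]
            have hw3 : 0 < w + 2 := by linarith
            have h6 := one_add_mul_le_pow (a := 2 / w) (by
              have : 0 < 2 / w := by positivity
              linarith) N
            have e3 : (1 + 2 / w) = (w + 2) / w := by field_simp
            rw [e3] at h6
            have h7 : 1 + N * (2 / (w + 2)) ≤ ((w + 2) / w) ^ N := by
              refine le_trans ?_ h6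
              have : 2 / (w + 2) ≤ 2 / w := div_le_div_of_nonneg_left (by norm_num) hw (by linarith)
              have := mul_le_mul_of_nonneg_left this hN0.le
              linarith
            have h8 : (α / w) ^ N = (α / (w + 2)) ^ N * ((w + 2) / w) ^ N := by
              rw [← mul_pow]
              congr 1
              field_simp
            rw [h8]
            have h9 : 0 ≤ (α / (w + 2)) ^ N := by positivity
            have h10 := mul_le_mul_of_nonneg_left h7 h9
            have h11 : (α / (w + 2)) ^ (N + 1) + α * (α / (w + 2)) ^ N / (2 * N) =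
              α * ((α / (w + 2)) ^ N * (1 + N * (2 / (w + 2)))) / (2 * N) := by
              rw [pow_succ]
              field_simp
              ring
            rw [h11]
            refine div_le_div_of_nonneg_right ?_ (by positivity)
            exact mul_le_mul_of_nonneg_left h10 hα0.le
          linarith
  refine (key Q).trans ?_
  split_ifs with h
  · linarith
  · push Not at h
    have : 0 ≤ α * (α / (2 * (Q : ℝ) - 1)) ^ N / (2 * N) := by
      have : 0 < 2 * (Q : ℝ) - 1 := by linarith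
      positivity
    linarith

theorem sum_log_one_add_le' (α : ℝ) (hα : 1 ≤ α) (N : ℕ) (hN : 1 ≤ N) (Q : ℕ) :
    ∑ q ∈ Finset.range Q, Real.log (1 + (α / (2 * q + 1)) ^ (N + 1)) ≤
      (N + 1) * ((α + Real.log α) / 2) + (2 + α / N) := by
  have hα0 : 0 < α := by linarith
  have hN0 : (0 : ℝ) < N := by exact_mod_cast hN
  have h1 : ∀ q ∈ Finset.range Q, Real.log (1 + (α / (2 * q + 1)) ^ (N + 1)) ≤
      (N + 1) * max 0 (Real.log (α / (2 * q + 1))) +
      ((if 2 * (q : ℝ) + 1 ≤ α then ((2 * (q : ℝ) + 1) / α) ^ (N + 1) else 0) +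
      (if 2 * (q : ℝ) + 1 ≤ α then 0 else (α / (2 * (q : ℝ) + 1)) ^ (N + 1))) := by
    intro q _
    have hu : (0 : ℝ) < 2 * q + 1 := by positivity
    set u : ℝ := 2 * q + 1 with hu'
    by_cases h : u ≤ α
    · rw [if_pos h, if_pos h, add_zero]
      have hx : 1 ≤ α / u := (one_le_div hu).2 h
      have hl : 0 ≤ Real.log (α / u) := Real.log_nonneg hx
      rw [max_eq_right hl]
      have e1 : 1 + (α / u) ^ (N + 1) = (α / u) ^ (N + 1) * (1 + (u / α) ^ (N + 1)) := by
        rw [mul_add, ← mul_pow, mul_one]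
        have : α / u * (u / α) = 1 := by field_simp
        rw [this, one_pow]
        ring
      rw [e1, Real.log_mul (by positivity) (by positivity), Real.log_pow]
      have := Real.log_le_sub_one_of_pos (x := 1 + (u / α) ^ (N + 1)) (by positivity)
      push_cast
      linarith
    · rw [if_neg h, if_neg h, zero_add]
      push Not at h
      have hx : α / u ≤ 1 := (div_le_one hu).2 h.le
      have hx0 : 0 ≤ α / u := by positivity
      have hl : Real.log (α / u) ≤ 0 := Real.log_nonpos hx0 hx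
      rw [max_eq_left hl]
      have := Real.log_le_sub_one_of_pos (x := 1 + (α / u) ^ (N + 1)) (by positivity)
      linarith
  refine (Finset.sum_le_sum h1).trans ?_
  rw [Finset.sum_add_distrib, ← Finset.mul_sum, Finset.sum_add_distrib]
  have h2 := sum_max_log_odd_le α hα Q
  have h3 := sum_low_le α hα (N + 1) Q
  have h4 := sum_high_le α hα N hN Q
  have h5 : α / (2 * (((N + 1 : ℕ) : ℝ) + 1)) ≤ α / (2 * N) := by
    refine div_le_div_of_nonneg_left hα0.le (by positivity) ?_
    push_cast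
    linarith
  have h6 : α / N = α / (2 * N) + α / (2 * N) := by field_simp; ring
  have h7 := mul_le_mul_of_nonneg_left h2 (by positivity : (0 : ℝ) ≤ (N : ℝ) + 1)
  linarith

theorem sharp_c_le {δ : ℝ} (hδ0 : 0 < δ) (hδ1 : δ ≤ 1) : (δ / 32) ^ 2 ≤ δ / 32 := by
  have h1 : δ / 32 ≤ 1 := by linarith
  have h2 : 0 ≤ δ / 32 := by positivity
  rw [pow_two]
  exact mul_le_of_le_one_left h2 h1

theorem sharp_x {δ d x : ℝ} (hδ0 : 0 < δ) (hδ1 : δ ≤ 1) (hd100 : 100 ≤ d)
    (hx : d ^ 2 * Real.log d ≤ (δ / 32) ^ 2 * x) :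
    0 < x ∧ d ^ 2 ≤ (δ / 32) ^ 2 * x ∧ d ^ 2 ≤ x := by
  have hd0 : 0 < d := by linarith
  have hlogd : 1 ≤ Real.log d := by
    rw [Real.le_log_iff_exp_le hd0]
    have := Real.exp_one_lt_d9
    linarith
  have hc0 : 0 < (δ / 32) ^ 2 := by positivity
  have hc1 : (δ / 32) ^ 2 ≤ 1 := (sharp_c_le hδ0 hδ1).trans (by linarith)
  have hd2 : 0 < d ^ 2 := by positivity
  have h1 : d ^ 2 ≤ (δ / 32) ^ 2 * x := by
    have := mul_le_mul_of_nonneg_left hlogd hd2.le
    linarith
  have hx0 : 0 < x := by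
    by_contra h
    push Not at h
    have := mul_nonpos_of_nonneg_of_nonpos hc0.le h
    linarith
  refine ⟨hx0, h1, ?_⟩
  have := mul_le_mul_of_nonneg_right hc1 hx0.le
  linarith

/-- `d ^ 2 * log x` is small -/
theorem sharp_log {δ d x : ℝ} (hδ0 : 0 < δ) (hδ1 : δ ≤ 1) (hd100 : 100 ≤ d)
    (hx : d ^ 2 * Real.log d ≤ (δ / 32) ^ 2 * x) : d ^ 2 * Real.log x ≤ δ / 8 * x := by
  have hd0 : 0 < d := by linarith
  obtain ⟨hx0, hd2x, hd2x'⟩ := sharp_x hδ0 hδ1 hd100 hx
  have hlogd : 1 ≤ Real.log d := by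
    rw [Real.le_log_iff_exp_le hd0]
    have := Real.exp_one_lt_d9
    linarith
  obtain ⟨y, hxy⟩ : ∃ y, x = d ^ 2 * y := ⟨x / d ^ 2, by field_simp⟩
  have hy0 : 0 < y := by
    by_contra h
    push Not at h
    have := mul_nonpos_of_nonneg_of_nonpos (sq_nonneg d) h
    linarith
  have hlog : Real.log x = 2 * Real.log d + Real.log y := by
    rw [hxy, Real.log_mul (by positivity) (by positivity), Real.log_pow]
    norm_num
  have h1 : Real.log d ≤ (δ / 32) ^ 2 * y := by
    have h2 : d ^ 2 * Real.log d ≤ d ^ 2 * ((δ / 32) ^ 2 * y) := by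
      calc d ^ 2 * Real.log d ≤ (δ / 32) ^ 2 * x := hx
        _ = d ^ 2 * ((δ / 32) ^ 2 * y) := by rw [hxy]; ring
    exact le_of_mul_le_mul_left h2 (by positivity)
  -- log y ≤ 2 sqrt y
  have h3 : Real.log y ≤ 2 * Real.sqrt y := by
    have h4 := Real.log_le_sub_one_of_pos (x := Real.sqrt y) (Real.sqrt_pos.2 hy0)
    rw [Real.log_sqrt hy0.le] at h4
    linarith
  -- sqrt y ≤ (δ/32) y  since (δ/32)^2 y ≥ 1
  have h5 : Real.sqrt y ≤ δ / 32 * y := by
    rw [Real.sqrt_le_left (by positivity)]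
    have h6 : 1 ≤ (δ / 32) ^ 2 * y := by linarith
    have h7 : (δ / 32 * y) ^ 2 = (δ / 32) ^ 2 * y * y := by ring
    rw [h7]
    exact le_mul_of_one_le_left hy0.le h6
  have h9 : Real.log x ≤ δ / 8 * y := by
    rw [hlog]
    have h10 := mul_le_mul_of_nonneg_right (sharp_c_le hδ0 hδ1) hy0.le
    linarith
  calc d ^ 2 * Real.log x ≤ d ^ 2 * (δ / 8 * y) := mul_le_mul_of_nonneg_left h9 (by positivity)
    _ = δ / 8 * x := by rw [hxy]; ring

/-- final numerics -/
theorem numSharp {d x α B δ : ℝ} (hδ0 : 0 < δ) (hδ1 : δ ≤ 1) (hd : 100 / δ + 100 ≤ d)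
    (hx : d ^ 2 * Real.log d ≤ (δ / 32) ^ 2 * x) (hα1 : 1 ≤ α)
    (hα : α = 2 * x / (d - 1) * Real.exp (-(δ / (d - 1))))
    (hB : Real.log (2 * B) ≤ 3 + Real.log (3 * d * x) / (d - 1) + Real.log α) :
    1 + (d - 1) * Real.log α + d * ((d - 1) * ((α + Real.log α) / 2) + (2 + α / (d - 2))) +
      d * Real.log (2 * B) ≤ d * x := by
  have hd100 : 100 ≤ d := by
    have : 0 < 100 / δ := by positivity
    linarith
  have hdδ : 100 ≤ δ * d := by
    have h1 : 100 / δ ≤ d := by linarith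
    rw [div_le_iff₀ hδ0] at h1
    linarith
  have hd0 : 0 < d := by linarith
  have hN0 : 0 < d - 1 := by linarith
  have hN2 : 0 < d - 2 := by linarith
  obtain ⟨hx0, hd2x, hd2x'⟩ := sharp_x hδ0 hδ1 hd100 hx
  have hmain := sharp_log hδ0 hδ1 hd100 hx
  clear hx
  have hdd : d ^ 2 = d * d := by ring
  have hdd2 : 100 * d ≤ d * d := mul_le_mul_of_nonneg_right hd100 hd0.le
  have hx1 : 1 ≤ x := by linarith
  obtain ⟨Λ, hΛ⟩ : ∃ Λ, Λ = Real.log x := ⟨_, rfl⟩
  have hΛ0 : 0 ≤ Λ := by
    rw [hΛ]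
    exact Real.log_nonneg hx1
  rw [← hΛ] at hmain
  -- log α ≤ log x
  have hs0 : 0 ≤ δ / (d - 1) := by positivity
  have hs1 : δ / (d - 1) ≤ 1 := (div_le_one hN0).2 (by linarith)
  have hα2 : α ≤ 2 * x / (d - 1) := by
    rw [hα]
    have h1 : Real.exp (-(δ / (d - 1))) ≤ 1 := Real.exp_le_one_iff.2 (by linarith)
    exact mul_le_of_le_one_right (by positivity) h1
  have hαx : α ≤ x := by
    refine hα2.trans ?_
    rw [div_le_iff₀ hN0]
    have := mul_le_mul_of_nonneg_left (show (2 : ℝ) ≤ d - 1 by linarith) hx0.le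
    linarith
  have hlα0 : 0 ≤ Real.log α := Real.log_nonneg hα1
  have hlαΛ : Real.log α ≤ Λ := by
    rw [hΛ]
    exact Real.log_le_log (by linarith) hαx
  have he := exp_neg_le_half hs0 hs1
  -- d (d-1) α / 2 ≤ d x - δ/2 x
  have p1 : d * ((d - 1) * (α / 2)) ≤ d * x - δ / 2 * x := by
    have h1 : d * ((d - 1) * (α / 2)) = d * x * Real.exp (-(δ / (d - 1))) := by
      rw [hα]
      field_simp
    rw [h1]
    have h2 : d * x * Real.exp (-(δ / (d - 1))) ≤ d * x * (1 - δ / (d - 1) / 2) :=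
      mul_le_mul_of_nonneg_left he (by positivity)
    have h3 : δ / 2 * x ≤ d * x * (δ / (d - 1) / 2) := by
      have : d * x * (δ / (d - 1) / 2) = (δ / 2 * x) * (d / (d - 1)) := by
        field_simp
      rw [this]
      have h4 : 1 ≤ d / (d - 1) := (one_le_div hN0).2 (by linarith)
      exact le_mul_of_one_le_right (by positivity) h4
    linarith
  -- d α/(d-2) ≤ δ/16 x
  have p2 : d * (α / (d - 2)) ≤ δ / 16 * x := by
    have h2 : d * (α / (d - 2)) ≤ d * (2 * x / (d - 1) / (d - 2)) :=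
      mul_le_mul_of_nonneg_left (div_le_div_of_nonneg_right hα2 hN2.le) hd0.le
    refine h2.trans ?_
    have h3 : d * (2 * x / (d - 1) / (d - 2)) = 2 * d * x / ((d - 1) * (d - 2)) := by
      field_simp
    rw [h3, div_le_iff₀ (by positivity)]
    have h4 : 32 * d ≤ δ * ((d - 1) * (d - 2)) := by
      have h7 : 100 * d ≤ d * d := mul_le_mul_of_nonneg_right hd100 hd0.le
      have h5 : d * (d * (1 / 2)) ≤ (d - 1) * (d - 2) := by
        have : (d - 1) * (d - 2) = d * d - 3 * d + 2 := by ring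
        rw [this]
        linarith
      have h6 := mul_le_mul_of_nonneg_left h5 hδ0.le
      have h8 := mul_le_mul_of_nonneg_right hdδ hd0.le
      have h9 : δ * (d * (d * (1 / 2))) = δ * d * d / 2 := by ring
      rw [h9] at h6
      linarith
    have h10 := mul_le_mul_of_nonneg_right h4 hx0.le
    linarith
  -- logs
  have hlog3 : Real.log (3 * d * x) ≤ 3 * Λ := by
    have h1 : 3 * Λ = Real.log (x ^ 3) := by
      rw [Real.log_pow, hΛ]
      norm_num
    rw [h1]
    refine Real.log_le_log (by positivity) ?_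
    have h2 : 3 * d ≤ x := by
      have h7 : 100 * d ≤ d * d := mul_le_mul_of_nonneg_right hd100 hd0.le
      have h8 : d ^ 2 = d * d := by ring
      linarith
    have h3 : x ≤ x ^ 2 := by
      have := mul_le_mul_of_nonneg_right hx1 hx0.le
      have h8 : x ^ 2 = x * x := by ring
      linarith
    have h4 : 3 * d ≤ x ^ 2 := h2.trans h3
    calc 3 * d * x ≤ x ^ 2 * x := mul_le_mul_of_nonneg_right h4 hx0.le
      _ = x ^ 3 := by ring
  have p3 : d * Real.log (2 * B) ≤ 3 * d + 6 * Λ + d * Λ := by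
    have h1 : Real.log (3 * d * x) / (d - 1) ≤ 3 * Λ / (d - 1) :=
      div_le_div_of_nonneg_right hlog3 hN0.le
    have h2 : d * (3 * Λ / (d - 1)) ≤ 6 * Λ := by
      rw [← mul_div_assoc, div_le_iff₀ hN0]
      have h4 := mul_nonneg hN0.le hΛ0
      have h5 : (d - 1) * Λ = d * Λ - Λ := by ring
      have h6 : Λ ≤ (d - 1) * Λ := by
        have := mul_le_mul_of_nonneg_right (show (1 : ℝ) ≤ d - 1 by linarith) hΛ0
        linarith
      have h7 : 6 * Λ * (d - 1) = 6 * (d * Λ) - 6 * Λ := by ring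
      have h8 : d * (3 * Λ) = 3 * (d * Λ) := by ring
      rw [h7, h8]
      linarith
    have h3 : Real.log (2 * B) ≤ 3 + 3 * Λ / (d - 1) + Λ := by linarith
    have h4 := mul_le_mul_of_nonneg_left h3 hd0.le
    have h5 : d * (3 + 3 * Λ / (d - 1) + Λ) = 3 * d + d * (3 * Λ / (d - 1)) + d * Λ := by ring
    rw [h5] at h4
    linarith
  have p4 : (d - 1) * Real.log α ≤ d * Λ := by
    have h1 := mul_le_mul_of_nonneg_left hlαΛ hN0.le
    linarith
  have p5 : d * ((d - 1) * (Real.log α / 2)) ≤ d ^ 2 * Λ / 2 := by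
    have h1 : (d - 1) * (Real.log α / 2) ≤ d * Λ / 2 := by linarith
    have h2 := mul_le_mul_of_nonneg_left h1 hd0.le
    have h3 : d * (d * Λ / 2) = d ^ 2 * Λ / 2 := by ring
    rw [← h3]
    exact h2
  have p6 : 1 + 5 * d ≤ δ / 16 * x := by
    have h1 : 1 + 5 * d ≤ d ^ 2 := by linarith
    have h2 : (δ / 32) ^ 2 ≤ δ / 16 := (sharp_c_le hδ0 hδ1).trans (by linarith)
    have h3 := mul_le_mul_of_nonneg_right h2 hx0.le
    linarith
  have p7 : 100 * (d * Λ) ≤ d ^ 2 * Λ := by
    have h1 := mul_le_mul_of_nonneg_right hd100 (mul_nonneg hd0.le hΛ0)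
    have h2 : d * (d * Λ) = d ^ 2 * Λ := by ring
    linarith
  have p8 : 100 * Λ ≤ d * Λ := mul_le_mul_of_nonneg_right hd100 hΛ0
  have e2 : d * ((d - 1) * ((α + Real.log α) / 2) + (2 + α / (d - 2))) =
      d * ((d - 1) * (α / 2)) + d * ((d - 1) * (Real.log α / 2)) + 2 * d + d * (α / (d - 2)) := by
    ring
  rw [e2]
  have hδx : 0 ≤ δ * x := by positivity
  linarith

theorem sharp_upper (δ : ℝ) (hδ0 : 0 < δ) (hδ1 : δ ≤ 1) : ∃ D c : ℝ, 0 < c ∧ ∀ n d : ℕ, D ≤ d →
    (d : ℝ) ^ 2 * Real.log d ≤ c * Real.log n →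
    pc n d 2 ≤ Real.exp δ * ((d - 1) / (2 * Real.log n)) ^ (d - 1) := by
  refine ⟨100 / δ + 100, (δ / 32) ^ 2, by positivity, ?_⟩
  intro n d hD hdn
  set x := Real.log n with hx
  have hd100 : (100 : ℝ) ≤ d := by
    have : 0 < 100 / δ := by positivity
    linarith
  have hd100' : 100 ≤ d := by exact_mod_cast hd100
  have hd0 : (0 : ℝ) < d := by linarith
  have hN0 : (0 : ℝ) < d - 1 := by linarith
  obtain ⟨hx0, hd2x, hd2x'⟩ := sharp_x hδ0 hδ1 hd100 hdn
  have hdd : (d : ℝ) ^ 2 = d * d := by ring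
  have hdd2 : 100 * (d : ℝ) ≤ d * d := mul_le_mul_of_nonneg_right hd100 hd0.le
  have hx1 : 1 ≤ x := by linarith
  have hn0 : (0 : ℝ) < n := by
    rcases Nat.eq_zero_or_pos n with h | h
    · rw [h] at hx
      simp at hx
      linarith
    · exact_mod_cast h
  have hexpx : Real.exp x = n := Real.exp_log hn0
  have hcast : ((d - 1 : ℕ) : ℝ) = d - 1 := by
    rw [Nat.cast_sub (by omega)]
    simp
  have hcast2 : ((d - 2 : ℕ) : ℝ) = d - 2 := by
    rw [Nat.cast_sub (by omega)]
    simp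
  set α := 2 * x / (d - 1) * Real.exp (-(δ / (d - 1))) with hα
  have hα0 : 0 < α := by positivity
  have hα1 : 1 ≤ α := by
    have h1 : 2 * (d : ℝ) ≤ 2 * x / (d - 1) := by
      rw [le_div_iff₀ hN0]
      have : 2 * (d : ℝ) * (d - 1) = 2 * (d * d) - 2 * d := by ring
      rw [this]
      linarith
    have hs0 : 0 ≤ δ / (d - 1) := by positivity
    have hs1 : δ / ((d : ℝ) - 1) ≤ 1 := (div_le_one hN0).2 (by linarith)
    have h2 : 1 / 3 ≤ Real.exp (-(δ / (d - 1))) := by
      have h3 : Real.exp (-1) ≤ Real.exp (-(δ / (d - 1))) := Real.exp_le_exp.2 (by linarith)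
      refine le_trans ?_ h3
      rw [Real.exp_neg, one_div]
      refine inv_anti₀ (Real.exp_pos 1) ?_
      have := Real.exp_one_lt_d9
      linarith
    have h4 : 2 * (d : ℝ) * (1 / 3) ≤ α := mul_le_mul h1 h2 (by norm_num) (by positivity)
    linarith
  obtain ⟨L, hL⟩ : ∃ L, L = (d - 1) * Real.log α := ⟨_, rfl⟩
  have hlα0 : 0 ≤ Real.log α := Real.log_nonneg hα1
  have hL0 : 0 ≤ L := by rw [hL]; positivity
  have hαN : α ^ (d - 1) = Real.exp L := by
    rw [hL, ← hcast, Real.exp_nat_mul, Real.exp_log hα0]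
  have hexpL : Real.exp (-L) = Real.exp δ * ((d - 1) / (2 * x)) ^ (d - 1) := by
    rw [Real.exp_neg, ← hαN, hα, mul_pow, ← Real.exp_nat_mul, hcast, mul_inv, ← Real.exp_neg]
    have e1 : (-(((d : ℝ) - 1) * -(δ / (d - 1)))) = δ := by field_simp
    rw [e1, mul_comm, ← inv_pow, inv_div]
  rw [← hexpL]
  have h3dx : 1 ≤ 3 * d * x := by
    have h1 : (1 : ℝ) ≤ 3 * d := by linarith
    exact one_le_mul_of_one_le_of_one_le h1 hx1
  have hl3 : 0 ≤ Real.log (3 * d * x) := Real.log_nonneg h3dx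
  set ρ := Real.exp (Real.log (3 * d * x) / (d - 1) + Real.log α) with hρ
  have hρ1 : 1 ≤ ρ := Real.one_le_exp (by positivity)
  have hρN : ρ ^ (d - 1) = 3 * d * x * Real.exp L := by
    rw [hρ, ← Real.exp_nat_mul, hcast, mul_add, ← hL, Real.exp_add]
    congr 1
    rw [mul_div_cancel₀ _ hN0.ne', Real.exp_log (by linarith)]
  set Q := ⌈ρ / 2⌉₊ with hQ
  have hQ1 : ρ / 2 ≤ Q := Nat.le_ceil _
  have hQ2 : (Q : ℝ) < ρ / 2 + 1 := Nat.ceil_lt_add_one (by linarith)
  have hBc : ((2 * Q + 1 : ℕ) : ℝ) = 2 * Q + 1 := by push_cast; ring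
  have hB1 : ρ ≤ ((2 * Q + 1 : ℕ) : ℝ) := by rw [hBc]; linarith
  have hB2 : ((2 * Q + 1 : ℕ) : ℝ) ≤ ρ + 3 := by rw [hBc]; linarith
  set B := 2 * Q + 1 with hB
  have hB0 : (0 : ℝ) < B := by linarith
  have hlB : Real.log (2 * B) ≤ 3 + Real.log (3 * d * x) / (d - 1) + Real.log α := by
    have h1 : Real.log (2 * B) ≤ Real.log (8 * ρ) :=
      Real.log_le_log (by positivity) (by linarith)
    have h1' : Real.log (8 * ρ) = Real.log 8 + Real.log ρ :=
      Real.log_mul (by norm_num) (by positivity)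
    have h1'' : Real.log ρ = Real.log (3 * d * x) / (d - 1) + Real.log α := Real.log_exp _
    have h2 : Real.log 8 ≤ 3 := by
      have h3 : (8 : ℝ) = 2 ^ 3 := by norm_num
      rw [h3, Real.log_pow]
      have := Real.log_two_lt_d9
      push_cast
      linarith
    linarith
  have hmain := numSharp (d := d) (x := x) (α := α) (B := B) (δ := δ) hδ0 hδ1 hD hdn hα1 hα hlB
  have hN2 : (0 : ℝ) < d - 2 := by linarith
  have hlB0 : 0 ≤ Real.log (2 * B) := Real.log_nonneg (by linarith)
  have hlBx : Real.log (2 * B) ≤ x := by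
    have h1 : 0 ≤ (d - 1) * Real.log α := by positivity
    have h2 : 0 ≤ (d : ℝ) * ((d - 1) * ((α + Real.log α) / 2) + (2 + α / (d - 2))) := by positivity
    have h3 : (d : ℝ) * Real.log (2 * B) ≤ d * x := by linarith
    exact le_of_mul_le_mul_left h3 hd0
  have hBn' : 2 * (B : ℝ) ≤ n := by
    have := Real.exp_le_exp.2 hlBx
    rwa [Real.exp_log (by positivity), hexpx] at this
  have hBn : B ≤ n := by
    have : (B : ℝ) ≤ n := by linarith
    exact_mod_cast this
  -- the probability of filling a cube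
  set q := Real.exp (-L) * ∏ k ∈ Finset.range Q,
      ((1 + Real.exp L / (2 * k + 1 : ℝ) ^ (d - 1))⁻¹) ^ d with hq
  have hq0 : 0 ≤ q := by positivity
  have hqe : q = Real.exp (-L - d * ∑ k ∈ Finset.range Q,
      Real.log (1 + (α / (2 * k + 1)) ^ (d - 1))) := by
    rw [sub_eq_add_neg, Real.exp_add, ← mul_neg, ← Finset.sum_neg_distrib, Finset.mul_sum,
      Real.exp_sum, hq]
    congr 1
    refine Finset.prod_congr rfl fun k _ => ?_
    have h1 : 0 < 1 + (α / (2 * (k : ℝ) + 1)) ^ (d - 1) := by positivity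
    rw [Real.exp_nat_mul, Real.exp_neg, Real.exp_log h1, div_pow, hαN]
  have hsum := sum_log_one_add_le' α hα1 (d - 2) (by omega) Q
  have hd21 : d - 2 + 1 = d - 1 := by omega
  rw [hd21, hcast2] at hsum
  have hd21' : (d : ℝ) - 2 + 1 = d - 1 := by ring
  rw [hd21'] at hsum
  have hS0 : 0 ≤ ∑ k ∈ Finset.range Q, Real.log (1 + (α / (2 * k + 1)) ^ (d - 1)) := by
    refine Finset.sum_nonneg fun k _ => Real.log_nonneg ?_
    have : 0 ≤ (α / (2 * (k : ℝ) + 1)) ^ (d - 1) := by positivity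
    linarith
  have hq1 : q ≤ 1 := by
    rw [hqe, Real.exp_le_one_iff]
    have := mul_nonneg hd0.le hS0
    linarith
  have hge := percProb_ge n d (by omega) (Real.exp (-L)) (Real.exp_pos _).le
    (Real.exp_le_one_iff.2 (by linarith)) B B (by omega) le_rfl hBn q hq0 hq1
    (fun o ho => chainII n d (by omega) L hL0 Q o ho)
  refine pc_le_of n d _ (Real.exp_pos _).le (Real.exp_le_one_iff.2 (by linarith)) ?_
  refine le_trans ?_ hge
  -- first error term
  have hfirst : (1 - q) ^ ((n / B) ^ d) ≤ 1 / 4 := by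
    have h1 : (1 - q) ^ ((n / B) ^ d) ≤ Real.exp (-q) ^ ((n / B) ^ d) :=
      pow_le_pow_left₀ (by linarith) (Real.one_sub_le_exp_neg q) _
    rw [← Real.exp_nat_mul] at h1
    have h2 : (n : ℝ) / (2 * B) ≤ ((n / B : ℕ) : ℝ) := by
      have hk1 : 1 ≤ n / B := Nat.div_pos hBn (by omega)
      have hk2 : n < B * (n / B + 1) := Nat.lt_mul_div_succ n (by omega)
      have hk3 : (n : ℝ) < B * (((n / B : ℕ) : ℝ) + 1) := by exact_mod_cast hk2
      have hk4 : (1 : ℝ) ≤ ((n / B : ℕ) : ℝ) := by exact_mod_cast hk1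
      rw [div_le_iff₀ (by positivity)]
      have hk5 := mul_le_mul_of_nonneg_left hk4 hB0.le
      linarith
    have h3 : Real.exp (d * (x - Real.log (2 * B))) ≤ ((n / B : ℕ) : ℝ) ^ d := by
      rw [Real.exp_nat_mul, Real.exp_sub, hexpx, Real.exp_log (by positivity)]
      exact pow_le_pow_left₀ (by positivity) h2 d
    have h4 : Real.exp 1 ≤ (((n / B) ^ d : ℕ) : ℝ) * q := by
      rw [Nat.cast_pow]
      calc Real.exp 1 ≤ Real.exp (d * (x - Real.log (2 * B)) + (-L - d *
            ∑ k ∈ Finset.range Q, Real.log (1 + (α / (2 * k + 1)) ^ (d - 1)))) := by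
            refine Real.exp_le_exp.2 ?_
            have h5 := mul_le_mul_of_nonneg_left hsum hd0.le
            rw [← hL] at hmain
            linarith
        _ = Real.exp (d * (x - Real.log (2 * B))) * q := by rw [Real.exp_add, hqe]
        _ ≤ _ := mul_le_mul_of_nonneg_right h3 hq0
    have h5 : 2 ≤ (((n / B) ^ d : ℕ) : ℝ) * q := by
      have := Real.add_one_le_exp (1 : ℝ)
      linarith
    refine h1.trans ?_
    have h6 : Real.exp ((((n / B) ^ d : ℕ) : ℝ) * -q) ≤ Real.exp (-2) :=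
      Real.exp_le_exp.2 (by linarith)
    refine h6.trans ?_
    rw [Real.exp_neg, one_div]
    refine inv_anti₀ (by norm_num) ?_
    have := Real.quadratic_le_exp_of_nonneg (x := 2) (by norm_num)
    linarith
  -- second error term
  have hsecond : d * (n : ℝ) ^ (d + 1) * (1 - Real.exp (-L)) ^ (B ^ (d - 1)) ≤ 1 / 4 := by
    have h1 : (1 - Real.exp (-L)) ^ (B ^ (d - 1)) ≤ Real.exp (-(3 * d * x)) := by
      have h2 : (1 - Real.exp (-L)) ^ (B ^ (d - 1)) ≤
          Real.exp (-Real.exp (-L)) ^ (B ^ (d - 1)) :=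
        pow_le_pow_left₀ (by
          have := Real.exp_le_one_iff.2 (show -L ≤ 0 by linarith)
          linarith) (Real.one_sub_le_exp_neg _) _
      rw [← Real.exp_nat_mul] at h2
      refine h2.trans (Real.exp_le_exp.2 ?_)
      have h3 : 3 * d * x * Real.exp L ≤ ((B ^ (d - 1) : ℕ) : ℝ) := by
        rw [← hρN, Nat.cast_pow]
        exact pow_le_pow_left₀ (by linarith) hB1 _
      have h4 := mul_le_mul_of_nonneg_right h3 (Real.exp_pos (-L)).le
      rw [mul_assoc, ← Real.exp_add] at h4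
      simp only [add_neg_cancel, Real.exp_zero, mul_one] at h4
      linarith
    have h2 : (n : ℝ) ^ (d + 1) = Real.exp ((d + 1) * x) := by
      have : ((d : ℝ) + 1) = ((d + 1 : ℕ) : ℝ) := by push_cast; ring
      rw [this, Real.exp_nat_mul, hexpx]
    rw [h2]
    have h3 : (0 : ℝ) ≤ d * Real.exp ((d + 1) * x) := by positivity
    refine (mul_le_mul_of_nonneg_left h1 h3).trans ?_
    rw [mul_assoc, ← Real.exp_add]
    have h4 : ((d : ℝ) + 1) * x + -(3 * d * x) ≤ -d := by
      have h5 : (d : ℝ) * 1 ≤ d * x := mul_le_mul_of_nonneg_left hx1 hd0.le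
      have h6 : 1 * x ≤ d * x := mul_le_mul_of_nonneg_right (by linarith) (by linarith)
      linarith
    refine (mul_le_mul_of_nonneg_left (Real.exp_le_exp.2 h4) hd0.le).trans ?_
    have h5 := Real.quadratic_le_exp_of_nonneg (x := (d : ℝ)) hd0.le
    rw [Real.exp_neg, ← div_eq_mul_inv, div_le_iff₀ (Real.exp_pos _)]
    have h6 : (100 : ℝ) * d ≤ d * d := mul_le_mul_of_nonneg_right hd100 hd0.le
    have h7 : (d : ℝ) ^ 2 = d * d := by ring
    linarith
  linarith

end SharpUpper

end Pool.Agent.Lib.MP_8501c9_pr
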