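import Mathlib

/-!
# Definitions for two-neighbour bootstrap percolation on the grid
-/

set_option autoImplicit false
open Set

namespace Pool.Agent.Lib.MP_8501c9_pr

/-- the vertices of the grid `[n]^d` -/
abbrev Vtx (n d : ℕ) := Fin d → Fin n

/-- `x` and `y` agree in all coordinates but one and differ by exactly one there -/
def Adj {n d : ℕ} (x y : Vtx n d) : Prop :=
  ∃ i, (∀ j, j ≠ i → x j = y j) ∧ ((x i : ℕ) + 1 = y i ∨ (y i : ℕ) + 1 = x i)

/-- one step of the `r`-neighbour bootstrap process -/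
def step {n d : ℕ} (r : ℕ) (A : Set (Vtx n d)) : Set (Vtx n d) :=
  A ∪ {v | r ≤ {u | u ∈ A ∧ Adj v u}.ncard}

/-- the closure of `A` under the `r`-neighbour bootstrap process -/
def bclosure {n d : ℕ} (r : ℕ) (A : Set (Vtx n d)) : Set (Vtx n d) :=
  ⋃ t : ℕ, (step r)^[t] A

/-- `A` percolates -/
def Percolates {n d : ℕ} (r : ℕ) (A : Set (Vtx n d)) : Prop := bclosure r A = univ

open Classical in
/-- the probability that a `p`-random subset of the finite type `V` satisfies `E` -/
noncomputable def Pr {V : Type*} [Fintype V] (p : ℝ) (E : Finset V → Prop) : ℝ :=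
  ∑ A : Finset V with E A, p ^ A.card * (1 - p) ^ (Fintype.card V - A.card)

/-- the probability that a `p`-random subset of `[n]^d` percolates -/
noncomputable def percProb (n d r : ℕ) (p : ℝ) : ℝ :=
  Pr p (fun A : Finset (Vtx n d) => Percolates r (A : Set (Vtx n d)))

/-- the critical probability -/
noncomputable def pc (n d r : ℕ) : ℝ :=
  sInf {p : ℝ | 0 ≤ p ∧ p ≤ 1 ∧ 1 / 2 ≤ percProb n d r p}

/-- the piecewise linear interpolation of `log (1 + u)` with nodes at the integers -/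
noncomputable def vfun (u : ℝ) : ℝ :=
  Real.log (⌊u⌋₊ + 1) + (u - ⌊u⌋₊) * (Real.log (⌊u⌋₊ + 2) - Real.log (⌊u⌋₊ + 1))

/-- the rate function -/
noncomputable def ell (b : ℝ) : ℝ :=
  ⨅ a : Ioi (0 : ℝ), (2 * b + ∫ u in (0 : ℝ)..a, vfun u) / a

/-- `s N t = N * v (t / N)`: the logarithm of the largest volume of an `N`-dimensional box whose
side lengths minus one add up to `t` -/
noncomputable def sfun (N t : ℕ) : ℝ := N * vfun (t / N)

/-! ### boxes, for the upper bound on the spread -/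

/-- boxes are given by their lower and upper corner -/
abbrev BoxT (n d : ℕ) := Vtx n d × Vtx n d

/-- sum of the side lengths minus one -/
def phi {n d : ℕ} (R : BoxT n d) : ℕ := ∑ i, ((R.2 i : ℕ) - R.1 i)

/-- the smallest box containing two boxes -/
def hull {n d : ℕ} (R S : BoxT n d) : BoxT n d := (R.1 ⊓ S.1, R.2 ⊔ S.2)

/-- two boxes at distance at most two -/
def Near {n d : ℕ} (R S : BoxT n d) : Prop :=
  ∑ i, (((S.1 i : ℕ) - R.2 i) + ((R.1 i : ℕ) - S.2 i)) ≤ 2

/-- `W` spans the box `R` by successive merging of near boxes -/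
inductive Span {n d : ℕ} : Finset (Vtx n d) → BoxT n d → Prop
  | single (x : Vtx n d) : Span {x} (x, x)
  | merge {W₁ W₂ : Finset (Vtx n d)} {R₁ R₂ : BoxT n d} (h₁ : Span W₁ R₁) (h₂ : Span W₂ R₂)
      (hd : Disjoint W₁ W₂) (hn : Near R₁ R₂) (hne₁ : hull R₁ R₂ ≠ R₁) (hne₂ : hull R₁ R₂ ≠ R₂) :
      Span (W₁ ∪ W₂) (hull R₁ R₂)

open Classical in
/-- the generating function of the sets spanning `R` -/
noncomputable def wt {n d : ℕ} (p : ℝ) (R : BoxT n d) : ℝ :=
  ∑ W : Finset (Vtx n d) with Span W R, p ^ W.card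

/-- the pairs of boxes which can be merged to the box `R` -/
def PairOK {n d : ℕ} (R : BoxT n d) (P : BoxT n d × BoxT n d) : Prop :=
  P.1.1 ≤ P.1.2 ∧ P.2.1 ≤ P.2.2 ∧ Near P.1 P.2 ∧ hull P.1 P.2 = R ∧ P.1 ≠ R ∧ P.2 ≠ R

/-- half of the loss in the exponent at size `t` -/
noncomputable def cost (d m0 t : ℕ) : ℝ :=
  (sfun (d - 1) (t + 1) + (min t m0 + 3 : ℕ) * Real.log 2) / 2

/-- the exponent in the bound for the generating function -/
noncomputable def Gfun (d m0 : ℕ) (L : ℝ) (m : ℕ) : ℝ :=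
  L + ∑ t ∈ Finset.range m, (L / 2 - cost d m0 (t + 1))

/-- a set closed under the two-neighbour rule -/
def Closed {n d : ℕ} (U : Set (Vtx n d)) : Prop :=
  ∀ v x y, x ∈ U → y ∈ U → x ≠ y → Adj v x → Adj v y → v ∈ U

/-- cube-like boxes given by an offset and side lengths (natural numbers) -/
def nbox {n d : ℕ} (o a : Fin d → ℕ) : Set (Vtx n d) :=
  {x | ∀ i, o i ≤ (x i : ℕ) ∧ (x i : ℕ) < o i + a i}

end Pool.Agent.Lib.MP_8501c9_pr
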