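import Pool.Agent.Lib.MP_8501c9_pr.Basic
import Pool.Agent.Lib.MP_8501c9_pr.Volume
import Pool.Agent.Lib.MP_8501c9_pr.Ell
import Pool.Agent.Lib.MP_8501c9_pr.Weight

/-!
# The lower bound for the critical probability
-/

set_option autoImplicit false
open Set

namespace Pool.Agent.Lib.MP_8501c9_pr

theorem vfun_le_mul {a : ℝ} (ha : 0 ≤ a) : vfun a ≤ a * Real.log 2 := by
  have h1 := vfun_add_le (u := 0) le_rfl ha
  have h2 := vfun_le_log (u := 0) le_rfl
  simp only [zero_add, add_zero, Real.log_one] at h1 h2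
  linarith

theorem lower (C : ℝ) (hC : 0 < C) : ∃ K D : ℝ, ∀ n d : ℕ, 2 ≤ n → 2 ≤ d → D ≤ d →
    (d : ℝ) ≤ C * Real.log n →
    Real.exp (-((d - 1) * ell (Real.log n / d) + K * Real.log d)) ≤ pc n d 2 := by
  obtain ⟨D1, hD1⟩ := exists_log_le 80 4 1 one_pos
  obtain ⟨D2, hD2⟩ := exists_log_le 80 5 (1 / C) (by positivity)
  refine ⟨300, max (max D1 D2) (max 4 (2 * C)), fun n d hn hd hD hdC => ?_⟩
  have hdD1 : D1 ≤ d := (le_max_left _ _).trans ((le_max_left _ _).trans hD)
  have hdD2 : D2 ≤ d := (le_max_right _ _).trans ((le_max_left _ _).trans hD)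
  have hd4 : (4 : ℝ) ≤ d := (le_max_left _ _).trans ((le_max_right _ _).trans hD)
  have hdC2 : 2 * C ≤ d := (le_max_right _ _).trans ((le_max_right _ _).trans hD)
  have hlogn : 2 ≤ Real.log n := by
    by_contra hcon
    push Not at hcon
    nlinarith
  have hn0 : (0 : ℝ) < n := by exact_mod_cast (by omega : 0 < n)
  have hd0 : (0 : ℝ) < d := by linarith
  set lam := Real.log (4 * d) with hlam
  have hlam2 : 2 ≤ lam := by
    have h1 : Real.exp 2 ≤ 4 * d := by
      have := Real.exp_one_lt_d9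
      have h2 : Real.exp 2 = Real.exp 1 * Real.exp 1 := by rw [← Real.exp_add]; norm_num
      rw [h2]
      nlinarith [Real.exp_pos 1]
    rw [hlam]
    exact (Real.le_log_iff_exp_le (by positivity)).2 h1
  set b := Real.log n / d with hb
  have hb0 : 0 < b := by positivity
  have hlognb : Real.log n = d * b := by rw [hb]; field_simp
  obtain ⟨a, ha0, hell, hab, h2ba, ha4b⟩ := exists_minimiser hb0
  set m0 := ⌈80 * lam + 1⌉₊ with hm0
  have hm0a : 80 * lam + 1 ≤ m0 := Nat.le_ceil _
  have hm0b : (m0 : ℝ) ≤ 80 * lam + 2 := by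
    have := (Nat.ceil_lt_add_one (a := 80 * lam + 1) (by positivity)).le
    rw [← hm0] at this
    linarith
  have hN : ((d - 1 : ℕ) : ℝ) = d - 1 := by
    rw [Nat.cast_sub (by omega)]; simp
  have hN1 : 1 ≤ d - 1 := by omega
  set k := ⌊a * (d - 1)⌋₊ with hk
  have haN : 0 ≤ a * ((d : ℝ) - 1) := mul_nonneg ha0.le (by linarith)
  have hk1 : (k : ℝ) ≤ a * (d - 1) := Nat.floor_le haN
  have hk2 : a * (d - 1) ≤ k + 1 := (Nat.lt_floor_add_one _).le
  have hbC : 1 / C ≤ b := by
    rw [hb, div_le_div_iff₀ hC hd0]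
    linarith
  have hmd : m0 + 2 ≤ d := by
    have h1 := hD1 d hdD1
    have : (m0 : ℝ) + 2 ≤ d := by linarith
    exact_mod_cast this
  have hmk : m0 < k := by
    have h1 := hD2 d hdD2
    have h2 : 2 * (1 / C) * (d - 1) ≤ a * (d - 1) := by
      refine mul_le_mul_of_nonneg_right ?_ (by linarith)
      linarith
    have h3 : 1 / C * d ≤ 2 * (1 / C) * (d - 1) := by
      have : 0 < 1 / C := by positivity
      nlinarith
    have h4 : (m0 : ℝ) < k := by linarith
    exact_mod_cast h4
  have hk0 : (1 : ℝ) ≤ k := by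
    have : 1 ≤ k := by omega
    exact_mod_cast this
  have hkn : k ≤ d * (n - 1) := by
    have h1 : 4 * b ≤ Real.log n := by
      rw [hlognb]
      nlinarith
    have h2 : Real.log n ≤ n / 2 := by
      have h3 := Real.log_le_sub_one_of_pos (show (0 : ℝ) < n / 2 by positivity)
      rw [Real.log_div hn0.ne' (by norm_num)] at h3
      have := Real.log_two_lt_d9
      linarith
    have hn6 : (6 : ℝ) ≤ n := by
      have h3 : Real.exp 2 ≤ n := (Real.le_log_iff_exp_le hn0).1 hlogn
      have h4 : Real.exp 2 = Real.exp 1 * Real.exp 1 := by rw [← Real.exp_add]; norm_num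
      have := Real.exp_one_gt_d9
      nlinarith
    have h5 : (k : ℝ) ≤ d * (n - 1) := by
      calc (k : ℝ) ≤ a * (d - 1) := hk1
        _ ≤ (n - 1) * (d - 1) := mul_le_mul_of_nonneg_right (by linarith) (by linarith)
        _ ≤ (n - 1) * d := mul_le_mul_of_nonneg_left (by linarith) (by linarith)
        _ = d * (n - 1) := by ring
    have h6 : ((d * (n - 1) : ℕ) : ℝ) = d * (n - 1) := by
      rw [Nat.cast_mul, Nat.cast_sub (by omega)]; simp
    rw [← h6] at h5
    exact_mod_cast h5
  set L := (d - 1) * ell b + 100 * lam with hL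
  have hva : 0 ≤ vfun a := vfun_nonneg ha0.le
  have hlog2 := Real.log_two_lt_d9
  have hlog2' := Real.log_two_gt_d9
  have hL1 : sfun (d - 1) (k + 1) + 60 * lam ≤ L := by
    have h1 : sfun (d - 1) (k + 1) ≤ (d - 1) * vfun a + Real.log 2 := by
      unfold sfun
      rw [hN]
      have h2 : vfun (((k + 1 : ℕ) : ℝ) / (d - 1)) ≤ vfun (a + 1 / (d - 1)) := by
        refine vfun_mono ?_ ?_ ?_
        · exact mem_Ici.2 (div_nonneg (by positivity) (by linarith))
        · exact mem_Ici.2 (add_nonneg ha0.le (div_nonneg zero_le_one (by linarith)))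
        · rw [div_le_iff₀ (by linarith)]
          have : (a + 1 / ((d : ℝ) - 1)) * (d - 1) = a * (d - 1) + 1 := by
            have : ((d : ℝ) - 1) ≠ 0 := by linarith
            field_simp
          rw [this]
          push_cast
          linarith
      have h3 := vfun_add_le (u := a) (w := 1 / ((d : ℝ) - 1)) ha0.le
        (div_nonneg zero_le_one (by linarith))
      calc ((d : ℝ) - 1) * vfun (((k + 1 : ℕ) : ℝ) / (d - 1))
          ≤ ((d : ℝ) - 1) * (vfun a + 1 / ((d : ℝ) - 1) * Real.log 2) :=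
            mul_le_mul_of_nonneg_left (h2.trans h3) (by linarith)
        _ = (d - 1) * vfun a + Real.log 2 := by
            have : ((d : ℝ) - 1) ≠ 0 := by linarith
            field_simp
    rw [hL, hell]
    linarith
  have hL2 : 2 * d * Real.log n + ∑ t ∈ Finset.range k, sfun (d - 1) (t + 2) +
      72 * k * lam ≤ k * L := by
    have h1 : ∑ t ∈ Finset.range k, sfun (d - 1) (t + 2) ≤
        ∑ t ∈ Finset.range k, (sfun (d - 1) t + 2 * Real.log 2) := by
      refine Finset.sum_le_sum fun t _ => ?_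
      have := sfun_add_le (d - 1) t 2 hN1
      simpa using this
    have h2 := sum_sfun_le (d - 1) k hN1
    rw [hN] at h2
    have h3 : ∫ u in (0 : ℝ)..(k / (d - 1)), vfun u ≤ ∫ u in (0 : ℝ)..a, vfun u := by
      have hka : (k : ℝ) / (d - 1) ≤ a := by
        rw [div_le_iff₀ (by linarith)]; exact hk1
      have hk00 : (0 : ℝ) ≤ k / (d - 1) := div_nonneg (by positivity) (by linarith)
      refine intervalIntegral.integral_mono_interval le_rfl hk00 hka ?_ ?_
      · refine (MeasureTheory.ae_restrict_iff' measurableSet_Ioc).2 ?_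
        exact Filter.Eventually.of_forall fun x hx => vfun_nonneg hx.1.le
      · refine ContinuousOn.intervalIntegrable (vfun_continuousOn.mono ?_)
        rw [uIcc_of_le ha0.le]
        exact fun x hx => hx.1
    have h4 : ∑ t ∈ Finset.range k, sfun (d - 1) (t + 2) ≤
        ((d : ℝ) - 1) ^ 2 * (a * vfun a - 2 * b) + 2 * k * Real.log 2 := by
      have h5 : ∫ u in (0 : ℝ)..a, vfun u = a * vfun a - 2 * b := by linarith
      rw [Finset.sum_add_distrib, Finset.sum_const, Finset.card_range, nsmul_eq_mul] at h1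
      have h6 := mul_le_mul_of_nonneg_left h3 (sq_nonneg ((d : ℝ) - 1))
      rw [h5] at h6
      linarith
    have h7 : k * L ≥ (a * (d - 1) - 1) * ((d - 1) * vfun a) + 100 * k * lam := by
      rw [hL, hell]
      have : 0 ≤ (d - 1) * vfun a := mul_nonneg (by linarith) hva
      nlinarith
    have h8 : (d - 1) * vfun a ≤ (k + 1) * Real.log 2 := by
      have := vfun_le_mul ha0.le
      have h9 : (d - 1) * vfun a ≤ (d - 1) * (a * Real.log 2) :=
        mul_le_mul_of_nonneg_left this (by linarith)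
      have h10 : (a * (d - 1)) * Real.log 2 ≤ (k + 1) * Real.log 2 :=
        mul_le_mul_of_nonneg_right hk2 (by linarith)
      linarith
    have h11 : 2 * d * (d * b) - ((d : ℝ) - 1) ^ 2 * (2 * b) ≤ 8 * k := by
      have h12 : 2 * d * (d * b) - ((d : ℝ) - 1) ^ 2 * (2 * b) = 2 * b * (2 * d - 1) := by ring
      rw [h12]
      have h13 : 2 * b * (2 * d - 1) ≤ a * (2 * d - 1) :=
        mul_le_mul_of_nonneg_right h2ba (by linarith)
      have h14 : a * (2 * d - 1) ≤ 4 * (a * (d - 1)) := by nlinarith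
      linarith
    have h15 : 28 * k ≤ 14 * (k * lam) := by nlinarith
    rw [hlognb]
    nlinarith
  have hmain : ∀ p, 0 ≤ p → p ≤ Real.exp (-L) → percProb n d 2 p < 1 / 2 := fun p hp0 hp =>
    percProb_lt_half n d m0 k L hn hm0a hm0b hmd hmk hkn hL1 hL2 p hp0 hp
  refine le_trans (Real.exp_le_exp.2 ?_) (le_pc_of n d _ hmain)
  have h3 := log_four_mul_le hd
  rw [hL]
  linarith

end Pool.Agent.Lib.MP_8501c9_pr
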