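import Pool.Agent.Lib.MP_8501c9_pr.Defs
import Pool.Agent.Lib.MP_8501c9_pr.Basic
import Pool.Agent.Lib.MP_8501c9_pr.Volume
import Pool.Agent.Lib.MP_8501c9_pr.Ell
import Pool.Agent.Lib.MP_8501c9_pr.Cube
import Pool.Agent.Lib.MP_8501c9_pr.ChainI

set_option autoImplicit false
open Set

namespace Pool.Agent.Lib.MP_8501c9_pr


theorem upI_even {f : ℕ → ℝ} (hf : Antitone f) (J : ℕ) :
    2 * ∑ j ∈ Finset.range (J + 1), f (2 * j) ≤ f 0 + ∑ t ∈ Finset.range (2 * J + 1), f t := by
  induction J with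
  | zero => simp; linarith
  | succ J ih =>
    rw [Finset.sum_range_succ, show 2 * (J + 1) + 1 = 2 * J + 1 + 1 + 1 by ring,
      Finset.sum_range_succ _ (2 * J + 1 + 1), Finset.sum_range_succ _ (2 * J + 1)]
    have h1 : f (2 * (J + 1)) ≤ f (2 * J + 1) := hf (by omega)
    have h2 : f (2 * (J + 1)) = f (2 * J + 1 + 1) := by congr 1
    rw [← h2]
    linarith

theorem upI_pos {s : ℕ → ℝ} (hs : Monotone s) (L : ℝ) (m : ℕ) (hm : ∀ t < m, s t ≤ L)
    (hm' : L ≤ s m) (T : ℕ) :
    ∑ t ∈ Finset.range T, max (L - s t) 0 ≤ ∑ t ∈ Finset.range m, (L - s t) := by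
  have h1 : ∑ t ∈ Finset.range T, max (L - s t) 0 ≤ ∑ t ∈ Finset.range (max T m), max (L - s t) 0 :=
    Finset.sum_le_sum_of_subset_of_nonneg
      (Finset.range_subset_range.mpr (le_max_left T m)) fun _ _ _ => le_max_right _ _
  refine h1.trans (le_of_eq ?_)
  have h2 : ∑ t ∈ Finset.range m, (L - s t) = ∑ t ∈ Finset.range m, max (L - s t) 0 := by
    refine Finset.sum_congr rfl fun t ht => ?_
    rw [Finset.mem_range] at ht
    rw [max_eq_left]
    linarith [hm t ht]
  rw [h2]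
  symm
  refine Finset.sum_subset (Finset.range_subset_range.mpr (le_max_right T m)) fun t _ ht => ?_
  rw [Finset.mem_range, not_lt] at ht
  rw [max_eq_right]
  linarith [hs ht]

theorem upI_half {s : ℕ → ℝ} (hs : Monotone s) (hs0 : s 0 = 0) (L : ℝ) (hL : 0 ≤ L) (m : ℕ)
    (hm : ∀ t < m, s t ≤ L) (hm' : L ≤ s m) (J : ℕ) :
    ∑ j ∈ Finset.range J, max (L - s (2 * j)) 0 ≤ (L + ∑ t ∈ Finset.range m, (L - s t)) / 2 := by
  cases J with
  | zero =>
    rw [Finset.sum_range_zero]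
    have : 0 ≤ ∑ t ∈ Finset.range m, (L - s t) :=
      Finset.sum_nonneg fun t ht => by linarith [hm t (Finset.mem_range.mp ht)]
    linarith
  | succ J =>
    have hf : Antitone fun t => max (L - s t) 0 := by
      intro x y hxy
      have := hs hxy
      exact max_le_max (by linarith) le_rfl
    have h1 := upI_even hf J
    have h2 := upI_pos hs L m hm hm' (2 * J + 1)
    have h3 : max (L - s 0) 0 = L := by rw [hs0, sub_zero, max_eq_left hL]
    beta_reduce at h1
    rw [h3] at h1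
    linarith

theorem upI_log (X Y : ℝ) (hX : 1 ≤ X) :
    Real.exp (-(max Y 0 + Real.log X + Real.log 2)) ≤ (1 + X * Real.exp Y)⁻¹ := by
  have hX0 : 0 < X := by linarith
  rw [Real.exp_neg]
  apply inv_anti₀ (by positivity)
  rw [Real.exp_add, Real.exp_add, Real.exp_log hX0, Real.exp_log (by norm_num)]
  have h1 : 1 ≤ Real.exp (max Y 0) := Real.one_le_exp (le_max_right _ _)
  have h2 : Real.exp Y ≤ Real.exp (max Y 0) := Real.exp_le_exp.mpr (le_max_left _ _)
  nlinarith [mul_le_mul_of_nonneg_left h2 hX0.le]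

theorem upI_q (N d J : ℕ) (L : ℝ) :
    Real.exp (-(L + ∑ j ∈ Finset.range J, (max (L - sfun N (2 * j)) 0 +
      2 * Real.log (((2 * j / d : ℕ) : ℝ) + 2) + Real.log 2))) ≤
    Real.exp (-L) * ∏ j ∈ Finset.range J,
      (1 + (((2 * j / d : ℕ) : ℝ) + 2) ^ 2 * Real.exp (L - sfun N (2 * j)))⁻¹ := by
  rw [neg_add, Real.exp_add, ← Finset.sum_neg_distrib, Real.exp_sum]
  refine mul_le_mul_of_nonneg_left ?_ (Real.exp_pos _).le
  refine Finset.prod_le_prod (fun _ _ => (Real.exp_pos _).le) fun j _ => ?_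
  have h0 : (0 : ℝ) ≤ ((2 * j / d : ℕ) : ℝ) := Nat.cast_nonneg _
  have := upI_log ((((2 * j / d : ℕ) : ℝ) + 2) ^ 2) (L - sfun N (2 * j)) (by nlinarith)
  rw [Real.log_pow] at this
  push_cast at this ⊢
  exact this

/-- the final step: from the exponents to the probability -/
theorem upI_prob (n d : ℕ) (hn : 2 ≤ n) (hd : 3 ≤ d) (L : ℝ) (hL : 0 ≤ L) (S : ℕ) (hS : 1 ≤ S)
    (hSn : S + 1 ≤ n) (hS2 : 3 * d * Real.log n ≤ Real.exp (-L) * (S : ℝ) ^ (d - 1)) (q E : ℝ)
    (hqE : Real.exp (-E) ≤ q) (hq1 : q ≤ 1)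
    (hcube : ∀ o : Fin d → ℕ, (∀ i, o i + (S + 1) ≤ n) → q ≤ Pr (Real.exp (-L))
      (fun A : Finset (Vtx n d) =>
        nbox o (fun _ => S) ⊆ bclosure 2 ((A : Set (Vtx n d)) ∩ nbox o (fun _ => S + 1))))
    (hE : E + Real.log 2 + d * Real.log (2 * (S + 1)) ≤ d * Real.log n) :
    1 / 2 ≤ percProb n d 2 (Real.exp (-L)) := by
  have hn0 : (0 : ℝ) < n := by positivity
  have hq0 : 0 ≤ q := (Real.exp_pos _).le.trans hqE
  have hp1 : Real.exp (-L) ≤ 1 := Real.exp_le_one_iff.mpr (by linarith)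
  have hlogn : Real.log 2 ≤ Real.log n := Real.log_le_log (by norm_num) (by exact_mod_cast hn)
  have hlog2 : 0 < Real.log 2 := Real.log_pos (by norm_num)
  have h := percProb_ge n d (by omega) (Real.exp (-L)) (Real.exp_pos _).le hp1 S (S + 1) hS
    (Nat.le_succ S) hSn q hq0 hq1 hcube
  -- second term
  have hM : ((n : ℝ) / (2 * (S + 1))) ^ d ≤ (((n / (S + 1)) ^ d : ℕ) : ℝ) := by
    push_cast
    refine pow_le_pow_left₀ (by positivity) ?_ d
    have h1 : n < (n / (S + 1) + 1) * (S + 1) := by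
      have := Nat.lt_mul_div_succ n (show 0 < S + 1 by omega)
      rwa [mul_comm] at this
    have h2 : 1 ≤ n / (S + 1) := (Nat.one_le_div_iff (by omega)).mpr hSn
    have h1' : (n : ℝ) < (((n / (S + 1) : ℕ) : ℝ) + 1) * (S + 1) := by exact_mod_cast h1
    have h2' : (1 : ℝ) ≤ ((n / (S + 1) : ℕ) : ℝ) := by exact_mod_cast h2
    rw [div_le_iff₀ (by positivity)]
    have hS0 : (0 : ℝ) ≤ S := by positivity
    nlinarith
  have hexp : Real.exp (d * Real.log n - d * Real.log (2 * (S + 1))) =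
      ((n : ℝ) / (2 * (S + 1))) ^ d := by
    rw [← mul_sub, ← Real.log_div (by positivity) (by positivity), ← Real.log_pow,
      Real.exp_log (by positivity)]
  have hqM : 2 ≤ q * (((n / (S + 1)) ^ d : ℕ) : ℝ) := by
    calc (2 : ℝ) = Real.exp (Real.log 2) := (Real.exp_log (by norm_num)).symm
      _ ≤ Real.exp (-E + (d * Real.log n - d * Real.log (2 * (S + 1)))) :=
          Real.exp_le_exp.mpr (by linarith)
      _ = Real.exp (-E) * ((n : ℝ) / (2 * (S + 1))) ^ d := by rw [Real.exp_add, hexp]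
      _ ≤ q * (((n / (S + 1)) ^ d : ℕ) : ℝ) :=
          mul_le_mul hqE hM (by positivity) hq0
  have t2 : (1 - q) ^ ((n / (S + 1)) ^ d) ≤ 1 / 4 := by
    have h1 : (1 - q) ^ ((n / (S + 1)) ^ d) ≤ Real.exp (-q) ^ ((n / (S + 1)) ^ d) :=
      pow_le_pow_left₀ (by linarith) (by linarith [Real.add_one_le_exp (-q)]) _
    refine h1.trans ?_
    rw [← Real.exp_nat_mul]
    have h2 : Real.exp ((((n / (S + 1)) ^ d : ℕ) : ℝ) * -q) ≤ Real.exp (-2) :=
      Real.exp_le_exp.mpr (by linarith)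
    refine h2.trans ?_
    rw [Real.exp_neg, one_div]
    apply inv_anti₀ (by norm_num)
    have h3 := Real.exp_one_gt_d9
    have h4 : Real.exp 2 = Real.exp 1 * Real.exp 1 := by rw [← Real.exp_add]; norm_num
    rw [h4]
    nlinarith
  -- third term
  have t3 : d * (n : ℝ) ^ (d + 1) * (1 - Real.exp (-L)) ^ (S ^ (d - 1)) ≤ 1 / 4 := by
    have h1 : (1 - Real.exp (-L)) ^ (S ^ (d - 1)) ≤ Real.exp (-Real.exp (-L)) ^ (S ^ (d - 1)) :=
      pow_le_pow_left₀ (by linarith) (by linarith [Real.add_one_le_exp (-Real.exp (-L))]) _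
    rw [← Real.exp_nat_mul] at h1
    have h2 : Real.exp (((S ^ (d - 1) : ℕ) : ℝ) * -Real.exp (-L)) ≤
        Real.exp (-(3 * d * Real.log n)) := by
      apply Real.exp_le_exp.mpr
      push_cast
      linarith
    have hd0 : (0 : ℝ) < d := by
      have : 0 < d := by omega
      exact_mod_cast this
    have h3 : (d : ℝ) * (n : ℝ) ^ (d + 1) = Real.exp (Real.log d + (d + 1) * Real.log n) := by
      rw [Real.exp_add, Real.exp_log hd0]
      congr 1
      have : ((d : ℝ) + 1) * Real.log n = Real.log ((n : ℝ) ^ (d + 1)) := by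
        rw [Real.log_pow]
        push_cast
        ring
      rw [this, Real.exp_log (by positivity)]
    have h4 : Real.log d ≤ (2 * d - 3) * Real.log 2 := by
      have h5 : d ≤ 2 ^ (2 * d - 3) :=
        (Nat.lt_two_pow_self (n := d)).le.trans (Nat.pow_le_pow_right (by norm_num) (by omega))
      have h6 : (d : ℝ) ≤ (2 : ℝ) ^ (2 * d - 3) := by exact_mod_cast h5
      have h7 := Real.log_le_log hd0 h6
      rw [Real.log_pow, Nat.cast_sub (by omega)] at h7
      push_cast at h7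
      exact h7
    calc d * (n : ℝ) ^ (d + 1) * (1 - Real.exp (-L)) ^ (S ^ (d - 1)) ≤
          Real.exp (Real.log d + (d + 1) * Real.log n) * Real.exp (-(3 * d * Real.log n)) := by
          rw [h3]
          exact mul_le_mul_of_nonneg_left (h1.trans h2) (Real.exp_pos _).le
      _ = Real.exp (Real.log d + (d + 1) * Real.log n - 3 * d * Real.log n) := by
          rw [← Real.exp_add]
          congr 1
      _ ≤ Real.exp (-(2 * Real.log 2)) := by
          apply Real.exp_le_exp.mpr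
          have hd3 : (3 : ℝ) ≤ d := by exact_mod_cast hd
          have h8 : (2 * (d : ℝ) - 1) * Real.log 2 ≤ (2 * d - 1) * Real.log n :=
            mul_le_mul_of_nonneg_left hlogn (by linarith)
          nlinarith
      _ = 1 / 4 := by
          rw [Real.exp_neg, show 2 * Real.log 2 = Real.log 4 by
            rw [show (4 : ℝ) = 2 ^ 2 by norm_num, Real.log_pow]; norm_num, Real.exp_log (by norm_num)]
          norm_num
  linarith


/-- the crossing time is not too small -/
theorem upI_m (C K : ℝ) (hC : 0 < C) (N : ℕ) (hN : 1 ≤ N) (hK : 0 ≤ K) (a lam : ℝ) (ha : 2 / C ≤ a)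
    (hlam : 0 ≤ lam) (c2 : K * (1 + C) * lam + C / 2 < N / 2) (m : ℕ)
    (hm : N * vfun a - K * lam ≤ sfun N m) : a * N / 2 ≤ m := by
  by_contra hcon
  push Not at hcon
  have ha0 : 0 < a := lt_of_lt_of_le (by positivity) ha
  have hN0 : (0 : ℝ) < N := by exact_mod_cast hN
  set A : ℕ := ⌊a * N⌋₊ with hA
  have hA1 : (A : ℝ) ≤ a * N := Nat.floor_le (by positivity)
  have hA2 : a * N < A + 1 := Nat.lt_floor_add_one _
  have hmA : m ≤ A := by
    apply Nat.le_floor
    have : 0 < a * N := by positivity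
    linarith
  obtain ⟨r, hr⟩ := Nat.exists_eq_add_of_le hmA
  have h1 := le_sfun_add N m r hN
  rw [← hr] at h1
  have h2 : sfun N A ≤ N * vfun a := by
    unfold sfun
    refine mul_le_mul_of_nonneg_left ?_ hN0.le
    refine vfun_mono (Set.mem_Ici.mpr (by positivity)) (Set.mem_Ici.mpr ha0.le) ?_
    rw [div_le_iff₀ hN0]
    exact hA1
  have h3 : (r : ℝ) * (N / (m + r + 2 * N)) ≤ K * lam := by linarith
  have hr' : (A : ℝ) = m + r := by rw [hr]; push_cast; rfl
  rw [← hr', ← mul_div_assoc, div_le_iff₀ (by positivity)] at h3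
  have h4 : a * N / 2 - 1 ≤ r := by linarith
  have h5 : (a * N / 2 - 1) * N ≤ K * lam * (a * N + 2 * N) := by
    calc (a * N / 2 - 1) * N ≤ r * N := mul_le_mul_of_nonneg_right h4 hN0.le
      _ ≤ K * lam * (A + 2 * N) := h3
      _ ≤ _ := by
          refine mul_le_mul_of_nonneg_left ?_ (mul_nonneg hK hlam)
          linarith
  have h6 : a * N / 2 - 1 ≤ K * lam * (a + 2) := by
    have : (a * N / 2 - 1) * N ≤ (K * lam * (a + 2)) * N := by
      calc _ ≤ _ := h5
        _ = _ := by ring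
    exact le_of_mul_le_mul_right this hN0
  have h7 : 2 ≤ C * a := by
    rw [div_le_iff₀ hC] at ha
    linarith
  have h8 : K * lam * (a + 2) ≤ K * lam * (a * (1 + C)) := by
    refine mul_le_mul_of_nonneg_left ?_ (mul_nonneg hK hlam)
    nlinarith
  have h9 : a * (K * (1 + C) * lam + C / 2) < a * (N / 2) := mul_lt_mul_of_pos_left c2 ha0
  nlinarith

/-- the sum of the deficits up to the crossing time -/
theorem upI_sum (N m : ℕ) (hN : 1 ≤ N) (hm : 1 ≤ m) (b L Kl : ℝ) (hb : 0 ≤ b)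
    (hL : L = N * ell b - Kl) :
    ∑ t ∈ Finset.range m, (L - sfun N t) ≤ 2 * b * N ^ 2 + m * Real.log 2 - m * Kl := by
  have hN0 : (0 : ℝ) < N := by exact_mod_cast hN
  have hm0 : (0 : ℝ) < m := by exact_mod_cast hm
  have h1 := ell_le hb (a := (m : ℝ) / N) (by positivity)
  have h2 := le_sum_sfun N m hN
  rw [le_div_iff₀ (by positivity)] at h1
  have h3 : N ^ 2 * (ell b * (m / N)) ≤ N ^ 2 * (2 * b + ∫ u in (0 : ℝ)..(m / N), vfun u) :=
    mul_le_mul_of_nonneg_left h1 (by positivity)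
  have h4 : N ^ 2 * (ell b * (m / N)) = m * (N * ell b) := by
    field_simp
  have h5 : ∑ t ∈ Finset.range m, sfun N (t + 1) ≤ ∑ t ∈ Finset.range m, (sfun N t + Real.log 2) := by
    refine Finset.sum_le_sum fun t _ => ?_
    have := sfun_add_le N t 1 hN
    push_cast at this
    linarith
  rw [Finset.sum_add_distrib, Finset.sum_const, Finset.card_range, nsmul_eq_mul] at h5
  rw [Finset.sum_sub_distrib, Finset.sum_const, Finset.card_range, nsmul_eq_mul]
  have h6 : (m : ℝ) * L = m * (N * ell b) - m * Kl := by rw [hL]; ring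
  rw [h4] at h3
  rw [h6]
  linarith

theorem upI_main (C K : ℝ) (hC : 0 < C) (hK : K = 53 + 56 * C) (n d : ℕ) (hn : 2 ≤ n) (hd : 3 ≤ d)
    (hdC : (d : ℝ) ≤ C * Real.log n) (hnd : Real.log n ≤ (d : ℝ) ^ 3)
    (c1 : Real.log (3 * (d : ℝ) ^ 4) ≤ ((d - 1 : ℕ) : ℝ) * Real.log 2)
    (c2 : K * (1 + C) * Real.log (4 * d) + C / 2 < ((d - 1 : ℕ) : ℝ) / 2)
    (c3 : 16 * (d : ℝ) ^ 2 ≤ Real.exp (d / C)) (L : ℝ)
    (hLdef : L = ((d - 1 : ℕ) : ℝ) * ell (Real.log n / d) - K * Real.log (4 * d)) (hL : 0 ≤ L) :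
    1 / 2 ≤ percProb n d 2 (Real.exp (-L)) := by
  set N : ℕ := d - 1 with hNdef
  set b : ℝ := Real.log n / d with hbdef
  set lam : ℝ := Real.log (4 * d) with hlamdef
  have hN : 1 ≤ N := by omega
  have hN0 : (0 : ℝ) < N := by exact_mod_cast hN
  have hd3 : (3 : ℝ) ≤ d := by exact_mod_cast hd
  have hd0 : (0 : ℝ) < d := by linarith
  have hNd : (N : ℝ) = d - 1 := by
    rw [hNdef, Nat.cast_sub (by omega)]
    simp
  have hNd2 : (d : ℝ) / 2 ≤ N := by rw [hNd]; linarith
  have hNd1 : (N : ℝ) ≤ d := by rw [hNd]; linarith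
  have hn0 : (0 : ℝ) < n := by positivity
  have hlogn : 0 < Real.log n := Real.log_pos (by
    have : (2 : ℝ) ≤ n := by exact_mod_cast hn
    linarith)
  have hb : 0 < b := by positivity
  have hdb : d * b = Real.log n := by
    rw [hbdef]
    field_simp
  have hb1 : 1 ≤ C * b := by
    have : (d : ℝ) * 1 ≤ d * (C * b) := by
      calc (d : ℝ) * 1 ≤ C * Real.log n := by linarith
        _ = d * (C * b) := by rw [← hdb]; ring
    exact le_of_mul_le_mul_left this hd0
  have hb2 : b ≤ (d : ℝ) ^ 2 := by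
    rw [hbdef, div_le_iff₀ hd0]
    calc _ ≤ _ := hnd
      _ = _ := by ring
  obtain ⟨a, ha0, hella, -, ha1, ha2⟩ := exists_minimiser hb
  have hCa : 2 ≤ C * a := by
    have := mul_le_mul_of_nonneg_left ha1 hC.le
    linarith
  have hK0 : 0 < K := by rw [hK]; positivity
  -- lam
  have hlog2 : 0 < Real.log 2 := Real.log_pos (by norm_num)
  have hlam2 : 2 * Real.log 2 ≤ lam := by
    rw [hlamdef, show 2 * Real.log 2 = Real.log 4 by
      rw [show (4 : ℝ) = 2 ^ 2 by norm_num, Real.log_pow]; norm_num]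
    exact Real.log_le_log (by norm_num) (by linarith)
  have hlam1 : 1 ≤ lam := by
    have := Real.log_two_gt_d9
    linarith
  -- bounds for L
  have hLa : L ≤ N * Real.log (1 + a) := by
    rw [hLdef, hella]
    have h1 := vfun_le_log ha0.le
    have h2 : (N : ℝ) * vfun a ≤ N * Real.log (1 + a) := mul_le_mul_of_nonneg_left h1 hN0.le
    have h3 : 0 ≤ K * lam := by positivity
    linarith
  have hLa' : L ≤ N * a := by
    refine hLa.trans (mul_le_mul_of_nonneg_left ?_ hN0.le)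
    have := Real.log_le_sub_one_of_pos (show 0 < 1 + a by linarith)
    linarith
  -- the size S
  have h3d : 0 < 3 * (d : ℝ) * Real.log n := by positivity
  set x : ℝ := Real.exp ((Real.log (3 * d * Real.log n) + L) / N) with hx
  set S : ℕ := ⌈x⌉₊ with hSdef
  have hx0 : 0 < x := Real.exp_pos _
  have hxS : x ≤ S := Nat.le_ceil _
  have hS : 1 ≤ S := Nat.ceil_pos.mpr hx0
  have hS1 : (1 : ℝ) ≤ S := by exact_mod_cast hS
  have hxa : x ≤ 2 * (1 + a) := by
    have h1 : Real.log (3 * d * Real.log n) ≤ N * Real.log 2 := by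
      refine le_trans (Real.log_le_log h3d ?_) c1
      calc 3 * (d : ℝ) * Real.log n ≤ 3 * d * (d : ℝ) ^ 3 :=
            mul_le_mul_of_nonneg_left hnd (by positivity)
        _ = _ := by ring
    rw [hx]
    calc Real.exp ((Real.log (3 * d * Real.log n) + L) / N) ≤
          Real.exp (Real.log 2 + Real.log (1 + a)) := by
          apply Real.exp_le_exp.mpr
          rw [div_le_iff₀ hN0]
          linarith
      _ = 2 * (1 + a) := by
          rw [Real.exp_add, Real.exp_log (by norm_num), Real.exp_log (by linarith)]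
  have hSa : (S : ℝ) ≤ 2 * a + 3 := by
    have := Nat.ceil_lt_add_one hx0.le
    linarith
  have hd2 : (1 : ℝ) ≤ (d : ℝ) ^ 2 := one_le_pow₀ (by linarith)
  have hSd' : (S : ℝ) + 1 ≤ 16 * (d : ℝ) ^ 2 := by linarith
  have hSd : (S : ℝ) + 1 ≤ (4 * d) ^ 2 := by
    rw [mul_pow]
    norm_num
    exact hSd'
  have hSn : S + 1 ≤ n := by
    have h1 : (S : ℝ) + 1 ≤ n := by
      calc (S : ℝ) + 1 ≤ 16 * (d : ℝ) ^ 2 := hSd'
        _ ≤ Real.exp (d / C) := c3
        _ ≤ Real.exp (Real.log n) := by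
            apply Real.exp_le_exp.mpr
            rw [div_le_iff₀ hC]
            linarith
        _ = n := Real.exp_log hn0
    exact_mod_cast h1
  have hS2 : 3 * d * Real.log n ≤ Real.exp (-L) * (S : ℝ) ^ N := by
    have h1 : x ^ N ≤ (S : ℝ) ^ N := pow_le_pow_left₀ hx0.le hxS N
    have h2 : x ^ N = 3 * d * Real.log n * Real.exp L := by
      rw [hx, ← Real.exp_nat_mul, mul_div_cancel₀ _ hN0.ne', Real.exp_add, Real.exp_log h3d]
    rw [h2] at h1
    calc 3 * d * Real.log n = Real.exp (-L) * (3 * d * Real.log n * Real.exp L) := by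
          rw [Real.exp_neg]
          field_simp
      _ ≤ _ := mul_le_mul_of_nonneg_left h1 (Real.exp_pos _).le
  have hlogS : Real.log (S + 1) ≤ 2 * lam := by
    calc Real.log (S + 1) ≤ Real.log ((4 * d) ^ 2) := Real.log_le_log (by linarith) hSd
      _ = _ := by rw [Real.log_pow]; norm_num; rfl
  -- the crossing time
  have hex : ∃ m, L ≤ sfun N m := by
    refine ⟨⌈a * N⌉₊, ?_⟩
    unfold sfun
    have h1 : vfun a ≤ vfun ((⌈a * N⌉₊ : ℝ) / N) := by
      refine vfun_mono (Set.mem_Ici.mpr ha0.le) (Set.mem_Ici.mpr (by positivity)) ?_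
      rw [le_div_iff₀ hN0]
      exact Nat.le_ceil _
    have h2 := mul_le_mul_of_nonneg_left h1 hN0.le
    rw [hLdef, hella]
    have h3 : 0 ≤ K * lam := by positivity
    linarith
  classical
  set m : ℕ := Nat.find hex with hmdef
  have hm1 : L ≤ sfun N m := Nat.find_spec hex
  have hm2 : ∀ t < m, sfun N t ≤ L := fun t ht => (not_le.mp (Nat.find_min hex ht)).le
  have hmlow : a * N / 2 ≤ m := by
    refine upI_m C K hC N hN hK0.le a lam ?_ (by linarith) c2 m ?_
    · rw [div_le_iff₀ hC]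
      linarith
    · rw [← hella, ← hLdef]
      exact hm1
  have hm0 : 1 ≤ m := by
    have h1 : (0 : ℝ) < m := lt_of_lt_of_le (by positivity) hmlow
    have : 0 < m := by exact_mod_cast h1
    omega
  set J : ℕ := (d * (S - 1) + 1) / 2 with hJ
  have hsum1 := upI_half (sfun_mono N hN) (sfun_zero N) L hL m hm2 hm1 J
  have hsum2 := upI_sum N m hN hm0 b L (K * lam) hb.le hLdef
  have hJ1 : (J : ℝ) ≤ d * (a + 2) := by
    have h1 : 2 * J ≤ d * (S - 1) + 1 := by omega
    have h2 : 2 * (J : ℝ) ≤ d * ((S : ℝ) - 1) + 1 := by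
      have : ((2 * J : ℕ) : ℝ) ≤ ((d * (S - 1) + 1 : ℕ) : ℝ) := by exact_mod_cast h1
      rw [Nat.cast_add, Nat.cast_mul, Nat.cast_mul, Nat.cast_sub hS] at this
      simpa using this
    have h3 : d * ((S : ℝ) - 1) ≤ d * (2 * a + 2) := mul_le_mul_of_nonneg_left (by linarith) hd0.le
    have h4 : (d : ℝ) * (2 * a + 2) = 2 * (d * (a + 2)) - 2 * d := by ring
    linarith
  have hsum3 : ∑ j ∈ Finset.range J, (2 * Real.log (((2 * j / d : ℕ) : ℝ) + 2) + Real.log 2) ≤
      J * (5 * lam) := by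
    rw [← nsmul_eq_mul, ← Finset.card_range J, ← Finset.sum_const, Finset.card_range]
    refine Finset.sum_le_sum fun j hj => ?_
    rw [Finset.mem_range] at hj
    have h1 : 2 * j / d ≤ S - 1 := by
      have h2 : 2 * j ≤ d * (S - 1) := by omega
      calc 2 * j / d ≤ d * (S - 1) / d := Nat.div_le_div_right h2
        _ = S - 1 := Nat.mul_div_cancel_left _ (by omega)
    have h3 : ((2 * j / d : ℕ) : ℝ) + 2 ≤ S + 1 := by
      have h4 : 2 * j / d + 2 ≤ S + 1 := by omega
      exact_mod_cast h4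
    have h5 : Real.log (((2 * j / d : ℕ) : ℝ) + 2) ≤ Real.log (S + 1) :=
      Real.log_le_log (by positivity) h3
    linarith
  set E : ℝ := L + ∑ j ∈ Finset.range J, (max (L - sfun N (2 * j)) 0 +
      2 * Real.log (((2 * j / d : ℕ) : ℝ) + 2) + Real.log 2) with hE
  have hEle : E ≤ L + (L + (2 * b * N ^ 2 + m * Real.log 2 - m * (K * lam))) / 2 +
      d * (a + 2) * (5 * lam) := by
    have h1 : ∑ j ∈ Finset.range J, (max (L - sfun N (2 * j)) 0 +
      2 * Real.log (((2 * j / d : ℕ) : ℝ) + 2) + Real.log 2) =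
      ∑ j ∈ Finset.range J, max (L - sfun N (2 * j)) 0 +
      ∑ j ∈ Finset.range J, (2 * Real.log (((2 * j / d : ℕ) : ℝ) + 2) + Real.log 2) := by
      rw [← Finset.sum_add_distrib]
      refine Finset.sum_congr rfl fun j _ => ?_
      ring
    have h2 : (J : ℝ) * (5 * lam) ≤ d * (a + 2) * (5 * lam) :=
      mul_le_mul_of_nonneg_right hJ1 (by linarith)
    rw [hE, h1]
    linarith
  have hp : ∀ j ∈ Finset.range J, (0 : ℝ) ≤
      (1 + (((2 * j / d : ℕ) : ℝ) + 2) ^ 2 * Real.exp (L - sfun N (2 * j)))⁻¹ ∧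
      (1 + (((2 * j / d : ℕ) : ℝ) + 2) ^ 2 * Real.exp (L - sfun N (2 * j)))⁻¹ ≤ 1 := by
    intro j _
    have h1 : (0 : ℝ) ≤ (((2 * j / d : ℕ) : ℝ) + 2) ^ 2 * Real.exp (L - sfun N (2 * j)) := by
      positivity
    exact ⟨inv_nonneg.mpr (add_nonneg zero_le_one h1), inv_le_one_of_one_le₀ (le_add_of_nonneg_right h1)⟩
  refine upI_prob n d hn hd L hL S hS hSn hS2
    (Real.exp (-L) * ∏ j ∈ Finset.range J,
      (1 + (((2 * j / d : ℕ) : ℝ) + 2) ^ 2 * Real.exp (L - sfun N (2 * j)))⁻¹) E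
    (upI_q N d J L) ?_ (fun o ho => chainI n d (by omega) L hL S hS o ho) ?_
  · have h1 : Real.exp (-L) ≤ 1 := Real.exp_le_one_iff.mpr (by linarith)
    have h2 := Finset.prod_le_one (fun j hj => (hp j hj).1) (fun j hj => (hp j hj).2)
    have h3 := Finset.prod_nonneg (fun j hj => (hp j hj).1)
    calc _ ≤ 1 * 1 := mul_le_mul h1 h2 h3 zero_le_one
      _ = 1 := one_mul 1
  · have h2S : Real.log (2 * (S + 1)) = Real.log 2 + Real.log (S + 1) :=
      Real.log_mul (by norm_num) (by linarith)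
    rw [h2S]
    have hN2 : b * (N : ℝ) ^ 2 ≤ b * (d : ℝ) ^ 2 := by gcongr
    have hdn : d * Real.log n = b * (d : ℝ) ^ 2 := by rw [← hdb]; ring
    rw [hdn]
    -- main gain
    have hg : (m : ℝ) * (Real.log 2 - K * lam) ≤ -(a * d / 4 * ((K - 1) * lam)) := by
      have h1 : Real.log 2 - K * lam ≤ -((K - 1) * lam) := by linarith
      have h2 : a * d / 4 ≤ m := by
        have : a * (d / 2) ≤ a * N := mul_le_mul_of_nonneg_left hNd2 ha0.le
        linarith
      have h3 : 0 ≤ (K - 1) * lam := mul_nonneg (by rw [hK]; linarith) (by linarith)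
      calc (m : ℝ) * (Real.log 2 - K * lam) ≤ m * (-((K - 1) * lam)) :=
            mul_le_mul_of_nonneg_left h1 (by positivity)
        _ = -(m * ((K - 1) * lam)) := by ring
        _ ≤ _ := by
            have := mul_le_mul_of_nonneg_right h2 h3
            linarith
    have hL3 : L ≤ d * a * lam := by
      calc L ≤ N * a := hLa'
        _ ≤ d * a := mul_le_mul_of_nonneg_right hNd1 ha0.le
        _ = d * a * 1 := by ring
        _ ≤ _ := mul_le_mul_of_nonneg_left hlam1 (by positivity)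
    have hlam0 : 0 < lam := by linarith
    have hdlam : lam ≤ d * lam := by
      have := mul_le_mul_of_nonneg_right (show (1 : ℝ) ≤ d by linarith) hlam0.le
      linarith
    have h14 : 14 * (d * lam) ≤ 7 * C * a * (d * lam) := by
      have h0 : 0 < d * lam := by positivity
      have h1 := mul_le_mul_of_nonneg_right hCa h0.le
      linarith
    have hKK : a * d / 4 * ((K - 1) * lam) = 13 * (d * a * lam) + 14 * C * (d * a * lam) := by
      rw [hK]
      ring
    rw [hKK] at hg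
    have hlogSd : d * Real.log (S + 1) ≤ d * (2 * lam) := mul_le_mul_of_nonneg_left hlogS hd0.le
    have hlog2d : d * Real.log 2 ≤ d * lam := mul_le_mul_of_nonneg_left (by linarith) hd0.le
    have e1 : (d : ℝ) * (Real.log 2 + Real.log (S + 1)) =
      d * Real.log 2 + d * Real.log (S + 1) := by ring
    have e2 : (d : ℝ) * (a + 2) * (5 * lam) = 5 * (d * a * lam) + 10 * (d * lam) := by ring
    have e3 : 7 * C * a * (d * lam) = 7 * C * (d * a * lam) := by ring
    have e4 : (m : ℝ) * (Real.log 2 - K * lam) = m * Real.log 2 - m * (K * lam) := by ring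
    rw [e1]
    rw [e2] at hEle
    rw [e3] at h14
    rw [e4] at hg
    linarith

theorem upI_events (C K : ℝ) (hC : 0 < C) (hK : 0 < K) : ∃ D : ℝ, ∀ d : ℕ, D ≤ d → 3 ≤ d ∧
    Real.log (3 * (d : ℝ) ^ 4) ≤ ((d - 1 : ℕ) : ℝ) * Real.log 2 ∧
    K * (1 + C) * Real.log (4 * d) + C / 2 < ((d - 1 : ℕ) : ℝ) / 2 ∧
    16 * (d : ℝ) ^ 2 ≤ Real.exp (d / C) := by
  have hlo := fun (c : ℝ) (hc : 0 < c) => (Real.isLittleO_log_id_atTop.bound hc)
  set c' : ℝ := 1 / (8 * (K * (1 + C))) with hc'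
  have hc'0 : 0 < c' := by positivity
  have h1 := hlo (1 / 10) (by norm_num)
  have h2 := hlo c' hc'0
  rw [Filter.eventually_atTop] at h1 h2
  obtain ⟨D1, hD1⟩ := h1
  obtain ⟨D2, hD2⟩ := h2
  refine ⟨max (max D1 D2) (max 100 (max (16 * K * (1 + C) + 4 * C + 8) (96 * C ^ 3))),
    fun d hd => ?_⟩
  rw [max_le_iff, max_le_iff, max_le_iff, max_le_iff] at hd
  obtain ⟨⟨hd1, hd2⟩, hd3, hd4, hd5⟩ := hd
  have hd0 : (0 : ℝ) < d := by linarith
  have hdn : 3 ≤ d := by
    have : (3 : ℝ) ≤ d := by linarith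
    exact_mod_cast this
  have hNd : ((d - 1 : ℕ) : ℝ) = d - 1 := by
    rw [Nat.cast_sub (by omega)]
    simp
  have hlogd : 0 ≤ Real.log d := Real.log_nonneg (by linarith)
  have b1 := hD1 d hd1
  have b2 := hD2 d hd2
  simp only [Real.norm_eq_abs, id] at b1 b2
  rw [abs_of_nonneg hlogd, abs_of_pos hd0] at b1 b2
  have hl2 := Real.log_two_gt_d9
  have hl2' := Real.log_two_lt_d9
  have hl4 : Real.log 4 = 2 * Real.log 2 := by
    rw [show (4 : ℝ) = 2 ^ 2 by norm_num, Real.log_pow]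
    norm_num
  have hl3 : Real.log 3 ≤ 2 := by
    have := Real.log_le_sub_one_of_pos (show (0 : ℝ) < 3 by norm_num)
    linarith
  refine ⟨hdn, ?_, ?_, ?_⟩
  · rw [Real.log_mul (by norm_num) (by positivity), Real.log_pow, hNd]
    push_cast
    nlinarith
  · rw [Real.log_mul (by norm_num) (by positivity), hl4, hNd]
    have h3 : K * (1 + C) * Real.log d ≤ d / 8 := by
      calc K * (1 + C) * Real.log d ≤ K * (1 + C) * (c' * d) :=
            mul_le_mul_of_nonneg_left b2 (by positivity)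
        _ = d / 8 := by
            rw [hc']
            field_simp
    have h4 : K * (1 + C) * (2 * Real.log 2) ≤ K * (1 + C) * 2 :=
      mul_le_mul_of_nonneg_left (by linarith) (by positivity)
    nlinarith
  · have h3 := Real.pow_div_factorial_le_exp (d / C) (by positivity) 3
    refine le_trans ?_ h3
    rw [show (Nat.factorial 3 : ℝ) = 6 by norm_num [Nat.factorial], div_pow, div_div,
      le_div_iff₀ (by positivity)]
    calc 16 * (d : ℝ) ^ 2 * (C ^ 3 * 6) = (d : ℝ) ^ 2 * (96 * C ^ 3) := by ring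
      _ ≤ (d : ℝ) ^ 2 * d := mul_le_mul_of_nonneg_left hd5 (by positivity)
      _ = (d : ℝ) ^ 3 := by ring

/-- Task X -/
theorem upper_I (C : ℝ) (hC : 0 < C) : ∃ K D : ℝ, ∀ n d : ℕ, 2 ≤ n → 2 ≤ d → D ≤ d →
    (d : ℝ) ≤ C * Real.log n → Real.log n ≤ (d : ℝ) ^ 3 →
    pc n d 2 ≤ Real.exp (-((d - 1) * ell (Real.log n / d) - K * Real.log d)) := by
  have hK0 : 0 < 53 + 56 * C := by positivity
  obtain ⟨D, hD⟩ := upI_events C (53 + 56 * C) hC hK0
  refine ⟨3 * (53 + 56 * C), D, fun n d hn hd hDd hdC hnd => ?_⟩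
  obtain ⟨hd3, c1, c2, c3⟩ := hD d hDd
  have hd0 : (2 : ℝ) ≤ d := by exact_mod_cast hd
  have hNd : ((d - 1 : ℕ) : ℝ) = d - 1 := by
    rw [Nat.cast_sub (by omega)]
    simp
  set L : ℝ := ((d - 1 : ℕ) : ℝ) * ell (Real.log n / d) - (53 + 56 * C) * Real.log (4 * d) with hL
  have hlam : Real.log (4 * d) ≤ 3 * Real.log d := by
    have h1 : Real.log 2 ≤ Real.log d := Real.log_le_log (by norm_num) hd0
    have hl4 : Real.log 4 = 2 * Real.log 2 := by
      rw [show (4 : ℝ) = 2 ^ 2 by norm_num, Real.log_pow]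
      norm_num
    rw [Real.log_mul (by norm_num) (by positivity), hl4]
    linarith
  have hfin : Real.exp (-L) ≤
      Real.exp (-((d - 1) * ell (Real.log n / d) - 3 * (53 + 56 * C) * Real.log d)) := by
    apply Real.exp_le_exp.mpr
    rw [hL, hNd]
    have := mul_le_mul_of_nonneg_left hlam hK0.le
    linarith
  refine le_trans ?_ hfin
  rcases le_total L 0 with h | h
  · exact (pc_le_one n d).trans (Real.one_le_exp (by linarith))
  · exact pc_le_of n d _ (Real.exp_pos _).le (Real.exp_le_one_iff.mpr (by linarith))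
      (upI_main C _ hC rfl n d hn hd3 hdC hnd c1 c2 c3 L hL h)

end Pool.Agent.Lib.MP_8501c9_pr
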