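import Pool.Agent.Lib.MP_8501c9_pr.ChainII
import Pool.Agent.Lib.MP_8501c9_pr.Cube
import Pool.Agent.Lib.MP_8501c9_pr.Ell
import Pool.Agent.Lib.MP_8501c9_pr.Basic

/-!
# Task Y: the upper bound for the critical probability when `log n` is at least `d ^ 3`
-/

set_option autoImplicit false
open Set

namespace Pool.Agent.Lib.MP_8501c9_pr

section UpperII

/-- the sum of `log (α / u)` over the first odd numbers `u` -/
theorem sum_log_odd_le (α : ℝ) (hα : 1 ≤ α) (m : ℕ) :
    ∑ q ∈ Finset.range m, Real.log (α / (2 * q + 1)) ≤ (α + Real.log α) / 2 := by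
  have hα0 : 0 < α := by linarith
  have key : ∀ m : ℕ, ∑ q ∈ Finset.range (m + 1), Real.log (α / (2 * q + 1)) ≤
      Real.log α + (((2 * m + 1) * Real.log (α / (2 * m + 1)) + (2 * m + 1)) -
        (Real.log α + 1)) / 2 := by
    intro m
    induction m with
    | zero => simp
    | succ m ih =>
      rw [Finset.sum_range_succ]
      refine (add_le_add_left ih _).trans ?_
      have h1 : (0 : ℝ) < 2 * m + 1 := by positivity
      have h3 : (0 : ℝ) < 2 * m + 3 := by positivity
      have e1 : (2 * ((m + 1 : ℕ) : ℝ) + 1) = 2 * m + 3 := by push_cast; ring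
      rw [e1, Real.log_div hα0.ne' h1.ne', Real.log_div hα0.ne' h3.ne']
      have h4 := Real.one_sub_inv_le_log_of_pos (x := (2 * (m : ℝ) + 1) / (2 * m + 3)) (by positivity)
      rw [inv_div, Real.log_div h1.ne' h3.ne'] at h4
      have h5 : (1 - (2 * (m : ℝ) + 3) / (2 * m + 1)) * (2 * m + 1) = -2 := by
        field_simp
        ring
      nlinarith [mul_le_mul_of_nonneg_right h4 h1.le]
  have hlog : 0 ≤ Real.log α := Real.log_nonneg hα
  rcases m with _ | m
  · simp
    linarith
  · refine (key m).trans ?_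
    have h1 : (0 : ℝ) < 2 * m + 1 := by positivity
    have h2 := Real.log_le_sub_one_of_pos (x := α / (2 * (m : ℝ) + 1)) (by positivity)
    have h3 := mul_le_mul_of_nonneg_left h2 h1.le
    have h4 : (2 * (m : ℝ) + 1) * (α / (2 * m + 1) - 1) = α - (2 * m + 1) := by
      field_simp
    linarith

/-- the sum of the positive parts -/
theorem sum_max_log_odd_le (α : ℝ) (hα : 1 ≤ α) (Q : ℕ) :
    ∑ q ∈ Finset.range Q, max 0 (Real.log (α / (2 * q + 1))) ≤ (α + Real.log α) / 2 := by
  have hα0 : 0 < α := by linarith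
  induction Q with
  | zero =>
    simp
    have hlog : 0 ≤ Real.log α := Real.log_nonneg hα
    linarith
  | succ Q ih =>
    by_cases h : 2 * (Q : ℝ) + 1 ≤ α
    · have : ∑ q ∈ Finset.range (Q + 1), max 0 (Real.log (α / (2 * q + 1))) =
          ∑ q ∈ Finset.range (Q + 1), Real.log (α / (2 * q + 1)) := by
        refine Finset.sum_congr rfl fun q hq => ?_
        refine max_eq_right (Real.log_nonneg ?_)
        have h1 : q ≤ Q := Nat.lt_succ_iff.1 (Finset.mem_range.1 hq)
        have h2 : (q : ℝ) ≤ Q := by exact_mod_cast h1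
        rw [le_div_iff₀ (by positivity)]
        linarith
      rw [this]
      exact sum_log_odd_le α hα _
    · rw [Finset.sum_range_succ]
      push Not at h
      have : Real.log (α / (2 * Q + 1)) ≤ 0 := by
        refine Real.log_nonpos (by positivity) ?_
        rw [div_le_one (by positivity)]
        exact h.le
      rw [max_eq_left this]
      simpa using ih

/-- a telescoping bound -/
theorem sum_sq_odd_le (α : ℝ) (hα : 1 ≤ α) (Q : ℕ) :
    ∑ q ∈ Finset.range Q, 4 * α ^ 2 / (α + (2 * q + 1)) ^ 2 ≤ 4 + 2 * α := by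
  have hα0 : 0 < α := by linarith
  have key : ∀ m : ℕ, ∑ q ∈ Finset.range (m + 1), 4 * α ^ 2 / (α + (2 * q + 1)) ^ 2 ≤
      4 + 2 * α - 2 * α ^ 2 / (α + (2 * m + 1)) := by
    intro m
    induction m with
    | zero =>
      simp only [zero_add, Finset.range_one, Finset.sum_singleton, Nat.cast_zero, mul_zero]
      have h1 : 4 * α ^ 2 / (α + 1) ^ 2 ≤ 4 := by
        rw [div_le_iff₀ (by positivity)]
        nlinarith
      have h2 : 2 * α ^ 2 / (α + 1) ≤ 2 * α := by
        rw [div_le_iff₀ (by positivity)]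
        nlinarith
      linarith
    | succ m ih =>
      rw [Finset.sum_range_succ]
      refine (add_le_add_left ih _).trans ?_
      have e1 : (2 * ((m + 1 : ℕ) : ℝ) + 1) = 2 * m + 3 := by push_cast; ring
      rw [e1]
      have h1 : (0 : ℝ) < α + (2 * m + 1) := by positivity
      have h3 : (0 : ℝ) < α + (2 * m + 3) := by positivity
      have h4 : 2 * α ^ 2 / (α + (2 * m + 1)) - 2 * α ^ 2 / (α + (2 * m + 3)) =
          4 * α ^ 2 / ((α + (2 * m + 1)) * (α + (2 * m + 3))) := by
        field_simp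
        ring
      have h5 : 4 * α ^ 2 / (α + (2 * m + 3)) ^ 2 ≤
          4 * α ^ 2 / ((α + (2 * m + 1)) * (α + (2 * m + 3))) := by
        refine div_le_div_of_nonneg_left (by positivity) (by positivity) ?_
        nlinarith
      linarith
  rcases Q with _ | m
  · simp
    linarith
  · refine (key m).trans ?_
    have : 0 ≤ 2 * α ^ 2 / (α + (2 * m + 1)) := by positivity
    linarith

theorem sum_log_one_add_le (α : ℝ) (hα : 1 ≤ α) (N : ℕ) (hN : 2 ≤ N) (Q : ℕ) :
    ∑ q ∈ Finset.range Q, Real.log (1 + (α / (2 * q + 1)) ^ N) ≤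
      N * ((α + Real.log α) / 2) + (4 + 2 * α) := by
  have hα0 : 0 < α := by linarith
  have h1 : ∀ q ∈ Finset.range Q, Real.log (1 + (α / (2 * q + 1)) ^ N) ≤
      N * max 0 (Real.log (α / (2 * q + 1))) + 4 * α ^ 2 / (α + (2 * q + 1)) ^ 2 := by
    intro q _
    have hu : (0 : ℝ) < 2 * q + 1 := by positivity
    set u : ℝ := 2 * q + 1 with hu'
    rcases le_total u α with h | h
    · have hx : 1 ≤ α / u := (one_le_div hu).2 h
      have hl : 0 ≤ Real.log (α / u) := Real.log_nonneg hx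
      rw [max_eq_right hl]
      have h2 : Real.log (1 + (α / u) ^ N) ≤ Real.log (2 * (α / u) ^ N) := by
        refine Real.log_le_log (by positivity) ?_
        have := one_le_pow₀ hx (n := N)
        linarith
      rw [Real.log_mul (by norm_num) (by positivity), Real.log_pow] at h2
      have h3 : Real.log 2 ≤ 1 := by
        have := Real.log_two_lt_d9
        linarith
      have h4 : 1 ≤ 4 * α ^ 2 / (α + u) ^ 2 := by
        rw [one_le_div (by positivity)]
        nlinarith
      linarith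
    · have hx : α / u ≤ 1 := (div_le_one hu).2 h
      have hx0 : 0 ≤ α / u := by positivity
      have hl : Real.log (α / u) ≤ 0 := Real.log_nonpos hx0 hx
      rw [max_eq_left hl]
      have h2 : Real.log (1 + (α / u) ^ N) ≤ (α / u) ^ N := by
        have := Real.log_le_sub_one_of_pos (x := 1 + (α / u) ^ N) (by positivity)
        linarith
      have h3 : (α / u) ^ N ≤ (α / u) ^ 2 := pow_le_pow_of_le_one hx0 hx hN
      have h4 : (α / u) ^ 2 ≤ 4 * α ^ 2 / (α + u) ^ 2 := by
        rw [div_pow, div_le_div_iff₀ (by positivity) (by positivity)]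
        have : (α + u) ^ 2 ≤ 4 * u ^ 2 := by nlinarith
        nlinarith [sq_nonneg α]
      linarith
  refine (Finset.sum_le_sum h1).trans ?_
  rw [Finset.sum_add_distrib, ← Finset.mul_sum]
  have h2 := sum_max_log_odd_le α hα Q
  have h3 := sum_sq_odd_le α hα Q
  have h4 : (0 : ℝ) ≤ N := by positivity
  nlinarith [mul_le_mul_of_nonneg_left h2 h4]


/-- a simple upper bound for the rate function -/
theorem ell_le_log {y : ℝ} (hy : 0 < y) : ell (y / 2) ≤ (1 + 1 / y) * Real.log (1 + y) := by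
  have h1 := ell_le (b := y / 2) (a := y) (by positivity) hy
  have h2 := integral_vfun_le hy.le
  refine h1.trans ?_
  rw [div_le_iff₀ hy]
  have : (1 + 1 / y) * Real.log (1 + y) * y = (1 + y) * Real.log (1 + y) := by
    field_simp
    ring
  rw [this]
  linarith

theorem exp_ell_le {y : ℝ} (hy : 1 ≤ y) : Real.exp (ell (y / 2)) ≤ y + 3 + 2 * Real.log (1 + y) := by
  have hy0 : 0 < y := by linarith
  have hL0 : 0 ≤ Real.log (1 + y) := Real.log_nonneg (by linarith)
  have hL1 : Real.log (1 + y) ≤ y := by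
    have := Real.log_le_sub_one_of_pos (x := 1 + y) (by linarith)
    linarith
  set t := Real.log (1 + y) / y with ht
  have ht0 : 0 ≤ t := by positivity
  have ht1 : t ≤ 1 := (div_le_one hy0).2 hL1
  have h1 : Real.exp (ell (y / 2)) ≤ Real.exp (Real.log (1 + y) + t) := by
    refine Real.exp_le_exp.2 ((ell_le_log hy0).trans (le_of_eq ?_))
    rw [ht]
    field_simp
  rw [Real.exp_add, Real.exp_log (by linarith)] at h1
  have h2 : Real.exp t ≤ 1 + 2 * t := by
    have := Real.abs_exp_sub_one_sub_id_le (x := t) (by rw [abs_of_nonneg ht0]; exact ht1)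
    have h3 := (abs_le.1 this).2
    nlinarith
  have h3 : t * y = Real.log (1 + y) := by
    rw [ht]
    field_simp
  nlinarith [mul_le_mul_of_nonneg_left h2 (by linarith : (0:ℝ) ≤ 1 + y)]

theorem forty_log_le {d : ℝ} (hd : 6400 ≤ d) : 40 * Real.log d ≤ d - 1 := by
  have h0 : 0 ≤ d := by linarith
  have h1 : (80 : ℝ) ≤ Real.sqrt d := by
    apply Real.le_sqrt_of_sq_le
    norm_num
    exact hd
  have h2 : Real.sqrt d ^ 2 = d := Real.sq_sqrt h0
  have h3 := Real.log_le_sub_one_of_pos (x := Real.sqrt d) (by linarith)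
  have h4 : Real.log d = 2 * Real.log (Real.sqrt d) := by
    rw [← Real.log_rpow (by linarith)]
    norm_num [h2]
  rw [h4]
  nlinarith

theorem exp_neg_le_half {s : ℝ} (h0 : 0 ≤ s) (h1 : s ≤ 1) : Real.exp (-s) ≤ 1 - s / 2 := by
  have h2 : s + 1 ≤ Real.exp s := Real.add_one_le_exp s
  rw [Real.exp_neg, inv_le_comm₀ (Real.exp_pos _) (by linarith)]
  refine le_trans ?_ h2
  rw [inv_le_comm₀ (by linarith) (by linarith)]
  rw [inv_eq_one_div, div_le_iff₀ (by linarith)]
  nlinarith

theorem mul_log_le {d y : ℝ} (hd : 1 ≤ d) (hy : 2 * d ^ 2 ≤ y) :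
    d * Real.log (1 + y) ≤ 3 / 2 * (1 + y) := by
  have h0 : 0 ≤ 1 + y := by nlinarith
  set w := Real.sqrt (1 + y) with hw
  have hw2 : w ^ 2 = 1 + y := Real.sq_sqrt h0
  have hw0 : 0 ≤ w := Real.sqrt_nonneg _
  have hw1 : 0 < w := by
    rcases hw0.lt_or_eq with h | h
    · exact h
    · rw [← h] at hw2
      nlinarith
  have h3 := Real.log_le_sub_one_of_pos hw1
  have h4 : Real.log (1 + y) = 2 * Real.log w := by
    rw [← Real.log_rpow hw1]
    norm_num [hw2]
  have h5 : d ≤ 3 / 4 * w := by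
    apply le_of_sq_le_sq _ (by positivity)
    nlinarith
  rw [h4, ← hw2]
  nlinarith

theorem numII {d x α B : ℝ} (hd : 6400 ≤ d) (hx : d ^ 3 ≤ x) (hα1 : 1 ≤ α)
    (hα : α ≤ (2 * x / d + 3 + 2 * Real.log (1 + 2 * x / d)) *
      Real.exp (-(40 * Real.log d / (d - 1))))
    (hlα : Real.log α ≤ 2 * Real.log (1 + 2 * x / d))
    (hB : Real.log (2 * B) ≤ 3 + Real.log (3 * d * x) / (d - 1) + Real.log α) :
    1 + (d - 1) * Real.log α + d * ((d - 1) * ((α + Real.log α) / 2) + (4 + 2 * α)) +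
      d * Real.log (2 * B) ≤ d * x := by
  have hd0 : 0 < d := by linarith
  have hN0 : 0 < d - 1 := by linarith
  set y := 2 * x / d with hy
  have hyx : y * d = 2 * x := by rw [hy]; field_simp
  have hy2 : 2 * d ^ 2 ≤ y := by
    rw [hy, le_div_iff₀ hd0]
    nlinarith
  have hd2 : (6400 : ℝ) * 6400 ≤ d ^ 2 := by nlinarith
  have hy0 : 0 < y := by nlinarith
  set Λ := Real.log (1 + y) with hΛ
  have hΛ0 : 0 ≤ Λ := Real.log_nonneg (by linarith)
  set β := Real.log d with hβ
  have hβ1 : 1 ≤ β := by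
    rw [hβ, Real.le_log_iff_exp_le hd0]
    have := Real.exp_one_lt_d9
    linarith
  have hβN : 40 * β ≤ d - 1 := forty_log_le hd
  have hs0 : 0 ≤ 40 * β / (d - 1) := by positivity
  have hs1 : 40 * β / (d - 1) ≤ 1 := (div_le_one hN0).2 hβN
  have he := exp_neg_le_half hs0 hs1
  have hlα0 : 0 ≤ Real.log α := Real.log_nonneg hα1
  set lα := Real.log α with hlα'
  have hA : α ≤ y + 3 + 2 * Λ - y * (40 * β / (d - 1) / 2) := by
    refine hα.trans ?_
    have h1 : 0 ≤ y + 3 + 2 * Λ := by positivity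
    refine (mul_le_mul_of_nonneg_left he h1).trans ?_
    nlinarith [mul_nonneg (by positivity : (0:ℝ) ≤ 3 + 2 * Λ) hs0]
  have hA' : α ≤ y + 3 + 2 * Λ := by
    have : 0 ≤ y * (40 * β / (d - 1) / 2) := by positivity
    linarith
  have hA2 : (d - 1) * α ≤ (d - 1) * (y + 3 + 2 * Λ) - y * (20 * β) := by
    have h1 := mul_le_mul_of_nonneg_left hA hN0.le
    have h2 : (d - 1) * (y * (40 * β / (d - 1) / 2)) = y * (20 * β) := by
      field_simp
      ring
    nlinarith
  have hlog : Real.log (3 * d * x) ≤ 2 * Λ := by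
    rw [hΛ]
    have h1 : 2 * Real.log (1 + y) = Real.log ((1 + y) ^ 2) := by
      rw [Real.log_pow]
      norm_num
    rw [h1]
    have hx0 : 0 < x := by nlinarith [pow_pos hd0 3]
    refine Real.log_le_log (by positivity) ?_
    have h2 : 3 * d * x = 3 / 2 * d ^ 2 * y := by
      have : x = y * d / 2 := by linarith
      rw [this]
      ring
    rw [h2]
    nlinarith
  have hB2 : d * Real.log (2 * B) ≤ 3 * d + 4 * Λ + 2 * d * Λ := by
    have h1 : Real.log (3 * d * x) / (d - 1) ≤ 2 * Λ / (d - 1) :=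
      div_le_div_of_nonneg_right hlog hN0.le
    have h2 : d * (2 * Λ / (d - 1)) ≤ 4 * Λ := by
      rw [← mul_div_assoc, div_le_iff₀ hN0]
      nlinarith
    have h3 : Real.log (2 * B) ≤ 3 + 2 * Λ / (d - 1) + 2 * Λ := by linarith
    nlinarith [mul_le_mul_of_nonneg_left h3 hd0.le]
  have hdΛ : d * Λ ≤ 3 / 2 * (1 + y) := mul_log_le (by linarith) hy2
  have hd2Λ : d ^ 2 * Λ ≤ 3 / 2 * (1 + y) * d := by nlinarith
  -- the pieces
  have p1 : (d - 1) * lα ≤ 2 * d * Λ := by
    have h1 := mul_le_mul_of_nonneg_left hlα hN0.le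
    have h2 := mul_nonneg hd0.le hΛ0
    linarith
  have p2 : d * ((d - 1) * (α / 2)) ≤ d * ((d - 1) * (y + 3 + 2 * Λ) - y * (20 * β)) / 2 := by
    have h1 := mul_le_mul_of_nonneg_left hA2 hd0.le
    have h2 : d * ((d - 1) * (α / 2)) = d * ((d - 1) * α) / 2 := by ring
    rw [h2]
    linarith
  have p3 : d * ((d - 1) * (lα / 2)) ≤ d ^ 2 * Λ := by
    have h1 : (d - 1) * (lα / 2) ≤ d * Λ := by linarith
    have h2 := mul_le_mul_of_nonneg_left h1 hd0.le
    have h3 : d * (d * Λ) = d ^ 2 * Λ := by ring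
    rw [← h3]
    exact h2
  have p4 : d * (4 + 2 * α) ≤ d * (4 + 2 * (y + 3 + 2 * Λ)) :=
    mul_le_mul_of_nonneg_left (by linarith) hd0.le
  have p5 : d * (d - 1) * y / 2 = (d - 1) * x := by
    have : x = y * d / 2 := by linarith
    rw [this]
    ring
  have hdy0 : 0 ≤ d * y := by positivity
  have p6 : 10 * (d * y) ≤ 10 * (d * y * β) := by
    have := mul_le_mul_of_nonneg_left hβ1 hdy0
    linarith
  have hx0 : 0 ≤ x := by
    have := pow_pos hd0 3
    linarith
  have p7 : d * ((d - 1) * (y + 3 + 2 * Λ) - y * (20 * β)) / 2 ≤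
      (d - 1) * x + 3 / 2 * d ^ 2 + d ^ 2 * Λ - 10 * (d * y) := by
    have e1 : d * ((d - 1) * (y + 3 + 2 * Λ) - y * (20 * β)) / 2 =
      d * (d - 1) * y / 2 + 3 / 2 * (d * (d - 1)) + d * (d - 1) * Λ - 10 * (d * y * β) := by ring
    rw [e1, p5]
    have h1 := mul_nonneg hd0.le hΛ0
    have h2 : d * (d - 1) = d ^ 2 - d := by ring
    have h3 : d * (d - 1) * Λ = d ^ 2 * Λ - d * Λ := by ring
    rw [h2] at *
    linarith
  have goal' : 1 + (2 * d * Λ) + ((d - 1) * x + 3 / 2 * d ^ 2 + d ^ 2 * Λ - 10 * (d * y)) +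
      d ^ 2 * Λ + d * (4 + 2 * (y + 3 + 2 * Λ)) + (3 * d + 4 * Λ + 2 * d * Λ) ≤ d * x := by
    have q1 : 6400 * Λ ≤ d * Λ := mul_le_mul_of_nonneg_right hd hΛ0
    have q2 : 6400 * (d * Λ) ≤ d ^ 2 * Λ := by
      have h1 := mul_le_mul_of_nonneg_right hd (mul_nonneg hd0.le hΛ0)
      have h2 : d * (d * Λ) = d ^ 2 * Λ := by ring
      linarith
    have q3 : 6400 * y ≤ d * y := mul_le_mul_of_nonneg_right hd hy0.le
    have q4 : 6400 * d ≤ d ^ 2 := by
      have h1 := mul_le_mul_of_nonneg_right hd hd0.le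
      have h2 : d * d = d ^ 2 := by ring
      linarith
    have q5 : d ^ 2 * Λ ≤ 3 / 2 * d + 3 / 2 * (d * y) := by linarith
    have e3 : d * (4 + 2 * (y + 3 + 2 * Λ)) = 10 * d + 2 * (d * y) + 4 * (d * Λ) := by ring
    have e4 : (d - 1) * x = d * x - x := by ring
    rw [e3, e4]
    linarith
  have e2 : d * ((d - 1) * ((α + lα) / 2) + (4 + 2 * α)) =
      d * ((d - 1) * (α / 2)) + d * ((d - 1) * (lα / 2)) + d * (4 + 2 * α) := by ring
  rw [e2]
  linarith

theorem upper_II : ∃ K D : ℝ, ∀ n d : ℕ, 2 ≤ n → 2 ≤ d → D ≤ d → (d : ℝ) ^ 3 ≤ Real.log n →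
    pc n d 2 ≤ Real.exp (-((d - 1) * ell (Real.log n / d) - K * Real.log d)) := by
  refine ⟨40, 6400, ?_⟩
  intro n d hn hd2 hD hdn
  set x := Real.log n with hx
  set L := (d - 1) * ell (x / d) - 40 * Real.log d with hL
  rcases le_or_gt L 0 with h | h
  · exact (pc_le_one n d).trans (Real.one_le_exp (by linarith))
  have hn0 : (0 : ℝ) < n := by positivity
  have hexpx : Real.exp x = n := Real.exp_log hn0
  have hd0 : (0 : ℝ) < d := by linarith
  have hN0 : (0 : ℝ) < d - 1 := by linarith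
  have hcast : ((d - 1 : ℕ) : ℝ) = d - 1 := by
    rw [Nat.cast_sub (by omega)]
    simp
  set α := Real.exp (L / (d - 1)) with hα
  have hα0 : 0 < α := Real.exp_pos _
  have hα1 : 1 ≤ α := Real.one_le_exp (by positivity)
  have hlα : Real.log α = L / (d - 1) := Real.log_exp _
  have hLα : (d - 1) * Real.log α = L := by
    rw [hlα]
    field_simp
  have hαN : α ^ (d - 1) = Real.exp L := by
    rw [hα, ← Real.exp_nat_mul, hcast]
    congr 1
    field_simp
  set y := 2 * x / d with hy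
  have hyx : x / d = y / 2 := by
    rw [hy]
    ring
  have hd3 : (1 : ℝ) ≤ (d : ℝ) ^ 3 := one_le_pow₀ (by linarith)
  have hy1 : 1 ≤ y := by
    rw [hy, le_div_iff₀ hd0]
    have : (d : ℝ) ≤ (d : ℝ) ^ 3 := by
      calc (d : ℝ) = (d : ℝ) ^ 1 := by ring
        _ ≤ (d : ℝ) ^ 3 := pow_le_pow_right₀ (by linarith) (by norm_num)
    linarith
  have hLe : L / (d - 1) = ell (y / 2) + -(40 * Real.log d / (d - 1)) := by
    rw [hL, hyx]
    field_simp
    ring
  have hlogd : 0 ≤ Real.log d := Real.log_nonneg (by linarith)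
  have hαle : α ≤ (y + 3 + 2 * Real.log (1 + y)) * Real.exp (-(40 * Real.log d / (d - 1))) := by
    rw [hα, hLe, Real.exp_add]
    exact mul_le_mul_of_nonneg_right (exp_ell_le hy1) (Real.exp_pos _).le
  have hΛ0 : 0 ≤ Real.log (1 + y) := Real.log_nonneg (by linarith)
  have hlαle : Real.log α ≤ 2 * Real.log (1 + y) := by
    rw [hlα, hLe]
    have h1 := ell_le_log (y := y) (by linarith)
    have h2 : 1 / y ≤ 1 := (div_le_one (by linarith)).2 hy1
    have h3 : 0 ≤ 40 * Real.log d / (d - 1) := by positivity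
    have h4 := mul_le_mul_of_nonneg_right h2 hΛ0
    linarith
  have hx1 : 1 ≤ x := by linarith
  have h3dx : 1 ≤ 3 * d * x := by
    have h1 : (1 : ℝ) ≤ 3 * d := by linarith
    exact one_le_mul_of_one_le_of_one_le h1 hx1
  have hl3 : 0 ≤ Real.log (3 * d * x) := Real.log_nonneg h3dx
  set ρ := Real.exp (Real.log (3 * d * x) / (d - 1) + Real.log α) with hρ
  have hρ1 : 1 ≤ ρ := Real.one_le_exp (by
    have := Real.log_nonneg hα1
    positivity)
  have hρN : ρ ^ (d - 1) = 3 * d * x * Real.exp L := by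
    rw [hρ, ← Real.exp_nat_mul, hcast, mul_add, hLα, Real.exp_add]
    congr 1
    rw [mul_div_cancel₀ _ hN0.ne', Real.exp_log (by linarith)]
  set Q := ⌈ρ / 2⌉₊ with hQ
  have hQ1 : ρ / 2 ≤ Q := Nat.le_ceil _
  have hQ2 : (Q : ℝ) < ρ / 2 + 1 := Nat.ceil_lt_add_one (by linarith)
  have hBc : ((2 * Q + 1 : ℕ) : ℝ) = 2 * Q + 1 := by push_cast; ring
  have hB1 : ρ ≤ ((2 * Q + 1 : ℕ) : ℝ) := by rw [hBc]; linarith
  have hB2 : ((2 * Q + 1 : ℕ) : ℝ) ≤ ρ + 3 := by rw [hBc]; linarith
  set B := 2 * Q + 1 with hB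
  have hB0 : (0 : ℝ) < B := by linarith
  have hlB : Real.log (2 * B) ≤ 3 + Real.log (3 * d * x) / (d - 1) + Real.log α := by
    have h1 : Real.log (2 * B) ≤ Real.log (8 * ρ) :=
      Real.log_le_log (by positivity) (by linarith)
    have h1' : Real.log (8 * ρ) = Real.log 8 + Real.log ρ :=
      Real.log_mul (by norm_num) (by positivity)
    have h1'' : Real.log ρ = Real.log (3 * d * x) / (d - 1) + Real.log α := Real.log_exp _
    have h2 : Real.log 8 ≤ 3 := by
      have h3 : (8 : ℝ) = 2 ^ 3 := by norm_num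
      rw [h3, Real.log_pow]
      have := Real.log_two_lt_d9
      push_cast
      linarith
    linarith
  have hmain := numII (d := d) (x := x) (α := α) (B := B) hD hdn hα1 hαle hlαle hlB
  have hlα0 : 0 ≤ Real.log α := Real.log_nonneg hα1
  have hlB0 : 0 ≤ Real.log (2 * B) := Real.log_nonneg (by linarith)
  have hlBx : Real.log (2 * B) ≤ x := by
    have h1 : 0 ≤ (d - 1) * Real.log α := by positivity
    have h2 : 0 ≤ (d : ℝ) * ((d - 1) * ((α + Real.log α) / 2) + (4 + 2 * α)) := by positivity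
    have h3 : (d : ℝ) * Real.log (2 * B) ≤ d * x := by linarith
    exact le_of_mul_le_mul_left h3 hd0
  have hBn' : 2 * (B : ℝ) ≤ n := by
    have := Real.exp_le_exp.2 hlBx
    rwa [Real.exp_log (by positivity), hexpx] at this
  have hBn : B ≤ n := by
    have : (B : ℝ) ≤ n := by linarith
    exact_mod_cast this
  -- the probability of filling a cube
  set q := Real.exp (-L) * ∏ k ∈ Finset.range Q,
      ((1 + Real.exp L / (2 * k + 1 : ℝ) ^ (d - 1))⁻¹) ^ d with hq
  have hq0 : 0 ≤ q := by positivity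
  have hqe : q = Real.exp (-L - d * ∑ k ∈ Finset.range Q,
      Real.log (1 + (α / (2 * k + 1)) ^ (d - 1))) := by
    rw [sub_eq_add_neg, Real.exp_add, ← mul_neg, ← Finset.sum_neg_distrib, Finset.mul_sum,
      Real.exp_sum, hq]
    congr 1
    refine Finset.prod_congr rfl fun k _ => ?_
    have h1 : 0 < 1 + (α / (2 * (k : ℝ) + 1)) ^ (d - 1) := by positivity
    rw [Real.exp_nat_mul, Real.exp_neg, Real.exp_log h1, div_pow, hαN]
  have hsum := sum_log_one_add_le α hα1 (d - 1) (by
    have : (6400 : ℝ) ≤ (d : ℝ) := hD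
    have : 6400 ≤ d := by exact_mod_cast this
    omega) Q
  have hS0 : 0 ≤ ∑ k ∈ Finset.range Q, Real.log (1 + (α / (2 * k + 1)) ^ (d - 1)) := by
    refine Finset.sum_nonneg fun k _ => Real.log_nonneg ?_
    have : 0 ≤ (α / (2 * (k : ℝ) + 1)) ^ (d - 1) := by positivity
    linarith
  rw [hcast] at hsum
  have hq1 : q ≤ 1 := by
    rw [hqe, Real.exp_le_one_iff]
    have := mul_nonneg hd0.le hS0
    linarith
  have hge := percProb_ge n d (by omega) (Real.exp (-L)) (Real.exp_pos _).le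
    (Real.exp_le_one_iff.2 (by linarith)) B B (by omega) le_rfl hBn q hq0 hq1
    (fun o ho => chainII n d hd2 L h.le Q o ho)
  refine pc_le_of n d _ (Real.exp_pos _).le (Real.exp_le_one_iff.2 (by linarith)) ?_
  refine le_trans ?_ hge
  -- first error term
  have hfirst : (1 - q) ^ ((n / B) ^ d) ≤ 1 / 4 := by
    have h1 : (1 - q) ^ ((n / B) ^ d) ≤ Real.exp (-q) ^ ((n / B) ^ d) :=
      pow_le_pow_left₀ (by linarith) (Real.one_sub_le_exp_neg q) _
    rw [← Real.exp_nat_mul] at h1
    have h2 : (n : ℝ) / (2 * B) ≤ ((n / B : ℕ) : ℝ) := by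
      have hk1 : 1 ≤ n / B := Nat.div_pos hBn (by omega)
      have hk2 : n < B * (n / B + 1) := Nat.lt_mul_div_succ n (by omega)
      have hk3 : (n : ℝ) < B * (((n / B : ℕ) : ℝ) + 1) := by exact_mod_cast hk2
      have hk4 : (1 : ℝ) ≤ ((n / B : ℕ) : ℝ) := by exact_mod_cast hk1
      rw [div_le_iff₀ (by positivity)]
      have hk5 := mul_le_mul_of_nonneg_left hk4 hB0.le
      linarith
    have h3 : Real.exp (d * (x - Real.log (2 * B))) ≤ ((n / B : ℕ) : ℝ) ^ d := by
      rw [Real.exp_nat_mul, Real.exp_sub, hexpx, Real.exp_log (by positivity)]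
      exact pow_le_pow_left₀ (by positivity) h2 d
    have h4 : Real.exp 1 ≤ (((n / B) ^ d : ℕ) : ℝ) * q := by
      rw [Nat.cast_pow]
      calc Real.exp 1 ≤ Real.exp (d * (x - Real.log (2 * B)) + (-L - d *
            ∑ k ∈ Finset.range Q, Real.log (1 + (α / (2 * k + 1)) ^ (d - 1)))) := by
            refine Real.exp_le_exp.2 ?_
            have h5 := mul_le_mul_of_nonneg_left hsum hd0.le
            rw [hLα] at hmain
            linarith
        _ = Real.exp (d * (x - Real.log (2 * B))) * q := by rw [Real.exp_add, hqe]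
        _ ≤ _ := mul_le_mul_of_nonneg_right h3 hq0
    have h5 : 2 ≤ (((n / B) ^ d : ℕ) : ℝ) * q := by
      have := Real.add_one_le_exp (1 : ℝ)
      linarith
    refine h1.trans ?_
    have h6 : Real.exp ((((n / B) ^ d : ℕ) : ℝ) * -q) ≤ Real.exp (-2) :=
      Real.exp_le_exp.2 (by linarith)
    refine h6.trans ?_
    rw [Real.exp_neg, one_div]
    refine inv_anti₀ (by norm_num) ?_
    have := Real.quadratic_le_exp_of_nonneg (x := 2) (by norm_num)
    linarith
  -- second error term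
  have hsecond : d * (n : ℝ) ^ (d + 1) * (1 - Real.exp (-L)) ^ (B ^ (d - 1)) ≤ 1 / 4 := by
    have h1 : (1 - Real.exp (-L)) ^ (B ^ (d - 1)) ≤ Real.exp (-(3 * d * x)) := by
      have h2 : (1 - Real.exp (-L)) ^ (B ^ (d - 1)) ≤
          Real.exp (-Real.exp (-L)) ^ (B ^ (d - 1)) :=
        pow_le_pow_left₀ (by
          have := Real.exp_le_one_iff.2 (show -L ≤ 0 by linarith)
          linarith) (Real.one_sub_le_exp_neg _) _
      rw [← Real.exp_nat_mul] at h2
      refine h2.trans (Real.exp_le_exp.2 ?_)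
      have h3 : 3 * d * x * Real.exp L ≤ ((B ^ (d - 1) : ℕ) : ℝ) := by
        rw [← hρN, Nat.cast_pow]
        exact pow_le_pow_left₀ (by linarith) hB1 _
      have h4 := mul_le_mul_of_nonneg_right h3 (Real.exp_pos (-L)).le
      rw [mul_assoc, ← Real.exp_add] at h4
      simp only [add_neg_cancel, Real.exp_zero, mul_one] at h4
      linarith
    have h2 : (n : ℝ) ^ (d + 1) = Real.exp ((d + 1) * x) := by
      have : ((d : ℝ) + 1) = ((d + 1 : ℕ) : ℝ) := by push_cast; ring
      rw [this, Real.exp_nat_mul, hexpx]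
    rw [h2]
    have h3 : (0 : ℝ) ≤ d * Real.exp ((d + 1) * x) := by positivity
    refine (mul_le_mul_of_nonneg_left h1 h3).trans ?_
    rw [mul_assoc, ← Real.exp_add]
    have h4 : ((d : ℝ) + 1) * x + -(3 * d * x) ≤ -d := by
      have h5 : (d : ℝ) * 1 ≤ d * x := mul_le_mul_of_nonneg_left hx1 hd0.le
      have h6 : 1 * x ≤ d * x := mul_le_mul_of_nonneg_right (by linarith) (by linarith)
      linarith
    refine (mul_le_mul_of_nonneg_left (Real.exp_le_exp.2 h4) hd0.le).trans ?_
    have h5 := Real.quadratic_le_exp_of_nonneg (x := (d : ℝ)) hd0.le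
    rw [Real.exp_neg, ← div_eq_mul_inv, div_le_iff₀ (Real.exp_pos _)]
    have h6 : (6400 : ℝ) * d ≤ d * d := mul_le_mul_of_nonneg_right hD hd0.le
    have h7 : (d : ℝ) ^ 2 = d * d := by ring
    linarith
  linarith

end UpperII

end Pool.Agent.Lib.MP_8501c9_pr
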