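import Pool.Agent.Lib.MP_8501c9_pr.Defs

/-!
# Definitions for the sharp lower bound of the critical probability
-/

set_option autoImplicit false
open Set

namespace Pool.Agent.Lib.MP_8501c9_pr

/-- the finite set `K` extends the box `R₁` to a larger box by adding single points, one after the
other, each at distance at most two from the current box -/
inductive Ext {n d : ℕ} (R₁ : BoxT n d) : Finset (Vtx n d) → BoxT n d → Prop
  | nil : Ext R₁ ∅ R₁
  | cons {K : Finset (Vtx n d)} {B : BoxT n d} (h : Ext R₁ K B) (x : Vtx n d) (hx : x ∉ K)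
      (hn : Near B (x, x)) (hne : hull B (x, x) ≠ B) : Ext R₁ (insert x K) (hull B (x, x))

open Classical in
/-- generating function of the sets extending `R₁` to `R` -/
noncomputable def Tw {n d : ℕ} (p : ℝ) (R₁ R : BoxT n d) : ℝ :=
  ∑ K : Finset (Vtx n d) with Ext R₁ K R, p ^ K.card

open Classical in
/-- contribution of the mergers of two boxes neither of which is a single point -/
noncomputable def Xw {n d : ℕ} (p : ℝ) (R : BoxT n d) : ℝ :=
  ∑ P : BoxT n d × BoxT n d with (PairOK R P ∧ 1 ≤ phi P.2 ∧ phi P.2 ≤ phi P.1),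
    wt p P.1 * wt p P.2

/-- `R₁` is contained in `R` (and both are honest boxes) -/
def SubBox {n d : ℕ} (R₁ R : BoxT n d) : Prop := R₁.1 ≤ R₁.2 ∧ R.1 ≤ R₁.1 ∧ R₁.2 ≤ R.2

/-- side lengths (number of vertices) of a box -/
def sd {n d : ℕ} (R : BoxT n d) (i : Fin d) : ℕ := ((R.2 i : ℕ) - R.1 i) + 1

/-- number of layers of `R` in direction `i` which do not meet `R₁` -/
def exc {n d : ℕ} (R₁ R : BoxT n d) (i : Fin d) : ℕ :=
  ((R₁.1 i : ℕ) - R.1 i) + ((R.2 i : ℕ) - R₁.2 i)

/-- the main part of the potential -/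
noncomputable def Fmain {n d : ℕ} (L : ℝ) (R : BoxT n d) : ℝ :=
  L * (1 + (phi R : ℝ) / 2) - (∑ t ∈ Finset.range (phi R), sfun d t) / 2 +
    (∑ i, Real.log (Nat.factorial ((R.2 i : ℕ) - R.1 i))) / 2

/-- the loss in the small boxes, per unit -/
noncomputable def Mz (A d : ℕ) : ℝ := 31 * Real.log (4 * d) + Real.log (A ^ 2 * d ^ 2) / 2

/-- the error part of the potential -/
noncomputable def Ferr {n d : ℕ} (A : ℕ) (ε L : ℝ) (R : BoxT n d) : ℝ :=
  Mz A d * (min (phi R) (A ^ 2 * d ^ 2) : ℕ) + ε * phi R +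
    ∑ t ∈ Finset.range (phi R), Real.exp (-(L - sfun (d - 1) (t + A * d + 1)) / 2) +
    Real.log (A * d + 3) * ∑ i, (min ((R.2 i : ℕ) - R.1 i) (A ^ 2 * d) : ℕ)

/-- the potential -/
noncomputable def FF {n d : ℕ} (A : ℕ) (ε L : ℝ) (R : BoxT n d) : ℝ := Fmain L R - Ferr A ε L R

/-- the logarithm of the largest area of a face of a box of size `t` -/
noncomputable def Gb (d t : ℕ) : ℝ := sfun (d - 1) (t - t / d)

/-- the potential of balanced boxes -/
noncomputable def fb (d : ℕ) (L : ℝ) (m : ℕ) : ℝ := L + (∑ t ∈ Finset.range m, (L - Gb d t)) / 2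

end Pool.Agent.Lib.MP_8501c9_pr
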